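import Pool.Agent.Helper66.LW.Basic
import Pool.Agent.Helper96.AF.ZI

/-!
# Project LW (P1 on MP_a499ba_nt), block F2

PROOF. |1+eps p^(-s)|^2 = 1 + p^(-1-2 sigma) + 2 eps p^(-1/2-sigma) cos(t log p). prod_low: log(1+x) >= x - x^2; p^(-2 sigma) >= 1 - 2 sigma log p; only the p <= Y(r-m), m a constant
depending on delta: sum 1/p - 2 sigma sum log p/p - O(1) >= r log 2 - m log 2 - C - (delta/2) log r (mertens_lower, logp_sum).
-/

set_option autoImplicit false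

namespace Pool.Agent.Helper66.LW

open Finset MeasureTheory Pool.Agent.Helper5.RM Pool.Agent.Helper96.AF Pool.Agent.Helper96.AG

/-- one factor -/
private lemma normsq_fac {p : ℕ} (hp : 0 < p) (e σ t : ℝ) (he : e * e = 1) :
    ‖(1 + (e : ℂ) * (p : ℂ) ^ (-(((1 / 2 + σ : ℝ) : ℂ) + Complex.I * (t : ℂ))))‖ ^ 2 =
      (1 + (p : ℝ) ^ (-(1 + 2 * σ))) * (1 + e * ths σ p t) := by
  have hp0 : (0 : ℝ) < p := by exact_mod_cast hp
  have h1 : (p : ℂ) ^ (-(((1 / 2 + σ : ℝ) : ℂ) + Complex.I * (t : ℂ))) =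
      (((p : ℝ) ^ (-(1 / 2 + σ)) : ℝ) : ℂ) * ((Real.cos (t * Real.log p) : ℂ) - Complex.I * (Real.sin (t * Real.log p) : ℂ)) := by
    rw [neg_add, Complex.cpow_add _ _ (by exact_mod_cast hp.ne')]
    congr 1
    · rw [← Complex.ofReal_neg, ← Complex.ofReal_natCast, ← Complex.ofReal_cpow hp0.le]
    · rw [Complex.cpow_def_of_ne_zero (by exact_mod_cast hp.ne'), ← Complex.natCast_log,
        show ((Real.log p : ℝ) : ℂ) * -(Complex.I * (t : ℂ)) = (((-(t * Real.log p)) : ℝ) : ℂ) * Complex.I by push_cast; ring,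
        Complex.exp_mul_I, ← Complex.ofReal_cos, ← Complex.ofReal_sin, Real.cos_neg, Real.sin_neg]
      push_cast
      ring
  obtain ⟨x, hx⟩ : ∃ x : ℝ, x = (p : ℝ) ^ (-(1 / 2 + σ)) := ⟨_, rfl⟩
  have h2 : (p : ℝ) ^ (-(1 + 2 * σ)) = x * x := by
    rw [hx, ← Real.rpow_add hp0]
    congr 1
    ring
  rw [h1, ← hx, h2]
  unfold ths
  rw [h2, ← hx]
  have h3 : 0 < 1 + x * x := by nlinarith [mul_self_nonneg x]
  rw [← Complex.normSq_eq_norm_sq, Complex.normSq_apply]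
  simp only [Complex.add_re, Complex.one_re, Complex.mul_re, Complex.ofReal_re, Complex.ofReal_im, Complex.sub_re,
    Complex.I_re, Complex.I_im, Complex.sub_im, Complex.mul_im, Complex.add_im, Complex.one_im]
  have h4 := Real.sin_sq_add_cos_sq (t * Real.log p)
  field_simp
  have h5 : Real.sin (t * Real.log p) ^ 2 = 1 - Real.cos (t * Real.log p) ^ 2 := by linarith
  ring_nf
  rw [h5]
  have h6 : e ^ 2 = 1 := by rw [sq]; exact he
  rw [h6]
  ring

theorem normsq_Df (r : ℕ) (T : Finset ℕ) (t : ℝ) :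
    ‖Df r T t‖ ^ 2 = (∏ p ∈ PP (Y r), (1 + (p : ℝ) ^ (-(1 + 2 * sr r)))) * dds (sr r) (PP (Y r)) T t := by
  unfold Df dds
  rw [norm_prod, ← Finset.prod_pow, ← Finset.prod_mul_distrib]
  exact Finset.prod_congr rfl fun p hp => normsq_fac (mem_PP.1 hp).1.pos _ _ _ (sg_mul_self T p)

/-- `log (1 + x) ≥ x - x^2` -/
private lemma log_low {x : ℝ} (hx : 0 ≤ x) : x - x ^ 2 ≤ Real.log (1 + x) := by
  have h1 : 1 - (1 + x)⁻¹ ≤ Real.log (1 + x) := Real.one_sub_inv_le_log_of_pos (by linarith)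
  have h2 : x - x ^ 2 ≤ 1 - (1 + x)⁻¹ := by
    have : 1 - (1 + x)⁻¹ = x / (1 + x) := by field_simp; ring
    rw [this, le_div_iff₀ (by linarith)]
    nlinarith [pow_nonneg hx 3]
  exact h2.trans h1

/-- one prime -/
private lemma term_low {p : ℕ} (hp : 1 ≤ p) {σ : ℝ} (hσ : 0 ≤ σ) :
    (1 : ℝ) / p - 2 * σ * (Real.log p / p) - 1 / (p : ℝ) ^ 2 ≤ Real.log (1 + (p : ℝ) ^ (-(1 + 2 * σ))) := by
  have hp0 : (0 : ℝ) < p := by exact_mod_cast hp
  have hp1 : (1 : ℝ) ≤ p := by exact_mod_cast hp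
  have h1 : (p : ℝ) ^ (-(1 + 2 * σ)) = (1 / p) * Real.exp (-(2 * σ * Real.log p)) := by
    rw [neg_add, Real.rpow_add hp0, Real.rpow_neg_one, Real.rpow_def_of_pos hp0 (-(2 * σ)), one_div (p : ℝ)]
    congr 2
    ring
  have h2 : 1 - 2 * σ * Real.log p ≤ Real.exp (-(2 * σ * Real.log p)) := by
    have := Real.add_one_le_exp (-(2 * σ * Real.log p))
    linarith
  have h3 : Real.exp (-(2 * σ * Real.log p)) ≤ 1 := by
    rw [Real.exp_le_one_iff]
    have := Real.log_nonneg hp1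
    have : 0 ≤ 2 * σ * Real.log p := by positivity
    linarith
  refine le_trans ?_ (log_low (by positivity))
  rw [h1]
  have h4 : 1 / (p : ℝ) * (1 - 2 * σ * Real.log p) ≤ 1 / p * Real.exp (-(2 * σ * Real.log p)) :=
    mul_le_mul_of_nonneg_left h2 (by positivity)
  have h5 : (1 / (p : ℝ) * Real.exp (-(2 * σ * Real.log p))) ^ 2 ≤ 1 / (p : ℝ) ^ 2 := by
    rw [mul_pow, one_div_pow]
    have : Real.exp (-(2 * σ * Real.log p)) ^ 2 ≤ 1 := pow_le_one₀ (Real.exp_pos _).le h3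
    calc 1 / (p : ℝ) ^ 2 * Real.exp (-(2 * σ * Real.log p)) ^ 2 ≤ 1 / (p : ℝ) ^ 2 * 1 :=
          mul_le_mul_of_nonneg_left this (by positivity)
      _ = _ := mul_one _
  have h6 : 1 / (p : ℝ) * (1 - 2 * σ * Real.log p) = 1 / p - 2 * σ * (Real.log p / p) := by ring
  linarith

theorem prod_low (δ : ℝ) (hδ : 0 < δ) : ∃ r0 : ℕ, ∀ r : ℕ, r0 ≤ r →
    2 ^ r * (r : ℝ) ^ (-δ) ≤ ∏ p ∈ PP (Y r), (1 + (p : ℝ) ^ (-(1 + 2 * sr r))) := by
  obtain ⟨C1, hC1, h1⟩ := Helper66.AF.mertens_lower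
  obtain ⟨C2, hC2, h2⟩ := logp_sum
  have hl2 : 0 < Real.log 2 := Real.log_pos (by norm_num)
  obtain ⟨m, hm⟩ : ∃ m : ℕ, 160 * C2 / δ ≤ 2 ^ m := by
    obtain ⟨m, hm⟩ := pow_unbounded_of_one_lt (160 * C2 / δ) (show (1 : ℝ) < 2 by norm_num)
    exact ⟨m, hm.le⟩
  obtain ⟨K, hK⟩ : ∃ K : ℝ, K = m * Real.log 2 + |Real.log (Real.log 2)| + C1 + 80 * C2 / Real.log 2 + Helper66.AF.C2 := ⟨_, rfl⟩
  obtain ⟨r1, hr1⟩ := exists_nat_ge (Real.exp (2 * K / δ))
  refine ⟨max (m + 2) r1, fun r hr => ?_⟩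
  have hrm : m + 2 ≤ r := (le_max_left _ _).trans hr
  have hr2 : 2 ≤ r := by omega
  have hr0 : (0 : ℝ) < r := by exact_mod_cast (show 0 < r by omega)
  have hlr : 2 * K / δ ≤ Real.log r := by
    rw [Real.le_log_iff_exp_le hr0]
    exact hr1.trans (by exact_mod_cast (le_max_right _ _).trans hr)
  have hlr' : K ≤ δ / 2 * Real.log r := by
    rw [div_le_iff₀ hδ] at hlr
    linarith
  have hlr0 : 0 < Real.log r := Real.log_pos (by exact_mod_cast (show 1 < r by omega))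
  obtain ⟨j, hj⟩ : ∃ j : ℕ, r = j + m := ⟨r - m, by omega⟩
  have hj1 : 1 ≤ j := by omega
  have hσ := sr_pos hr2
  -- restriction to the small primes
  have e1 : ∏ p ∈ PP (Y j), (1 + (p : ℝ) ^ (-(1 + 2 * sr r))) ≤ ∏ p ∈ PP (Y r), (1 + (p : ℝ) ^ (-(1 + 2 * sr r))) := by
    refine Finset.prod_le_prod_of_subset_of_one_le (PP_Y_mono (by omega)) (fun p _ => by positivity) fun p _ _ => ?_
    have : 0 ≤ (p : ℝ) ^ (-(1 + 2 * sr r)) := by positivity
    linarith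
  refine le_trans ?_ e1
  have e2 : Real.exp (∑ p ∈ PP (Y j), ((1 : ℝ) / p - 2 * sr r * (Real.log p / p) - 1 / (p : ℝ) ^ 2)) ≤
      ∏ p ∈ PP (Y j), (1 + (p : ℝ) ^ (-(1 + 2 * sr r))) := by
    rw [Real.exp_sum]
    refine Finset.prod_le_prod (fun p _ => (Real.exp_pos _).le) fun p hp => ?_
    have h3 := term_low (mem_PP.1 hp).1.one_lt.le hσ.le
    rw [← Real.le_log_iff_exp_le (by positivity)]
    exact h3
  refine le_trans ?_ e2
  have e3 : ∑ p ∈ PP (Y j), ((1 : ℝ) / p - 2 * sr r * (Real.log p / p) - 1 / (p : ℝ) ^ 2) =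
      ∑ p ∈ PP (Y j), (1 : ℝ) / p - 2 * sr r * ∑ p ∈ PP (Y j), Real.log p / p - ∑ p ∈ PP (Y j), 1 / (p : ℝ) ^ 2 := by
    rw [Finset.sum_sub_distrib, Finset.sum_sub_distrib, Finset.mul_sum]
  have e4 := h1 (Y j) (three_le_Y hj1)
  rw [loglog_Y] at e4
  have e5 := h2 (Y j) (Y_pos j)
  rw [log_Y] at e5
  have e6 := Helper66.AF.sum_sq_le (PP (Y j))
  have e7 : 2 * sr r * ∑ p ∈ PP (Y j), Real.log p / p ≤ 2 * sr r * (C2 * (1 + 2 ^ j * Real.log 2)) :=
    mul_le_mul_of_nonneg_left e5 (by positivity)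
  have e8 : 2 * sr r * (C2 * (1 + 2 ^ j * Real.log 2)) = 80 * C2 * Real.log r / (2 ^ r * Real.log 2) + 80 * C2 * Real.log r / 2 ^ m := by
    unfold sr Vr
    rw [show (2 : ℝ) ^ r = 2 ^ j * 2 ^ m by rw [hj, pow_add]]
    field_simp
    ring
  have e9 : 80 * C2 * Real.log r / (2 ^ r * Real.log 2) ≤ 80 * C2 / Real.log 2 := by
    rw [div_le_div_iff₀ (by positivity) hl2]
    have h3 : Real.log r ≤ 2 ^ r := by
      have h4 := Real.log_le_sub_one_of_pos hr0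
      have h5 : (r : ℝ) ≤ 2 ^ r := by exact_mod_cast (Nat.lt_two_pow_self (n := r)).le
      linarith
    have h4 : 80 * C2 * Real.log r ≤ 80 * C2 * 2 ^ r := mul_le_mul_of_nonneg_left h3 (by positivity)
    nlinarith
  have e10 : 80 * C2 * Real.log r / 2 ^ m ≤ δ / 2 * Real.log r := by
    rw [div_le_iff₀ (by positivity)]
    rw [div_le_iff₀ hδ] at hm
    nlinarith
  have e11 := neg_abs_le (Real.log (Real.log 2))
  have e12 : (r : ℝ) = j + m := by rw [hj]; push_cast; ring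
  have e13 : r * Real.log 2 - δ * Real.log r ≤
      ∑ p ∈ PP (Y j), ((1 : ℝ) / p - 2 * sr r * (Real.log p / p) - 1 / (p : ℝ) ^ 2) := by
    have e14 : (r : ℝ) * Real.log 2 = j * Real.log 2 + m * Real.log 2 := by rw [e12]; ring
    rw [e3]
    linarith
  calc (2 : ℝ) ^ r * (r : ℝ) ^ (-δ) = Real.exp (r * Real.log 2 - δ * Real.log r) := by
        have e15 : Real.exp (r * Real.log 2) = 2 ^ r := by
          rw [← Real.log_pow, Real.exp_log (by positivity)]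
        rw [sub_eq_add_neg, Real.exp_add, Real.rpow_def_of_pos hr0, e15,
          show Real.log r * -δ = -(δ * Real.log r) by ring]
    _ ≤ _ := Real.exp_le_exp.2 e13

end Pool.Agent.Helper66.LW
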