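import Pool.Agent.Helper66.LW.Basic

/-!
# Project LW (P1 on MP_a499ba_nt), block F1

PROOF. Hs_hf: SM (Y r + 1) n. Fs_hf: n <= Y (r+1) = (Y r)^2: an integer m <= n has at most one prime factor p > Y r (then m = p k, k <= n/p < Y r... so k is smooth and p does not divide k),
rf T (p k) = sg T p * rf T k for p not dividing k (in AF there are lemmas of this kind: D1/D4..).
-/

set_option autoImplicit false

namespace Pool.Agent.Helper66.LW

open Finset MeasureTheory Pool.Agent.Helper5.RM Pool.Agent.Helper96.AF Pool.Agent.Helper96.AG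

theorem hf_pred (r : ℕ) (T T' : Finset ℕ) (h : ∀ p ∈ PP (Y r), (p ∈ T ↔ p ∈ T')) : hf r T = hf r T' := by
  funext n
  unfold hf
  split_ifs with hs
  · refine rf_congr fun p hp => h p ?_
    rw [mem_PP]
    exact ⟨Nat.prime_of_mem_primeFactors hp, hs p hp⟩
  · rfl

theorem Hs_hf (r : ℕ) (T : Finset ℕ) (n : ℕ) : Hs (hf r T) n = NN T (Y r + 1) n := by
  unfold Hs NN SM
  rw [Finset.sum_filter]
  refine Finset.sum_congr rfl fun m _ => ?_
  unfold hf
  refine if_congr ?_ rfl rfl
  constructor
  · intro h p hp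
    exact Nat.lt_succ_of_le (h p hp)
  · intro h p hp
    exact Nat.le_of_lt_succ (h p hp)

private theorem point (r : ℕ) (T : Finset ℕ) (m : ℕ) (hm1 : 1 ≤ m) (hm : m ≤ Y (r + 1)) :
    rf T m = hf r T m + ∑ p ∈ BL r, (if p ∣ m then sg T p * hf r T (m / p) else 0) := by
  by_cases hs : ∀ p ∈ m.primeFactors, p ≤ Y r
  · have h1 : hf r T m = rf T m := if_pos hs
    rw [h1, Finset.sum_eq_zero, add_zero]
    intro p hp
    rw [mem_BL] at hp
    rw [if_neg]
    intro hd
    exact absurd (hs p (Nat.mem_primeFactors.2 ⟨hp.1, hd, by omega⟩)) (not_le.2 hp.2.1)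
  · have h1 : hf r T m = 0 := if_neg hs
    push Not at hs
    obtain ⟨q, hq, hqY⟩ := hs
    have hqp := Nat.prime_of_mem_primeFactors hq
    have hqd := Nat.dvd_of_mem_primeFactors hq
    have hqm := Nat.le_of_mem_primeFactors hq
    have hqB : q ∈ BL r := mem_BL.2 ⟨hqp, hqY, hqm.trans hm⟩
    rw [h1, zero_add, Finset.sum_eq_single_of_mem q hqB, if_pos hqd]
    · obtain ⟨k, hk⟩ := hqd
      have hk1 : m / q = k := by rw [hk, Nat.mul_div_cancel_left _ hqp.pos]
      have hk0 : 1 ≤ k := by
        rcases Nat.eq_zero_or_pos k with h | h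
        · subst h
          simp only [mul_zero] at hk
          omega
        · exact h
      have hkY : k < Y r := by
        by_contra hlt
        push Not at hlt
        have : Y r * Y r < q * k := Nat.mul_lt_mul_of_lt_of_le hqY hlt (by have := Y_pos r; omega)
        rw [Y_succ, sq] at hm
        omega
      rw [hk1, hk]
      have hcop : Nat.Coprime q k := by
        rw [Nat.Prime.coprime_iff_not_dvd hqp]
        intro hd
        have := Nat.le_of_dvd (by omega) hd
        omega
      rw [rf_mul hcop]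
      have h2 : hf r T k = rf T k := by
        refine if_pos fun p hp => ?_
        exact (Nat.le_of_mem_primeFactors hp).trans hkY.le
      rw [h2]
      congr 1
      rw [rf_sqf hqp.prime.squarefree, Nat.Prime.primeFactors hqp]
      simp [wal]
    · intro p hp hpq
      rw [mem_BL] at hp
      rw [if_neg]
      intro hpd
      have h2 : p * q ∣ m := by
        refine Nat.Coprime.mul_dvd_of_dvd_of_dvd ?_ hpd hqd
        exact (Nat.coprime_primes hp.1 hqp).2 hpq
      have h3 := Nat.le_of_dvd (by omega) h2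
      have : Y r * Y r < p * q := Nat.mul_lt_mul_of_lt_of_le hp.2.1 hqY.le (by have := Y_pos r; omega)
      rw [Y_succ, sq] at hm
      omega

private theorem sum_dvd (h : ℕ → ℝ) (n p : ℕ) (hp : 0 < p) :
    ∑ m ∈ Finset.Icc 1 n, (if p ∣ m then h (m / p) else 0) = Hs h (n / p) := by
  unfold Hs
  rw [← Finset.sum_filter]
  symm
  refine Finset.sum_bij (fun k _ => p * k) ?_ ?_ ?_ ?_
  · intro k hk
    rw [Finset.mem_Icc] at hk
    rw [Finset.mem_filter, Finset.mem_Icc]
    refine ⟨⟨?_, ?_⟩, dvd_mul_right _ _⟩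
    · exact Nat.mul_pos hp (by omega)
    · calc p * k ≤ p * (n / p) := Nat.mul_le_mul_left _ hk.2
        _ ≤ n := Nat.mul_div_le n p
  · intro a _ b _ hab
    exact Nat.eq_of_mul_eq_mul_left hp hab
  · intro m hm
    rw [Finset.mem_filter, Finset.mem_Icc] at hm
    obtain ⟨⟨hm1, hm2⟩, k, hk⟩ := hm
    refine ⟨k, ?_, hk.symm⟩
    rw [Finset.mem_Icc]
    constructor
    · rcases Nat.eq_zero_or_pos k with h0 | h0
      · subst h0
        simp only [mul_zero] at hk
        omega
      · exact h0
    · rw [Nat.le_div_iff_mul_le hp, mul_comm, ← hk]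
      exact hm2
  · intro k _
    rw [Nat.mul_div_cancel_left _ hp]

theorem Fs_hf (r : ℕ) (T : Finset ℕ) (n : ℕ) (hn : n ≤ Y (r + 1)) : Fs r (hf r T) (sg T) n = MM T n := by
  unfold Fs MM
  have h1 : ∀ m ∈ Finset.Icc 1 n, rf T m = hf r T m + ∑ p ∈ BL r, (if p ∣ m then sg T p * hf r T (m / p) else 0) := by
    intro m hm
    rw [Finset.mem_Icc] at hm
    exact point r T m hm.1 (hm.2.trans hn)
  rw [Finset.sum_congr rfl h1, Finset.sum_add_distrib, Finset.sum_comm]
  congr 1
  refine Finset.sum_congr rfl fun p hp => ?_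
  rw [mem_BL] at hp
  rw [← sum_dvd (hf r T) n p hp.1.pos, Finset.mul_sum]
  refine Finset.sum_congr rfl fun m _ => ?_
  split_ifs <;> simp

end Pool.Agent.Helper66.LW
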