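import Pool.Agent.Helper66.LW.Basic
import Pool.Agent.Helper66.LW.F1
import Pool.Agent.Helper96.AG.N1b

/-!
# Project LW (P1 on MP_a499ba_nt), block G1

PROOF. Hs_hg: interchange sums, m = a^2 b. Fs_hg: GM T n = sum_a MM T (n/a^2) (in Helper96/AG: Bas/A-files), Fs_hf at n/a^2, (n/a^2)/p = (n/p)/a^2, terms with a^2 > n/p vanish.
-/

set_option autoImplicit false

namespace Pool.Agent.Helper66.LW

open Finset MeasureTheory Pool.Agent.Helper5.RM Pool.Agent.Helper96.AF Pool.Agent.Helper96.AG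

private lemma Hs_hg_h4 (r : ℕ) (T : Finset ℕ) (n : ℕ) :
    Hs (hg r T) n = ∑ a ∈ Finset.Icc 1 (Nat.sqrt n), Hs (hf r T) (n / a ^ 2) := by
  unfold Hs hg
  rw [Finset.sum_sigma', Finset.sum_sigma']
  refine Finset.sum_nbij' (fun q => ⟨q.2, q.1 / q.2 ^ 2⟩) (fun q => ⟨q.1 ^ 2 * q.2, q.1⟩) ?_ ?_ ?_ ?_ ?_
  · rintro ⟨m, a⟩ hq
    simp only [Finset.mem_sigma, Finset.mem_Icc, Finset.mem_filter] at hq ⊢
    obtain ⟨⟨hm1, hmn⟩, ⟨ha1, ham⟩, hdvd⟩ := hq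
    have ha2 : 0 < a ^ 2 := by positivity
    refine ⟨⟨ha1, ham.trans (Nat.sqrt_le_sqrt hmn)⟩, ?_, Nat.div_le_div_right hmn⟩
    exact Nat.div_pos (Nat.le_of_dvd hm1 hdvd) ha2
  · rintro ⟨a, b⟩ hq
    simp only [Finset.mem_sigma, Finset.mem_Icc, Finset.mem_filter] at hq ⊢
    obtain ⟨⟨ha1, han⟩, hb1, hbn⟩ := hq
    have ha2 : 0 < a ^ 2 := by positivity
    have h1 : a ^ 2 * b ≤ n := by
      have := Nat.mul_le_mul_left (a ^ 2) hbn
      exact this.trans (Nat.mul_div_le n (a ^ 2))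
    refine ⟨⟨Nat.mul_pos ha2 hb1, h1⟩, ⟨ha1, ?_⟩, dvd_mul_right _ _⟩
    rw [Nat.le_sqrt']
    exact Nat.le_mul_of_pos_right _ hb1
  · rintro ⟨m, a⟩ hq
    simp only [Finset.mem_sigma, Finset.mem_Icc, Finset.mem_filter] at hq
    simp only [Nat.mul_div_cancel' hq.2.2]
  · rintro ⟨a, b⟩ hq
    simp only [Finset.mem_sigma, Finset.mem_Icc] at hq
    have ha2 : 0 < a ^ 2 := by
      have := hq.1.1
      positivity
    simp only [Nat.mul_div_cancel_left _ ha2]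
  · rintro ⟨m, a⟩ _
    rfl

theorem Hs_hg (r : ℕ) (T : Finset ℕ) (n : ℕ) : Hs (hg r T) n = NG T (Y r + 1) n := by
  rw [Hs_hg_h4]
  unfold NG
  exact Finset.sum_congr rfl fun a _ => Hs_hf r T _

theorem Fs_hg (r : ℕ) (T : Finset ℕ) (n : ℕ) (hn : n ≤ Y (r + 1)) : Fs r (hg r T) (sg T) n = GM T n := by
  rw [GM_eq]
  have h1 : ∀ a ∈ Finset.Icc 1 (Nat.sqrt n), MM T (n / a ^ 2) = Hs (hf r T) (n / a ^ 2) +
      ∑ p ∈ BL r, sg T p * Hs (hf r T) (n / a ^ 2 / p) := by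
    intro a _
    rw [← Fs_hf r T (n / a ^ 2) ((Nat.div_le_self _ _).trans hn)]
    rfl
  rw [Finset.sum_congr rfl h1, Finset.sum_add_distrib, Finset.sum_comm]
  unfold Fs
  rw [Hs_hg_h4]
  congr 1
  refine Finset.sum_congr rfl fun p _ => ?_
  rw [← Finset.mul_sum, Hs_hg_h4]
  congr 1
  have h2 : ∀ a, n / a ^ 2 / p = n / p / a ^ 2 := by
    intro a
    rw [Nat.div_div_eq_div_mul, Nat.div_div_eq_div_mul, mul_comm]
  simp only [h2]
  refine Finset.sum_subset (Finset.Icc_subset_Icc_right (Nat.sqrt_le_sqrt (Nat.div_le_self _ _))) ?_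
  intro a ha ha'
  rw [Finset.mem_Icc] at ha ha'
  have h3 : n / p < a ^ 2 := by
    rw [← Nat.sqrt_lt']
    by_contra hc
    exact ha' ⟨ha.1, not_lt.1 hc⟩
  rw [Nat.div_eq_of_lt h3]
  unfold Hs
  simp

end Pool.Agent.Helper66.LW
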