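import Pool.Agent.Helper66.LW.Basic

/-!
# Project LW (P1 on MP_a499ba_nt), block G2

PROOF. compactness of [0,1] x [1/16,1/8], continuity of zeta away from 1, riemannZeta_ne_zero_of_one_le_re.
-/

set_option autoImplicit false

namespace Pool.Agent.Helper66.LW

open Finset MeasureTheory Pool.Agent.Helper5.RM Pool.Agent.Helper96.AF Pool.Agent.Helper96.AG

theorem zeta_low : ∃ c : ℝ, 0 < c ∧ ∀ s t : ℝ, 0 ≤ s → s ≤ 1 → 1 / 16 ≤ t → t ≤ 1 / 8 →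
    c ≤ ‖riemannZeta (2 * (((1 / 2 + s : ℝ) : ℂ) + Complex.I * (t : ℂ)))‖ := by
  have hK : IsCompact (Set.Icc (0 : ℝ) 1 ×ˢ Set.Icc (1 / 16 : ℝ) (1 / 8)) := isCompact_Icc.prod isCompact_Icc
  have hne : (Set.Icc (0 : ℝ) 1 ×ˢ Set.Icc (1 / 16 : ℝ) (1 / 8)).Nonempty :=
    ⟨(0, 1 / 16), ⟨le_rfl, zero_le_one⟩, ⟨le_rfl, by norm_num⟩⟩
  have hcont : ContinuousOn (fun q : ℝ × ℝ =>
      ‖riemannZeta (2 * (((1 / 2 + q.1 : ℝ) : ℂ) + Complex.I * (q.2 : ℂ)))‖)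
      (Set.Icc (0 : ℝ) 1 ×ˢ Set.Icc (1 / 16 : ℝ) (1 / 8)) := by
    refine ContinuousOn.norm ?_
    intro q hq
    have h1 : 2 * (((1 / 2 + q.1 : ℝ) : ℂ) + Complex.I * (q.2 : ℂ)) ≠ 1 := by
      intro h
      have h2 := congrArg Complex.im h
      simp at h2
      have := hq.2.1
      linarith
    have h2 : ContinuousAt riemannZeta (2 * (((1 / 2 + q.1 : ℝ) : ℂ) + Complex.I * (q.2 : ℂ))) :=
      (differentiableAt_riemannZeta h1).continuousAt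
    refine ContinuousAt.continuousWithinAt ?_
    refine ContinuousAt.comp (f := fun q : ℝ × ℝ => 2 * (((1 / 2 + q.1 : ℝ) : ℂ) + Complex.I * (q.2 : ℂ))) h2 ?_
    fun_prop
  obtain ⟨q, hq, hmin⟩ := hK.exists_isMinOn hne hcont
  refine ⟨‖riemannZeta (2 * (((1 / 2 + q.1 : ℝ) : ℂ) + Complex.I * (q.2 : ℂ)))‖, ?_, ?_⟩
  · rw [norm_pos_iff]
    refine riemannZeta_ne_zero_of_one_le_re ?_
    have := hq.1.1
    simp
    linarith
  · intro s t h1 h2 h3 h4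
    exact hmin (⟨⟨h1, h2⟩, ⟨h3, h4⟩⟩ : (s, t) ∈ Set.Icc (0 : ℝ) 1 ×ˢ Set.Icc (1 / 16 : ℝ) (1 / 8))

end Pool.Agent.Helper66.LW
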