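import Pool.Agent.Helper66.LW.Basic
import Pool.Agent.Helper66.LW.G1
import Pool.Agent.Helper96.AG.N2
import Pool.Agent.Helper96.AF.ZI
import Pool.Agent.Helper5.RM.HC4

/-!
# Project LW (P1 on MP_a499ba_nt), block G3

PROOF. av over T of Av(hg)^2 = e^{-v} av (NG T (Y r+1) n)^2, n = floor e^v: NG = sum_b rf T b floor(sqrt(n/b)), orthogonality: = sum_{b smooth squarefree} floor(sqrt(n/b))^2 <= n sum 1/b <= C 2^r n
(mertens_prod). So av farg <= C 2^r INT_{rV}^oo e^{-sigma v} dv = C 2^r sigma^-1 r^(-40 r); Markov.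
-/

set_option autoImplicit false

namespace Pool.Agent.Helper66.LW

open Finset MeasureTheory Pool.Agent.Helper5.RM Pool.Agent.Helper96.AF Pool.Agent.Helper96.AG

private lemma g3_inv (s Q : Finset ℕ) (hs : ∀ n ∈ s, Squarefree n ∧ n.primeFactors ⊆ Q) :
    ∑ n ∈ s, (1 : ℝ) / n ≤ ∏ p ∈ Q, (1 + (1 : ℝ) / p) := by
  classical
  rw [Finset.prod_one_add]
  have hinj : Set.InjOn (fun n : ℕ => n.primeFactors) (s : Set ℕ) := by
    intro a ha b hb hab
    have h1 := Nat.prod_primeFactors_of_squarefree (hs a ha).1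
    have h2 := Nat.prod_primeFactors_of_squarefree (hs b hb).1
    simp only at hab
    rw [hab] at h1
    exact h1.symm.trans h2
  have h1 : ∑ n ∈ s, (1 : ℝ) / n = ∑ T ∈ s.image (fun n : ℕ => n.primeFactors), ∏ p ∈ T, ((1 : ℝ) / p) := by
    rw [Finset.sum_image hinj]
    refine Finset.sum_congr rfl fun b hb => ?_
    have hsq := (hs b hb).1
    rw [Finset.prod_div_distrib, Finset.prod_const_one]
    congr 1
    conv_lhs => rw [← Nat.prod_primeFactors_of_squarefree hsq]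
    push_cast
    rfl
  rw [h1]
  refine Finset.sum_le_sum_of_subset_of_nonneg ?_ ?_
  · intro T hT
    obtain ⟨n, hn, rfl⟩ := Finset.mem_image.1 hT
    exact Finset.mem_powerset.2 (hs n hn).2
  · intro T hT _
    exact Finset.prod_nonneg fun p _ => by positivity

private lemma g3_NG (r n : ℕ) :
    av (PP (Y r)) (fun T => NG T (Y r + 1) n ^ 2) ≤ n * ∏ p ∈ PP (Y r), (1 + (1 : ℝ) / p) := by
  have hs : ∀ b ∈ (SM (Y r + 1) n).filter Squarefree, Squarefree b ∧ b.primeFactors ⊆ PP (Y r) := by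
    intro b hb
    rw [Finset.mem_filter, mem_SM] at hb
    refine ⟨hb.2, fun p hp => ?_⟩
    rw [mem_PP]
    exact ⟨Nat.prime_of_mem_primeFactors hp, by have := hb.1.2 p hp; omega⟩
  have h2 := hyper_sqf 1 le_rfl (PP (Y r)) ((SM (Y r + 1) n).filter Squarefree) hs
    (fun b => (((Nat.sqrt (n / b) : ℕ) : ℝ) : ℂ))
  have h3 : av (PP (Y r)) (fun T => NG T (Y r + 1) n ^ 2) =
      av (PP (Y r)) (fun T => ‖∑ b ∈ (SM (Y r + 1) n).filter Squarefree,
        (rf T b : ℂ) * (((Nat.sqrt (n / b) : ℕ) : ℝ) : ℂ)‖ ^ (2 * 1)) := by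
    refine av_congr fun T _ => ?_
    have h4 : ∑ b ∈ (SM (Y r + 1) n).filter Squarefree, (rf T b : ℂ) * (((Nat.sqrt (n / b) : ℕ) : ℝ) : ℂ) =
        ((NG T (Y r + 1) n : ℝ) : ℂ) := by
      rw [NG_sum, Complex.ofReal_sum]
      refine Finset.sum_congr rfl fun b _ => ?_
      rw [Complex.ofReal_mul]
    rw [h4, Complex.norm_real, mul_one, Real.norm_eq_abs, sq_abs]
  rw [h3]
  refine h2.trans ?_
  rw [pow_one]
  have h5 : ∀ b ∈ (SM (Y r + 1) n).filter Squarefree,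
      (2 * ((1 : ℕ) : ℝ) - 1) ^ om b * ‖(((Nat.sqrt (n / b) : ℕ) : ℝ) : ℂ)‖ ^ 2 ≤ n * ((1 : ℝ) / b) := by
    intro b hb
    rw [Finset.mem_filter, mem_SM] at hb
    have hb0 : (0 : ℝ) < b := by exact_mod_cast hb.1.1.1
    rw [Complex.norm_real, Real.norm_eq_abs, sq_abs]
    have h6 : (2 * ((1 : ℕ) : ℝ) - 1) ^ om b = 1 := by norm_num
    rw [h6, one_mul]
    have h7 : (Nat.sqrt (n / b)) ^ 2 ≤ n / b := Nat.sqrt_le' (n / b)
    have h8 : (((Nat.sqrt (n / b) : ℕ) : ℝ)) ^ 2 ≤ ((n / b : ℕ) : ℝ) := by exact_mod_cast h7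
    refine h8.trans (Nat.cast_div_le.trans (le_of_eq ?_))
    ring
  refine (Finset.sum_le_sum h5).trans ?_
  rw [← Finset.mul_sum]
  exact mul_le_mul_of_nonneg_left (g3_inv _ _ hs) (Nat.cast_nonneg n)

/-- the second moment at a point -/
private lemma g3_Av {C : ℝ} (hC : ∀ r : ℕ, ∏ p ∈ PP (Y r), (1 + (1 : ℝ) / p) ≤ C * 2 ^ r) (r : ℕ) (v : ℝ) :
    av (PP (Y r)) (fun T => Av (hg r T) v ^ 2) ≤ C * 2 ^ r := by
  have h0 : 0 ≤ ∏ p ∈ PP (Y r), (1 + (1 : ℝ) / p) := Finset.prod_nonneg fun p _ => by positivity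
  have h1 : ∀ T, Av (hg r T) v ^ 2 = Real.exp (-v) * NG T (Y r + 1) ⌊Real.exp v⌋₊ ^ 2 := by
    intro T
    unfold Av
    rw [Hs_hg, mul_pow, ← Real.exp_nat_mul]
    congr 2
    push_cast
    ring
  simp only [h1]
  rw [av_mul_left]
  have h2 := g3_NG r ⌊Real.exp v⌋₊
  have h3 : ((⌊Real.exp v⌋₊ : ℕ) : ℝ) ≤ Real.exp v := Nat.floor_le (Real.exp_pos v).le
  calc Real.exp (-v) * av (PP (Y r)) (fun T => NG T (Y r + 1) ⌊Real.exp v⌋₊ ^ 2)
      ≤ Real.exp (-v) * (Real.exp v * (C * 2 ^ r)) :=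
        mul_le_mul_of_nonneg_left (h2.trans (mul_le_mul h3 (hC r) h0 (Real.exp_pos v).le)) (Real.exp_pos _).le
    _ = C * 2 ^ r := by
        rw [← mul_assoc, ← Real.exp_add, neg_add_cancel, Real.exp_zero, one_mul]

theorem far_g : ∃ r0 : ℕ, ∀ r : ℕ, r0 ≤ r → pr (PP (Y r)) (fun T => 1 < farg r T) ≤ 1 / (r : ℝ) ^ 2 := by
  obtain ⟨C, hC0, hC⟩ := mertens_prod
  obtain ⟨N, hN⟩ := exists_nat_ge C
  refine ⟨N + 4, fun r hr => ?_⟩
  have hr4 : 4 ≤ r := by omega
  have hr4' : (4 : ℝ) ≤ r := by exact_mod_cast hr4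
  have hrC : C ≤ r := hN.trans (by exact_mod_cast (by omega : N ≤ r))
  have hσ : 0 < sr r := sr_pos (by omega)
  have h2r : (0 : ℝ) < 2 ^ r := by positivity
  -- each `Av (hg r T)` is bounded
  have hbd : ∀ T ⊆ PP (Y r), ∀ v, Av (hg r T) v ^ 2 ≤ 2 ^ (PP (Y r)).card * (C * 2 ^ r) := by
    intro T hT v
    have h1 := g3_Av hC r v
    unfold av at h1
    rw [div_le_iff₀ (by positivity)] at h1
    have h2 := Finset.single_le_sum (f := fun T => Av (hg r T) v ^ 2) (fun T _ => sq_nonneg _)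
      (Finset.mem_powerset.2 hT)
    linarith
  have hexp : IntegrableOn (fun v => Real.exp (-(sr r * v))) (Set.Ioi (r * Vr r)) := by
    have h1 := integrableOn_exp_mul_Ioi (neg_neg_of_pos hσ) (r * Vr r)
    refine h1.congr_fun (fun v _ => ?_) measurableSet_Ioi
    simp only [neg_mul]
  have hint : ∀ T ⊆ PP (Y r),
      IntegrableOn (fun v => Av (hg r T) v ^ 2 * Real.exp (-(sr r * v))) (Set.Ioi (r * Vr r)) := by
    intro T hT
    refine Integrable.bdd_mul (c := 2 ^ (PP (Y r)).card * (C * 2 ^ r)) hexp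
      ((measurable_Av _).pow_const 2).aestronglyMeasurable ?_
    refine Filter.Eventually.of_forall fun v => ?_
    rw [Real.norm_of_nonneg (sq_nonneg _)]
    exact hbd T hT v
  have hswap : av (PP (Y r)) (fun T => farg r T) =
      ∫ v in Set.Ioi (r * Vr r), av (PP (Y r)) (fun T => Av (hg r T) v ^ 2) * Real.exp (-(sr r * v)) := by
    unfold av farg
    rw [← integral_finsetSum _ fun T hT => hint T (Finset.mem_powerset.1 hT), ← integral_div]
    congr 1
    funext v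
    rw [← Finset.sum_mul]
    ring
  have hval : ∫ v in Set.Ioi (r * Vr r), Real.exp (-(sr r * v)) = (sr r)⁻¹ * (((r : ℝ) ^ 40) ^ r)⁻¹ := by
    have h1 := integral_exp_mul_Ioi (neg_neg_of_pos hσ) (r * Vr r)
    have h2 : ∀ v : ℝ, Real.exp (-(sr r * v)) = Real.exp (-sr r * v) := fun v => by rw [neg_mul]
    simp only [h2]
    rw [h1]
    have h3 : Real.exp (-sr r * (r * Vr r)) = (((r : ℝ) ^ 40) ^ r)⁻¹ := by
      rw [← exp_sr_Vr (r := r) (by omega), ← Real.exp_nat_mul, ← Real.exp_neg]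
      congr 1
      ring
    rw [h3]
    field_simp
  have hE : av (PP (Y r)) (fun T => farg r T) ≤ 1 / (r : ℝ) ^ 2 := by
    rw [hswap]
    have h1 : ∫ v in Set.Ioi (r * Vr r), av (PP (Y r)) (fun T => Av (hg r T) v ^ 2) * Real.exp (-(sr r * v)) ≤
        ∫ v in Set.Ioi (r * Vr r), (C * 2 ^ r) * Real.exp (-(sr r * v)) := by
      refine integral_mono_of_nonneg (Filter.Eventually.of_forall fun v => ?_) (hexp.const_mul _)
        (Filter.Eventually.of_forall fun v => ?_)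
      · exact mul_nonneg (av_nonneg fun T _ => sq_nonneg _) (Real.exp_pos _).le
      · exact mul_le_mul_of_nonneg_right (g3_Av hC r v) (Real.exp_pos _).le
    refine h1.trans ?_
    rw [integral_const_mul, hval]
    have hs1 : (sr r)⁻¹ ≤ 2 ^ r := by
      have h2 : 1 ≤ Real.log r := by
        rw [Real.le_log_iff_exp_le (by linarith)]
        have := Real.exp_one_lt_d9
        linarith
      have h3 := Vr_pos r
      unfold sr
      rw [inv_div, div_le_iff₀ (by positivity)]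
      have h4 := Vr_le r
      nlinarith
    have hb : (4 : ℝ) ^ r ≤ (r : ℝ) ^ r := pow_le_pow_left₀ (by norm_num) hr4' r
    have hr0 : (0 : ℝ) < r := by linarith
    have h5 : C * 2 ^ r * ((sr r)⁻¹ * (((r : ℝ) ^ 40) ^ r)⁻¹) ≤ r * (r : ℝ) ^ r * (((r : ℝ) ^ 40) ^ r)⁻¹ := by
      have h6 : C * 2 ^ r * (sr r)⁻¹ ≤ r * (r : ℝ) ^ r := by
        calc C * 2 ^ r * (sr r)⁻¹ ≤ r * 2 ^ r * 2 ^ r :=
              mul_le_mul (mul_le_mul_of_nonneg_right hrC h2r.le) hs1 (by positivity) (by positivity)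
          _ = r * 4 ^ r := by
              rw [mul_assoc, ← mul_pow]
              norm_num
          _ ≤ r * (r : ℝ) ^ r := mul_le_mul_of_nonneg_left hb hr0.le
      rw [← mul_assoc]
      exact mul_le_mul_of_nonneg_right h6 (by positivity)
    refine h5.trans ?_
    rw [← div_eq_mul_inv, div_le_div_iff₀ (by positivity) (by positivity), one_mul]
    calc (r : ℝ) * (r : ℝ) ^ r * (r : ℝ) ^ 2 = (r : ℝ) ^ (r + 3) := by ring
      _ ≤ (r : ℝ) ^ (40 * r) := pow_le_pow_right₀ (by linarith) (by omega)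
      _ = ((r : ℝ) ^ 40) ^ r := by rw [pow_mul]
  have hfar : ∀ T, 0 ≤ farg r T := by
    intro T
    unfold farg
    exact integral_nonneg fun v => mul_nonneg (sq_nonneg _) (Real.exp_pos _).le
  have h7 := markov (S := PP (Y r)) (F := fun T => farg r T) (c := 1) (fun T _ => hfar T) one_pos hE
  rw [div_one] at h7
  exact (pr_mono fun T _ h => le_of_lt h).trans h7

end Pool.Agent.Helper66.LW
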