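import Pool.Agent.Helper66.LW.Basic

/-!
# Project LW (P1 on MP_a499ba_nt), block MI

PROOF. on [log n, log(n+1)): floor(e^v) = n, so Av^2 = e^{-v} Hs(n)^2, INT e^{-v} = 1/n - 1/(n+1). Induction on Z.
-/

set_option autoImplicit false

namespace Pool.Agent.Helper66.LW

open Finset MeasureTheory Pool.Agent.Helper5.RM Pool.Agent.Helper96.AF Pool.Agent.Helper96.AG

private theorem Av_eq45 (h : ℕ → ℝ) {n : ℕ} (hn : 1 ≤ n) {v : ℝ} (h1 : Real.log n ≤ v) (h2 : v < Real.log (n + 1)) :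
    Av h v ^ 2 = Hs h n ^ 2 * Real.exp (-v) := by
  have hn0 : (0 : ℝ) < n := by exact_mod_cast hn
  have h3 : ⌊Real.exp v⌋₊ = n := by
    rw [Nat.floor_eq_iff (Real.exp_pos v).le]
    exact ⟨(Real.log_le_iff_le_exp hn0).1 h1, (Real.lt_log_iff_exp_lt (by positivity)).1 h2⟩
  unfold Av
  rw [h3, mul_pow, ← Real.exp_nat_mul, mul_comm]
  congr 2
  push_cast
  ring

private theorem Av_ae45 (h : ℕ → ℝ) {n : ℕ} (hn : 1 ≤ n) :
    ∀ᵐ v : ℝ, v ∈ Set.uIoc (Real.log n) (Real.log (n + 1)) → Hs h n ^ 2 * Real.exp (-v) = Av h v ^ 2 := by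
  have hn0 : (0 : ℝ) < n := by exact_mod_cast hn
  have h4 : Real.log n ≤ Real.log (n + 1) := Real.log_le_log hn0 (by linarith)
  have h5 : ∀ᵐ v : ℝ, v ≠ Real.log (n + 1) := by
    rw [ae_iff]
    simp
  filter_upwards [h5] with v hv hm
  rw [Set.uIoc_of_le h4] at hm
  exact (Av_eq45 h hn hm.1.le (lt_of_le_of_ne hm.2 hv)).symm

private theorem Av_piece45 (h : ℕ → ℝ) {n : ℕ} (hn : 1 ≤ n) :
    IntervalIntegrable (fun v => Av h v ^ 2) volume (Real.log n) (Real.log (n + 1)) ∧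
      ∫ v in (Real.log n)..(Real.log (n + 1)), Av h v ^ 2 = Hs h n ^ 2 / ((n : ℝ) * (n + 1)) := by
  have hn0 : (0 : ℝ) < n := by exact_mod_cast hn
  have hc : IntervalIntegrable (fun v => Hs h n ^ 2 * Real.exp (-v)) volume (Real.log n) (Real.log (n + 1)) := by
    apply Continuous.intervalIntegrable
    fun_prop
  refine ⟨?_, ?_⟩
  · refine hc.congr_ae ?_
    rw [Filter.EventuallyEq, ae_restrict_iff' measurableSet_uIoc]
    exact Av_ae45 h hn
  · rw [← intervalIntegral.integral_congr_ae (Av_ae45 h hn), intervalIntegral.integral_const_mul]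
    have h6 : ∫ v in (Real.log n)..(Real.log (n + 1)), Real.exp (-v) = 1 / (n : ℝ) - 1 / (n + 1) := by
      rw [intervalIntegral.integral_comp_neg (fun v => Real.exp v), integral_exp, Real.exp_neg, Real.exp_neg,
        Real.exp_log hn0, Real.exp_log (by positivity)]
      simp
    rw [h6]
    field_simp
    ring

theorem Av_int (h : ℕ → ℝ) (Z : ℕ) :
    ∫ v in (0 : ℝ)..(Real.log (Z + 1)), Av h v ^ 2 = ∑ n ∈ Finset.Icc 1 Z, Hs h n ^ 2 / ((n : ℝ) * (n + 1)) := by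
  have key : ∀ Z : ℕ, IntervalIntegrable (fun v => Av h v ^ 2) volume 0 (Real.log ((Z : ℝ) + 1)) ∧
      ∫ v in (0 : ℝ)..(Real.log ((Z : ℝ) + 1)), Av h v ^ 2 =
        ∑ n ∈ Finset.Icc 1 Z, Hs h n ^ 2 / ((n : ℝ) * (n + 1)) := by
    intro Z
    induction Z with
    | zero => simp
    | succ Z ih =>
      obtain ⟨i1, i2⟩ := ih
      obtain ⟨j1, j2⟩ := Av_piece45 h (n := Z + 1) (by omega)
      have e : ((Z + 1 : ℕ) : ℝ) = (Z : ℝ) + 1 := by push_cast; ring
      rw [Finset.sum_Icc_succ_top (by omega), ← i2, ← j2, e]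
      rw [e] at j1
      exact ⟨i1.trans j1, (intervalIntegral.integral_add_adjacent_intervals i1 j1).symm⟩
  exact (key Z).2

end Pool.Agent.Helper66.LW
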