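import Pool.Agent.Helper66.LW.Basic
import Pool.Agent.Helper66.LW.MI
import Pool.Agent.Helper66.LW.G1
import Pool.Agent.Helper66.LW.G2
import Pool.Agent.Helper66.LW.G3
import Pool.Agent.Helper96.AG.E1c
import Pool.Agent.Helper96.AG.E2

/-!
# Project LW (P1 on MP_a499ba_nt), block G4

`hg` is bounded by `1` (the squarefree part of `n` is unique), its Dirichlet series is the finite sum over sets `U`
of primes of `wal T U * (∏ U)^(-s) * ζ(2 s)`; the mass of `[0, r Vr r]` is bounded with `Av_int`, `Hs_hg`, `IG_le`,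
`DG_mono`; beyond it `farg` is used.
-/

set_option autoImplicit false

namespace Pool.Agent.Helper66.LW

open Finset MeasureTheory Pool.Agent.Helper5.RM Pool.Agent.Helper96.AF Pool.Agent.Helper96.AG
open scoped ContDiff

private lemma sqf6 (U : Finset ℕ) (hU : ∀ p ∈ U, p.Prime) : Squarefree (∏ p ∈ U, p) := by
  induction U using Finset.induction_on with
  | empty => simp
  | insert q U hq ih =>
    rw [Finset.prod_insert hq]
    have hqp := hU q (Finset.mem_insert_self q U)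
    have hU' : ∀ p ∈ U, p.Prime := fun p hp => hU p (Finset.mem_insert_of_mem hp)
    have hc : Nat.Coprime q (∏ p ∈ U, p) := by
      apply Nat.Coprime.prod_right
      intro p hp
      rw [Nat.coprime_primes hqp (hU' p hp)]
      rintro rfl
      exact hq hp
    rw [Nat.squarefree_mul hc]
    exact ⟨hqp.prime.squarefree, ih hU'⟩

private lemma prime6 {y : ℕ} {U : Finset ℕ} (hU : U ∈ (PP y).powerset) : ∀ p ∈ U, p.Prime :=
  fun _ hp => (mem_PP.1 (Finset.mem_powerset.1 hU hp)).1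

private lemma pos6 {y : ℕ} {U : Finset ℕ} (hU : U ∈ (PP y).powerset) : 0 < ∏ p ∈ U, p :=
  Finset.prod_pos fun p hp => (prime6 hU p hp).pos

open Classical in
/-- indicator of the numbers `a^2 b`, `a ≥ 1` -/
private noncomputable def ci6 (b n : ℕ) : ℝ := if ∃ a : ℕ, 1 ≤ a ∧ a ^ 2 * b = n then 1 else 0

private lemma ci6_nonneg (b n : ℕ) : 0 ≤ ci6 b n := by
  unfold ci6
  split_ifs <;> norm_num

private lemma ci6_le (b n : ℕ) : ci6 b n ≤ 1 := by
  unfold ci6
  split_ifs <;> norm_num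

/-- the smooth part of the squarefree model as a sum over sets of primes -/
private lemma hf6 (r : ℕ) (T : Finset ℕ) (m : ℕ) (hm : 1 ≤ m) :
    hf r T m = ∑ U ∈ (PP (Y r)).powerset, if (∏ p ∈ U, p) = m then wal T U else 0 := by
  classical
  by_cases h : Squarefree m ∧ ∀ p ∈ m.primeFactors, p ≤ Y r
  · have hU : m.primeFactors ∈ (PP (Y r)).powerset := by
      rw [Finset.mem_powerset]
      intro p hp
      rw [mem_PP]
      exact ⟨Nat.prime_of_mem_primeFactors hp, h.2 p hp⟩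
    rw [Finset.sum_eq_single m.primeFactors]
    · rw [if_pos (Nat.prod_primeFactors_of_squarefree h.1)]
      unfold hf
      rw [if_pos h.2, rf_sqf h.1]
    · intro V hV hne
      rw [if_neg]
      rintro rfl
      exact hne (Nat.primeFactors_prod (prime6 hV)).symm
    · intro h'
      exact absurd hU h'
  · have h0 : hf r T m = 0 := by
      unfold hf
      split_ifs with h1
      · exact rf_not fun h2 => h ⟨h2, h1⟩
      · rfl
    rw [h0]
    symm
    apply Finset.sum_eq_zero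
    intro V hV
    rw [if_neg]
    rintro rfl
    apply h
    refine ⟨sqf6 V (prime6 hV), ?_⟩
    rw [Nat.primeFactors_prod (prime6 hV)]
    intro p hp
    exact (mem_PP.1 (Finset.mem_powerset.1 hV hp)).2

private lemma hg6 (r : ℕ) (T : Finset ℕ) (n : ℕ) :
    hg r T n = ∑ U ∈ (PP (Y r)).powerset, wal T U * ci6 (∏ p ∈ U, p) n := by
  classical
  unfold hg
  have h1 : ∑ a ∈ (Finset.Icc 1 (Nat.sqrt n)).filter (fun a => a ^ 2 ∣ n), hf r T (n / a ^ 2) =
      ∑ a ∈ (Finset.Icc 1 (Nat.sqrt n)).filter (fun a => a ^ 2 ∣ n), ∑ U ∈ (PP (Y r)).powerset,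
        if (∏ p ∈ U, p) = n / a ^ 2 then wal T U else 0 := by
    refine Finset.sum_congr rfl fun a ha => ?_
    rw [Finset.mem_filter, Finset.mem_Icc] at ha
    apply hf6
    have h2 : a ^ 2 ≤ n := by
      have := Nat.le_sqrt'.1 ha.1.2
      exact this
    exact Nat.div_pos h2 (by have := ha.1.1; positivity)
  rw [h1, Finset.sum_comm]
  refine Finset.sum_congr rfl fun U hU => ?_
  have hb := pos6 hU
  unfold ci6
  split_ifs with h
  · obtain ⟨a, ha, han⟩ := h
    rw [Finset.sum_eq_single a]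
    · rw [if_pos, mul_one]
      rw [← han]
      exact (Nat.mul_div_cancel_left _ (by positivity)).symm
    · intro c hc hca
      rw [Finset.mem_filter, Finset.mem_Icc] at hc
      rw [if_neg]
      intro h3
      apply hca
      have h4 : c ^ 2 * (∏ p ∈ U, p) = n := by
        rw [h3]
        exact Nat.mul_div_cancel' hc.2
      have h5 : c ^ 2 = a ^ 2 := Nat.eq_of_mul_eq_mul_right hb (h4.trans han.symm)
      exact Nat.pow_left_injective (n := 2) (by norm_num) h5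
    · intro h3
      exfalso
      apply h3
      rw [Finset.mem_filter, Finset.mem_Icc]
      refine ⟨⟨ha, ?_⟩, ⟨_, han.symm⟩⟩
      rw [Nat.le_sqrt']
      rw [← han]
      exact Nat.le_mul_of_pos_right _ hb
  · rw [mul_zero]
    apply Finset.sum_eq_zero
    intro c hc
    rw [Finset.mem_filter, Finset.mem_Icc] at hc
    rw [if_neg]
    intro h3
    apply h
    refine ⟨c, hc.1.1, ?_⟩
    rw [h3]
    exact Nat.mul_div_cancel' hc.2

/-- the squarefree part is unique -/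
private lemma uniq6 {y : ℕ} {U V : Finset ℕ} (hU : U ∈ (PP y).powerset) (hV : V ∈ (PP y).powerset) {a c : ℕ}
    (ha : 1 ≤ a) (hc : 1 ≤ c) (h : a ^ 2 * (∏ p ∈ U, p) = c ^ 2 * (∏ p ∈ V, p)) : U = V := by
  have key : ∀ {W : Finset ℕ}, W ∈ (PP y).powerset → ∀ {d : ℕ}, 1 ≤ d → ∀ p : ℕ,
      (d ^ 2 * (∏ q ∈ W, q)).factorization p = 2 * d.factorization p + if p ∈ W then 1 else 0 := by
    intro W hW d hd p
    have hb := pos6 hW
    rw [Nat.factorization_mul (by positivity) (by omega), Nat.factorization_pow]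
    simp only [Finsupp.coe_add, Finsupp.coe_smul, Pi.add_apply, Pi.smul_apply, smul_eq_mul]
    congr 1
    have hs := sqf6 W (prime6 hW)
    split_ifs with hp
    · have hp' : p.Prime := prime6 hW p hp
      have h1 : (∏ q ∈ W, q).factorization p ≤ 1 := (Nat.squarefree_iff_factorization_le_one (by omega)).1 hs p
      have h2 : 1 ≤ (∏ q ∈ W, q).factorization p := by
        rw [Nat.one_le_iff_ne_zero, ← Nat.pos_iff_ne_zero]
        exact hp'.factorization_pos_of_dvd (by omega) (Finset.dvd_prod_of_mem _ hp)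
      omega
    · rw [← Finsupp.notMem_support_iff, Nat.support_factorization, Nat.primeFactors_prod (prime6 hW)]
      exact hp
  ext p
  have h1 := key hU ha p
  have h2 := key hV hc p
  rw [h, h2] at h1
  constructor
  · intro hp
    by_contra hq
    rw [if_pos hp, if_neg hq] at h1
    omega
  · intro hp
    by_contra hq
    rw [if_neg hq, if_pos hp] at h1
    omega

private lemma sumci6 (y n : ℕ) : ∑ U ∈ (PP y).powerset, ci6 (∏ p ∈ U, p) n ≤ 1 := by
  classical
  by_cases h : ∃ U ∈ (PP y).powerset, ∃ a : ℕ, 1 ≤ a ∧ a ^ 2 * (∏ p ∈ U, p) = n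
  · obtain ⟨U, hU, a, ha, han⟩ := h
    rw [Finset.sum_eq_single U]
    · exact ci6_le _ _
    · intro V hV hne
      unfold ci6
      rw [if_neg]
      rintro ⟨c, hc, hcn⟩
      exact hne (uniq6 hV hU hc ha (hcn.trans han.symm))
    · intro h'
      exact absurd hU h'
  · rw [Finset.sum_eq_zero]
    · norm_num
    · intro V hV
      unfold ci6
      rw [if_neg]
      intro h'
      exact h ⟨V, hV, h'⟩

private lemma abs_hg6 (r : ℕ) (T : Finset ℕ) (n : ℕ) :
    |hg r T n| ≤ ∑ U ∈ (PP (Y r)).powerset, ci6 (∏ p ∈ U, p) n := by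
  rw [hg6]
  refine (Finset.abs_sum_le_sum_abs _ _).trans (Finset.sum_le_sum fun U _ => ?_)
  rw [abs_mul, abs_wal, one_mul, abs_of_nonneg (ci6_nonneg _ _)]

private lemma inj6 {b : ℕ} (hb : 0 < b) : Function.Injective (fun a : ℕ => (a + 1) ^ 2 * b) := by
  intro a c h
  have h1 : (a + 1) ^ 2 = (c + 1) ^ 2 := Nat.eq_of_mul_eq_mul_right hb h
  have h2 := Nat.pow_left_injective (n := 2) (by norm_num) h1
  omega

private lemma ci6_range {b : ℕ} (a : ℕ) : ci6 b ((a + 1) ^ 2 * b) = 1 := by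
  unfold ci6
  rw [if_pos ⟨a + 1, by omega, rfl⟩]

private lemma ci6_off {b n : ℕ} (h : n ∉ Set.range (fun a : ℕ => (a + 1) ^ 2 * b)) : ci6 b n = 0 := by
  unfold ci6
  rw [if_neg]
  rintro ⟨a, ha, han⟩
  apply h
  refine ⟨a - 1, ?_⟩
  simp only
  rw [Nat.sub_add_cancel ha]
  exact han

private lemma summ6 {b : ℕ} (hb : 0 < b) {x : ℝ} (hx : 1 / 2 < x) :
    Summable fun n : ℕ => ci6 b n * (n : ℝ) ^ (-x) := by
  rw [← (inj6 hb).summable_iff]
  · have h1 : Summable fun a : ℕ => ((a : ℝ) + 1) ^ (-(2 * x)) := by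
      have h2 : Summable fun a : ℕ => (a : ℝ) ^ (-(2 * x)) := Real.summable_nat_rpow.2 (by linarith)
      have h3 := (summable_nat_add_iff 1).2 h2
      simpa using h3
    have h4 := h1.mul_right ((b : ℝ) ^ (-x))
    refine h4.congr fun a => ?_
    simp only [Function.comp_apply]
    rw [ci6_range, one_mul]
    push_cast
    rw [Real.mul_rpow (by positivity) (by positivity)]
    congr 1
    rw [← Real.rpow_natCast, ← Real.rpow_mul (by positivity)]
    congr 1
    push_cast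
    ring
  · intro n hn
    rw [ci6_off hn, zero_mul]

private lemma summ_hg6 (r : ℕ) (T : Finset ℕ) {x : ℝ} (hx : 1 / 2 < x) :
    Summable fun n : ℕ => |hg r T n| * (n : ℝ) ^ (-x) := by
  have h1 : Summable fun n : ℕ => ∑ U ∈ (PP (Y r)).powerset, ci6 (∏ p ∈ U, p) n * (n : ℝ) ^ (-x) :=
    summable_sum fun U hU => summ6 (pos6 hU) hx
  refine Summable.of_nonneg_of_le (fun n => by positivity) (fun n => ?_) h1
  rw [← Finset.sum_mul]
  exact mul_le_mul_of_nonneg_right (abs_hg6 r T n) (by positivity)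

private lemma hasSum6 {b : ℕ} (hb : 0 < b) {s : ℂ} (hs : 1 / 2 < s.re) :
    HasSum (fun n : ℕ => (ci6 b n : ℂ) * (n : ℂ) ^ (-s)) ((b : ℂ) ^ (-s) * riemannZeta (2 * s)) := by
  rw [← (inj6 hb).hasSum_iff]
  · have h0 : 1 < (2 * s).re := by
      simp
      linarith
    have h1 : Summable fun a : ℕ => 1 / ((a : ℂ) + 1) ^ (2 * s) := by
      have h2 := Complex.summable_one_div_nat_cpow.2 h0
      have h3 := (summable_nat_add_iff 1).2 h2
      simpa using h3
    have h2 := h1.hasSum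
    rw [← zeta_eq_tsum_one_div_nat_add_one_cpow h0] at h2
    have h3 := h2.mul_left ((b : ℂ) ^ (-s))
    refine h3.congr_fun fun a => ?_
    simp only [Function.comp_apply]
    rw [ci6_range]
    push_cast
    rw [one_mul]
    have e1 : (((a : ℂ) + 1) ^ 2 * (b : ℂ)) ^ (-s) = (((a + 1) ^ 2 : ℕ) : ℂ) ^ (-s) * (b : ℂ) ^ (-s) := by
      rw [← Complex.natCast_mul_natCast_cpow]
      push_cast
      rfl
    rw [e1, mul_comm]
    congr 1
    have e2 : (((a + 1) ^ 2 : ℕ) : ℂ) ^ (-s) = ((a + 1 : ℕ) : ℂ) ^ (-s) * ((a + 1 : ℕ) : ℂ) ^ (-s) := by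
      rw [← Complex.natCast_mul_natCast_cpow]
      push_cast
      congr 1
      ring
    rw [e2]
    have hne : ((a + 1 : ℕ) : ℂ) ≠ 0 := by exact_mod_cast Nat.succ_ne_zero a
    rw [← Complex.cpow_add _ _ hne, one_div, ← Complex.cpow_neg]
    push_cast
    congr 1
    ring
  · intro n hn
    rw [ci6_off hn]
    simp

private lemma prodpow6 (U : Finset ℕ) (s : ℂ) :
    ((∏ p ∈ U, p : ℕ) : ℂ) ^ s = ∏ p ∈ U, (p : ℂ) ^ s := by
  classical
  induction U using Finset.induction_on with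
  | empty => simp
  | insert q U hq ih =>
    rw [Finset.prod_insert hq, Finset.prod_insert hq, ← ih, ← Complex.natCast_mul_natCast_cpow]
    push_cast
    rfl

private lemma hasSum_hg6 (r : ℕ) (T : Finset ℕ) (t : ℝ) (hs : 0 < sr r) :
    HasSum (fun n : ℕ => (hg r T n : ℂ) * (n : ℂ) ^ (-(((1 / 2 + sr r : ℝ) : ℂ) + Complex.I * (t : ℂ)))) (Dg r T t) := by
  set s : ℂ := ((1 / 2 + sr r : ℝ) : ℂ) + Complex.I * (t : ℂ) with hsd
  have hre : 1 / 2 < s.re := by
    rw [hsd]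
    simp
    linarith
  have h1 : HasSum (fun n : ℕ => ∑ U ∈ (PP (Y r)).powerset, (wal T U : ℂ) * ((ci6 (∏ p ∈ U, p) n : ℂ) * (n : ℂ) ^ (-s)))
      (∑ U ∈ (PP (Y r)).powerset, (wal T U : ℂ) * (((∏ p ∈ U, p : ℕ) : ℂ) ^ (-s) * riemannZeta (2 * s))) :=
    hasSum_sum fun U hU => (hasSum6 (pos6 hU) hre).mul_left _
  have h2 : Dg r T t =
      ∑ U ∈ (PP (Y r)).powerset, (wal T U : ℂ) * (((∏ p ∈ U, p : ℕ) : ℂ) ^ (-s) * riemannZeta (2 * s)) := by
    unfold Dg Df
    rw [← hsd, Finset.prod_one_add, Finset.mul_sum]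
    refine Finset.sum_congr rfl fun U _ => ?_
    rw [prodpow6, Finset.prod_mul_distrib]
    unfold wal
    push_cast
    ring
  rw [h2]
  refine h1.congr_fun fun n => ?_
  rw [hg6]
  push_cast
  rw [Finset.sum_mul]
  refine Finset.sum_congr rfl fun U _ => ?_
  ring


private lemma zeta_smooth6 (σ : ℝ) (hσ : 0 < σ) :
    ContDiff ℝ ∞ fun t : ℝ => riemannZeta (2 * (((1 / 2 + σ : ℝ) : ℂ) + Complex.I * (t : ℂ))) := by
  rw [contDiff_iff_contDiffAt]
  intro t
  have h1 : ContDiffOn ℂ ∞ riemannZeta ({1}ᶜ : Set ℂ) := by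
    apply DifferentiableOn.contDiffOn
    · intro s hs
      exact (differentiableAt_riemannZeta hs).differentiableWithinAt
    · exact isOpen_compl_singleton
  have h2 : (2 * (((1 / 2 + σ : ℝ) : ℂ) + Complex.I * (t : ℂ))) ∈ ({1}ᶜ : Set ℂ) := by
    intro h
    have h3 := congrArg Complex.re (Set.mem_singleton_iff.1 h)
    simp at h3
    linarith
  have h3 : ContDiffAt ℝ ∞ riemannZeta (2 * (((1 / 2 + σ : ℝ) : ℂ) + Complex.I * (t : ℂ))) :=
    (h1.contDiffAt (isOpen_compl_singleton.mem_nhds h2)).restrict_scalars ℝ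
  have h4 : ContDiffAt ℝ ∞ (fun t : ℝ => (2 * (((1 / 2 + σ : ℝ) : ℂ) + Complex.I * (t : ℂ)))) t := by
    have h5 : ContDiff ℝ ∞ (fun t : ℝ => (t : ℂ)) := Complex.ofRealCLM.contDiff
    have : ContDiff ℝ ∞ (fun t : ℝ => (2 * (((1 / 2 + σ : ℝ) : ℂ) + Complex.I * (t : ℂ)))) := by fun_prop
    exact this.contDiffAt
  exact ContDiffAt.comp t h3 h4

private lemma smooth6 (r : ℕ) (T : Finset ℕ) (hs : 0 < sr r) : ContDiff ℝ ∞ (Dg r T) := by
  unfold Dg
  apply ContDiff.mul
  · exact zeta_smooth6 _ hs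
  · unfold Df
    apply contDiff_prod
    intro p hp
    have hp0 : (p : ℂ) ≠ 0 := by
      have := (mem_PP.1 hp).1.ne_zero
      exact_mod_cast this
    have h5 : ContDiff ℝ ∞ (fun t : ℝ => (t : ℂ)) := Complex.ofRealCLM.contDiff
    simp only [Complex.cpow_def_of_ne_zero hp0]
    fun_prop

private lemma le_one6 (r : ℕ) (T : Finset ℕ) (n : ℕ) : |hg r T n| ≤ 1 :=
  (abs_hg6 r T n).trans (sumci6 _ _)

/-- growth of the normalised sums -/
private lemma grow6 (r : ℕ) (T : Finset ℕ) {x : ℝ} (hx : 1 / 2 < x) :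
    ∃ K : ℝ, 0 ≤ K ∧ ∀ v : ℝ, |Av (hg r T) v| ≤ K * Real.exp ((x - 1 / 2) * v) := by
  have hsm := summ_hg6 r T hx
  refine ⟨∑' n : ℕ, |hg r T n| * (n : ℝ) ^ (-x), tsum_nonneg fun n => by positivity, fun v => ?_⟩
  unfold Av
  rw [abs_mul, abs_of_pos (Real.exp_pos _)]
  have h1 : |Hs (hg r T) ⌊Real.exp v⌋₊| ≤ Real.exp (x * v) * ∑' n : ℕ, |hg r T n| * (n : ℝ) ^ (-x) := by
    unfold Hs
    have h2 : ∑ m ∈ Finset.Icc 1 ⌊Real.exp v⌋₊, |hg r T m| * (m : ℝ) ^ (-x) ≤ ∑' n : ℕ, |hg r T n| * (n : ℝ) ^ (-x) :=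
      hsm.sum_le_tsum _ fun n _ => by positivity
    refine (Finset.abs_sum_le_sum_abs _ _).trans ?_
    refine le_trans ?_ (mul_le_mul_of_nonneg_left h2 (Real.exp_pos _).le)
    rw [Finset.mul_sum]
    refine Finset.sum_le_sum fun m hm => ?_
    rw [Finset.mem_Icc] at hm
    have hm0 : (0 : ℝ) < m := by exact_mod_cast hm.1
    have hm1 : (m : ℝ) ≤ Real.exp v :=
      (Nat.cast_le.2 hm.2).trans (Nat.floor_le (Real.exp_pos v).le)
    have h3 : (1 : ℝ) ≤ Real.exp (x * v) * (m : ℝ) ^ (-x) := by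
      rw [Real.rpow_neg hm0.le, mul_comm x v, Real.exp_mul, ← div_eq_mul_inv, one_le_div (by positivity)]
      exact Real.rpow_le_rpow hm0.le hm1 (by linarith)
    have h4 := abs_nonneg (hg r T m)
    nlinarith
  calc Real.exp (-(v / 2)) * |Hs (hg r T) ⌊Real.exp v⌋₊|
      ≤ Real.exp (-(v / 2)) * (Real.exp (x * v) * ∑' n : ℕ, |hg r T n| * (n : ℝ) ^ (-x)) :=
        mul_le_mul_of_nonneg_left h1 (Real.exp_pos _).le
    _ = (∑' n : ℕ, |hg r T n| * (n : ℝ) ^ (-x)) * Real.exp ((x - 1 / 2) * v) := by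
        rw [← mul_assoc, ← Real.exp_add, mul_comm]
        congr 2
        ring

private lemma int6 (r : ℕ) (T : Finset ℕ) (hs : 0 < sr r) :
    IntegrableOn (fun v => Av (hg r T) v ^ 2 * Real.exp (-(sr r * v))) (Set.Ioi 0) := by
  obtain ⟨K, hK, h⟩ := grow6 r T (x := 1 / 2 + sr r / 4) (by linarith)
  have h1 : IntegrableOn (fun v : ℝ => K ^ 2 * Real.exp (-(sr r / 2) * v)) (Set.Ioi 0) :=
    (integrableOn_exp_mul_Ioi (by linarith) 0).const_mul _
  refine h1.mono' ?_ ?_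
  · refine Measurable.aestronglyMeasurable ?_
    have := measurable_Av (hg r T)
    fun_prop
  · refine Filter.Eventually.of_forall fun v => ?_
    rw [Real.norm_eq_abs, abs_mul, abs_pow, abs_of_pos (Real.exp_pos _)]
    have h2 := h v
    have e1 : 1 / 2 + sr r / 4 - 1 / 2 = sr r / 4 := by ring
    rw [e1] at h2
    calc |Av (hg r T) v| ^ 2 * Real.exp (-(sr r * v))
        ≤ (K * Real.exp (sr r / 4 * v)) ^ 2 * Real.exp (-(sr r * v)) :=
          mul_le_mul_of_nonneg_right (pow_le_pow_left₀ (abs_nonneg _) h2 2) (Real.exp_pos _).le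
      _ = K ^ 2 * Real.exp (-(sr r / 2) * v) := by
          rw [mul_pow, mul_assoc, ← Real.exp_nat_mul, ← Real.exp_add]
          congr 2
          push_cast
          ring

private lemma bdd_int6 (r : ℕ) (T : Finset ℕ) (a b : ℝ) (hab : a ≤ b) :
    IntegrableOn (fun v => Av (hg r T) v ^ 2) (Set.Ioc a b) := by
  have h1 : IntegrableOn (fun v : ℝ => Real.exp v) (Set.Ioc a b) := by
    have : IntervalIntegrable (fun v : ℝ => Real.exp v) volume a b := Real.continuous_exp.intervalIntegrable a b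
    exact (intervalIntegrable_iff_integrableOn_Ioc_of_le hab).1 this
  refine h1.mono' ?_ ?_
  · refine Measurable.aestronglyMeasurable ?_
    have := measurable_Av (hg r T)
    fun_prop
  · refine Filter.Eventually.of_forall fun v => ?_
    rw [Real.norm_eq_abs, abs_pow]
    calc |Av (hg r T) v| ^ 2 ≤ (Real.exp (v / 2)) ^ 2 :=
          pow_le_pow_left₀ (abs_nonneg _) (abs_Av_le (le_one6 r T) v) 2
      _ = Real.exp v := by
          rw [← Real.exp_nat_mul]
          congr 1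
          push_cast
          ring

/-- the mass of `[0, r Vr r]` -/
private lemma near6 : ∃ C : ℝ, 0 < C ∧ ∀ (δ : ℝ) (r : ℕ) (T : Finset ℕ), 1 ≤ r →
    DG (2 ^ r * r * 2) r T ≤ 2 * (r : ℝ) ^ (-(1 / 2) + δ / 2) → ∀ b : ℝ, 0 ≤ b → b ≤ r * Vr r →
    ∫ v in (0 : ℝ)..b, Av (hg r T) v ^ 2 ≤ 2 ^ r * (C * (2 * (r : ℝ) ^ (-(1 / 2) + δ / 2))) := by
  obtain ⟨C, hC, hI⟩ := IG_le
  refine ⟨C, hC, fun δ r T hr hD b hb0 hb => ?_⟩
  set Z : ℕ := ⌈Real.exp (r * Vr r)⌉₊ with hZ
  have hr1 : (1 : ℝ) ≤ r := by exact_mod_cast hr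
  have hV := Vr_pos r
  have hZ1 : 1 ≤ Z := Nat.one_le_ceil_iff.2 (Real.exp_pos _)
  have hZ2 : Real.exp (r * Vr r) ≤ Z := Nat.le_ceil _
  have hZ3 : (Z : ℝ) ≤ 2 * Real.exp (r * Vr r) := by
    have h1 := (Nat.ceil_lt_add_one (Real.exp_pos (r * Vr r)).le).le
    have h2 : 1 ≤ Real.exp (r * Vr r) := Real.one_le_exp (by positivity)
    linarith
  have hZ0 : (0 : ℝ) < Z := by exact_mod_cast hZ1
  have hlog1 : r * Vr r ≤ Real.log (Z + 1) := by
    rw [Real.le_log_iff_exp_le (by positivity)]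
    linarith
  have hlog2 : 1 + Real.log Z ≤ 2 ^ r * r * 2 := by
    have h1 : Real.log Z ≤ Real.log 2 + r * Vr r := by
      rw [← Real.log_exp (r * Vr r), ← Real.log_mul (by norm_num) (Real.exp_pos _).ne']
      exact Real.log_le_log hZ0 hZ3
    have h2 := Real.log_two_lt_d9
    have h3 : (2 : ℝ) ≤ 2 ^ r := by
      calc (2 : ℝ) = 2 ^ 1 := by norm_num
        _ ≤ 2 ^ r := pow_le_pow_right₀ (by norm_num) hr
    have h4 : Vr r ≤ 7 / 10 * 2 ^ r := by
      unfold Vr
      nlinarith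
    have h5 : r * Vr r ≤ 7 / 10 * (2 ^ r * r) := by nlinarith
    have h6 : (2 : ℝ) ≤ 2 ^ r * r := by nlinarith
    linarith
  have h1 : ∫ v in (0 : ℝ)..b, Av (hg r T) v ^ 2 ≤ ∫ v in (0 : ℝ)..(Real.log (Z + 1)), Av (hg r T) v ^ 2 := by
    refine intervalIntegral.integral_mono_interval le_rfl hb0 (hb.trans hlog1) ?_ ?_
    · exact Filter.Eventually.of_forall fun v => sq_nonneg _
    · rw [intervalIntegrable_iff_integrableOn_Ioc_of_le (hb0.trans (hb.trans hlog1))]
      exact bdd_int6 r T _ _ (hb0.trans (hb.trans hlog1))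
  have h2 : ∫ v in (0 : ℝ)..(Real.log (Z + 1)), Av (hg r T) v ^ 2 = 2 ^ r * IG r Z T := by
    rw [Av_int]
    unfold IG
    rw [mul_div_cancel₀ _ (by positivity)]
    refine Finset.sum_congr rfl fun n _ => ?_
    rw [Hs_hg]
  have h3 := hI r Z T hZ1
  have h4 : DG (1 + Real.log Z) r T ≤ DG (2 ^ r * r * 2) r T := by
    refine DG_mono ?_ hlog2 r T
    have := Real.log_nonneg (show (1 : ℝ) ≤ Z by exact_mod_cast hZ1)
    linarith
  calc ∫ v in (0 : ℝ)..b, Av (hg r T) v ^ 2 ≤ 2 ^ r * IG r Z T := h1.trans_eq h2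
    _ ≤ 2 ^ r * (C * (2 * (r : ℝ) ^ (-(1 / 2) + δ / 2))) := by
        refine mul_le_mul_of_nonneg_left (h3.trans ?_) (by positivity)
        exact mul_le_mul_of_nonneg_left (h4.trans hD) hC.le

theorem adm_g (δ : ℝ) (hδ : 0 < δ) : ∃ r0 : ℕ, ∀ r : ℕ, r0 ≤ r → ∀ T : Finset ℕ,
    DG (2 ^ r * r * 2) r T ≤ 2 * (r : ℝ) ^ (-(1 / 2) + δ / 2) → farg r T ≤ 1 →
    Adm r (hg r T) (Dg r T) (2 ^ r * (r : ℝ) ^ (-(1 / 2) + δ)) := by
  obtain ⟨C, hC, hnear⟩ := near6
  have ht : Filter.Tendsto (fun r : ℕ => (r : ℝ) ^ (δ / 2)) Filter.atTop Filter.atTop :=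
    (tendsto_rpow_atTop (by positivity)).comp tendsto_natCast_atTop_atTop
  obtain ⟨r1, hr1⟩ := Filter.eventually_atTop.1 (ht.eventually_ge_atTop (4 * C))
  refine ⟨max r1 2, fun r hr T hD hfar => ?_⟩
  have h4C := hr1 r ((le_max_left _ _).trans hr)
  have hr2 : 2 ≤ r := (le_max_right _ _).trans hr
  have hs := sr_pos hr2
  have hV := Vr_pos r
  have hrR : (2 : ℝ) ≤ r := by exact_mod_cast hr2
  have hr0 : (0 : ℝ) < r := by linarith
  set B : ℝ := 2 ^ r * (r : ℝ) ^ (-(1 / 2) + δ) with hB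
  -- the near mass is at most half of the bound
  have hhalf : 2 ^ r * (C * (2 * (r : ℝ) ^ (-(1 / 2) + δ / 2))) ≤ B / 2 := by
    have e1 : (r : ℝ) ^ (-(1 / 2) + δ) = (r : ℝ) ^ (-(1 / 2) + δ / 2) * (r : ℝ) ^ (δ / 2) := by
      rw [← Real.rpow_add hr0]
      congr 1
      ring
    rw [hB, e1]
    have h1 : 0 < (r : ℝ) ^ (-(1 / 2) + δ / 2) := by positivity
    have h2 : C * (2 * (r : ℝ) ^ (-(1 / 2) + δ / 2)) ≤ (r : ℝ) ^ (-(1 / 2) + δ / 2) * (r : ℝ) ^ (δ / 2) / 2 := by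
      nlinarith
    calc 2 ^ r * (C * (2 * (r : ℝ) ^ (-(1 / 2) + δ / 2)))
        ≤ 2 ^ r * ((r : ℝ) ^ (-(1 / 2) + δ / 2) * (r : ℝ) ^ (δ / 2) / 2) :=
          mul_le_mul_of_nonneg_left h2 (by positivity)
      _ = 2 ^ r * ((r : ℝ) ^ (-(1 / 2) + δ / 2) * (r : ℝ) ^ (δ / 2)) / 2 := by ring
  have hB2 : 2 ≤ B := by
    have h1 : (2 : ℝ) * r ≤ 2 ^ r := by
      have : ∀ n : ℕ, 1 ≤ n → 2 * n ≤ 2 ^ n := by
        intro n hn
        induction n, hn using Nat.le_induction with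
        | base => norm_num
        | succ n hn ih =>
          rw [pow_succ]
          omega
      exact_mod_cast this r (by omega)
    have h2 : (r : ℝ) ^ (-1 : ℝ) ≤ (r : ℝ) ^ (-(1 / 2) + δ) :=
      Real.rpow_le_rpow_of_exponent_le (by linarith) (by linarith)
    rw [Real.rpow_neg_one] at h2
    calc (2 : ℝ) = (2 * r) * (r : ℝ)⁻¹ := by field_simp
      _ ≤ 2 ^ r * (r : ℝ) ^ (-(1 / 2) + δ) := mul_le_mul h1 h2 (by positivity) (by positivity)
  have hint := int6 r T hs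
  refine ⟨le_one6 r T, summ_hg6 r T (by linarith), smooth6 r T hs, fun t => hasSum_hg6 r T t hs, hint, ?_, ?_⟩
  · have h1 := hnear δ r T (by omega) hD (2 * Vr r) (by positivity) (by nlinarith)
    linarith
  · have hsplit : Set.Ioi (0 : ℝ) = Set.Ioc 0 (r * Vr r) ∪ Set.Ioi (r * Vr r) :=
      (Set.Ioc_union_Ioi_eq_Ioi (by positivity)).symm
    rw [hsplit, setIntegral_union (Set.Ioc_disjoint_Ioi le_rfl) measurableSet_Ioi
      (hint.mono_set Set.Ioc_subset_Ioi_self)
      (hint.mono_set (Set.Ioi_subset_Ioi (by positivity)))]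
    have h1 := hnear δ r T (by omega) hD (r * Vr r) (by positivity) le_rfl
    rw [intervalIntegral.integral_of_le (by positivity)] at h1
    have h2 : ∫ v in Set.Ioc (0 : ℝ) (r * Vr r), Av (hg r T) v ^ 2 * Real.exp (-(sr r * v)) ≤
        ∫ v in Set.Ioc (0 : ℝ) (r * Vr r), Av (hg r T) v ^ 2 := by
      refine setIntegral_mono_on (hint.mono_set Set.Ioc_subset_Ioi_self) (bdd_int6 r T _ _ (by positivity))
        measurableSet_Ioc fun v hv => ?_
      have h3 : Real.exp (-(sr r * v)) ≤ 1 := by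
        rw [Real.exp_le_one_iff]
        have := hv.1
        nlinarith
      have h4 := sq_nonneg (Av (hg r T) v)
      nlinarith
    have h5 : ∫ v in Set.Ioi (r * Vr r), Av (hg r T) v ^ 2 * Real.exp (-(sr r * v)) ≤ 1 := hfar
    linarith

end Pool.Agent.Helper66.LW
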