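import Pool.Agent.Helper66.LW.LF
import Pool.Agent.Helper66.LW.G1
import Pool.Agent.Helper66.LW.G2
import Pool.Agent.Helper66.LW.G3
import Pool.Agent.Helper66.LW.G4
import Pool.Agent.Helper96.AG.F1

/-!
# Project LW (P1 on MP_a499ba_nt): the completely multiplicative model
-/

set_option autoImplicit false

namespace Pool.Agent.Helper66.LW

open Finset MeasureTheory ProbabilityTheory Pool.Agent.Helper5.RM Pool.Agent.Helper96.AF Pool.Agent.Helper96.AG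

theorem continuous_Df (r : ℕ) (T : Finset ℕ) : Continuous (Df r T) := by
  unfold Df
  refine continuous_finsetProd _ fun p hp => ?_
  have hp0 : (p : ℂ) ≠ 0 := by
    have := (mem_PP.1 hp).1.ne_zero
    exact_mod_cast this
  refine continuous_const.add (continuous_const.mul ?_)
  refine Continuous.const_cpow ?_ (Or.inl hp0)
  fun_prop

theorem hg_pred (r : ℕ) (T T' : Finset ℕ) (h : ∀ p ∈ PP (Y r), (p ∈ T ↔ p ∈ T')) : hg r T = hg r T' := by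
  funext n
  unfold hg
  rw [hf_pred r T T' h]

theorem lower_Dg (δ : ℝ) (hδ : 0 < δ) : ∃ r0 : ℕ, ∀ r : ℕ, r0 ≤ r → ∀ T : Finset ℕ, Gch (δ / 4) r T →
    ∀ k : ℕ, 2 ^ (r / 4) ≤ k → k ≤ 2 ^ r →
      2 ^ r * (r : ℝ) ^ (-(1 / 2) - δ) ≤ ∫ t in (1 / 16 : ℝ)..(1 / 8), (1 - Real.cos (k * t)) * ‖Dg r T t‖ ^ 2 := by
  obtain ⟨c, hc, hz⟩ := zeta_low
  obtain ⟨r1, h1⟩ := lower_Df (δ / 2) (by positivity)
  obtain ⟨r2, h2⟩ := sr_small 1 one_pos
  have h3 := (tendsto_rpow_atTop (show 0 < δ / 2 by positivity)).comp tendsto_natCast_atTop_atTop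
  obtain ⟨r3, h4⟩ := Filter.eventually_atTop.1 (h3.eventually_ge_atTop (1 / c ^ 2))
  refine ⟨max (max r1 r2) (max r3 2), fun r hr T hG k hk1 hk2 => ?_⟩
  have hr1 : r1 ≤ r := ((le_max_left _ _).trans (le_max_left _ _)).trans hr
  have hr2 : r2 ≤ r := ((le_max_right _ _).trans (le_max_left _ _)).trans hr
  have hr3 : r3 ≤ r := ((le_max_left _ _).trans (le_max_right _ _)).trans hr
  have hr4 : 2 ≤ r := ((le_max_right _ _).trans (le_max_right _ _)).trans hr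
  have hr0 : (0 : ℝ) < r := by exact_mod_cast (show 0 < r by omega)
  have h5 := h1 r hr1 T (by rw [show δ / 2 / 2 = δ / 4 by ring]; exact hG) k hk1 hk2
  have h6 : c ^ 2 * ∫ t in (1 / 16 : ℝ)..(1 / 8), (1 - Real.cos (k * t)) * ‖Df r T t‖ ^ 2 ≤
      ∫ t in (1 / 16 : ℝ)..(1 / 8), (1 - Real.cos (k * t)) * ‖Dg r T t‖ ^ 2 := by
    rw [← intervalIntegral.integral_const_mul]
    have hz0 : ∀ t : ℝ, (1 : ℝ) / 16 ≤ t → 2 * (((1 / 2 + sr r : ℝ) : ℂ) + Complex.I * (t : ℂ)) ≠ 1 := by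
      intro t ht h0
      have := congrArg Complex.im h0
      simp at this
      linarith
    apply intervalIntegral.integral_mono_on (by norm_num)
    · apply Continuous.intervalIntegrable
      have := continuous_Df r T
      fun_prop
    · apply ContinuousOn.intervalIntegrable
      rw [Set.uIcc_of_le (by norm_num)]
      unfold Dg
      refine ContinuousOn.mul (by fun_prop) (ContinuousOn.pow (ContinuousOn.norm (ContinuousOn.mul ?_ (continuous_Df r T).continuousOn)) 2)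
      intro t ht
      have h7 : ContinuousAt riemannZeta (2 * (((1 / 2 + sr r : ℝ) : ℂ) + Complex.I * (t : ℂ))) :=
        (differentiableAt_riemannZeta (hz0 t ht.1)).continuousAt
      have h8 : ContinuousAt (fun t : ℝ => 2 * (((1 / 2 + sr r : ℝ) : ℂ) + Complex.I * (t : ℂ))) t := by fun_prop
      exact (ContinuousAt.comp (f := fun t : ℝ => 2 * (((1 / 2 + sr r : ℝ) : ℂ) + Complex.I * (t : ℂ))) h7 h8).continuousWithinAt
    · intro t ht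
      have h7 := hz (sr r) t (sr_pos hr4).le (h2 r hr2) ht.1 ht.2
      have h8 : 0 ≤ 1 - Real.cos (k * t) := by linarith [Real.cos_le_one (k * t)]
      have h9 : c ^ 2 ≤ ‖riemannZeta (2 * (((1 / 2 + sr r : ℝ) : ℂ) + Complex.I * (t : ℂ)))‖ ^ 2 := pow_le_pow_left₀ hc.le h7 2
      unfold Dg
      rw [norm_mul, mul_pow]
      calc c ^ 2 * ((1 - Real.cos (k * t)) * ‖Df r T t‖ ^ 2) = (1 - Real.cos (k * t)) * (c ^ 2 * ‖Df r T t‖ ^ 2) := by ring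
        _ ≤ _ := by gcongr
  refine le_trans ?_ h6
  refine le_trans ?_ (mul_le_mul_of_nonneg_left h5 (by positivity))
  have h7 : (r : ℝ) ^ (-(1 / 2) - δ / 2) = (r : ℝ) ^ (δ / 2) * (r : ℝ) ^ (-(1 / 2) - δ) := by
    rw [← Real.rpow_add hr0]
    congr 1
    ring
  have h8 : 1 / c ^ 2 ≤ (r : ℝ) ^ (δ / 2) := h4 r hr3
  rw [h7]
  have h9 : 1 ≤ c ^ 2 * (r : ℝ) ^ (δ / 2) := by
    rw [div_le_iff₀ (by positivity)] at h8
    linarith
  calc 2 ^ r * (r : ℝ) ^ (-(1 / 2) - δ) = 1 * (2 ^ r * (r : ℝ) ^ (-(1 / 2) - δ)) := (one_mul _).symm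
    _ ≤ c ^ 2 * (r : ℝ) ^ (δ / 2) * (2 ^ r * (r : ℝ) ^ (-(1 / 2) - δ)) := by gcongr
    _ = _ := by ring

theorem low_g' (δ : ℝ) (hδ : 0 < δ) (hδ2 : δ ≤ 1 / 16) {Ω : Type*} [MeasurableSpace Ω] (μ : Measure Ω)
    (ε : ℕ → Ω → ℝ) (hM : Unif μ ε) : ∀ᵐ ω ∂μ, ∃ r0 : ℕ, ∀ r, r0 ≤ r →
      (∃ n ∈ Finset.Icc (Y r) (Y (r + 1)), (r : ℝ) ^ (1 / 4 - δ) * Real.sqrt n < GM (TT ε ω (Y (r + 1))) n) ∧
      (∃ n ∈ Finset.Icc (Y r) (Y (r + 1)), GM (TT ε ω (Y (r + 1))) n < -((r : ℝ) ^ (1 / 4 - δ) * Real.sqrt n)) := by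
  obtain ⟨K⟩ := ker_nonempty
  obtain ⟨r1, h1⟩ := adm_g δ hδ
  obtain ⟨r2, h2⟩ := lower_Dg δ hδ
  obtain ⟨r3, h3⟩ := far_g
  have h4 : ∀ᵐ ω ∂μ, ∃ i1 : ℕ, ∀ i, i1 ≤ i → ¬ 1 < farg i (TT ε ω (Y i)) :=
    bcU μ ε hM Y (fun r T => 1 < farg r T) (fun r => 1 / (r : ℝ) ^ 2) (Real.summable_one_div_nat_pow.2 (by norm_num)) r3 h3
  refine low_gen K δ hδ hδ2 μ ε hM hg Dg GM (fun r T T' h => hg_pred r T T' h) (fun r T n hn => Fs_hg r T n hn)
    (fun r T => DG (2 ^ r * r * 2) r T ≤ 2 * (r : ℝ) ^ (-(1 / 2) + δ / 2) ∧ farg r T ≤ 1 ∧ Gch (δ / 4) r T)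
    ⟨r1, fun r hr T hG => h1 r hr T hG.1 hG.2.1⟩ ⟨r2, fun r hr T hG => h2 r hr T hG.2.2⟩ ?_
  filter_upwards [chaosG_as (δ / 2) (by positivity) (by linarith) 2 (by norm_num) μ ε hM, h4, Gch_as (δ / 4) (by positivity) μ ε hM]
    with ω ⟨a, ha⟩ ⟨b, hb⟩ ⟨c, hc⟩
  refine ⟨a + b + c, fun r hr => ⟨?_, not_lt.1 (hb r (by omega)), hc r (by omega)⟩⟩
  have := ha r (by omega)
  push_cast at this
  exact this

end Pool.Agent.Helper66.LW
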