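import Pool.Agent.Helper96.AF.Bas

/-!
# Project LW (P1 on MP_a499ba_nt): from the levels `Y r` to real intervals `[X, X^4]`
-/

set_option autoImplicit false

namespace Pool.Agent.Helper66.LW

open Finset Pool.Agent.Helper5.RM Pool.Agent.Helper96.AF

private theorem loglog_le {r n : ℕ} (hr : 3 ≤ r) (h1 : Y r ≤ n) (h2 : n ≤ Y (r + 1)) :
    0 ≤ Real.log (Real.log n) ∧ Real.log (Real.log n) ≤ r := by
  have hY : 16 ≤ Y r := by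
    have h3 : Y 2 ≤ Y r := Y_mono (by omega)
    have h4 : Y 2 = 16 := by
      unfold Y
      norm_num
    omega
  have hn : (16 : ℝ) ≤ n := by exact_mod_cast hY.trans h1
  have hn0 : (0 : ℝ) < n := by linarith
  have hl1 : 1 ≤ Real.log n := by
    rw [Real.le_log_iff_exp_le hn0]
    have := Real.exp_one_lt_d9
    linarith
  refine ⟨Real.log_nonneg hl1, ?_⟩
  have h3 : Real.log n ≤ 2 ^ (r + 1) := by
    have h4 : Real.log n ≤ Real.log (Y (r + 1)) := Real.log_le_log hn0 (by exact_mod_cast h2)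
    rw [log_Y] at h4
    refine h4.trans ?_
    have := Real.log_two_lt_d9
    have h5 : (0 : ℝ) < 2 ^ (r + 1) := by positivity
    nlinarith
  have h4 : Real.log (Real.log n) ≤ Real.log (2 ^ (r + 1)) := Real.log_le_log (by linarith) h3
  rw [Real.log_pow] at h4
  refine h4.trans ?_
  push_cast
  have := Real.log_two_lt_d9
  have h5 : (3 : ℝ) ≤ r := by exact_mod_cast hr
  nlinarith

theorem scale_conv (δ : ℝ) (hδ : 0 < δ) (hδ2 : δ ≤ 1 / 16) (M : ℝ → ℝ) (F : ℕ → ℕ → ℝ)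
    (hM : ∀ r n : ℕ, n ≤ Y (r + 1) → M (n : ℝ) = F r n)
    (h : ∃ r0 : ℕ, ∀ r, r0 ≤ r →
      (∃ n ∈ Finset.Icc (Y r) (Y (r + 1)), (r : ℝ) ^ (1 / 4 - δ) * Real.sqrt n < F r n) ∧
      (∃ n ∈ Finset.Icc (Y r) (Y (r + 1)), F r n < -((r : ℝ) ^ (1 / 4 - δ) * Real.sqrt n))) :
    ∃ X0 : ℝ, ∀ X : ℝ, X0 ≤ X →
      (∃ x : ℝ, X ≤ x ∧ x ≤ X ^ 4 ∧ 1 ≤ Real.log (Real.log x) ∧ Real.sqrt x * Real.log (Real.log x) ^ (1 / 4 - δ) ≤ M x) ∧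
      (∃ x : ℝ, X ≤ x ∧ x ≤ X ^ 4 ∧ 1 ≤ Real.log (Real.log x) ∧ M x ≤ -(Real.sqrt x * Real.log (Real.log x) ^ (1 / 4 - δ))) := by
  obtain ⟨r0, h0⟩ := h
  refine ⟨(Y (r0 + 5) : ℝ) + 1, fun X hX => ?_⟩
  classical
  have hex : ∃ r : ℕ, X ≤ Y r := by
    obtain ⟨n, hn⟩ := exists_nat_ge X
    refine ⟨n, hn.trans ?_⟩
    have h1 : n < 2 ^ n := Nat.lt_two_pow_self
    have h2 : 2 ^ n < 2 ^ 2 ^ n := Nat.lt_two_pow_self
    have h3 : n ≤ Y n := by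
      unfold Y
      omega
    exact_mod_cast h3
  obtain ⟨r, hr1, hr2⟩ : ∃ r : ℕ, X ≤ Y r ∧ ∀ s < r, ¬ X ≤ Y s := ⟨Nat.find hex, Nat.find_spec hex, fun s hs => Nat.find_min hex hs⟩
  have hr3 : r0 + 5 < r := by
    by_contra hcon
    push Not at hcon
    have h4 : (Y r : ℝ) ≤ Y (r0 + 5) := by exact_mod_cast Y_mono hcon
    linarith
  have h5 : (Y (r - 1) : ℝ) < X := not_le.1 (hr2 (r - 1) (by omega))
  have h6 : (Y r : ℝ) = (Y (r - 1) : ℝ) ^ 2 := by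
    have := Y_succ (r - 1)
    rw [Nat.sub_add_cancel (by omega)] at this
    exact_mod_cast this
  have h7 : (Y (r + 1) : ℝ) = (Y r : ℝ) ^ 2 := by exact_mod_cast Y_succ r
  have h8 : (0 : ℝ) ≤ Y (r - 1) := Nat.cast_nonneg _
  have hX4 : (Y (r + 1) : ℝ) ≤ X ^ 4 := by
    rw [h7, h6, ← pow_mul]
    exact pow_le_pow_left₀ h8 h5.le 4
  have key : ∀ n ∈ Finset.Icc (Y r) (Y (r + 1)), X ≤ (n : ℝ) ∧ (n : ℝ) ≤ X ^ 4 ∧ 1 ≤ Real.log (Real.log n) ∧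
      Real.sqrt n * Real.log (Real.log n) ^ (1 / 4 - δ) ≤ (r : ℝ) ^ (1 / 4 - δ) * Real.sqrt n := by
    intro n hn
    rw [Finset.mem_Icc] at hn
    obtain ⟨a, b⟩ := loglog_le (by omega) hn.1 hn.2
    refine ⟨hr1.trans (by exact_mod_cast hn.1), le_trans (by exact_mod_cast hn.2) hX4, ?_, ?_⟩
    · have hY5 : Y 5 ≤ n := (Y_mono (by omega)).trans hn.1
      have hlog : 2 ^ 5 * Real.log 2 ≤ Real.log n := by
        rw [← log_Y]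
        exact Real.log_le_log (by exact_mod_cast Y_pos 5) (by exact_mod_cast hY5)
      have h9 := Real.log_two_gt_d9
      have h10 : (3 : ℝ) ≤ Real.log n := by linarith
      rw [Real.le_log_iff_exp_le (by linarith)]
      have := Real.exp_one_lt_d9
      linarith
    · rw [mul_comm]
      exact mul_le_mul_of_nonneg_right (Real.rpow_le_rpow a b (by linarith)) (Real.sqrt_nonneg _)
  obtain ⟨⟨n, hn, hn2⟩, ⟨m, hm, hm2⟩⟩ := h0 r (by omega)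
  obtain ⟨a1, a2, a3, a4⟩ := key n hn
  obtain ⟨b1, b2, b3, b4⟩ := key m hm
  refine ⟨⟨n, a1, a2, a3, ?_⟩, ⟨m, b1, b2, b3, ?_⟩⟩
  · rw [hM r n (Finset.mem_Icc.1 hn).2]
    linarith
  · rw [hM r m (Finset.mem_Icc.1 hm).2]
    linarith

/-- larger `δ` -/
theorem scale_mono (δ δ' : ℝ) (h : δ ≤ δ') (M : ℝ → ℝ)
    (hX : ∃ X0 : ℝ, ∀ X : ℝ, X0 ≤ X →
      (∃ x : ℝ, X ≤ x ∧ x ≤ X ^ 4 ∧ 1 ≤ Real.log (Real.log x) ∧ Real.sqrt x * Real.log (Real.log x) ^ (1 / 4 - δ) ≤ M x) ∧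
      (∃ x : ℝ, X ≤ x ∧ x ≤ X ^ 4 ∧ 1 ≤ Real.log (Real.log x) ∧ M x ≤ -(Real.sqrt x * Real.log (Real.log x) ^ (1 / 4 - δ)))) :
    ∃ X0 : ℝ, ∀ X : ℝ, X0 ≤ X →
      (∃ x : ℝ, X ≤ x ∧ x ≤ X ^ 4 ∧ Real.sqrt x * Real.log (Real.log x) ^ (1 / 4 - δ') ≤ M x) ∧
      (∃ x : ℝ, X ≤ x ∧ x ≤ X ^ 4 ∧ M x ≤ -(Real.sqrt x * Real.log (Real.log x) ^ (1 / 4 - δ'))) := by
  obtain ⟨X0, h0⟩ := hX
  refine ⟨X0, fun X hX => ?_⟩
  obtain ⟨⟨x, x1, x2, x3, x4⟩, ⟨y, y1, y2, y3, y4⟩⟩ := h0 X hX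
  refine ⟨⟨x, x1, x2, le_trans ?_ x4⟩, ⟨y, y1, y2, y4.trans ?_⟩⟩
  · exact mul_le_mul_of_nonneg_left (Real.rpow_le_rpow_of_exponent_le x3 (by linarith)) (Real.sqrt_nonneg _)
  · exact neg_le_neg (mul_le_mul_of_nonneg_left (Real.rpow_le_rpow_of_exponent_le y3 (by linarith)) (Real.sqrt_nonneg _))

end Pool.Agent.Helper66.LW
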