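import Pool.Agent.Helper66.LW.Basic

/-!
# Project LW (P1 on MP_a499ba_nt), block K0: pointwise bounds for the weight `kf`
-/

set_option autoImplicit false

namespace Pool.Agent.Helper66.LW

open Finset MeasureTheory Pool.Agent.Helper5.RM Pool.Agent.Helper96.AF Pool.Agent.Helper96.AG

private theorem kf_exp {r : ℕ} (hr : 2 ≤ r) {u v : ℝ} (hu : Ur r ≤ u) : -(sr r * (v - Ur r)) ≤ sr r * |u - v| := by
  have hs := sr_pos hr
  have h1 : Ur r - v ≤ |u - v| := le_trans (by linarith) (le_abs_self (u - v))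
  nlinarith

private theorem range_le {r : ℕ} (hs : 1 / sr r ≤ Vr r / 2) {u v : ℝ} (hu : Ur r ≤ u) (hu2 : u ≤ Ur r + 1 / sr r)
    (hv : Vr r ≤ v) (hv2 : v ≤ 2 * Vr r) : |u - v| ≤ Vr r := by
  unfold Ur at *
  rw [abs_le]
  constructor <;> linarith

theorem inv_sr_le : ∃ r0 : ℕ, ∀ r : ℕ, r0 ≤ r → 1 / sr r ≤ Vr r / 2 := by
  refine ⟨3, fun r hr => ?_⟩
  have h1 : 1 ≤ Real.log r := by
    rw [Real.le_log_iff_exp_le (by positivity)]
    have h2 := Real.exp_one_lt_d9
    have h3 : (3 : ℝ) ≤ r := by exact_mod_cast hr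
    linarith
  have hV := Vr_pos r
  unfold sr
  rw [one_div_div, div_le_div_iff₀ (by positivity) (by norm_num)]
  nlinarith

theorem kf_le (K : Ker) : ∃ C : ℝ, 0 < C ∧ ∃ r0 : ℕ, ∀ r : ℕ, r0 ≤ r → ∀ u : ℝ, Ur r ≤ u → u ≤ Ur r + 1 / sr r →
    ∀ v : ℝ, Vr r ≤ v → v ≤ 2 * Vr r → kf K r u v ≤ C / (1 + (u - v) ^ 2) := by
  obtain ⟨C, hC, hw⟩ := K.w_dec
  obtain ⟨r1, hr1⟩ := inv_sr_le
  obtain ⟨r2, hr2⟩ := pow_le_Vr 50 (1 / 40 ^ 10) (by positivity) 10 (by norm_num)
  refine ⟨3 * C, by positivity, max r1 (max r2 2), fun r hr u hu hu2 v hv hv2 => ?_⟩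
  have hra : r1 ≤ r := (le_max_left _ _).trans hr
  have hrb : r2 ≤ r := ((le_max_left _ _).trans (le_max_right _ _)).trans hr
  have hrc : 2 ≤ r := ((le_max_right _ _).trans (le_max_right _ _)).trans hr
  have hs := sr_pos hrc
  have hV := Vr_pos r
  have hz := range_le (hr1 r hra) hu hu2 hv hv2
  have hx := kf_exp hrc (v := v) hu
  have hz0 : 0 ≤ |u - v| := abs_nonneg _
  have hsq : (u - v) ^ 2 = |u - v| ^ 2 := (sq_abs _).symm
  have hw1 := hw (u - v)
  unfold kf
  rw [hsq]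
  generalize |u - v| = z at *
  have h12 : 1 + z ^ 2 ≤ (1 + z) ^ 12 := by
    calc 1 + z ^ 2 ≤ (1 + z) ^ 2 := by nlinarith
      _ ≤ (1 + z) ^ 12 := pow_le_pow_right₀ (by linarith) (by norm_num)
  by_cases h1 : sr r * z ≤ 1
  · have h2 : Real.exp (-(sr r * (v - Ur r))) ≤ 3 := by
      have := Real.exp_one_lt_d9
      calc Real.exp (-(sr r * (v - Ur r))) ≤ Real.exp 1 := Real.exp_le_exp.2 (hx.trans h1)
        _ ≤ 3 := by linarith
    have h3 : K.w (u - v) ≤ C / (1 + z ^ 2) := hw1.trans (div_le_div_of_nonneg_left hC.le (by positivity) h12)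
    calc Real.exp (-(sr r * (v - Ur r))) * K.w (u - v) ≤ 3 * (C / (1 + z ^ 2)) :=
          mul_le_mul h2 h3 (K.w_nonneg _) (by norm_num)
      _ = 3 * C / (1 + z ^ 2) := by ring
  · push Not at h1
    have h2 : Real.exp (-(sr r * (v - Ur r))) ≤ (r : ℝ) ^ 40 := by
      rw [← exp_sr_Vr (by omega : 1 ≤ r)]
      apply Real.exp_le_exp.2
      refine hx.trans ?_
      exact mul_le_mul_of_nonneg_left hz hs.le
    -- (1 + z)^10 ≥ z^10 ≥ sr^(-10) ≥ r^40
    have h3 : (r : ℝ) ^ 40 ≤ z ^ 10 := by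
      have hr0 : (0 : ℝ) < r := by exact_mod_cast (show 0 < r by omega)
      have h4 : Vr r / (40 * r) ≤ z := by
        have h5 : 1 / sr r ≤ z := by
          rw [div_le_iff₀ hs]
          linarith [mul_comm z (sr r)]
        refine le_trans ?_ h5
        have h6 := sr_le r hrc
        calc Vr r / (40 * r) = 1 / (40 * r / Vr r) := by rw [one_div_div]
          _ ≤ 1 / sr r := one_div_le_one_div_of_le hs h6
      have h5 : (Vr r / (40 * r)) ^ 10 ≤ z ^ 10 := pow_le_pow_left₀ (by positivity) h4 10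
      refine le_trans ?_ h5
      rw [div_pow, le_div_iff₀ (by positivity), mul_pow]
      have h6 := hr2 r hrb
      calc (r : ℝ) ^ 40 * (40 ^ 10 * (r : ℝ) ^ 10) = 40 ^ 10 * (r : ℝ) ^ 50 := by ring
        _ ≤ 40 ^ 10 * (1 / 40 ^ 10 * Vr r ^ 10) := by gcongr
        _ = Vr r ^ 10 := by field_simp
    have hz1 : 0 < 1 + z := by linarith
    have h4 : K.w (u - v) ≤ C / ((1 + z ^ 2) * z ^ 10) := by
      refine hw1.trans (div_le_div_of_nonneg_left hC.le ?_ ?_)
      · have : 0 < z := by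
          by_contra h0
          push Not at h0
          have : z = 0 := le_antisymm h0 hz0
          rw [this, mul_zero] at h1
          linarith
        positivity
      · calc (1 + z ^ 2) * z ^ 10 ≤ (1 + z) ^ 2 * (1 + z) ^ 10 := by
              apply mul_le_mul
              · nlinarith
              · exact pow_le_pow_left₀ hz0 (by linarith) 10
              · positivity
              · positivity
          _ = (1 + z) ^ 12 := by ring
    have hz2 : 0 < z := by
      by_contra h0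
      push Not at h0
      have : z = 0 := le_antisymm h0 hz0
      rw [this, mul_zero] at h1
      linarith
    calc Real.exp (-(sr r * (v - Ur r))) * K.w (u - v) ≤ z ^ 10 * (C / ((1 + z ^ 2) * z ^ 10)) :=
          mul_le_mul (h2.trans h3) h4 (K.w_nonneg _) (by positivity)
      _ = C / (1 + z ^ 2) := by field_simp
      _ ≤ 3 * C / (1 + z ^ 2) := div_le_div_of_nonneg_right (by linarith) (by positivity)

theorem kf_far (K : Ker) : ∃ r0 : ℕ, ∀ r : ℕ, r0 ≤ r → ∀ u : ℝ, Ur r ≤ u → u ≤ Ur r + 1 / sr r →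
    ∀ v : ℝ, Vr r ≤ v → v ≤ 2 * Vr r → Vr r / 16 ≤ |u - v| → kf K r u v ≤ 1 / Vr r ^ 8 := by
  obtain ⟨C, hC, hw⟩ := K.w_dec
  obtain ⟨r1, hr1⟩ := inv_sr_le
  obtain ⟨r2, hr2⟩ := pow_le_Vr 40 (1 / (16 ^ 12 * C)) (by positivity) 4 (by norm_num)
  refine ⟨max r1 (max r2 2), fun r hr u hu hu2 v hv hv2 hf => ?_⟩
  have hra : r1 ≤ r := (le_max_left _ _).trans hr
  have hrb : r2 ≤ r := ((le_max_left _ _).trans (le_max_right _ _)).trans hr
  have hrc : 2 ≤ r := ((le_max_right _ _).trans (le_max_right _ _)).trans hr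
  have hs := sr_pos hrc
  have hV := Vr_pos r
  have hz := range_le (hr1 r hra) hu hu2 hv hv2
  have hx := kf_exp hrc (v := v) hu
  have hw1 := hw (u - v)
  unfold kf
  generalize |u - v| = z at *
  have h2 : Real.exp (-(sr r * (v - Ur r))) ≤ (r : ℝ) ^ 40 := by
    rw [← exp_sr_Vr (by omega : 1 ≤ r)]
    apply Real.exp_le_exp.2
    refine hx.trans ?_
    exact mul_le_mul_of_nonneg_left hz hs.le
  have h3 : K.w (u - v) ≤ C / (Vr r / 16) ^ 12 := by
    refine hw1.trans (div_le_div_of_nonneg_left hC.le (by positivity) ?_)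
    exact pow_le_pow_left₀ (by positivity) (by linarith) 12
  calc Real.exp (-(sr r * (v - Ur r))) * K.w (u - v) ≤ (1 / (16 ^ 12 * C) * Vr r ^ 4) * (C / (Vr r / 16) ^ 12) :=
        mul_le_mul (h2.trans (hr2 r hrb)) h3 (K.w_nonneg _) (by positivity)
    _ = 1 / Vr r ^ 8 := by field_simp

end Pool.Agent.Helper66.LW
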