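import Pool.Agent.Helper66.LW.Basic
import Pool.Agent.Helper66.LW.K0

/-!
# Project LW (P1 on MP_a499ba_nt), block Z

PROOF. floor(e^v)/p = floor(e^v/p) = floor(e^(v - log p)) (Nat.floor_div_natCast), so e^{-v/2} Hs h (floor(e^v)/p) = p^(-1/2) Av h (v - log p), and
RC + sum s_p aC = INT_V^{2V} e^{-v/2} Fs(floor e^v) kf dv <= lam INT kf (floor_mem, sqrt(floor e^v) <= e^{v/2}), INT kf <= C by kf_le. Interval integrability: bounded measurable.
-/

set_option autoImplicit false

namespace Pool.Agent.Helper66.LW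

open Finset MeasureTheory Pool.Agent.Helper5.RM Pool.Agent.Helper96.AF Pool.Agent.Helper96.AG

private theorem int69 (K : Ker) (r : ℕ) (h : ℕ → ℝ) (u : ℝ) {c : ℝ} (hc : 0 ≤ c) :
    IntervalIntegrable (fun v => Av h (v - c) * kf K r u v) volume (Vr r) (2 * Vr r) := by
  have hV := Vr_pos r
  have h1 : IntervalIntegrable (fun v => Av h (v - c)) volume (Vr r) (2 * Vr r) := by
    rw [intervalIntegrable_iff]
    refine Measure.integrableOn_of_bounded (M := Real.exp (c / 2) * ∑ m ∈ Finset.Icc 1 (Y (r + 1)), |h m|) ?_ ?_ ?_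
    · rw [Set.uIoc_of_le (by linarith)]
      exact measure_Ioc_lt_top.ne
    · exact ((measurable_Av h).comp (measurable_id.sub_const c)).aestronglyMeasurable
    · refine (ae_restrict_iff' measurableSet_uIoc).2 (Filter.Eventually.of_forall fun v hv => ?_)
      rw [Set.uIoc_of_le (by linarith)] at hv
      have hfl : ⌊Real.exp (v - c)⌋₊ ≤ Y (r + 1) := by
        apply Nat.floor_le_of_le
        rw [← exp_two_Vr]
        exact Real.exp_le_exp.2 (by linarith [hv.2])
      unfold Av Hs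
      rw [Real.norm_eq_abs, abs_mul, abs_of_pos (Real.exp_pos _)]
      refine mul_le_mul (Real.exp_le_exp.2 (by linarith [hv.1])) ?_ (abs_nonneg _) (Real.exp_pos _).le
      exact (Finset.abs_sum_le_sum_abs _ _).trans
        (Finset.sum_le_sum_of_subset_of_nonneg (Finset.Icc_subset_Icc le_rfl hfl) fun _ _ _ => abs_nonneg _)
  exact h1.mul_continuousOn (continuous_kf K r u).continuousOn

private theorem shift69 (h : ℕ → ℝ) {p : ℕ} (hp : 0 < p) (v : ℝ) :
    (Real.sqrt p)⁻¹ * Av h (v - Real.log p) = Real.exp (-(v / 2)) * Hs h (⌊Real.exp v⌋₊ / p) := by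
  have hp0 : (0 : ℝ) < p := by exact_mod_cast hp
  unfold Av
  have e1 : Real.exp (v - Real.log p) = Real.exp v / p := by rw [Real.exp_sub, Real.exp_log hp0]
  rw [e1, Nat.floor_div_natCast]
  have e2 : Real.exp (-((v - Real.log p) / 2)) = Real.exp (-(v / 2)) * Real.sqrt p := by
    rw [show -((v - Real.log p) / 2) = -(v / 2) + Real.log p / 2 by ring, Real.exp_add, Real.exp_half,
      Real.exp_log hp0]
  rw [e2]
  have := Real.sqrt_pos.2 hp0
  field_simp

private theorem arct69 (u a b : ℝ) : ∫ v in a..b, 1 / (1 + (u - v) ^ 2) ≤ Real.pi := by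
  rw [intervalIntegral.integral_comp_sub_left (fun x => 1 / (1 + x ^ 2)) u, integral_one_div_one_add_sq]
  have h1 := Real.arctan_lt_pi_div_two (u - a)
  have h2 := Real.neg_pi_div_two_lt_arctan (u - b)
  linarith

theorem Z_up (K : Ker) : ∃ C : ℝ, 0 < C ∧ ∃ r0 : ℕ, ∀ r : ℕ, r0 ≤ r → ∀ (h s : ℕ → ℝ) (lam : ℝ), 0 ≤ lam →
    (∀ n ∈ Finset.Icc (Y r) (Y (r + 1)), Fs r h s n ≤ lam * Real.sqrt n) →
    ∀ α : ℝ, 0 ≤ α → α ≤ 1 / sr r → RC K r h (Ur r + α) + ∑ p ∈ BL r, s p * aC K r h (Ur r + α) p ≤ C * lam := by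
  obtain ⟨C, hC, r0, hk⟩ := kf_le K
  refine ⟨C * Real.pi, by positivity, r0, fun r hr h s lam hlam hF α hα0 hα1 => ?_⟩
  set u := Ur r + α with hu
  have hV := Vr_pos r
  have hle : Vr r ≤ 2 * Vr r := by linarith
  have hlog : ∀ p : ℕ, 0 ≤ Real.log p := fun p => Real.log_natCast_nonneg p
  have hpos : ∀ p ∈ BL r, 0 < p := fun p hp => ((mem_BL.1 hp).1).pos
  have h0 : IntervalIntegrable (fun v => Av h v * kf K r u v) volume (Vr r) (2 * Vr r) := by
    simpa using int69 K r h u le_rfl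
  have hS : IntervalIntegrable (fun v => ∑ p ∈ BL r, s p * ((Real.sqrt p)⁻¹ * (Av h (v - Real.log p) * kf K r u v)))
      volume (Vr r) (2 * Vr r) := by
    have h1 := IntervalIntegrable.sum (μ := volume) (a := Vr r) (b := 2 * Vr r) (BL r)
      (f := fun p v => s p * ((Real.sqrt p)⁻¹ * (Av h (v - Real.log p) * kf K r u v)))
      (fun p _ => ((int69 K r h u (hlog p)).const_mul _).const_mul _)
    have h2 : (fun v => ∑ p ∈ BL r, s p * ((Real.sqrt p)⁻¹ * (Av h (v - Real.log p) * kf K r u v))) =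
        ∑ p ∈ BL r, fun v => s p * ((Real.sqrt p)⁻¹ * (Av h (v - Real.log p) * kf K r u v)) := by
      funext v
      rw [Finset.sum_apply]
    rw [h2]
    exact h1
  have heq : ∀ v, Av h v * kf K r u v + ∑ p ∈ BL r, s p * ((Real.sqrt p)⁻¹ * (Av h (v - Real.log p) * kf K r u v)) =
      (Real.exp (-(v / 2)) * Fs r h s ⌊Real.exp v⌋₊) * kf K r u v := by
    intro v
    have e3 : ∑ p ∈ BL r, s p * ((Real.sqrt p)⁻¹ * (Av h (v - Real.log p) * kf K r u v)) =
        (∑ p ∈ BL r, s p * (Real.exp (-(v / 2)) * Hs h (⌊Real.exp v⌋₊ / p))) * kf K r u v := by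
      rw [Finset.sum_mul]
      refine Finset.sum_congr rfl fun p hp => ?_
      rw [← shift69 h (hpos p hp) v]
      ring
    rw [e3, ← add_mul]
    congr 1
    unfold Fs Av
    rw [mul_add, Finset.mul_sum]
    congr 1
    exact Finset.sum_congr rfl fun p _ => by ring
  have hint : IntervalIntegrable (fun v => (Real.exp (-(v / 2)) * Fs r h s ⌊Real.exp v⌋₊) * kf K r u v)
      volume (Vr r) (2 * Vr r) := by
    rw [← funext heq]
    exact h0.add hS
  have e1 : RC K r h u + ∑ p ∈ BL r, s p * aC K r h u p =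
      ∫ v in (Vr r)..(2 * Vr r), (Real.exp (-(v / 2)) * Fs r h s ⌊Real.exp v⌋₊) * kf K r u v := by
    have e2 : ∑ p ∈ BL r, s p * aC K r h u p = ∫ v in (Vr r)..(2 * Vr r),
        ∑ p ∈ BL r, s p * ((Real.sqrt p)⁻¹ * (Av h (v - Real.log p) * kf K r u v)) := by
      rw [intervalIntegral.integral_finsetSum]
      · refine Finset.sum_congr rfl fun p _ => ?_
        unfold aC
        rw [intervalIntegral.integral_const_mul, intervalIntegral.integral_const_mul]
      · intro p _
        exact ((int69 K r h u (hlog p)).const_mul _).const_mul _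
    rw [e2]
    unfold RC
    rw [← intervalIntegral.integral_add h0 hS]
    exact intervalIntegral.integral_congr fun v _ => heq v
  rw [e1]
  have hac : Continuous fun v : ℝ => 1 / (1 + (u - v) ^ 2) := by
    refine Continuous.div continuous_const (by fun_prop) fun v => ?_
    positivity
  have hp1 : ∀ v ∈ Set.Icc (Vr r) (2 * Vr r), (Real.exp (-(v / 2)) * Fs r h s ⌊Real.exp v⌋₊) * kf K r u v ≤
      lam * C * (1 / (1 + (u - v) ^ 2)) := by
    intro v hv
    have h1 := hF _ (floor_mem hv.1 hv.2)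
    have h2 : Real.sqrt (⌊Real.exp v⌋₊ : ℝ) ≤ Real.exp (v / 2) := by
      rw [Real.exp_half]
      exact Real.sqrt_le_sqrt (Nat.floor_le (Real.exp_pos v).le)
    have h3 : Real.exp (-(v / 2)) * Fs r h s ⌊Real.exp v⌋₊ ≤ lam := by
      calc Real.exp (-(v / 2)) * Fs r h s ⌊Real.exp v⌋₊ ≤ Real.exp (-(v / 2)) * (lam * Real.exp (v / 2)) := by
            refine mul_le_mul_of_nonneg_left (h1.trans ?_) (Real.exp_pos _).le
            exact mul_le_mul_of_nonneg_left h2 hlam
        _ = lam := by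
            rw [mul_left_comm, ← Real.exp_add]
            simp
    have h4 := hk r hr u (by linarith) (by linarith) v hv.1 hv.2
    calc (Real.exp (-(v / 2)) * Fs r h s ⌊Real.exp v⌋₊) * kf K r u v ≤ lam * kf K r u v :=
          mul_le_mul_of_nonneg_right h3 (kf_nonneg K r u v)
      _ ≤ lam * (C / (1 + (u - v) ^ 2)) := mul_le_mul_of_nonneg_left h4 hlam
      _ = lam * C * (1 / (1 + (u - v) ^ 2)) := by ring
  calc ∫ v in (Vr r)..(2 * Vr r), (Real.exp (-(v / 2)) * Fs r h s ⌊Real.exp v⌋₊) * kf K r u v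
      ≤ ∫ v in (Vr r)..(2 * Vr r), lam * C * (1 / (1 + (u - v) ^ 2)) :=
        intervalIntegral.integral_mono_on hle hint ((hac.intervalIntegrable _ _).const_mul _) hp1
    _ = lam * C * ∫ v in (Vr r)..(2 * Vr r), 1 / (1 + (u - v) ^ 2) := by
        rw [intervalIntegral.integral_const_mul]
    _ ≤ lam * C * Real.pi := mul_le_mul_of_nonneg_left (arct69 _ _ _) (by positivity)
    _ = C * Real.pi * lam := by ring

end Pool.Agent.Helper66.LW
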