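import Pool.Agent.Helper66.LW.Basic

/-!
# Project LW (P1 on MP_a499ba_nt), block W

PROOF. eta = ContDiffBump (0:R) with rIn = 1/12, rOut = 1/8 (even, 0 <= eta <= 1). phi = Fourier transform of eta as a Schwartz function
(HasCompactSupport.toSchwartzMap, SchwartzMap.fourierTransformCLM, fourier_coe), w(x) = |INT eta(t) e^{itx} dt|^2 = |phi(-x/2pi)|^2, rho(t) = INT eta(s) eta(t-s) ds
(convolution: contDiff by HasCompactSupport.contDiff_convolution_left/right, support in [-1/4,1/4], rho >= 1/24 for |t| <= 1/8 since [-1/12,1/12] meets t-[-1/12,1/12] in length >= 1/24).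
w_eq: product of two integrals = double integral (eta even, so INT eta(t) e^{itx} dt is real), substitute t -> s+t. Decay: SchwartzMap.decay with (k,n) = (0,0) and (6,0), squared.
-/

set_option autoImplicit false

namespace Pool.Agent.Helper66.LW

open Finset MeasureTheory Pool.Agent.Helper5.RM Pool.Agent.Helper96.AF Pool.Agent.Helper96.AG

open scoped ContDiff FourierTransform

private noncomputable def bmp57 : ContDiffBump (0 : ℝ) where
  rIn := 1 / 12
  rOut := 1 / 8
  rIn_pos := by norm_num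
  rIn_lt_rOut := by norm_num

private noncomputable def et57 (t : ℝ) : ℝ := bmp57 t

private theorem et57_smooth : ContDiff ℝ ∞ et57 := bmp57.contDiff

private theorem et57_nonneg (t : ℝ) : 0 ≤ et57 t := bmp57.nonneg

private theorem et57_even (t : ℝ) : et57 (-t) = et57 t := bmp57.neg t

private theorem et57_supp {t : ℝ} (h : 1 / 8 ≤ |t|) : et57 t = 0 := by
  refine bmp57.zero_of_le_dist ?_
  rw [Real.dist_eq, sub_zero]
  exact h

private theorem et57_one {t : ℝ} (h : |t| ≤ 1 / 12) : et57 t = 1 := by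
  refine bmp57.one_of_mem_closedBall ?_
  rw [Metric.mem_closedBall, Real.dist_eq, sub_zero]
  exact h

private theorem et57_cs : HasCompactSupport et57 := bmp57.hasCompactSupport

private theorem et57_int : Integrable et57 := et57_smooth.continuous.integrable_of_hasCompactSupport et57_cs

/-- the transform -/
private noncomputable def F57 (x : ℝ) : ℂ := ∫ t : ℝ, (et57 t : ℂ) * Complex.exp (Complex.I * (t * x))

private noncomputable def rh57 (t : ℝ) : ℝ := ∫ s : ℝ, et57 s * et57 (t - s)

private theorem rh57_conv : rh57 = convolution et57 et57 (ContinuousLinearMap.mul ℝ ℝ) volume := by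
  funext t
  rfl

private theorem f57_int (x : ℝ) : Integrable (fun t : ℝ => (et57 t : ℂ) * Complex.exp (Complex.I * (t * x))) := by
  have hc : Continuous (fun t : ℝ => (et57 t : ℂ) * Complex.exp (Complex.I * (t * x))) := by
    have := et57_smooth.continuous
    fun_prop
  refine hc.integrable_of_hasCompactSupport ?_
  refine HasCompactSupport.intro et57_cs.isCompact fun t ht => ?_
  have : et57 t = 0 := by
    by_contra h
    exact ht (subset_tsupport _ h)
  rw [this]
  simp

private theorem F57_conj (x : ℝ) : (starRingEnd ℂ) (F57 x) = F57 x := by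
  unfold F57
  rw [← integral_conj, ← integral_neg_eq_self (fun t : ℝ => (et57 t : ℂ) * Complex.exp (Complex.I * (t * x)))]
  congr 1
  funext t
  rw [map_mul, Complex.conj_ofReal, et57_even, ← Complex.exp_conj]
  congr 2
  simp

private theorem F57_sq (x : ℝ) : ((‖F57 x‖ ^ 2 : ℝ) : ℂ) = F57 x * F57 x := by
  have h := Complex.mul_conj (F57 x)
  rw [F57_conj] at h
  rw [h, Complex.normSq_eq_norm_sq]

private theorem w57_eq (x : ℝ) : F57 x * F57 x = ∫ t : ℝ, (rh57 t : ℂ) * Complex.exp (Complex.I * (t * x)) := by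
  have h := integral_convolution (ContinuousLinearMap.mul ℝ ℂ) (f57_int x) (f57_int x)
  have h1 : ∀ t : ℝ, convolution (fun t : ℝ => (et57 t : ℂ) * Complex.exp (Complex.I * (t * x)))
      (fun t : ℝ => (et57 t : ℂ) * Complex.exp (Complex.I * (t * x))) (ContinuousLinearMap.mul ℝ ℂ) volume t =
      (rh57 t : ℂ) * Complex.exp (Complex.I * (t * x)) := by
    intro t
    rw [convolution_def]
    unfold rh57
    rw [← integral_complex_ofReal, ← integral_mul_const]
    congr 1
    funext s
    rw [ContinuousLinearMap.mul_apply']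
    have h2 : Complex.exp (Complex.I * (s * x)) * Complex.exp (Complex.I * (((t - s : ℝ) : ℂ) * x)) =
        Complex.exp (Complex.I * (t * x)) := by
      rw [← Complex.exp_add]
      congr 1
      push_cast
      ring
    calc (et57 s : ℂ) * Complex.exp (Complex.I * (s * x)) *
          ((et57 (t - s) : ℂ) * Complex.exp (Complex.I * (((t - s : ℝ) : ℂ) * x)))
        = (et57 s : ℂ) * (et57 (t - s) : ℂ) * (Complex.exp (Complex.I * (s * x)) *
          Complex.exp (Complex.I * (((t - s : ℝ) : ℂ) * x))) := by ring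
      _ = _ := by rw [h2]; push_cast; ring
  simp only [h1] at h
  rw [h, ContinuousLinearMap.mul_apply']
  rfl

/-- the Schwartz function -/
private theorem schw57 : ∃ g : SchwartzMap ℝ ℂ, ∀ x : ℝ, F57 x = g (-(x / (2 * Real.pi))) := by
  have h1 : HasCompactSupport (fun t : ℝ => (et57 t : ℂ)) := by
    refine HasCompactSupport.intro et57_cs.isCompact fun t ht => ?_
    have : et57 t = 0 := by
      by_contra h
      exact ht (subset_tsupport _ h)
    rw [this]
    simp
  have h2 : ContDiff ℝ ∞ (fun t : ℝ => (et57 t : ℂ)) := Complex.ofRealCLM.contDiff.comp et57_smooth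
  refine ⟨𝓕 (h1.toSchwartzMap h2), fun x => ?_⟩
  rw [SchwartzMap.fourier_coe, Real.fourier_real_eq_integral_exp_smul]
  unfold F57
  congr 1
  funext t
  show (et57 t : ℂ) * Complex.exp (Complex.I * (t * x)) =
    Complex.exp (((-2 * Real.pi * t * (-(x / (2 * Real.pi))) : ℝ) : ℂ) * Complex.I) • ((et57 t : ℝ) : ℂ)
  rw [smul_eq_mul, mul_comm]
  congr 2
  have hpi : (Real.pi : ℂ) ≠ 0 := by exact_mod_cast Real.pi_ne_zero
  push_cast
  field_simp

private theorem pow_one_add57 {x : ℝ} (hx : 0 ≤ x) : (1 + x) ^ 6 ≤ 64 * (1 + x ^ 6) := by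
  rcases le_total x 1 with h | h
  · have h1 : (1 + x) ^ 6 ≤ 2 ^ 6 := pow_le_pow_left₀ (by linarith) (by linarith) 6
    have h2 : 0 ≤ x ^ 6 := by positivity
    norm_num at h1
    linarith
  · have h1 : (1 + x) ^ 6 ≤ (2 * x) ^ 6 := pow_le_pow_left₀ (by linarith) (by linarith) 6
    rw [mul_pow] at h1
    norm_num at h1
    linarith

private theorem F57_dec : ∃ K : ℝ, 0 < K ∧ ∀ x, ‖F57 x‖ ≤ K / (1 + |x|) ^ 6 := by
  obtain ⟨g, hg⟩ := schw57
  obtain ⟨C0, hC0, h0⟩ := g.decay 0 0
  obtain ⟨C6, hC6, h6⟩ := g.decay 6 0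
  simp only [norm_iteratedFDeriv_zero, pow_zero, one_mul] at h0 h6
  refine ⟨64 * (C0 + (2 * Real.pi) ^ 6 * C6), by positivity, fun x => ?_⟩
  rw [le_div_iff₀ (by positivity), hg]
  have h1 := h0 (-(x / (2 * Real.pi)))
  have h2 := h6 (-(x / (2 * Real.pi)))
  have h3 := pow_one_add57 (abs_nonneg x)
  have h4 : ‖-(x / (2 * Real.pi))‖ ^ 6 * (2 * Real.pi) ^ 6 = |x| ^ 6 := by
    rw [norm_neg, Real.norm_eq_abs, ← mul_pow, abs_div, abs_of_pos (show (0:ℝ) < 2 * Real.pi by positivity)]
    congr 1
    field_simp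
  obtain ⟨G, hG⟩ : ∃ G : ℝ, G = ‖g (-(x / (2 * Real.pi)))‖ := ⟨_, rfl⟩
  rw [← hG] at h1 h2 ⊢
  have hG0 : 0 ≤ G := by rw [hG]; exact norm_nonneg _
  have h5 : |x| ^ 6 * G ≤ (2 * Real.pi) ^ 6 * C6 := by
    rw [← h4]
    calc ‖-(x / (2 * Real.pi))‖ ^ 6 * (2 * Real.pi) ^ 6 * G = (2 * Real.pi) ^ 6 * (‖-(x / (2 * Real.pi))‖ ^ 6 * G) := by ring
      _ ≤ _ := mul_le_mul_of_nonneg_left h2 (by positivity)
  calc G * (1 + |x|) ^ 6 ≤ G * (64 * (1 + |x| ^ 6)) := mul_le_mul_of_nonneg_left h3 hG0
    _ = 64 * (G + |x| ^ 6 * G) := by ring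
    _ ≤ 64 * (C0 + (2 * Real.pi) ^ 6 * C6) := by linarith

theorem ker_nonempty : Nonempty Ker := by
  refine ⟨⟨fun x => ‖F57 x‖ ^ 2, rh57, ?_, fun x => by positivity, ?_, ?_, ?_, ?_, ?_, ?_⟩⟩
  · obtain ⟨g, hg⟩ := schw57
    simp only [hg]
    have := g.continuous
    fun_prop
  · obtain ⟨K, hK, h⟩ := F57_dec
    refine ⟨K ^ 2, by positivity, fun x => ?_⟩
    calc ‖F57 x‖ ^ 2 ≤ (K / (1 + |x|) ^ 6) ^ 2 := pow_le_pow_left₀ (norm_nonneg _) (h x) 2
      _ = K ^ 2 / (1 + |x|) ^ 12 := by rw [div_pow, ← pow_mul]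
  · rw [rh57_conv]
    exact HasCompactSupport.contDiff_convolution_right (ContinuousLinearMap.mul ℝ ℝ) et57_cs
      et57_int.locallyIntegrable et57_smooth
  · intro t
    exact integral_nonneg fun s => mul_nonneg (et57_nonneg _) (et57_nonneg _)
  · intro t ht
    unfold rh57
    have h1 : (fun s : ℝ => et57 s * et57 (t - s)) = fun _ => 0 := by
      funext s
      rcases le_or_gt (1 / 8) |s| with h | h
      · rw [et57_supp h, zero_mul]
      · rw [et57_supp (t := t - s), mul_zero]
        have h2 : |t| - |s| ≤ |t - s| := abs_sub_abs_le_abs_sub t s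
        linarith
    rw [h1, integral_zero]
  · refine ⟨1 / 24, by norm_num, fun t ht => ?_⟩
    unfold rh57
    obtain ⟨a, ha⟩ : ∃ a : ℝ, a = max (-(1 / 12)) (t - 1 / 12) := ⟨_, rfl⟩
    obtain ⟨b, hb⟩ : ∃ b : ℝ, b = min (1 / 12) (t + 1 / 12) := ⟨_, rfl⟩
    have hab : b - a = 1 / 6 - |t| := by
      rcases le_total 0 t with h | h
      · rw [ha, hb, abs_of_nonneg h, min_eq_left (by linarith), max_eq_right (by linarith)]
        ring
      · rw [ha, hb, abs_of_nonpos h, min_eq_right (by linarith), max_eq_left (by linarith)]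
        ring
    have hI : Integrable (fun s : ℝ => et57 s * et57 (t - s)) := by
      have hc : Continuous (fun s : ℝ => et57 s * et57 (t - s)) := by
        have := et57_smooth.continuous
        fun_prop
      exact hc.integrable_of_hasCompactSupport et57_cs.mul_right
    have h1 : ∫ s : ℝ, (Set.Icc a b).indicator (fun _ => (1:ℝ)) s ≤ ∫ s : ℝ, et57 s * et57 (t - s) := by
      refine integral_mono ?_ hI fun s => ?_
      · exact (integrable_indicator_iff measurableSet_Icc).2 (integrableOn_const (by simp [Real.volume_Icc]))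
      · show (Set.Icc a b).indicator (fun _ => (1:ℝ)) s ≤ et57 s * et57 (t - s)
        by_cases hs : s ∈ Set.Icc a b
        · rw [Set.indicator_of_mem hs]
          rw [ha, hb, Set.mem_Icc, max_le_iff, le_min_iff] at hs
          rw [et57_one (abs_le.2 ⟨hs.1.1, hs.2.1⟩), et57_one (abs_le.2 ⟨by linarith [hs.2.2], by linarith [hs.1.2]⟩), one_mul]
        · rw [Set.indicator_of_notMem hs]
          exact mul_nonneg (et57_nonneg _) (et57_nonneg _)
    rw [integral_indicator_const _ measurableSet_Icc, Measure.real, Real.volume_Icc, hab, smul_eq_mul, mul_one,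
      ENNReal.toReal_ofReal (by linarith)] at h1
    linarith
  · intro x
    show (((‖F57 x‖ ^ 2 : ℝ)) : ℂ) = _
    rw [F57_sq, w57_eq]

end Pool.Agent.Helper66.LW
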