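import Pool.Agent.Helper66.LW.X
import Pool.Agent.Helper96.AF.F0

/-!
# Project LW (P1 on MP_a499ba_nt), block BC: Borel-Cantelli, general form
-/

set_option autoImplicit false

namespace Pool.Agent.Helper66.LW

open Finset MeasureTheory ProbabilityTheory Pool.Agent.Helper5.RM Pool.Agent.Helper96.AF Pool.Agent.Helper96.AG

theorem Hs_neg (h : ℕ → ℝ) (n : ℕ) : Hs (fun m => -h m) n = -Hs h n := by
  unfold Hs
  rw [Finset.sum_neg_distrib]

theorem Av_negf (h : ℕ → ℝ) (v : ℝ) : Av (fun m => -h m) v = -Av h v := by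
  unfold Av
  rw [Hs_neg]
  ring

theorem Fs_neg (r : ℕ) (h s : ℕ → ℝ) (n : ℕ) : Fs r (fun m => -h m) s n = -Fs r h s n := by
  unfold Fs
  simp only [Hs_neg, mul_neg, Finset.sum_neg_distrib]
  ring

theorem Adm.neg {r : ℕ} {h : ℕ → ℝ} {D : ℝ → ℂ} {B : ℝ} (hA : Adm r h D B) : Adm r (fun n => -h n) (fun t => -D t) B where
  le_one := fun n => by rw [abs_neg]; exact hA.le_one n
  summ := by simpa only [abs_neg] using hA.summ
  smooth := hA.smooth.neg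
  hasSum := fun t => by
    have h1 := (hA.hasSum t).neg
    have e : (fun n : ℕ => (((-h n : ℝ)) : ℂ) * (n : ℂ) ^ (-(((1 / 2 + sr r : ℝ) : ℂ) + Complex.I * (t : ℂ)))) =
        fun n : ℕ => -((h n : ℂ) * (n : ℂ) ^ (-(((1 / 2 + sr r : ℝ) : ℂ) + Complex.I * (t : ℂ)))) := by
      funext n
      rw [Complex.ofReal_neg, neg_mul]
    rw [e]
    exact h1
  int := by
    have := hA.int
    simpa only [Av_negf, neg_sq] using this
  mass0 := by
    have := hA.mass0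
    simpa only [Av_negf, neg_sq] using this
  mass1 := by
    have := hA.mass1
    simpa only [Av_negf, neg_sq] using this

/-- the good events of both signs at one scale have small exceptional sets -/
private theorem one_side (r : ℕ) (c : ℝ) (hc : 0 ≤ c) (G : Finset ℕ → Prop) (P : Finset ℕ → Prop)
    (h : ∀ T ⊆ PP (Y r), G T → pr (BL r) (fun T' => P (T ∪ T')) ≤ c) :
    pr (PP (Y (r + 1))) (fun T => G (T ∩ PP (Y r)) ∧ P T) ≤ c := by
  classical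
  rw [PP_Y_succ]
  unfold pr
  rw [av_union (BL_disj r)]
  refine (av_mono (G := fun _ => c) fun T hT => ?_).trans (av_const _ c).le
  by_cases hG : G T
  · refine le_trans ?_ (h T hT hG)
    refine pr_mono (P := fun T' => G ((T ∪ T') ∩ PP (Y r)) ∧ P (T ∪ T')) fun T' _ hp => hp.2
  · refine le_trans (le_of_eq ?_) hc
    refine (av_congr (G := fun _ => (0 : ℝ)) fun T' hT' => ?_).trans (av_const _ 0)
    rw [if_neg]
    rintro ⟨h1, _⟩
    apply hG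
    have h2 : (T ∪ T') ∩ PP (Y r) = T := by
      rw [Finset.union_inter_distrib_right, Finset.inter_eq_left.2 hT]
      have : T' ∩ PP (Y r) = ∅ := by
        rw [← Finset.disjoint_iff_inter_eq_empty]
        exact (BL_disj r).symm.mono_left hT'
      rw [this, Finset.union_empty]
    rwa [h2] at h1

private theorem TT_inter {Ω : Type*} (ε : ℕ → Ω → ℝ) (ω : Ω) (r : ℕ) : TT ε ω (Y (r + 1)) ∩ PP (Y r) = TT ε ω (Y r) := by
  unfold TT
  ext p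
  simp only [Finset.mem_inter, Finset.mem_filter]
  constructor
  · rintro ⟨⟨_, h1⟩, h2⟩
    exact ⟨h2, h1⟩
  · rintro ⟨h2, h1⟩
    exact ⟨⟨PP_Y_mono (Nat.le_succ r) h2, h1⟩, h2⟩

theorem low_gen (K : Ker) (δ : ℝ) (hδ : 0 < δ) (hδ2 : δ ≤ 1 / 16) {Ω : Type*} [MeasurableSpace Ω] (μ : Measure Ω)
    (ε : ℕ → Ω → ℝ) (hM : Unif μ ε) (hh : ℕ → Finset ℕ → ℕ → ℝ) (DD : ℕ → Finset ℕ → ℝ → ℂ) (F : Finset ℕ → ℕ → ℝ)
    (hpred : ∀ (r : ℕ) (T T' : Finset ℕ), (∀ p ∈ PP (Y r), (p ∈ T ↔ p ∈ T')) → hh r T = hh r T')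
    (hF : ∀ (r : ℕ) (T : Finset ℕ) (n : ℕ), n ≤ Y (r + 1) → Fs r (hh r T) (sg T) n = F T n)
    (G : ℕ → Finset ℕ → Prop)
    (hG1 : ∃ r0 : ℕ, ∀ r : ℕ, r0 ≤ r → ∀ T : Finset ℕ, G r T → Adm r (hh r T) (DD r T) (2 ^ r * (r : ℝ) ^ (-(1 / 2) + δ)))
    (hG2 : ∃ r0 : ℕ, ∀ r : ℕ, r0 ≤ r → ∀ T : Finset ℕ, G r T → ∀ k : ℕ, 2 ^ (r / 4) ≤ k → k ≤ 2 ^ r →
      2 ^ r * (r : ℝ) ^ (-(1 / 2) - δ) ≤ ∫ t in (1 / 16 : ℝ)..(1 / 8), (1 - Real.cos (k * t)) * ‖DD r T t‖ ^ 2)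
    (hG3 : ∀ᵐ ω ∂μ, ∃ r0 : ℕ, ∀ r, r0 ≤ r → G r (TT ε ω (Y r))) :
    ∀ᵐ ω ∂μ, ∃ r0 : ℕ, ∀ r, r0 ≤ r →
      (∃ n ∈ Finset.Icc (Y r) (Y (r + 1)), (r : ℝ) ^ (1 / 4 - δ) * Real.sqrt n < F (TT ε ω (Y (r + 1))) n) ∧
      (∃ n ∈ Finset.Icc (Y r) (Y (r + 1)), F (TT ε ω (Y (r + 1))) n < -((r : ℝ) ^ (1 / 4 - δ) * Real.sqrt n)) := by
  obtain ⟨r1, h1⟩ := hG1
  obtain ⟨r2, h2⟩ := hG2
  obtain ⟨r3, h3⟩ := one_scale K δ hδ hδ2
  -- change of the sign set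
  have hsplit : ∀ (r : ℕ) (T T' : Finset ℕ), T ⊆ PP (Y r) → T' ⊆ BL r → ∀ n ∈ Finset.Icc (Y r) (Y (r + 1)),
      F (T ∪ T') n = Fs r (hh r T) (sg T') n := by
    intro r T T' hT hT' n hn
    rw [← hF r (T ∪ T') n (Finset.mem_Icc.1 hn).2]
    have e1 : hh r (T ∪ T') = hh r T := by
      apply hpred
      intro p hp
      rw [Finset.mem_union]
      constructor
      · rintro (h | h)
        · exact h
        · exact absurd hp (Finset.disjoint_right.1 (BL_disj r) (hT' h))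
      · exact Or.inl
    rw [e1]
    unfold Fs
    congr 1
    refine Finset.sum_congr rfl fun p hp => ?_
    congr 1
    apply sg_congr
    rw [Finset.mem_union]
    constructor
    · rintro (h | h)
      · exact absurd (hT h) (Finset.disjoint_right.1 (BL_disj r) hp)
      · exact h
    · exact Or.inr
  have hg : Summable (fun r : ℕ => 1 / (r : ℝ) ^ 2) := by
    exact Real.summable_one_div_nat_pow.2 (by norm_num)
  have hup : ∀ᵐ ω ∂μ, ∃ i1 : ℕ, ∀ i, i1 ≤ i → ¬ (G i (TT ε ω (Y (i + 1)) ∩ PP (Y i)) ∧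
      ∀ n ∈ Finset.Icc (Y i) (Y (i + 1)), F (TT ε ω (Y (i + 1))) n ≤ (i : ℝ) ^ (1 / 4 - δ) * Real.sqrt n) := by
    refine bcU μ ε hM (fun r => Y (r + 1)) (fun r T => G r (T ∩ PP (Y r)) ∧
      ∀ n ∈ Finset.Icc (Y r) (Y (r + 1)), F T n ≤ (r : ℝ) ^ (1 / 4 - δ) * Real.sqrt n) _ hg (r1 + r2 + r3) fun r hr => ?_
    refine one_side r (1 / (r : ℝ) ^ 2) (by positivity) (G r) _ fun T hT hGT => ?_
    refine le_trans (pr_mono fun T' hT' hp => ?_) (h3 r (by omega) (hh r T) (DD r T) (h1 r (by omega) T hGT) (h2 r (by omega) T hGT))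
    intro n hn
    rw [← hsplit r T T' hT hT' n hn]
    exact hp n hn
  have hdn : ∀ᵐ ω ∂μ, ∃ i1 : ℕ, ∀ i, i1 ≤ i → ¬ (G i (TT ε ω (Y (i + 1)) ∩ PP (Y i)) ∧
      ∀ n ∈ Finset.Icc (Y i) (Y (i + 1)), -F (TT ε ω (Y (i + 1))) n ≤ (i : ℝ) ^ (1 / 4 - δ) * Real.sqrt n) := by
    refine bcU μ ε hM (fun r => Y (r + 1)) (fun r T => G r (T ∩ PP (Y r)) ∧
      ∀ n ∈ Finset.Icc (Y r) (Y (r + 1)), -F T n ≤ (r : ℝ) ^ (1 / 4 - δ) * Real.sqrt n) _ hg (r1 + r2 + r3) fun r hr => ?_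
    refine one_side r (1 / (r : ℝ) ^ 2) (by positivity) (G r) _ fun T hT hGT => ?_
    refine le_trans (pr_mono fun T' hT' hp => ?_) (h3 r (by omega) (fun n => -hh r T n) (fun t => -DD r T t) (h1 r (by omega) T hGT).neg
      fun k hk1 hk2 => ?_)
    · intro n hn
      rw [Fs_neg, ← hsplit r T T' hT hT' n hn]
      exact hp n hn
    · simp only [norm_neg]
      exact h2 r (by omega) T hGT k hk1 hk2
  filter_upwards [hup, hdn, hG3] with ω ⟨i1, hi1⟩ ⟨i2, hi2⟩ ⟨i3, hi3⟩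
  refine ⟨i1 + i2 + i3, fun r hr => ?_⟩
  have a1 := hi1 r (by omega)
  have a2 := hi2 r (by omega)
  have a3 := hi3 r (by omega)
  rw [TT_inter] at a1 a2
  constructor
  · by_contra hcon
    push Not at hcon
    exact a1 ⟨a3, hcon⟩
  · by_contra hcon
    push Not at hcon
    exact a2 ⟨a3, fun n hn => by have := hcon n hn; linarith⟩

end Pool.Agent.Helper66.LW
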