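import Pool.Agent.Helper66.LW.Basic
import Pool.Agent.Helper96.CM.Fin

/-!
# Project LW (P1 on MP_a499ba_nt): the lower bound for the chaos off the critical line, from helper96's chaos_lower
-/

set_option autoImplicit false

namespace Pool.Agent.Helper66.LW

open Finset MeasureTheory Pool.Agent.Helper5.RM Pool.Agent.Helper96.AF Pool.Agent.Helper96.AG

/-- the coefficients off the line -/
private noncomputable def cs (σ : ℝ) (p : ℕ) : ℝ := 2 * (p : ℝ) ^ (-(1 / 2 + σ)) / (1 + (p : ℝ) ^ (-(1 + 2 * σ)))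

private theorem cs_adm {σ : ℝ} (hσ : 0 ≤ σ) : Pool.Agent.Helper96.CM.Adm (cs σ) := by
  intro p
  unfold cs
  rcases Nat.eq_zero_or_pos p with hp | hp
  · rw [hp]
    rw [Nat.cast_zero, Real.zero_rpow (by linarith), Real.zero_rpow (by linarith)]
    simp
  have hp1 : (1 : ℝ) ≤ p := by exact_mod_cast hp
  have hp0 : (0 : ℝ) < p := by linarith
  refine ⟨by positivity, ?_⟩
  set x : ℝ := (p : ℝ) ^ (-(1 / 2 + σ)) with hx
  have hx0 : 0 < x := Real.rpow_pos_of_pos hp0 _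
  have hx2 : (p : ℝ) ^ (-(1 + 2 * σ)) = x ^ 2 := by
    rw [hx, ← Real.rpow_natCast, ← Real.rpow_mul hp0.le]
    congr 1
    push_cast
    ring
  have hs0 : 0 < Real.sqrt p := Real.sqrt_pos.2 hp0
  have hs2 : Real.sqrt p ^ 2 = p := Real.sq_sqrt hp0.le
  have hxs : x * Real.sqrt p ≤ 1 := by
    rw [hx, Real.sqrt_eq_rpow, ← Real.rpow_add hp0]
    exact Real.rpow_le_one_of_one_le_of_nonpos hp1 (by linarith)
  have hs1 : 1 ≤ Real.sqrt p := Real.one_le_sqrt.2 hp1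
  have hx1 : x ≤ 1 := by
    calc x = x * 1 := (mul_one x).symm
      _ ≤ x * Real.sqrt p := mul_le_mul_of_nonneg_left hs1 hx0.le
      _ ≤ 1 := hxs
  rw [hx2, div_le_div_iff₀ (by positivity) (by positivity)]
  -- x (p+1) ≤ s (1 + x^2), s = sqrt p: (1 - x s)(s - x) ≥ 0
  have h1 : 0 ≤ (1 - x * Real.sqrt p) * (Real.sqrt p - x) := mul_nonneg (by linarith) (by linarith)
  have h2 : (1 - x * Real.sqrt p) * (Real.sqrt p - x) = Real.sqrt p * (1 + x ^ 2) - x * (Real.sqrt p ^ 2 + 1) := by ring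
  rw [h2, hs2] at h1
  nlinarith

theorem CM (δ : ℝ) (hδ : 0 < δ) : ∃ r0 : ℕ, ∀ r : ℕ, r0 ≤ r →
    pr (PP (Y r)) (fun T => ∃ k : ℕ, 2 ^ (r / 4) ≤ k ∧ k ≤ 2 ^ r ∧
      ∫ t in (1 / 16 : ℝ)..(1 / 8), dds (sr r) (PP (Y r)) T t * (1 - Real.cos (k * t)) < (r : ℝ) ^ (-(1 / 2) - δ)) ≤
      1 / (r : ℝ) ^ 2 := by
  obtain ⟨K0, hK0⟩ := Pool.Agent.Helper96.CM.chaos_lower (1 / 16) (1 / 8) δ (by norm_num) (by norm_num) (by norm_num) hδ
  refine ⟨max K0 4, fun r hr => ?_⟩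
  have hr1 : K0 ≤ r := (le_max_left _ _).trans hr
  have hr2 : 4 ≤ r := (le_max_right _ _).trans hr
  have hs : 0 ≤ sr r := (sr_pos (by omega)).le
  let U : Finset ℝ := (Finset.Icc (2 ^ (r / 4)) (2 ^ r)).image (fun k : ℕ => (k : ℝ))
  have hU1 : U.card ≤ 4 ^ r := by
    refine Finset.card_image_le.trans ?_
    rw [Nat.card_Icc]
    have h1 : 1 ≤ 2 ^ (r / 4) := Nat.one_le_two_pow
    have h2 : 2 ^ r ≤ 4 ^ r := Nat.pow_le_pow_left (by norm_num) r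
    refine le_trans ?_ h2
    rw [tsub_le_iff_right]
    exact Nat.add_le_add_left h1 _
  have hU2 : ∀ u ∈ U, (2 : ℝ) ^ ((r : ℝ) / 16) ≤ |u| := by
    intro u hu
    obtain ⟨k, hk, rfl⟩ := Finset.mem_image.1 hu
    rw [Finset.mem_Icc] at hk
    rw [abs_of_nonneg (Nat.cast_nonneg _)]
    have h1 : (2 : ℝ) ^ ((r : ℝ) / 16) ≤ (2 : ℝ) ^ ((r / 4 : ℕ) : ℝ) := by
      apply Real.rpow_le_rpow_of_exponent_le (by norm_num)
      have h2 : r ≤ 16 * (r / 4) := by omega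
      have h3 : (r : ℝ) ≤ 16 * ((r / 4 : ℕ) : ℝ) := by exact_mod_cast h2
      linarith
    refine h1.trans ?_
    rw [Real.rpow_natCast]
    exact_mod_cast hk.1
  refine le_trans (pr_mono fun T _ hp => ?_) (hK0 r hr1 (cs (sr r)) (cs_adm hs) U hU1 hU2)
  obtain ⟨k, hk1, hk2, hk3⟩ := hp
  refine ⟨k, Finset.mem_image.2 ⟨k, Finset.mem_Icc.2 ⟨hk1, hk2⟩, rfl⟩, lt_of_le_of_lt (le_of_eq ?_) hk3⟩
  apply intervalIntegral.integral_congr
  intro t _
  simp only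
  rw [mul_comm (1 - _), mul_comm t (k : ℝ)]
  congr 1
  unfold Pool.Agent.Helper96.CM.dc dds Pool.Agent.Helper96.CM.tc cs ths
  refine Finset.prod_congr rfl fun p _ => ?_
  ring

end Pool.Agent.Helper66.LW
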