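import Pool.Agent.Helper66.LW.Basic
import Pool.Agent.Helper66.LW.MI
import Pool.Agent.Helper66.LW.F1
import Pool.Agent.Helper66.LW.F2
import Pool.Agent.Helper96.AF.E1d

/-!
# Project LW (P1 on MP_a499ba_nt), block F3

PROOF. hf is finitely supported (smooth squarefree): hasSum_sum_of_ne_finset_zero and the product formula prod (1+eps p^-s) = sum over subsets. Masses: Av_int and II_le (Helper96/AF/E1d):
INT_0^(log(Z+1)) Av^2 = 2^r II r Z T <= C 2^r DI r T for all Z; monotone limit; B = 2^r r^(-1/2+delta) absorbs 2C r^(-delta/2).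
-/

set_option autoImplicit false

namespace Pool.Agent.Helper66.LW

open Finset MeasureTheory Pool.Agent.Helper5.RM Pool.Agent.Helper96.AF Pool.Agent.Helper96.AG

/-- the support of `hf` -/
private noncomputable def supp99 (r : ℕ) : Finset ℕ := (PP (Y r)).powerset.image (fun A => ∏ p ∈ A, p)

private lemma sqf99 {A : Finset ℕ} (hA : ∀ p ∈ A, p.Prime) : Squarefree (∏ p ∈ A, p) := by
  refine Finset.squarefree_prod_of_pairwise_isCoprime ?_ fun p hp => (hA p hp).squarefree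
  intro p hp q hq hpq
  exact Nat.coprime_iff_isRelPrime.1 ((Nat.coprime_primes (hA p hp) (hA q hq)).2 hpq)

private lemma prime_of_sub99 {r : ℕ} {A : Finset ℕ} (hA : A ∈ (PP (Y r)).powerset) : ∀ p ∈ A, p.Prime :=
  fun p hp => (mem_PP.1 (Finset.mem_powerset.1 hA hp)).1

private lemma inj99 (r : ℕ) : Set.InjOn (fun A : Finset ℕ => ∏ p ∈ A, p) ((PP (Y r)).powerset : Set (Finset ℕ)) := by
  intro A hA A' hA' h
  simp only at h
  have h1 := Nat.primeFactors_prod (prime_of_sub99 (Finset.mem_coe.1 hA))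
  have h2 := Nat.primeFactors_prod (prime_of_sub99 (Finset.mem_coe.1 hA'))
  rw [← h1, ← h2, h]

private lemma hf_prod99 {r : ℕ} (T : Finset ℕ) {A : Finset ℕ} (hA : A ∈ (PP (Y r)).powerset) :
    hf r T (∏ p ∈ A, p) = ∏ p ∈ A, sg T p := by
  have hp := prime_of_sub99 hA
  have h1 := Nat.primeFactors_prod hp
  unfold hf
  rw [h1, if_pos (fun p hp' => (mem_PP.1 (Finset.mem_powerset.1 hA hp')).2), rf_sqf (sqf99 hp), h1]
  rfl

private lemma hf_zero99 {r : ℕ} (T : Finset ℕ) {n : ℕ} (hn : n ∉ supp99 r) : hf r T n = 0 := by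
  unfold hf
  split_ifs with h
  · by_contra h0
    have hsq : Squarefree n := by
      by_contra h1
      exact h0 (rf_not h1)
    apply hn
    unfold supp99
    rw [Finset.mem_image]
    refine ⟨n.primeFactors, ?_, Nat.prod_primeFactors_of_squarefree hsq⟩
    rw [Finset.mem_powerset]
    intro p hp
    exact mem_PP.2 ⟨Nat.prime_of_mem_primeFactors hp, h p hp⟩
  · rfl

private lemma abs_hf99 (r : ℕ) (T : Finset ℕ) (n : ℕ) : |hf r T n| ≤ 1 := by
  unfold hf
  split_ifs
  · exact abs_rf_le T n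
  · simp

private lemma cpow_prod99 (s : ℂ) (A : Finset ℕ) : ((∏ p ∈ A, p : ℕ) : ℂ) ^ s = ∏ p ∈ A, (p : ℂ) ^ s := by
  induction A using Finset.induction_on with
  | empty => simp
  | insert a A ha ih =>
    rw [Finset.prod_insert ha, Finset.prod_insert ha, ← ih, Nat.cast_mul]
    exact Complex.natCast_mul_natCast_cpow _ _ _

private lemma hasSum99 (r : ℕ) (T : Finset ℕ) (t : ℝ) :
    HasSum (fun n : ℕ => (hf r T n : ℂ) * (n : ℂ) ^ (-(((1 / 2 + sr r : ℝ) : ℂ) + Complex.I * (t : ℂ)))) (Df r T t) := by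
  have h1 : Df r T t = ∑ n ∈ supp99 r, (hf r T n : ℂ) * (n : ℂ) ^ (-(((1 / 2 + sr r : ℝ) : ℂ) + Complex.I * (t : ℂ))) := by
    unfold supp99
    rw [Finset.sum_image (inj99 r)]
    unfold Df
    rw [Finset.prod_one_add]
    refine Finset.sum_congr rfl fun A hA => ?_
    rw [hf_prod99 T hA, cpow_prod99, Finset.prod_mul_distrib, Complex.ofReal_prod]
  rw [h1]
  refine hasSum_sum_of_ne_finset_zero fun n hn => ?_
  rw [hf_zero99 T hn]
  simp

private lemma smooth99 (r : ℕ) (T : Finset ℕ) : ContDiff ℝ (⊤ : ℕ∞) (Df r T) := by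
  unfold Df
  refine contDiff_prod fun p hp => ?_
  refine contDiff_const.add (contDiff_const.mul ?_)
  have hp0 : (p : ℂ) ≠ 0 := by
    have := (mem_PP.1 hp).1.ne_zero
    exact_mod_cast this
  have e : (fun t : ℝ => (p : ℂ) ^ (-(((1 / 2 + sr r : ℝ) : ℂ) + Complex.I * (t : ℂ)))) =
      fun t : ℝ => Complex.exp (Complex.log p * (-(((1 / 2 + sr r : ℝ) : ℂ) + Complex.I * (t : ℂ)))) := by
    funext t
    rw [Complex.cpow_def_of_ne_zero hp0]
  rw [e]
  refine Complex.contDiff_exp.comp (contDiff_const.mul (contDiff_const.add (contDiff_const.mul ?_)).neg)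
  exact Complex.ofRealCLM.contDiff

/-- a bound for the partial sums -/
private noncomputable def bd99 (r : ℕ) (T : Finset ℕ) : ℝ := ∑ m ∈ supp99 r, |hf r T m|

private lemma bd_nonneg99 (r : ℕ) (T : Finset ℕ) : 0 ≤ bd99 r T := Finset.sum_nonneg fun _ _ => abs_nonneg _

private lemma Hs_bd99 (r : ℕ) (T : Finset ℕ) (n : ℕ) : |Hs (hf r T) n| ≤ bd99 r T := by
  classical
  unfold Hs bd99
  refine (Finset.abs_sum_le_sum_abs _ _).trans ?_
  rw [← Finset.sum_filter_of_ne (p := fun m => m ∈ supp99 r)]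
  · refine Finset.sum_le_sum_of_subset_of_nonneg (fun m hm => (Finset.mem_filter.1 hm).2) fun _ _ _ => abs_nonneg _
  · intro m _ hm
    by_contra h
    exact hm (by rw [hf_zero99 T h, abs_zero])

private lemma Av_sq_le99 (r : ℕ) (T : Finset ℕ) (v : ℝ) : Av (hf r T) v ^ 2 ≤ bd99 r T ^ 2 * Real.exp (-v) := by
  unfold Av
  rw [mul_pow, ← Real.exp_nat_mul]
  have e : ((2 : ℕ) : ℝ) * (-(v / 2)) = -v := by push_cast; ring
  rw [e, mul_comm]
  refine mul_le_mul_of_nonneg_right ?_ (Real.exp_pos _).le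
  rw [← sq_abs]
  exact pow_le_pow_left₀ (abs_nonneg _) (Hs_bd99 r T _) 2

private lemma int_Av99 (r : ℕ) (T : Finset ℕ) : IntegrableOn (fun v => Av (hf r T) v ^ 2) (Set.Ioi 0) := by
  refine Integrable.mono' ((integrableOn_exp_neg_Ioi 0).const_mul (bd99 r T ^ 2)) ?_ ?_
  · exact ((measurable_Av _).pow_const 2).aestronglyMeasurable
  · refine Filter.Eventually.of_forall fun v => ?_
    rw [Real.norm_of_nonneg (sq_nonneg _)]
    exact Av_sq_le99 r T v

theorem adm_f (δ : ℝ) (hδ : 0 < δ) : ∃ r0 : ℕ, ∀ r : ℕ, r0 ≤ r → ∀ T : Finset ℕ,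
    DI r T ≤ 2 * (r : ℝ) ^ (-(1 / 2) + δ / 2) → Adm r (hf r T) (Df r T) (2 ^ r * (r : ℝ) ^ (-(1 / 2) + δ)) := by
  obtain ⟨C, hC, hII⟩ := II_le
  have htend : Filter.Tendsto (fun r : ℕ => (r : ℝ) ^ (δ / 2)) Filter.atTop Filter.atTop :=
    (tendsto_rpow_atTop (by positivity)).comp tendsto_natCast_atTop_atTop
  obtain ⟨r1, hr1⟩ := Filter.eventually_atTop.1 (htend.eventually_ge_atTop (2 * C))
  refine ⟨max r1 2, fun r hr T hDI => ?_⟩
  have h1 := hr1 r ((le_max_left _ _).trans hr)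
  have hr2 : 2 ≤ r := (le_max_right _ _).trans hr
  have hr0 : (0 : ℝ) < r := by exact_mod_cast (show 0 < r by omega)
  have hs := sr_pos hr2
  set B : ℝ := 2 ^ r * (r : ℝ) ^ (-(1 / 2) + δ) with hB
  -- the masses
  have hm : ∀ Z : ℕ, ∫ v in (0 : ℝ)..(Real.log (Z + 1)), Av (hf r T) v ^ 2 ≤ B := by
    intro Z
    rw [Av_int]
    have h2 : ∑ n ∈ Finset.Icc 1 Z, Hs (hf r T) n ^ 2 / ((n : ℝ) * (n + 1)) = 2 ^ r * II r Z T := by
      unfold II
      rw [mul_div_cancel₀]
      · refine Finset.sum_congr rfl fun n _ => ?_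
        rw [Hs_hf]
      · positivity
    rw [h2]
    have h3 : (r : ℝ) ^ (-(1 / 2) + δ) = (r : ℝ) ^ (-(1 / 2) + δ / 2) * (r : ℝ) ^ (δ / 2) := by
      rw [← Real.rpow_add hr0]
      congr 1
      ring
    have h4 : 0 < (r : ℝ) ^ (-(1 / 2) + δ / 2) := Real.rpow_pos_of_pos hr0 _
    rw [hB, h3]
    refine mul_le_mul_of_nonneg_left ?_ (by positivity)
    calc II r Z T ≤ C * DI r T := hII r Z T
      _ ≤ C * (2 * (r : ℝ) ^ (-(1 / 2) + δ / 2)) := mul_le_mul_of_nonneg_left hDI hC.le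
      _ = (r : ℝ) ^ (-(1 / 2) + δ / 2) * (2 * C) := by ring
      _ ≤ _ := mul_le_mul_of_nonneg_left h1 h4.le
  have hint := int_Av99 r T
  have hintexp : IntegrableOn (fun v => Av (hf r T) v ^ 2 * Real.exp (-(sr r * v))) (Set.Ioi 0) := by
    refine Integrable.mono' hint ?_ ?_
    · exact (((measurable_Av _).pow_const 2).mul (Real.continuous_exp.comp (by fun_prop)).measurable).aestronglyMeasurable
    · rw [ae_restrict_iff' measurableSet_Ioi]
      refine Filter.Eventually.of_forall fun v hv => ?_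
      rw [Real.norm_of_nonneg (mul_nonneg (sq_nonneg _) (Real.exp_pos _).le)]
      refine mul_le_of_le_one_right (sq_nonneg _) ?_
      rw [Real.exp_le_one_iff]
      have : 0 < sr r * v := mul_pos hs hv
      linarith
  have hfull : ∫ v in Set.Ioi (0 : ℝ), Av (hf r T) v ^ 2 ≤ B := by
    have ht : Filter.Tendsto (fun Z : ℕ => Real.log ((Z : ℝ) + 1)) Filter.atTop Filter.atTop :=
      Real.tendsto_log_atTop.comp (Filter.tendsto_atTop_add_const_right _ _ tendsto_natCast_atTop_atTop)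
    exact le_of_tendsto' (intervalIntegral_tendsto_integral_Ioi 0 hint ht) hm
  refine ⟨abs_hf99 r T, ?_, smooth99 r T, hasSum99 r T, hintexp, ?_, ?_⟩
  · refine summable_of_ne_finset_zero (s := supp99 r) fun n hn => ?_
    rw [hf_zero99 T hn, abs_zero, zero_mul]
  · have h5 : Real.log (((Y (r + 1) - 1 : ℕ) : ℝ) + 1) = 2 * Vr r := by
      rw [Nat.cast_sub (Y_pos _), Nat.cast_one, sub_add_cancel, ← exp_two_Vr, Real.log_exp]
    have h6 := hm (Y (r + 1) - 1)
    rwa [h5] at h6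
  · refine le_trans (setIntegral_mono_on hintexp hint measurableSet_Ioi fun v hv => ?_) hfull
    refine mul_le_of_le_one_right (sq_nonneg _) ?_
    rw [Real.exp_le_one_iff]
    have : 0 < sr r * v := mul_pos hs hv
    linarith

end Pool.Agent.Helper66.LW
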