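import Pool.Agent.Helper66.LW.W
import Pool.Agent.Helper66.LW.BC
import Pool.Agent.Helper66.LW.CMg
import Pool.Agent.Helper66.LW.F1
import Pool.Agent.Helper66.LW.F2
import Pool.Agent.Helper66.LW.F3
import Pool.Agent.Helper96.AF.F1

/-!
# Project LW (P1 on MP_a499ba_nt): the squarefree model
-/

set_option autoImplicit false

namespace Pool.Agent.Helper66.LW

open Finset MeasureTheory ProbabilityTheory Pool.Agent.Helper5.RM Pool.Agent.Helper96.AF Pool.Agent.Helper96.AG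

/-- the chaos at level `r` is not too small -/
def Gch (δ : ℝ) (r : ℕ) (T : Finset ℕ) : Prop := ¬ ∃ k : ℕ, 2 ^ (r / 4) ≤ k ∧ k ≤ 2 ^ r ∧
      ∫ t in (1 / 16 : ℝ)..(1 / 8), dds (sr r) (PP (Y r)) T t * (1 - Real.cos (k * t)) < (r : ℝ) ^ (-(1 / 2) - δ)

theorem Gch_as (δ : ℝ) (hδ : 0 < δ) {Ω : Type*} [MeasurableSpace Ω] (μ : Measure Ω) (ε : ℕ → Ω → ℝ) (hM : Unif μ ε) :
    ∀ᵐ ω ∂μ, ∃ r0 : ℕ, ∀ r, r0 ≤ r → Gch δ r (TT ε ω (Y r)) := by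
  obtain ⟨r0, h0⟩ := CM δ hδ
  exact bcU μ ε hM Y (fun r T => ∃ k : ℕ, 2 ^ (r / 4) ≤ k ∧ k ≤ 2 ^ r ∧
      ∫ t in (1 / 16 : ℝ)..(1 / 8), dds (sr r) (PP (Y r)) T t * (1 - Real.cos (k * t)) < (r : ℝ) ^ (-(1 / 2) - δ))
    (fun r => 1 / (r : ℝ) ^ 2) (Real.summable_one_div_nat_pow.2 (by norm_num)) r0 h0

theorem lower_Df (δ : ℝ) (hδ : 0 < δ) : ∃ r0 : ℕ, ∀ r : ℕ, r0 ≤ r → ∀ T : Finset ℕ, Gch (δ / 2) r T →
    ∀ k : ℕ, 2 ^ (r / 4) ≤ k → k ≤ 2 ^ r →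
      2 ^ r * (r : ℝ) ^ (-(1 / 2) - δ) ≤ ∫ t in (1 / 16 : ℝ)..(1 / 8), (1 - Real.cos (k * t)) * ‖Df r T t‖ ^ 2 := by
  obtain ⟨r1, h1⟩ := prod_low (δ / 2) (by positivity)
  refine ⟨max r1 1, fun r hr T hG k hk1 hk2 => ?_⟩
  have hr0 : (0 : ℝ) < r := by exact_mod_cast (show 0 < r from lt_of_lt_of_le one_pos ((le_max_right _ _).trans hr))
  have h2 := h1 r ((le_max_left _ _).trans hr)
  have h3 : (r : ℝ) ^ (-(1 / 2) - δ / 2) ≤ ∫ t in (1 / 16 : ℝ)..(1 / 8), dds (sr r) (PP (Y r)) T t * (1 - Real.cos (k * t)) := by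
    by_contra hcon
    push Not at hcon
    exact hG ⟨k, hk1, hk2, hcon⟩
  have h4 : ∫ t in (1 / 16 : ℝ)..(1 / 8), (1 - Real.cos (k * t)) * ‖Df r T t‖ ^ 2 =
      (∏ p ∈ PP (Y r), (1 + (p : ℝ) ^ (-(1 + 2 * sr r)))) *
        ∫ t in (1 / 16 : ℝ)..(1 / 8), dds (sr r) (PP (Y r)) T t * (1 - Real.cos (k * t)) := by
    rw [← intervalIntegral.integral_const_mul]
    apply intervalIntegral.integral_congr
    intro t _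
    simp only
    rw [normsq_Df]
    ring
  rw [h4]
  have h5 : (r : ℝ) ^ (-(1 / 2) - δ) = (r : ℝ) ^ (-(δ / 2)) * (r : ℝ) ^ (-(1 / 2) - δ / 2) := by
    rw [← Real.rpow_add hr0]
    congr 1
    ring
  rw [h5, ← mul_assoc]
  refine mul_le_mul h2 h3 (by positivity) ?_
  exact le_trans (by positivity) h2

theorem low_f' (δ : ℝ) (hδ : 0 < δ) (hδ2 : δ ≤ 1 / 16) {Ω : Type*} [MeasurableSpace Ω] (μ : Measure Ω)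
    (ε : ℕ → Ω → ℝ) (hM : Unif μ ε) : ∀ᵐ ω ∂μ, ∃ r0 : ℕ, ∀ r, r0 ≤ r →
      (∃ n ∈ Finset.Icc (Y r) (Y (r + 1)), (r : ℝ) ^ (1 / 4 - δ) * Real.sqrt n < MM (TT ε ω (Y (r + 1))) n) ∧
      (∃ n ∈ Finset.Icc (Y r) (Y (r + 1)), MM (TT ε ω (Y (r + 1))) n < -((r : ℝ) ^ (1 / 4 - δ) * Real.sqrt n)) := by
  obtain ⟨K⟩ := ker_nonempty
  obtain ⟨r1, h1⟩ := adm_f δ hδ
  obtain ⟨r2, h2⟩ := lower_Df δ hδ
  refine low_gen K δ hδ hδ2 μ ε hM hf Df MM (fun r T T' h => hf_pred r T T' h) (fun r T n hn => Fs_hf r T n hn)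
    (fun r T => DI r T ≤ 2 * (r : ℝ) ^ (-(1 / 2) + δ / 2) ∧ Gch (δ / 2) r T)
    ⟨r1, fun r hr T hG => h1 r hr T hG.1⟩ ⟨r2, fun r hr T hG => h2 r hr T hG.2⟩ ?_
  filter_upwards [chaos_as (δ / 2) (by positivity) (by linarith) μ ε hM, Gch_as (δ / 2) (by positivity) μ ε hM] with ω ⟨a, ha⟩ ⟨b, hb⟩
  exact ⟨max a b, fun r hr => ⟨ha r ((le_max_left _ _).trans hr), hb r ((le_max_right _ _).trans hr)⟩⟩

/-- general statement: from exponents `1/4 - δ'`, `δ' ≤ 1/16` to all `δ > 0` -/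
theorem low_all (F : Finset ℕ → ℕ → ℝ) {Ω : Type*} [MeasurableSpace Ω] (μ : Measure Ω) (ε : ℕ → Ω → ℝ)
    (h : ∀ δ : ℝ, 0 < δ → δ ≤ 1 / 16 → ∀ᵐ ω ∂μ, ∃ r0 : ℕ, ∀ r, r0 ≤ r →
      (∃ n ∈ Finset.Icc (Y r) (Y (r + 1)), (r : ℝ) ^ (1 / 4 - δ) * Real.sqrt n < F (TT ε ω (Y (r + 1))) n) ∧
      (∃ n ∈ Finset.Icc (Y r) (Y (r + 1)), F (TT ε ω (Y (r + 1))) n < -((r : ℝ) ^ (1 / 4 - δ) * Real.sqrt n))) (δ : ℝ) (hδ : 0 < δ) :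
    ∀ᵐ ω ∂μ, ∃ r0 : ℕ, ∀ r, r0 ≤ r →
      (∃ n ∈ Finset.Icc (Y r) (Y (r + 1)), (r : ℝ) ^ (1 / 4 - δ) * Real.sqrt n < F (TT ε ω (Y (r + 1))) n) ∧
      (∃ n ∈ Finset.Icc (Y r) (Y (r + 1)), F (TT ε ω (Y (r + 1))) n < -((r : ℝ) ^ (1 / 4 - δ) * Real.sqrt n)) := by
  have hd : 0 < min δ (1 / 16) := lt_min hδ (by norm_num)
  filter_upwards [h (min δ (1 / 16)) hd (min_le_right _ _)] with ω ⟨r0, h0⟩
  refine ⟨max r0 1, fun r hr => ?_⟩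
  have hr1 : (1 : ℝ) ≤ r := by exact_mod_cast (le_max_right _ _).trans hr
  have hle : (r : ℝ) ^ (1 / 4 - δ) ≤ (r : ℝ) ^ (1 / 4 - min δ (1 / 16)) :=
    Real.rpow_le_rpow_of_exponent_le hr1 (by linarith [min_le_left δ (1 / 16)])
  obtain ⟨⟨n, hn, h1⟩, ⟨m, hm, h2⟩⟩ := h0 r ((le_max_left _ _).trans hr)
  refine ⟨⟨n, hn, lt_of_le_of_lt ?_ h1⟩, ⟨m, hm, lt_of_lt_of_le h2 ?_⟩⟩
  · exact mul_le_mul_of_nonneg_right hle (Real.sqrt_nonneg _)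
  · exact neg_le_neg (mul_le_mul_of_nonneg_right hle (Real.sqrt_nonneg _))

end Pool.Agent.Helper66.LW
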