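import Pool.Agent.Helper66.LW.Basic

/-!
# Project LW, block PL (second part): the Laplace transform of `Av`
-/

set_option autoImplicit false

namespace Pool.Agent.Helper66.LW

open Finset MeasureTheory Pool.Agent.Helper5.RM Pool.Agent.Helper96.AF

private theorem integrable_of_tsum {F : ℕ → ℝ → ℂ} {μ : Measure ℝ} (hF_int : ∀ i, Integrable (F i) μ)
    (hF_sum : Summable fun i => ∫ a, ‖F i a‖ ∂μ) (G : ℝ → ℂ) (hG : AEStronglyMeasurable G μ)
    (hGF : ∀ a, ‖G a‖ₑ ≤ ∑' i, ‖F i a‖ₑ) : Integrable G μ := by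
  refine ⟨hG, ?_⟩
  unfold HasFiniteIntegral
  refine lt_of_le_of_lt (lintegral_mono hGF) ?_
  rw [lintegral_tsum (fun i => (hF_int i).1.enorm)]
  have (i : ℕ) : ∫⁻ a, ‖F i a‖ₑ ∂μ = ENNReal.ofReal (∫ a, ‖F i a‖ ∂μ) := by
    rw [ofReal_integral_eq_lintegral_ofReal (hF_int i).norm (Filter.Eventually.of_forall fun a => norm_nonneg _)]
    simp only [ofReal_norm]
  rw [funext this]
  exact lt_top_iff_ne_top.2 hF_sum.tsum_ofReal_ne_top

private noncomputable def Fn (h : ℕ → ℝ) (s : ℂ) (n : ℕ) (v : ℝ) : ℂ :=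
  if 1 ≤ n ∧ Real.log n ≤ v then (h n : ℂ) * Complex.exp (-s * v) else 0

private theorem Fn_sum (h : ℕ → ℝ) (s : ℂ) (v : ℝ) (_hv : 0 < v) :
    HasSum (fun n => Fn h s n v) (((Hs h ⌊Real.exp v⌋₊ : ℝ) : ℂ) * Complex.exp (-s * v)) := by
  have e : ((Hs h ⌊Real.exp v⌋₊ : ℝ) : ℂ) * Complex.exp (-s * v) = ∑ n ∈ Finset.Icc 1 ⌊Real.exp v⌋₊, Fn h s n v := by
    unfold Hs
    push_cast
    rw [Finset.sum_mul]
    refine Finset.sum_congr rfl fun n hn => ?_
    rw [Finset.mem_Icc] at hn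
    unfold Fn
    rw [if_pos]
    refine ⟨hn.1, ?_⟩
    rw [Real.log_le_iff_le_exp (by exact_mod_cast hn.1)]
    exact (Nat.le_floor_iff (Real.exp_pos v).le).1 hn.2
  rw [e]
  apply hasSum_sum_of_ne_finset_zero
  intro n hn
  unfold Fn
  rw [if_neg]
  rintro ⟨h1, h2⟩
  apply hn
  rw [Finset.mem_Icc]
  refine ⟨h1, ?_⟩
  rw [Nat.le_floor_iff (Real.exp_pos v).le, ← Real.log_le_iff_le_exp (by exact_mod_cast h1)]
  exact h2

private theorem Fn_integrable (h : ℕ → ℝ) (s : ℂ) (hs : 0 < s.re) (n : ℕ) : Integrable (Fn h s n) (volume.restrict (Set.Ioi 0)) := by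
  have h1 : Integrable (fun v : ℝ => (h n : ℂ) * Complex.exp (-s * v)) (volume.restrict (Set.Ioi 0)) :=
    (integrableOn_exp_mul_complex_Ioi (a := -s) (by simpa using hs) 0).const_mul _
  refine h1.mono ?_ (Filter.Eventually.of_forall fun v => ?_)
  · have : Fn h s n = Set.indicator {v : ℝ | 1 ≤ n ∧ Real.log n ≤ v} (fun v : ℝ => (h n : ℂ) * Complex.exp (-s * v)) := by
      funext v
      by_cases hc : 1 ≤ n ∧ Real.log n ≤ v
      · rw [Set.indicator_of_mem (show v ∈ {v : ℝ | 1 ≤ n ∧ Real.log n ≤ v} from hc)]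
        unfold Fn
        rw [if_pos hc]
      · rw [Set.indicator_of_notMem (show v ∉ {v : ℝ | 1 ≤ n ∧ Real.log n ≤ v} from hc)]
        unfold Fn
        rw [if_neg hc]
    rw [this]
    apply AEStronglyMeasurable.indicator h1.1
    by_cases hn : 1 ≤ n
    · simp only [hn, true_and]
      exact measurableSet_Ici
    · simp [hn]
  · unfold Fn
    split_ifs
    · exact le_rfl
    · simp

private theorem Fn_integral (h : ℕ → ℝ) (s : ℂ) (hs : 0 < s.re) (n : ℕ) (hn : 1 ≤ n) :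
    ∫ v in Set.Ioi (0 : ℝ), Fn h s n v = (h n : ℂ) * (n : ℂ) ^ (-s) / s := by
  have hs0 : s ≠ 0 := by
    intro h0
    rw [h0] at hs
    simp at hs
  have hlog : 0 ≤ Real.log n := Real.log_nonneg (by exact_mod_cast hn)
  have e1 : ∫ v in Set.Ioi (0 : ℝ), Fn h s n v =
      ∫ v in Set.Ioi (0 : ℝ), Set.indicator (Set.Ioi (Real.log n)) (fun v : ℝ => (h n : ℂ) * Complex.exp (-s * v)) v := by
    apply integral_congr_ae
    have : ∀ᵐ v ∂(volume.restrict (Set.Ioi (0 : ℝ))), v ≠ Real.log n := by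
      apply ae_restrict_of_ae
      have : volume ({Real.log n} : Set ℝ) = 0 := Real.volume_singleton
      rw [← compl_mem_ae_iff] at this
      exact this
    filter_upwards [this] with v hv
    unfold Fn Set.indicator
    by_cases hv2 : Real.log n < v
    · rw [if_pos ⟨hn, hv2.le⟩, if_pos (show v ∈ Set.Ioi (Real.log n) from hv2)]
    · rw [if_neg (show ¬ (1 ≤ n ∧ Real.log n ≤ v) from fun h => hv2 (lt_of_le_of_ne h.2 (Ne.symm hv))),
        if_neg (show ¬ v ∈ Set.Ioi (Real.log n) from hv2)]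
  rw [e1, integral_indicator measurableSet_Ioi, Measure.restrict_restrict measurableSet_Ioi,
    Set.inter_eq_left.2 (Set.Ioi_subset_Ioi hlog), integral_const_mul,
    integral_exp_mul_complex_Ioi (a := -s) (by simpa using hs)]
  have hn0 : (n : ℂ) ≠ 0 := by
    have : n ≠ 0 := by omega
    exact_mod_cast this
  rw [Complex.cpow_def_of_ne_zero hn0, ← Complex.natCast_log, mul_comm (-s) (Real.log n : ℂ)]
  field_simp

private theorem Fn_norm_integral (h : ℕ → ℝ) (s : ℂ) (hs : 0 < s.re) (n : ℕ) (hn : 1 ≤ n) :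
    ∫ v in Set.Ioi (0 : ℝ), ‖Fn h s n v‖ = |h n| * (n : ℝ) ^ (-s.re) / s.re := by
  have e1 : ∀ v, ((‖Fn h s n v‖ : ℝ) : ℂ) = Fn (fun n => |h n|) (s.re : ℂ) n v := by
    intro v
    unfold Fn
    split_ifs
    · rw [norm_mul, Complex.norm_exp, Complex.norm_real, Real.norm_eq_abs]
      push_cast
      simp
    · simp
  have e2 : ((∫ v in Set.Ioi (0 : ℝ), ‖Fn h s n v‖ : ℝ) : ℂ) = ((|h n| * (n : ℝ) ^ (-s.re) / s.re : ℝ) : ℂ) := by
    rw [← integral_complex_ofReal]
    rw [integral_congr_ae (Filter.Eventually.of_forall fun v => e1 v), Fn_integral _ _ (by simpa using hs) n hn]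
    push_cast
    rw [Complex.ofReal_cpow (by positivity)]
    push_cast
    rfl
  exact_mod_cast e2

/-- the Laplace transform of `Av` off the critical line -/
theorem PLb (h : ℕ → ℝ) (σ : ℝ) (hσ : 0 < 1 / 2 + σ) (hsum : Summable fun n : ℕ => |h n| * (n : ℝ) ^ (-(1 / 2 + σ))) :
    Integrable (fun v : ℝ => Av h v * Real.exp (-(σ * v))) (volume.restrict (Set.Ioi 0)) ∧
    ∀ t : ℝ, HasSum (fun n : ℕ => (h n : ℂ) * (n : ℂ) ^ (-(((1 / 2 + σ : ℝ) : ℂ) + Complex.I * (t : ℂ))))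
      ((((1 / 2 + σ : ℝ) : ℂ) + Complex.I * (t : ℂ)) *
        ∫ v in Set.Ioi (0 : ℝ), ((Av h v * Real.exp (-(σ * v)) : ℝ) : ℂ) * Complex.exp (-(Complex.I * (t * v)))) := by
  have hre : ∀ t : ℝ, (((1 / 2 + σ : ℝ) : ℂ) + Complex.I * (t : ℂ)).re = 1 / 2 + σ := by
    intro t
    simp
  have hint : ∀ (t : ℝ) (n : ℕ), Integrable (Fn h (((1 / 2 + σ : ℝ) : ℂ) + Complex.I * (t : ℂ)) n) (volume.restrict (Set.Ioi 0)) :=
    fun t n => Fn_integrable h _ (by rw [hre]; exact hσ) n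
  have hF0 : ∀ (s : ℂ) (v : ℝ), Fn h s 0 v = 0 := by
    intro s v
    unfold Fn
    rw [if_neg]
    simp
  have hns : ∀ t : ℝ, Summable fun n : ℕ => ∫ v in Set.Ioi (0 : ℝ), ‖Fn h (((1 / 2 + σ : ℝ) : ℂ) + Complex.I * (t : ℂ)) n v‖ := by
    intro t
    have h1 : Summable fun n : ℕ => |h n| * (n : ℝ) ^ (-(1 / 2 + σ)) / (1 / 2 + σ) := hsum.div_const _
    refine h1.congr fun n => ?_
    rcases Nat.eq_zero_or_pos n with hn | hn
    · rw [hn]
      simp only [hF0]
      rw [Nat.cast_zero, Real.zero_rpow (by linarith)]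
      simp
    · rw [Fn_norm_integral h _ (by rw [hre]; exact hσ) n hn, hre]
  have key : ∀ (t v : ℝ), 0 < v → HasSum (fun n => Fn h (((1 / 2 + σ : ℝ) : ℂ) + Complex.I * (t : ℂ)) n v)
      (((Av h v * Real.exp (-(σ * v)) : ℝ) : ℂ) * Complex.exp (-(Complex.I * (t * v)))) := by
    intro t v hv
    have := Fn_sum h (((1 / 2 + σ : ℝ) : ℂ) + Complex.I * (t : ℂ)) v hv
    convert this using 1
    unfold Av
    push_cast
    rw [show Complex.exp (-(v / 2)) * ((Hs h ⌊Real.exp v⌋₊ : ℝ) : ℂ) * Complex.exp (-(σ * v)) * Complex.exp (-(Complex.I * (t * v))) =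
      ((Hs h ⌊Real.exp v⌋₊ : ℝ) : ℂ) * (Complex.exp (-(v / 2)) * Complex.exp (-(σ * v)) * Complex.exp (-(Complex.I * (t * v)))) by ring]
    congr 1
    rw [← Complex.exp_add, ← Complex.exp_add]
    congr 1
    ring
  have hmeas : Measurable (fun v : ℝ => Av h v * Real.exp (-(σ * v))) :=
    (measurable_Av h).mul (by fun_prop)
  refine ⟨?_, fun t => ?_⟩
  · have h1 : Integrable (fun v : ℝ => ((Av h v * Real.exp (-(σ * v)) : ℝ) : ℂ)) (volume.restrict (Set.Ioi 0)) := by
      have hmeasC : AEStronglyMeasurable (fun v : ℝ => ((Av h v * Real.exp (-(σ * v)) : ℝ) : ℂ)) (volume.restrict (Set.Ioi 0)) :=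
        (Complex.measurable_ofReal.comp hmeas).aestronglyMeasurable
      -- replace by the indicator to have the bound everywhere
      have h2 : Integrable (Set.indicator (Set.Ioi (0 : ℝ)) (fun v : ℝ => ((Av h v * Real.exp (-(σ * v)) : ℝ) : ℂ)))
          (volume.restrict (Set.Ioi 0)) := by
        refine integrable_of_tsum (fun n => hint 0 n) (hns 0) _ (hmeasC.indicator measurableSet_Ioi) fun v => ?_
        by_cases hv : 0 < v
        · rw [Set.indicator_of_mem (show v ∈ Set.Ioi (0 : ℝ) from hv)]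
          have h3 := key 0 v hv
          simp only [Complex.ofReal_zero, zero_mul, mul_zero, neg_zero, Complex.exp_zero, mul_one] at h3
          rw [← h3.tsum_eq]
          simp only [Complex.ofReal_zero, mul_zero]
          exact enorm_tsum_le_tsum_enorm
        · rw [Set.indicator_of_notMem (show v ∉ Set.Ioi (0 : ℝ) from hv)]
          simp
      refine h2.congr ?_
      filter_upwards [ae_restrict_mem measurableSet_Ioi] with v hv
      rw [Set.indicator_of_mem hv]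
    refine h1.re.congr (Filter.Eventually.of_forall fun v => ?_)
    exact Complex.ofReal_re _
  · have h1 := hasSum_integral_of_summable_integral_norm (fun n => hint t n) (hns t)
    have h2 : ∫ v in Set.Ioi (0 : ℝ), ∑' n, Fn h (((1 / 2 + σ : ℝ) : ℂ) + Complex.I * (t : ℂ)) n v =
        ∫ v in Set.Ioi (0 : ℝ), ((Av h v * Real.exp (-(σ * v)) : ℝ) : ℂ) * Complex.exp (-(Complex.I * (t * v))) := by
      apply setIntegral_congr_fun measurableSet_Ioi
      intro v hv
      exact (key t v hv).tsum_eq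
    rw [h2] at h1
    have h3 := h1.mul_left (((1 / 2 + σ : ℝ) : ℂ) + Complex.I * (t : ℂ))
    have hs0 : (((1 / 2 + σ : ℝ) : ℂ) + Complex.I * (t : ℂ)) ≠ 0 := by
      intro h0
      have := hre t
      rw [h0] at this
      simp only [Complex.zero_re] at this
      linarith
    have e : (fun n : ℕ => (h n : ℂ) * (n : ℂ) ^ (-(((1 / 2 + σ : ℝ) : ℂ) + Complex.I * (t : ℂ)))) =
        fun n : ℕ => (((1 / 2 + σ : ℝ) : ℂ) + Complex.I * (t : ℂ)) *
          ∫ v in Set.Ioi (0 : ℝ), Fn h (((1 / 2 + σ : ℝ) : ℂ) + Complex.I * (t : ℂ)) n v := by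
     funext n
     rcases Nat.eq_zero_or_pos n with hn | hn
     · rw [hn]
       simp only [hF0]
       rw [Nat.cast_zero, Complex.zero_cpow (neg_ne_zero.2 hs0)]
       simp
     · rw [Fn_integral h _ (by rw [hre]; exact hσ) n hn]
       generalize (((1 / 2 + σ : ℝ) : ℂ) + Complex.I * (t : ℂ)) = S at hs0 ⊢
       field_simp
    rw [e]
    exact h3

end Pool.Agent.Helper66.LW
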