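import Pool.Agent.Helper66.LW.Basic
import Pool.Agent.Helper66.LW.PLb

/-!
# Project LW (P1 on MP_a499ba_nt), block AT

PROOF. x = log p. sqrt p * aC = INT_V^{2V} Av(v-x) kf dv; Av(v-x) = 0 for v < x and V < x: = INT_x^oo - INT_{2V}^oo; e^{-sigma(v-U)} = e^{-sigma(x-U)} e^{-sigma(v-x)}, substitute
v -> v-x: INT_x^oo = e^{-sigma(x-U)} Gc(u-x), u = U+alpha. Tail: |INT_{2V}^oo| <= e^{-sigma(x-U)} (V^-8 INT A_s^2 + V^8 INT_{v>2V} w(u-v)^2)/2 (AM-GM), B <= 4^r.
(2V - u >= V/2 - 1/sigma >= V/4.)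
-/

set_option autoImplicit false

namespace Pool.Agent.Helper66.LW

open Finset MeasureTheory Pool.Agent.Helper5.RM Pool.Agent.Helper96.AF Pool.Agent.Helper96.AG

/-- the weighted sums are integrable -/
private lemma at47_int {r : ℕ} (hr : 2 ≤ r) {h : ℕ → ℝ} {D : ℝ → ℂ} {B : ℝ} (H : Adm r h D B) :
    Integrable (fun v => Av h v * Real.exp (-(sr r * v))) := by
  have h1 := (PLb h (sr r) (by have := sr_pos hr; linarith) H.summ).1
  have h2 : IntegrableOn (fun v => Av h v * Real.exp (-(sr r * v))) (Set.Iic 0) := by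
    rw [integrableOn_Iic_iff_integrableOn_Iio]
    have h0 : IntegrableOn (fun _ : ℝ => (0 : ℝ)) (Set.Iio 0) := integrableOn_zero
    refine h0.congr_fun ?_ measurableSet_Iio
    intro v hv
    simp [Av_neg h (Set.mem_Iio.1 hv)]
  have h3 := h2.union h1
  rwa [Set.Iic_union_Ioi, integrableOn_univ] at h3

private lemma at47_sq {r : ℕ} (hr : 2 ≤ r) {h : ℕ → ℝ} {D : ℝ → ℂ} {B : ℝ} (H : Adm r h D B) :
    Integrable (fun v => (Av h v * Real.exp (-(sr r * v))) ^ 2) ∧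
      ∫ v, (Av h v * Real.exp (-(sr r * v))) ^ 2 ≤ B := by
  have hs := sr_pos hr
  have hm : Measurable (fun v => (Av h v * Real.exp (-(sr r * v))) ^ 2) :=
    ((measurable_Av h).mul (by fun_prop)).pow_const 2
  have hle : ∀ v ∈ Set.Ioi (0 : ℝ), (Av h v * Real.exp (-(sr r * v))) ^ 2 ≤
      Av h v ^ 2 * Real.exp (-(sr r * v)) := by
    intro v hv
    have hv' : (0 : ℝ) < v := hv
    have h1 : Real.exp (-(sr r * v)) ≤ 1 := by
      rw [Real.exp_le_one_iff]
      have := mul_pos hs hv'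
      linarith
    have h2 := Real.exp_pos (-(sr r * v))
    have h3 : Real.exp (-(sr r * v)) ^ 2 ≤ Real.exp (-(sr r * v)) := by nlinarith
    rw [mul_pow]
    exact mul_le_mul_of_nonneg_left h3 (sq_nonneg _)
  have h1 : IntegrableOn (fun v => (Av h v * Real.exp (-(sr r * v))) ^ 2) (Set.Ioi 0) := by
    refine H.int.mono' hm.aestronglyMeasurable ?_
    filter_upwards [ae_restrict_mem measurableSet_Ioi] with v hv
    rw [Real.norm_eq_abs, abs_of_nonneg (sq_nonneg _)]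
    exact hle v hv
  have h2 : IntegrableOn (fun v => (Av h v * Real.exp (-(sr r * v))) ^ 2) (Set.Iic 0) := by
    rw [integrableOn_Iic_iff_integrableOn_Iio]
    have h0 : IntegrableOn (fun _ : ℝ => (0 : ℝ)) (Set.Iio 0) := integrableOn_zero
    refine h0.congr_fun ?_ measurableSet_Iio
    intro v hv
    simp [Av_neg h (Set.mem_Iio.1 hv)]
  have h3 := h2.union h1
  rw [Set.Iic_union_Ioi, integrableOn_univ] at h3
  refine ⟨h3, ?_⟩
  have e1 : ∫ v, (Av h v * Real.exp (-(sr r * v))) ^ 2 =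
      ∫ v in Set.Ioi (0 : ℝ), (Av h v * Real.exp (-(sr r * v))) ^ 2 := by
    rw [← integral_Ici_eq_integral_Ioi]
    symm
    apply setIntegral_eq_integral_of_forall_compl_eq_zero
    intro v hv
    have hv' : v < 0 := by simpa using hv
    simp [Av_neg h hv']
  rw [e1]
  exact (setIntegral_mono_on h1 H.int measurableSet_Ioi hle).trans H.mass1

/-- the exact difference -/
private lemma at47_eq (K : Ker) {r : ℕ} (hr : 2 ≤ r) {h : ℕ → ℝ} {D : ℝ → ℂ} {B : ℝ} (H : Adm r h D B)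
    (u : ℝ) {p : ℕ} (hp : p ∈ BL r) :
    Integrable (fun v => Av h (v - Real.log p) * kf K r u v) ∧
    Real.sqrt p * aC K r h u p - Real.exp (-(sr r * (Real.log p - Ur r))) * Gc K r h (u - Real.log p) =
      -∫ v in Set.Ioi (2 * Vr r), Av h (v - Real.log p) * kf K r u v := by
  obtain ⟨Cw, hCw, hdec⟩ := K.w_dec
  have hx := log_mem_BL hp
  set x := Real.log p with hxd
  set σ := sr r with hσ
  have hp0 : (0 : ℝ) < p := by
    have := (mem_BL.1 hp).1.pos
    exact_mod_cast this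
  have hF : ∀ v, Av h (v - x) * kf K r u v =
      Real.exp (-(σ * (x - Ur r))) * (Av h (v - x) * Real.exp (-(σ * (v - x))) * K.w (u - v)) := by
    intro v
    unfold kf
    rw [← hσ, show -(σ * (v - Ur r)) = -(σ * (x - Ur r)) + -(σ * (v - x)) by ring, Real.exp_add]
    ring
  have hA := at47_int hr H
  rw [← hσ] at hA
  have hA1 := hA.comp_sub_right x
  have hwb : ∀ y, ‖K.w y‖ ≤ Cw := by
    intro y
    rw [Real.norm_eq_abs, abs_of_nonneg (K.w_nonneg y)]
    refine (hdec y).trans ?_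
    apply div_le_self hCw.le
    apply one_le_pow₀
    have := abs_nonneg y
    linarith
  have hFint : Integrable (fun v => Av h (v - x) * kf K r u v) := by
    simp only [hF]
    apply Integrable.const_mul
    have hc : Continuous (fun v => K.w (u - v)) := K.w_cont.comp (by fun_prop)
    exact hA1.mul_bdd hc.aestronglyMeasurable (Filter.Eventually.of_forall fun v => hwb _)
  refine ⟨hFint, ?_⟩
  have e1 : Real.exp (-(σ * (x - Ur r))) * Gc K r h (u - x) = ∫ v, Av h (v - x) * kf K r u v := by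
    simp only [hF]
    rw [integral_const_mul]
    congr 1
    have e2 : ∀ v, Av h (v - x) * Real.exp (-(σ * (v - x))) * K.w (u - v) =
        (fun y => Av h y * Real.exp (-(σ * y)) * K.w (u - x - y)) (v - x) := by
      intro v
      simp only
      congr 2
      ring
    simp only [e2]
    rw [integral_sub_right_eq_self (fun y => Av h y * Real.exp (-(σ * y)) * K.w (u - x - y)) x]
    unfold Gc
    rw [← integral_Ici_eq_integral_Ioi]
    apply setIntegral_eq_integral_of_forall_compl_eq_zero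
    intro v hv
    have hv' : v < 0 := by simpa using hv
    simp [Av_neg h hv']
  have e3 : ∫ v, Av h (v - x) * kf K r u v = ∫ v in Set.Ioi (Vr r), Av h (v - x) * kf K r u v := by
    symm
    apply setIntegral_eq_integral_of_forall_compl_eq_zero
    intro v hv
    have hv' : v ≤ Vr r := by simpa using hv
    rw [Av_neg h (by linarith [hx.1]), zero_mul]
  have e4 : ∫ v in Set.Ioi (Vr r), Av h (v - x) * kf K r u v =
      (∫ v in (Vr r)..(2 * Vr r), Av h (v - x) * kf K r u v) +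
        ∫ v in Set.Ioi (2 * Vr r), Av h (v - x) * kf K r u v := by
    have hV := Vr_pos r
    rw [intervalIntegral.integral_of_le (by linarith), ← setIntegral_union (Set.Ioc_disjoint_Ioi le_rfl)
      measurableSet_Ioi hFint.integrableOn hFint.integrableOn, Set.Ioc_union_Ioi_eq_Ioi (by linarith)]
  have e5 : Real.sqrt p * aC K r h u p = ∫ v in (Vr r)..(2 * Vr r), Av h (v - x) * kf K r u v := by
    unfold aC
    rw [← mul_assoc, mul_inv_cancel₀ (Real.sqrt_pos.2 hp0).ne', one_mul]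
  rw [e1, e3, e4, e5]
  ring

/-- the pointwise bound for the square of the kernel -/
private lemma at47_w {Cw V d : ℝ} (hV : 0 < V) (hd : V / 4 ≤ d) :
    (Cw / (1 + d) ^ 12) ^ 2 ≤ 4 ^ 22 * Cw ^ 2 / V ^ 22 * (1 + d ^ 2)⁻¹ := by
  have hd0 : 0 ≤ d := by linarith
  have g2 : (V / 4) ^ 22 ≤ (1 + d) ^ 22 := pow_le_pow_left₀ (by positivity) (by linarith) _
  have g3 : 1 + d ^ 2 ≤ (1 + d) ^ 2 := by nlinarith
  have g4 : (V / 4) ^ 22 * (1 + d ^ 2) ≤ ((1 + d) ^ 12) ^ 2 := by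
    calc (V / 4) ^ 22 * (1 + d ^ 2) ≤ (1 + d) ^ 22 * (1 + d) ^ 2 :=
          mul_le_mul g2 g3 (by positivity) (by positivity)
      _ = ((1 + d) ^ 12) ^ 2 := by rw [← pow_add, ← pow_mul]
  rw [div_pow]
  have g5 : 4 ^ 22 * Cw ^ 2 / V ^ 22 * (1 + d ^ 2)⁻¹ = Cw ^ 2 / ((V / 4) ^ 22 * (1 + d ^ 2)) := by
    rw [div_pow]
    have h1 : (1 + d ^ 2) ≠ 0 := by positivity
    have h2 : V ^ 22 ≠ 0 := by positivity
    generalize V ^ 22 = W at *
    generalize (4 : ℝ) ^ 22 = Q at *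
    by_cases hQ : Q = 0
    · simp [hQ]
    · field_simp
  rw [g5]
  exact div_le_div_of_nonneg_left (by positivity) (by positivity) g4

/-- AM-GM -/
private lemma at47_am {a w e : ℝ} (he : 0 < e) :
    |a| * w ≤ 1 / 2 * (1 / e * a ^ 2 + e * w ^ 2) := by
  have g1 : 0 ≤ 1 / e * (|a| - e * w) ^ 2 := by positivity
  have g2 : 1 / e * (|a| - e * w) ^ 2 = 1 / e * a ^ 2 + e * w ^ 2 - 2 * (|a| * w) := by
    rw [← sq_abs a]
    field_simp
    ring
  linarith

theorem aC_eq (K : Ker) : ∃ r0 : ℕ, ∀ r : ℕ, r0 ≤ r → ∀ (h : ℕ → ℝ) (D : ℝ → ℂ) (B : ℝ), Adm r h D B → B ≤ 4 ^ r →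
    ∀ α : ℝ, 0 ≤ α → α ≤ 1 / sr r → ∀ p ∈ BL r,
    |Real.sqrt p * aC K r h (Ur r + α) p - Real.exp (-(sr r * (Real.log p - Ur r))) * Gc K r h (α + (Ur r - Real.log p))| ≤
      1 / Vr r ^ 2 := by
  obtain ⟨Cw, hCw, hdec⟩ := K.w_dec
  set C1 : ℝ := 2 + 4 ^ 22 * Cw ^ 2 * 2 with hC1
  have hC1p : 0 < C1 := by positivity
  obtain ⟨r1, h1⟩ := pow_le_Vr 20 (1 / C1) (by positivity) 4 (by norm_num)
  refine ⟨max r1 4, fun r hr h D B H hB α hα hα' p hp => ?_⟩
  have hr4 : 4 ≤ r := (le_max_right _ _).trans hr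
  have hr1 := h1 r ((le_max_left _ _).trans hr)
  have hV := Vr_pos r
  have hσ := sr_pos (show 2 ≤ r by omega)
  have hV1 : 1 ≤ Vr r := by
    refine le_trans ?_ (le_Vr r)
    have : (2 : ℝ) ^ 1 ≤ 2 ^ r := pow_le_pow_right₀ (by norm_num) (by omega)
    linarith
  have hx := log_mem_BL hp
  obtain ⟨hFint, hEq⟩ := at47_eq K (show 2 ≤ r by omega) H (Ur r + α) hp
  rw [show α + (Ur r - Real.log p) = Ur r + α - Real.log p by ring, hEq, abs_neg]
  set x := Real.log p with hxd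
  set u := Ur r + α with hu
  obtain ⟨hsq, hsqB⟩ := at47_sq (show 2 ≤ r by omega) H
  -- one over sigma
  have hinv : 1 / sr r ≤ Vr r / 4 := by
    have e := sr_mul_Vr r
    have hlog : 1 ≤ Real.log r := by
      rw [Real.le_log_iff_exp_le (by positivity)]
      have h2 := Real.exp_one_lt_d9
      have h3 : (4 : ℝ) ≤ r := by exact_mod_cast hr4
      linarith
    rw [div_le_div_iff₀ hσ (by norm_num)]
    nlinarith
  have hexp : Real.exp (-(sr r * (x - Ur r))) ≤ (r : ℝ) ^ 20 := by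
    have h2 : -(sr r * (x - Ur r)) ≤ sr r * (Vr r / 2) := by
      unfold Ur
      nlinarith [hx.1]
    refine (Real.exp_le_exp.2 h2).trans ?_
    have h3 := exp_sr_Vr (show 1 ≤ r by omega)
    have h4 : Real.exp (sr r * (Vr r / 2)) ^ 2 = ((r : ℝ) ^ 20) ^ 2 := by
      rw [← Real.exp_nat_mul, ← pow_mul, ← h3]
      congr 1
      push_cast
      ring
    have h5 := (sq_eq_sq₀ (Real.exp_pos _).le (by positivity)).1 h4
    exact h5.le
  -- pointwise bound
  have hpt : ∀ v ∈ Set.Ioi (2 * Vr r), ‖Av h (v - x) * kf K r u v‖ ≤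
      (r : ℝ) ^ 20 * (1 / 2 * (1 / Vr r ^ 8 * (Av h (v - x) * Real.exp (-(sr r * (v - x)))) ^ 2 +
        4 ^ 22 * Cw ^ 2 / Vr r ^ 14 * (1 + (v - u) ^ 2)⁻¹)) := by
    intro v hv
    have hv' : 2 * Vr r < v := hv
    have hF : Av h (v - x) * kf K r u v =
        Real.exp (-(sr r * (x - Ur r))) * (Av h (v - x) * Real.exp (-(sr r * (v - x))) * K.w (u - v)) := by
      unfold kf
      rw [show -(sr r * (v - Ur r)) = -(sr r * (x - Ur r)) + -(sr r * (v - x)) by ring, Real.exp_add]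
      ring
    rw [hF, norm_mul, Real.norm_eq_abs, abs_of_pos (Real.exp_pos _)]
    apply mul_le_mul hexp _ (norm_nonneg _) (by positivity)
    set a := Av h (v - x) * Real.exp (-(sr r * (v - x))) with ha
    rw [Real.norm_eq_abs, abs_mul, abs_of_nonneg (K.w_nonneg _)]
    have hd : Vr r / 4 ≤ v - u := by
      rw [hu]
      unfold Ur
      linarith
    have hd0 : 0 ≤ v - u := by linarith
    have hw : K.w (u - v) ≤ Cw / (1 + (v - u)) ^ 12 := by
      have := hdec (u - v)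
      rwa [show |u - v| = v - u by rw [abs_sub_comm, abs_of_nonneg hd0]] at this
    have hw2 : K.w (u - v) ^ 2 ≤ 4 ^ 22 * Cw ^ 2 / Vr r ^ 22 * (1 + (v - u) ^ 2)⁻¹ :=
      (pow_le_pow_left₀ (K.w_nonneg _) hw 2).trans (at47_w hV hd)
    have hV8 : (0 : ℝ) < Vr r ^ 8 := by positivity
    have ham := at47_am (a := a) (w := K.w (u - v)) hV8
    refine ham.trans ?_
    have g3 : Vr r ^ 8 * K.w (u - v) ^ 2 ≤ 4 ^ 22 * Cw ^ 2 / Vr r ^ 14 * (1 + (v - u) ^ 2)⁻¹ := by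
      calc Vr r ^ 8 * K.w (u - v) ^ 2 ≤ Vr r ^ 8 * (4 ^ 22 * Cw ^ 2 / Vr r ^ 22 * (1 + (v - u) ^ 2)⁻¹) :=
            mul_le_mul_of_nonneg_left hw2 hV8.le
        _ = 4 ^ 22 * Cw ^ 2 / Vr r ^ 14 * (1 + (v - u) ^ 2)⁻¹ := by
            rw [← mul_assoc]
            congr 1
            generalize 4 ^ 22 * Cw ^ 2 = Q
            field_simp
    linarith
  have hi1 : Integrable (fun v => (Av h (v - x) * Real.exp (-(sr r * (v - x)))) ^ 2) :=
    hsq.comp_sub_right x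
  have hi2 : Integrable (fun v : ℝ => (1 + (v - u) ^ 2)⁻¹) := integrable_inv_one_add_sq.comp_sub_right u
  have hi : Integrable (fun v => (r : ℝ) ^ 20 * (1 / 2 * (1 / Vr r ^ 8 * (Av h (v - x) * Real.exp (-(sr r * (v - x)))) ^ 2 +
        4 ^ 22 * Cw ^ 2 / Vr r ^ 14 * (1 + (v - u) ^ 2)⁻¹))) :=
    (((hi1.const_mul _).add (hi2.const_mul _)).const_mul _).const_mul _
  have hI1 : ∫ v, (Av h (v - x) * Real.exp (-(sr r * (v - x)))) ^ 2 ≤ B := by
    rw [integral_sub_right_eq_self (fun y => (Av h y * Real.exp (-(sr r * y))) ^ 2) x]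
    exact hsqB
  have hI2 : ∫ v : ℝ, (1 + (v - u) ^ 2)⁻¹ = Real.pi := by
    rw [integral_sub_right_eq_self (fun y : ℝ => (1 + y ^ 2)⁻¹) u]
    exact integral_univ_inv_one_add_sq
  have hbound : |∫ v in Set.Ioi (2 * Vr r), Av h (v - x) * kf K r u v| ≤
      (r : ℝ) ^ 20 * (1 / 2 * (1 / Vr r ^ 8 * B + 4 ^ 22 * Cw ^ 2 / Vr r ^ 14 * Real.pi)) := by
    rw [← Real.norm_eq_abs]
    calc ‖∫ v in Set.Ioi (2 * Vr r), Av h (v - x) * kf K r u v‖ ≤
          ∫ v in Set.Ioi (2 * Vr r), ‖Av h (v - x) * kf K r u v‖ := norm_integral_le_integral_norm _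
      _ ≤ ∫ v in Set.Ioi (2 * Vr r), (r : ℝ) ^ 20 * (1 / 2 * (1 / Vr r ^ 8 * (Av h (v - x) * Real.exp (-(sr r * (v - x)))) ^ 2 +
            4 ^ 22 * Cw ^ 2 / Vr r ^ 14 * (1 + (v - u) ^ 2)⁻¹)) :=
          setIntegral_mono_on hFint.norm.integrableOn hi.integrableOn measurableSet_Ioi hpt
      _ ≤ ∫ v, (r : ℝ) ^ 20 * (1 / 2 * (1 / Vr r ^ 8 * (Av h (v - x) * Real.exp (-(sr r * (v - x)))) ^ 2 +
            4 ^ 22 * Cw ^ 2 / Vr r ^ 14 * (1 + (v - u) ^ 2)⁻¹)) :=
          setIntegral_le_integral hi (Filter.Eventually.of_forall fun v => by positivity)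
      _ = (r : ℝ) ^ 20 * (1 / 2 * (1 / Vr r ^ 8 * (∫ v, (Av h (v - x) * Real.exp (-(sr r * (v - x)))) ^ 2) +
            4 ^ 22 * Cw ^ 2 / Vr r ^ 14 * Real.pi)) := by
          rw [integral_const_mul, integral_const_mul, integral_add (hi1.const_mul _) (hi2.const_mul _),
            integral_const_mul, integral_const_mul, hI2]
      _ ≤ _ := by
          have : 0 ≤ 1 / Vr r ^ 8 := by positivity
          gcongr
  refine hbound.trans ?_
  have hB' : B ≤ 4 * Vr r ^ 2 := by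
    refine hB.trans ?_
    have g1 := le_Vr r
    have g2 : (4 : ℝ) ^ r = (2 ^ r) ^ 2 := by rw [← pow_mul, mul_comm, pow_mul]; norm_num
    rw [g2]
    have g3 : (2 : ℝ) ^ r ≤ 2 * Vr r := by linarith
    calc ((2 : ℝ) ^ r) ^ 2 ≤ (2 * Vr r) ^ 2 := pow_le_pow_left₀ (by positivity) g3 2
      _ = 4 * Vr r ^ 2 := by ring
  have hpi : Real.pi ≤ 4 := Real.pi_le_four
  have s1 : 1 / Vr r ^ 8 * B ≤ 4 / Vr r ^ 6 := by
    calc 1 / Vr r ^ 8 * B ≤ 1 / Vr r ^ 8 * (4 * Vr r ^ 2) :=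
          mul_le_mul_of_nonneg_left hB' (by positivity)
      _ = 4 / Vr r ^ 6 := by field_simp
  have s2 : 4 ^ 22 * Cw ^ 2 / Vr r ^ 14 * Real.pi ≤ 4 ^ 22 * Cw ^ 2 * 4 / Vr r ^ 6 := by
    have g1 : Vr r ^ 6 ≤ Vr r ^ 14 := pow_le_pow_right₀ hV1 (by norm_num)
    calc 4 ^ 22 * Cw ^ 2 / Vr r ^ 14 * Real.pi ≤ 4 ^ 22 * Cw ^ 2 / Vr r ^ 6 * 4 := by
          apply mul_le_mul _ hpi Real.pi_pos.le (by positivity)
          exact div_le_div_of_nonneg_left (by positivity) (by positivity) g1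
      _ = _ := by ring
  have s3 : (r : ℝ) ^ 20 * (1 / 2 * (1 / Vr r ^ 8 * B + 4 ^ 22 * Cw ^ 2 / Vr r ^ 14 * Real.pi)) ≤
      (r : ℝ) ^ 20 * (C1 / Vr r ^ 6) := by
    apply mul_le_mul_of_nonneg_left _ (by positivity)
    have : C1 / Vr r ^ 6 = 1 / 2 * (4 / Vr r ^ 6 + 4 ^ 22 * Cw ^ 2 * 4 / Vr r ^ 6) := by
      rw [hC1]; ring
    rw [this]
    linarith
  refine s3.trans ?_
  calc (r : ℝ) ^ 20 * (C1 / Vr r ^ 6) ≤ (1 / C1 * Vr r ^ 4) * (C1 / Vr r ^ 6) :=
        mul_le_mul_of_nonneg_right hr1 (by positivity)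
    _ = 1 / Vr r ^ 2 := by field_simp

end Pool.Agent.Helper66.LW
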