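import Pool.Agent.Helper66.LW.Defs

/-!
# Project LW, basic lemmas
-/

set_option autoImplicit false

namespace Pool.Agent.Helper66.LW

open Finset MeasureTheory Pool.Agent.Helper5.RM Pool.Agent.Helper96.AF

theorem measurable_Av (h : ℕ → ℝ) : Measurable (Av h) := by
  unfold Av
  apply Measurable.mul
  · exact (Real.continuous_exp.comp (by fun_prop)).measurable
  · exact (measurable_from_nat (f := fun n => Hs h n)).comp (Nat.measurable_floor.comp Real.measurable_exp)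

theorem Av_neg (h : ℕ → ℝ) {v : ℝ} (hv : v < 0) : Av h v = 0 := by
  unfold Av Hs
  rw [Nat.floor_eq_zero.2 (by rw [Real.exp_lt_one_iff]; exact hv)]
  simp

theorem abs_Hs_le {h : ℕ → ℝ} (hh : ∀ n, |h n| ≤ 1) (n : ℕ) : |Hs h n| ≤ n := by
  unfold Hs
  refine (Finset.abs_sum_le_sum_abs _ _).trans ((Finset.sum_le_sum fun m _ => hh m).trans ?_)
  simp

theorem abs_Av_le {h : ℕ → ℝ} (hh : ∀ n, |h n| ≤ 1) (v : ℝ) : |Av h v| ≤ Real.exp (v / 2) := by
  unfold Av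
  rw [abs_mul, abs_of_pos (Real.exp_pos _)]
  have h1 : |Hs h ⌊Real.exp v⌋₊| ≤ Real.exp v := (abs_Hs_le hh _).trans (Nat.floor_le (Real.exp_pos v).le)
  calc Real.exp (-(v / 2)) * |Hs h ⌊Real.exp v⌋₊| ≤ Real.exp (-(v / 2)) * Real.exp v :=
        mul_le_mul_of_nonneg_left h1 (Real.exp_pos _).le
    _ = Real.exp (v / 2) := by rw [← Real.exp_add]; congr 1; ring

theorem Vr_pos (r : ℕ) : 0 < Vr r := by
  unfold Vr
  have := Real.log_pos (show (1 : ℝ) < 2 by norm_num)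
  positivity

theorem Vr_le (r : ℕ) : Vr r ≤ 2 ^ r := by
  unfold Vr
  have h1 := Real.log_two_lt_d9
  have h2 : (0 : ℝ) < 2 ^ r := by positivity
  nlinarith

theorem le_Vr (r : ℕ) : 2 ^ r / 2 ≤ Vr r := by
  unfold Vr
  have h1 := Real.log_two_gt_d9
  have h2 : (0 : ℝ) < 2 ^ r := by positivity
  nlinarith

theorem sr_pos {r : ℕ} (hr : 2 ≤ r) : 0 < sr r := by
  unfold sr
  have h1 : 0 < Real.log r := Real.log_pos (by exact_mod_cast hr)
  have h2 := Vr_pos r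
  positivity

theorem sr_mul_Vr (r : ℕ) : sr r * Vr r = 40 * Real.log r := by
  unfold sr
  field_simp [(Vr_pos r).ne']

theorem exp_sr_Vr {r : ℕ} (hr : 1 ≤ r) : Real.exp (sr r * Vr r) = (r : ℝ) ^ 40 := by
  rw [sr_mul_Vr, mul_comm, Real.exp_mul, Real.exp_log (by exact_mod_cast hr)]
  exact_mod_cast Real.rpow_natCast (r : ℝ) 40

theorem exp_Vr (r : ℕ) : Real.exp (Vr r) = Y r := by
  unfold Vr
  rw [← log_Y, Real.exp_log (by exact_mod_cast Y_pos r)]

theorem two_Vr (r : ℕ) : 2 * Vr r = Vr (r + 1) := by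
  unfold Vr
  ring

theorem exp_two_Vr (r : ℕ) : Real.exp (2 * Vr r) = Y (r + 1) := by
  rw [two_Vr, exp_Vr]

/-- polynomials in `r` are eventually smaller than small powers of `2^r` -/
theorem pow_le_Vr (a : ℕ) (c : ℝ) (hc : 0 < c) (b : ℕ) (hb : 1 ≤ b) :
    ∃ r0 : ℕ, ∀ r : ℕ, r0 ≤ r → (r : ℝ) ^ a ≤ c * Vr r ^ b := by
  have h1 : Filter.Tendsto (fun r : ℕ => (r : ℝ) ^ a / 2 ^ r) Filter.atTop (nhds 0) := by
    exact tendsto_pow_const_div_const_pow_of_one_lt a (by norm_num)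
  have h2 : ∀ᶠ r : ℕ in Filter.atTop, (r : ℝ) ^ a / 2 ^ r < c / 2 := h1.eventually_lt_const (by positivity)
  obtain ⟨r0, hr0⟩ := Filter.eventually_atTop.1 h2
  refine ⟨max r0 1, fun r hr => ?_⟩
  have h3 := hr0 r ((le_max_left _ _).trans hr)
  have hr1 : 1 ≤ r := (le_max_right _ _).trans hr
  rw [div_lt_iff₀ (by positivity)] at h3
  have h4 : (1 : ℝ) ≤ Vr r := by
    refine le_trans ?_ (le_Vr r)
    have : (2 : ℝ) ^ 1 ≤ 2 ^ r := pow_le_pow_right₀ (by norm_num) hr1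
    linarith
  have h5 : Vr r ≤ Vr r ^ b := by
    calc Vr r = Vr r ^ 1 := (pow_one _).symm
      _ ≤ Vr r ^ b := pow_le_pow_right₀ h4 hb
  have h6 := le_Vr r
  nlinarith

/-- `sr r` is eventually smaller than any constant; quantitatively `40 r ≤ ... ` -/
theorem sr_le (r : ℕ) (hr : 2 ≤ r) : sr r ≤ 40 * r / Vr r := by
  unfold sr
  have h2 := Vr_pos r
  refine div_le_div_of_nonneg_right ?_ h2.le
  have h0 : (0 : ℝ) < r := by exact_mod_cast (show 0 < r by omega)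
  have := Real.log_le_sub_one_of_pos h0
  linarith

theorem sr_small (c : ℝ) (hc : 0 < c) : ∃ r0 : ℕ, ∀ r : ℕ, r0 ≤ r → sr r ≤ c := by
  obtain ⟨r0, h0⟩ := pow_le_Vr 1 (c / 40) (by positivity) 1 le_rfl
  refine ⟨max r0 2, fun r hr => ?_⟩
  have h1 := h0 r ((le_max_left _ _).trans hr)
  have h2 := Vr_pos r
  refine (sr_le r ((le_max_right _ _).trans hr)).trans ?_
  rw [div_le_iff₀ h2]
  rw [pow_one, pow_one] at h1
  linarith

/-- for `v ∈ [Vr r, 2 Vr r]`: the floor of `exp v` is in `[Y r, Y (r+1)]` -/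
theorem floor_mem {r : ℕ} {v : ℝ} (h1 : Vr r ≤ v) (h2 : v ≤ 2 * Vr r) : ⌊Real.exp v⌋₊ ∈ Finset.Icc (Y r) (Y (r + 1)) := by
  rw [Finset.mem_Icc]
  constructor
  · apply Nat.le_floor
    rw [← exp_Vr]
    exact Real.exp_le_exp.2 h1
  · apply Nat.floor_le_of_le
    rw [← exp_two_Vr]
    exact Real.exp_le_exp.2 h2

theorem log_mem_BL {r p : ℕ} (hp : p ∈ BL r) : Vr r < Real.log p ∧ Real.log p ≤ 2 * Vr r := by
  rw [mem_BL] at hp
  have hY : (0 : ℝ) < Y r := by exact_mod_cast Y_pos r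
  have hp0 : (0 : ℝ) < p := by
    have := hp.1.pos
    exact_mod_cast this
  constructor
  · rw [Real.lt_log_iff_exp_lt hp0, exp_Vr]
    exact_mod_cast hp.2.1
  · rw [Real.log_le_iff_le_exp hp0, exp_two_Vr]
    exact_mod_cast hp.2.2

theorem continuous_kf (K : Ker) (r : ℕ) (u : ℝ) : Continuous (kf K r u) := by
  unfold kf
  have := K.w_cont
  fun_prop

theorem kf_nonneg (K : Ker) (r : ℕ) (u v : ℝ) : 0 ≤ kf K r u v :=
  mul_nonneg (Real.exp_pos _).le (K.w_nonneg _)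

end Pool.Agent.Helper66.LW
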