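import Pool.Agent.Helper66.LW.Basic

/-!
# Project LW (P1 on MP_a499ba_nt), block CWa

PROOF. Windows (2^m, 2^(m+1)], 2^r <= m < 2^(r+1): p > 2^m gives card * m log 2 <= theta(2^(m+1)) <= log 4 * 2^(m+1) (Mathlib: NumberTheory/Chebyshev, theta_le_log4_mul_x),
so sum_{p in window} 1/p <= 4/m. kappa(z) = 1/(1+z^2): kappa(z) <= 3 kappa(z') for |z-z'| <= 1, so kappa(y - log p) <= (3/log 2) INT_{window} kappa(y-x) dx;
sum over the windows <= (3/log 2) INT kappa = (3/log 2) pi (integral_univ_inv_one_add_sq). (Or: sum over integers j of 1/(1+(x-j)^2) <= C.)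
-/

set_option autoImplicit false

namespace Pool.Agent.Helper66.LW

open Finset MeasureTheory Pool.Agent.Helper5.RM Pool.Agent.Helper96.AF Pool.Agent.Helper96.AG

private theorem kap_le21 {z z' : ℝ} (h : |z - z'| ≤ 1) : 1 / (1 + z ^ 2) ≤ 3 * (1 / (1 + z' ^ 2)) := by
  have h1 : z' ^ 2 ≤ 2 * z ^ 2 + 2 := by
    have h2 := abs_le.1 h
    have h3 : (z - z') ^ 2 ≤ 1 := by nlinarith [h2.1, h2.2]
    nlinarith [sq_nonneg (z + (z - z')), sq_nonneg (2 * z - z')]
  rw [mul_one_div, div_le_div_iff₀ (by positivity) (by positivity)]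
  nlinarith [sq_nonneg z]

private theorem summ21 : Summable fun j : ℤ => 1 / (1 + (j : ℝ) ^ 2) := by
  have h1 : Summable fun j : ℤ => 1 / (j : ℝ) ^ 2 + (if j = 0 then (1 : ℝ) else 0) :=
    (Real.summable_one_div_int_pow.2 (by norm_num)).add (hasSum_ite_eq 0 (1 : ℝ)).summable
  refine Summable.of_nonneg_of_le (fun j => by positivity) (fun j => ?_) h1
  rcases eq_or_ne j 0 with h | h
  · subst h
    norm_num
  · rw [if_neg h, add_zero]
    have h2 : (0 : ℝ) < (j : ℝ) ^ 2 := by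
      have : (j : ℝ) ≠ 0 := by exact_mod_cast h
      positivity
    exact one_div_le_one_div_of_le h2 (by linarith)

private theorem sum_kap21 (S : Finset ℕ) (t : ℝ) :
    ∑ m ∈ S, 1 / (1 + (t - m) ^ 2) ≤ 3 * ∑' j : ℤ, 1 / (1 + (j : ℝ) ^ 2) := by
  have h1 : ∀ m ∈ S, 1 / (1 + (t - m) ^ 2) ≤ 3 * (1 / (1 + (((⌊t⌋ - m : ℤ) : ℤ) : ℝ) ^ 2)) := by
    intro m _
    refine kap_le21 ?_
    push_cast
    have h2 := Int.floor_le t
    have h3 := Int.lt_floor_add_one t
    rw [abs_le]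
    constructor <;> linarith
  refine (Finset.sum_le_sum h1).trans ?_
  rw [← Finset.mul_sum]
  refine mul_le_mul_of_nonneg_left ?_ (by norm_num)
  have hinj : Set.InjOn (fun m : ℕ => (⌊t⌋ - m : ℤ)) (S : Set ℕ) := by
    intro a _ b _ hab
    have : (⌊t⌋ - a : ℤ) = ⌊t⌋ - b := hab
    omega
  have h2 := Finset.sum_image (s := S) (f := fun j : ℤ => 1 / (1 + (j : ℝ) ^ 2)) hinj
  rw [← h2]
  exact summ21.sum_le_tsum _ fun j _ => by positivity

private theorem sum_kap_log21 (S : Finset ℕ) (y : ℝ) :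
    ∑ m ∈ S, 1 / (1 + (y - m * Real.log 2) ^ 2) ≤
      3 * (∑' j : ℤ, 1 / (1 + (j : ℝ) ^ 2)) / Real.log 2 ^ 2 := by
  have hl0 : 0 < Real.log 2 := Real.log_pos (by norm_num)
  have hl1 : Real.log 2 < 1 := by
    have := Real.log_two_lt_d9
    linarith
  have h1 : ∀ m ∈ S, 1 / (1 + (y - m * Real.log 2) ^ 2) ≤
      (1 / (1 + (y / Real.log 2 - m) ^ 2)) / Real.log 2 ^ 2 := by
    intro m _
    rw [div_div]
    refine one_div_le_one_div_of_le (by positivity) ?_
    have h2 : (1 + (y / Real.log 2 - m) ^ 2) * Real.log 2 ^ 2 = Real.log 2 ^ 2 + (y - m * Real.log 2) ^ 2 := by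
      field_simp
    rw [h2]
    nlinarith
  refine (Finset.sum_le_sum h1).trans ?_
  rw [← Finset.sum_div]
  exact div_le_div_of_nonneg_right (sum_kap21 S _) (by positivity)

private theorem window21 {m : ℕ} (T : Finset ℕ) (hT : ∀ p ∈ T, p.Prime ∧ 2 ^ m ≤ p ∧ p < 2 ^ (m + 1)) :
    (T.card : ℝ) * m ≤ 4 * 2 ^ m := by
  have hl0 : 0 < Real.log 2 := Real.log_pos (by norm_num)
  have h1 : ∑ p ∈ T, Real.log p ≤ Chebyshev.theta ((2 : ℝ) ^ (m + 1)) := by
    rw [Chebyshev.theta]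
    refine Finset.sum_le_sum_of_subset_of_nonneg ?_ ?_
    · intro p hp
      obtain ⟨h1, h2, h3⟩ := hT p hp
      rw [Finset.mem_filter, Finset.mem_Ioc]
      refine ⟨⟨h1.pos, ?_⟩, h1⟩
      refine Nat.le_floor ?_
      exact_mod_cast h3.le
    · intro p hp _
      rw [Finset.mem_filter, Finset.mem_Ioc] at hp
      exact Real.log_nonneg (by exact_mod_cast hp.1.1)
  have h2 : (T.card : ℝ) * (m * Real.log 2) ≤ ∑ p ∈ T, Real.log p := by
    rw [← nsmul_eq_mul]
    refine Finset.card_nsmul_le_sum _ _ _ fun p hp => ?_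
    obtain ⟨h1, h2, h3⟩ := hT p hp
    rw [← Real.log_pow]
    exact Real.log_le_log (by positivity) (by exact_mod_cast h2)
  have h3 := Chebyshev.theta_le_log4_mul_x (show (0 : ℝ) ≤ 2 ^ (m + 1) by positivity)
  have h4 : Real.log 4 = 2 * Real.log 2 := by
    rw [show (4 : ℝ) = 2 ^ 2 by norm_num, Real.log_pow]
    norm_num
  rw [h4] at h3
  have h5 : ((T.card : ℝ) * m) * Real.log 2 ≤ (4 * 2 ^ m) * Real.log 2 := by
    calc ((T.card : ℝ) * m) * Real.log 2 = (T.card : ℝ) * (m * Real.log 2) := by ring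
      _ ≤ 2 * Real.log 2 * 2 ^ (m + 1) := by linarith
      _ = _ := by rw [pow_succ]; ring
  exact le_of_mul_le_mul_right h5 hl0

theorem cw_up : ∃ C : ℝ, 0 < C ∧ ∃ r0 : ℕ, ∀ r : ℕ, r0 ≤ r → ∀ y : ℝ,
    ∑ p ∈ BL r, 1 / (p : ℝ) * (1 / (1 + (y - Real.log p) ^ 2)) ≤ C / Vr r := by
  have hl0 : 0 < Real.log 2 := Real.log_pos (by norm_num)
  have hl1 : Real.log 2 < 1 := by
    have := Real.log_two_lt_d9
    linarith
  obtain ⟨S0, hS0⟩ : ∃ S0 : ℝ, S0 = ∑' j : ℤ, 1 / (1 + (j : ℝ) ^ 2) := ⟨_, rfl⟩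
  have hS0n : 0 ≤ S0 := by
    rw [hS0]
    exact tsum_nonneg fun j => by positivity
  refine ⟨12 * (3 * S0 / Real.log 2 ^ 2) * Real.log 2 + 1, by positivity, 0, ?_⟩
  intro r _ y
  have hmaps : ∀ p ∈ BL r, Nat.log 2 p ∈ Finset.Icc (2 ^ r) (2 ^ (r + 1)) := by
    intro p hp
    rw [mem_BL] at hp
    have h1 : 2 ^ 2 ^ r < p := hp.2.1
    have h2 : p ≤ 2 ^ 2 ^ (r + 1) := hp.2.2
    rw [Finset.mem_Icc]
    constructor
    · exact (Nat.le_log_iff_pow_le (by norm_num) (by omega)).2 h1.le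
    · calc Nat.log 2 p ≤ Nat.log 2 (2 ^ 2 ^ (r + 1)) := Nat.log_mono_right h2
        _ = 2 ^ (r + 1) := Nat.log_pow (by norm_num) _
  rw [← Finset.sum_fiberwise_of_maps_to hmaps]
  have hw : ∀ m ∈ Finset.Icc (2 ^ r) (2 ^ (r + 1)),
      ∑ p ∈ (BL r).filter (fun p => Nat.log 2 p = m), 1 / (p : ℝ) * (1 / (1 + (y - Real.log p) ^ 2)) ≤
        12 / 2 ^ r * (1 / (1 + (y - m * Real.log 2) ^ 2)) := by
    intro m hm
    rw [Finset.mem_Icc] at hm
    have hT : ∀ p ∈ (BL r).filter (fun p => Nat.log 2 p = m), p.Prime ∧ 2 ^ m ≤ p ∧ p < 2 ^ (m + 1) := by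
      intro p hp
      rw [Finset.mem_filter, mem_BL] at hp
      obtain ⟨⟨h1, h2, h3⟩, h4⟩ := hp
      refine ⟨h1, ?_, ?_⟩
      · rw [← h4]
        exact Nat.pow_log_le_self 2 h1.ne_zero
      · rw [← h4]
        exact Nat.lt_pow_succ_log_self (by norm_num) p
    have hcard := window21 _ hT
    have hm0 : (0 : ℝ) < 2 ^ r := by positivity
    have hmr : ((2 : ℝ) ^ r) ≤ m := by exact_mod_cast hm.1
    have h1 : ∀ p ∈ (BL r).filter (fun p => Nat.log 2 p = m), 1 / (p : ℝ) * (1 / (1 + (y - Real.log p) ^ 2)) ≤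
        1 / 2 ^ m * (3 * (1 / (1 + (y - m * Real.log 2) ^ 2))) := by
      intro p hp
      obtain ⟨h1, h2, h3⟩ := hT p hp
      have h2' : (2 : ℝ) ^ m ≤ p := by exact_mod_cast h2
      have h3' : (p : ℝ) ≤ 2 ^ (m + 1) := by exact_mod_cast h3.le
      have hp0 : (0 : ℝ) < p := by exact_mod_cast h1.pos
      refine mul_le_mul (one_div_le_one_div_of_le (by positivity) h2') ?_ (by positivity) (by positivity)
      refine kap_le21 ?_
      have a1 : m * Real.log 2 ≤ Real.log p := by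
        rw [← Real.log_pow]
        exact Real.log_le_log (by positivity) h2'
      have a2 : Real.log p ≤ (m + 1) * Real.log 2 := by
        have := Real.log_le_log hp0 h3'
        rw [Real.log_pow] at this
        push_cast at this
        exact this
      rw [abs_le]
      constructor <;> nlinarith
    refine (Finset.sum_le_sum h1).trans ?_
    rw [Finset.sum_const, nsmul_eq_mul]
    have hk : (0 : ℝ) ≤ 1 / (1 + (y - m * Real.log 2) ^ 2) := by positivity
    have h2 : (((BL r).filter (fun p => Nat.log 2 p = m)).card : ℝ) * (1 / 2 ^ m) ≤ 4 / 2 ^ r := by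
      rw [mul_one_div, div_le_div_iff₀ (by positivity) hm0]
      have h3 : (((BL r).filter (fun p => Nat.log 2 p = m)).card : ℝ) * 2 ^ r ≤
          (((BL r).filter (fun p => Nat.log 2 p = m)).card : ℝ) * m :=
        mul_le_mul_of_nonneg_left hmr (by positivity)
      linarith
    calc (((BL r).filter (fun p => Nat.log 2 p = m)).card : ℝ) *
          (1 / 2 ^ m * (3 * (1 / (1 + (y - m * Real.log 2) ^ 2)))) =
          ((((BL r).filter (fun p => Nat.log 2 p = m)).card : ℝ) * (1 / 2 ^ m)) *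
            (3 * (1 / (1 + (y - m * Real.log 2) ^ 2))) := by ring
      _ ≤ 4 / 2 ^ r * (3 * (1 / (1 + (y - m * Real.log 2) ^ 2))) :=
          mul_le_mul_of_nonneg_right h2 (by positivity)
      _ = _ := by ring
  refine (Finset.sum_le_sum hw).trans ?_
  rw [← Finset.mul_sum]
  have h1 := sum_kap_log21 (Finset.Icc (2 ^ r) (2 ^ (r + 1))) y
  rw [← hS0] at h1
  have h2 : (0 : ℝ) < 2 ^ r := by positivity
  have h3 := mul_le_mul_of_nonneg_left h1 (show (0 : ℝ) ≤ 12 / 2 ^ r by positivity)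
  refine h3.trans ?_
  have h4 : 12 / 2 ^ r * (3 * S0 / Real.log 2 ^ 2) = 12 * (3 * S0 / Real.log 2 ^ 2) * Real.log 2 / Vr r := by
    unfold Vr
    field_simp
  rw [h4]
  exact div_le_div_of_nonneg_right (by linarith) (Vr_pos r).le

end Pool.Agent.Helper66.LW
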