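import Pool.Agent.Helper66.LW.Basic

/-!
# Project LW (P1 on MP_a499ba_nt), block CWb

PROOF. theta(4^(m+1)) - theta(4^m) >= c 4^m for large m: Mathlib lower Chebyshev bound (theta_ge... in NumberTheory/Chebyshev, main term log 2 * x) and the upper bound
theta_le_log4_mul_x: 4 log 2 - log 4 = 2 log 2 > 0. Then 1/p >= log p/(4^(m+1) (m+1) log 4). Y r = 4^(2^(r-1)) (r >= 1), Y (r+1) = 4^(2^r).
-/

set_option autoImplicit false

namespace Pool.Agent.Helper66.LW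

open Finset MeasureTheory Pool.Agent.Helper5.RM Pool.Agent.Helper96.AF Pool.Agent.Helper96.AG

private lemma cwb_pow (m : ℕ) (hm : 7 ≤ m) : 10 * (m + 2) ≤ 2 ^ m := by
  induction m, hm using Nat.le_induction with
  | base => norm_num
  | succ n hn ih =>
    rw [pow_succ]
    omega

private lemma cwb_theta (m : ℕ) (hm : 7 ≤ m) :
    Chebyshev.theta ((4 ^ m : ℕ) : ℝ) + Real.log 2 * 4 ^ m ≤ Chebyshev.theta ((4 ^ (m + 1) : ℕ) : ℝ) := by
  have h1 := Chebyshev.theta_ge (4 ^ (m + 1))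
  have h2 := Chebyshev.theta_le_log4_mul_x (x := ((4 ^ m : ℕ) : ℝ)) (by positivity)
  have hl : 0 < Real.log 2 := Real.log_pos (by norm_num)
  have hl4 : Real.log 4 = 2 * Real.log 2 := by
    rw [show (4 : ℝ) = 2 ^ 2 by norm_num, Real.log_pow]
    norm_num
  have h3 : Real.log (((4 ^ (m + 1) : ℕ) : ℝ)) = (m + 1) * (2 * Real.log 2) := by
    push_cast
    rw [Real.log_pow, hl4]
    push_cast
    ring
  have h4 : Real.log (((4 ^ (m + 1) : ℕ) : ℝ) + 1) ≤ (m + 2) * (2 * Real.log 2) := by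
    have h5 : (((4 ^ (m + 1) : ℕ) : ℝ) + 1) ≤ (4 : ℝ) ^ (m + 2) := by
      push_cast
      have : (1 : ℝ) ≤ 4 ^ (m + 1) := one_le_pow₀ (by norm_num)
      rw [show m + 2 = m + 1 + 1 by ring, pow_succ (4 : ℝ) (m + 1)]
      linarith
    refine (Real.log_le_log (by positivity) h5).trans (le_of_eq ?_)
    rw [Real.log_pow, hl4]
    push_cast
    ring
  have h6 : Real.sqrt (((4 ^ (m + 1) : ℕ) : ℝ)) = 2 * 2 ^ m := by
    rw [show (((4 ^ (m + 1) : ℕ) : ℝ)) = (2 * 2 ^ m) ^ 2 by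
      push_cast
      rw [show (4 : ℝ) = 2 ^ 2 by norm_num, ← pow_mul, mul_pow, ← pow_mul]
      ring]
    exact Real.sqrt_sq (by positivity)
  rw [h3, h6] at h1
  have h7 : (10 : ℝ) * (m + 2) ≤ 2 ^ m := by exact_mod_cast cwb_pow m hm
  have h8 : (4 : ℝ) ^ m = 2 ^ m * 2 ^ m := by
    rw [← mul_pow]
    norm_num
  have h9 : (1 : ℝ) ≤ 2 ^ m := one_le_pow₀ (by norm_num)
  push_cast at h1 h2 h4 ⊢
  rw [hl4] at h2
  have h10 : (4 : ℝ) ^ (m + 1) = 4 * 4 ^ m := by ring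
  rw [h10] at h1 h4 ⊢
  have h11 : ((m : ℝ) + 2) * (2 * Real.log 2) ≤ 2 ^ m * ((m + 2) * (2 * Real.log 2)) :=
    le_mul_of_one_le_left (by positivity) h9
  have h12 : 2 ^ m * (10 * ((m : ℝ) + 2)) * Real.log 2 ≤ 2 ^ m * 2 ^ m * Real.log 2 := by
    gcongr
  have h13 : (0 : ℝ) ≤ 2 ^ m * Real.log 2 := by positivity
  rw [← h8] at h12
  nlinarith

theorem cw_low : ∃ c : ℝ, 0 < c ∧ ∃ r0 : ℕ, ∀ r : ℕ, r0 ≤ r → ∀ m : ℕ, 2 ^ (r - 1) ≤ m → m + 1 ≤ 2 ^ r →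
    c / Vr r ≤ ∑ p ∈ (BL r).filter (fun p => 4 ^ m < p ∧ p ≤ 4 ^ (m + 1)), 1 / (p : ℝ) := by
  have hl : 0 < Real.log 2 := Real.log_pos (by norm_num)
  refine ⟨Real.log 2 / 8, by positivity, 4, fun r hr m hm1 hm2 => ?_⟩
  have hm7 : 7 ≤ m := by
    have h1 : 2 ^ 3 ≤ 2 ^ (r - 1) := Nat.pow_le_pow_right (by norm_num) (by omega)
    omega
  obtain ⟨S, hS⟩ : ∃ S, S = (BL r).filter (fun p => 4 ^ m < p ∧ p ≤ 4 ^ (m + 1)) := ⟨_, rfl⟩
  rw [← hS]
  have hmem : ∀ p : ℕ, p.Prime → 4 ^ m < p → p ≤ 4 ^ (m + 1) → p ∈ S := by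
    intro p hp h1 h2
    rw [hS, Finset.mem_filter, mem_BL]
    refine ⟨⟨hp, lt_of_le_of_lt ?_ h1, h2.trans ?_⟩, h1, h2⟩
    · unfold Y
      calc 2 ^ 2 ^ r = 4 ^ 2 ^ (r - 1) := by
            rw [show (4 : ℕ) = 2 ^ 2 by norm_num, ← pow_mul, ← pow_succ']
            congr 2
            omega
        _ ≤ 4 ^ m := Nat.pow_le_pow_right (by norm_num) hm1
    · unfold Y
      calc 4 ^ (m + 1) ≤ 4 ^ 2 ^ r := Nat.pow_le_pow_right (by norm_num) hm2
        _ = 2 ^ 2 ^ (r + 1) := by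
            rw [show (4 : ℕ) = 2 ^ 2 by norm_num, ← pow_mul, ← pow_succ']
  have hth : Chebyshev.theta ((4 ^ (m + 1) : ℕ) : ℝ) ≤ Chebyshev.theta ((4 ^ m : ℕ) : ℝ) + ∑ p ∈ S, Real.log p := by
    unfold Chebyshev.theta
    rw [Nat.floor_natCast, Nat.floor_natCast]
    have hdis : Disjoint ((Finset.Ioc 0 (4 ^ m)).filter Nat.Prime) S := by
      rw [Finset.disjoint_left]
      intro p h1 h2
      rw [Finset.mem_filter, Finset.mem_Ioc] at h1
      rw [hS, Finset.mem_filter] at h2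
      omega
    rw [← Finset.sum_union hdis]
    refine Finset.sum_le_sum_of_subset_of_nonneg ?_ ?_
    · intro p hp
      rw [Finset.mem_filter, Finset.mem_Ioc] at hp
      rw [Finset.mem_union, Finset.mem_filter, Finset.mem_Ioc]
      by_cases h : p ≤ 4 ^ m
      · exact Or.inl ⟨⟨hp.1.1, h⟩, hp.2⟩
      · exact Or.inr (hmem p hp.2 (not_le.mp h) hp.1.2)
    · intro p _ _
      exact Real.log_natCast_nonneg p
  have h1 := cwb_theta m hm7
  have h2 : Real.log 2 * 4 ^ m ≤ ∑ p ∈ S, Real.log p := by linarith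
  have h3 : ∀ p ∈ S, Real.log p / (8 * Real.log 2 * (m + 1) * 4 ^ m) ≤ 1 / (p : ℝ) := by
    intro p hp
    rw [hS, Finset.mem_filter, mem_BL] at hp
    have hp0 : (0 : ℝ) < p := by exact_mod_cast hp.1.1.pos
    have h4 : (p : ℝ) ≤ 4 * 4 ^ m := by
      have : (p : ℝ) ≤ 4 ^ (m + 1) := by exact_mod_cast hp.2.2
      rw [pow_succ] at this
      linarith
    have h5 : Real.log p ≤ (m + 1) * (2 * Real.log 2) := by
      have h6 : (p : ℝ) ≤ 4 ^ (m + 1) := by exact_mod_cast hp.2.2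
      refine (Real.log_le_log hp0 h6).trans (le_of_eq ?_)
      rw [Real.log_pow, show (4 : ℝ) = 2 ^ 2 by norm_num, Real.log_pow]
      push_cast
      ring
    have h7 : 0 ≤ Real.log p := Real.log_natCast_nonneg p
    rw [div_le_div_iff₀ (by positivity) hp0]
    calc Real.log p * p ≤ ((m + 1) * (2 * Real.log 2)) * (4 * 4 ^ m) := by gcongr
      _ = 1 * (8 * Real.log 2 * (m + 1) * 4 ^ m) := by ring
  refine le_trans ?_ (Finset.sum_le_sum h3)
  rw [← Finset.sum_div]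
  have h8 : (m : ℝ) + 1 ≤ 2 ^ r := by exact_mod_cast hm2
  have h9 : Real.log 2 / 8 / Vr r = 1 / (8 * 2 ^ r) := by
    unfold Vr
    field_simp
  rw [h9]
  calc 1 / (8 * 2 ^ r) ≤ 1 / (8 * ((m : ℝ) + 1)) := by gcongr
    _ = (Real.log 2 * 4 ^ m) / (8 * Real.log 2 * (m + 1) * 4 ^ m) := by field_simp
    _ ≤ (∑ p ∈ S, Real.log p) / (8 * Real.log 2 * (m + 1) * 4 ^ m) := by gcongr

end Pool.Agent.Helper66.LW
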