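import Pool.Agent.Helper66.LW.Basic
import Pool.Agent.Helper66.LW.CWb

/-!
# Project LW (P1 on MP_a499ba_nt), block CWc

PROOF. L = log 4. On a window W of length L (s = U - x): for s, s' in W: g(s')^2 <= 2 g(s)^2 + 2 L INT_W g'^2; average over s': min_W g^2 >= (1/2L) INT_W g^2 - L INT_W g'^2.
Use the windows m = 2^(r-1), ..., with (m+1) L <= U + 3/sigma (x = log p in [m L, (m+1) L]; there e^{-2 sigma (x-U)} >= e^-6); they start at x = V (s = V/2) and cover s >= -2/sigma.
Sum >= (c/V) e^-6 ((1/2L)(INT g^2 - INT_{E^c} g^2) - (L/16) INT g^2), 1/(2L) - L/16 > 0.27, E^c inside Iic(-2/sigma) u Ioi(V/2).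
-/

set_option autoImplicit false

namespace Pool.Agent.Helper66.LW

open Finset MeasureTheory Pool.Agent.Helper5.RM Pool.Agent.Helper96.AF Pool.Agent.Helper96.AG

/-- Cauchy-Schwarz -/
private theorem cs68 {f : ℝ → ℝ} (hf : Continuous f) {a b : ℝ} (hab : a ≤ b) :
    (∫ x in a..b, f x) ^ 2 ≤ (b - a) * ∫ x in a..b, f x ^ 2 := by
  rcases eq_or_lt_of_le hab with h | h
  · subst h
    simp
  · set J := ∫ x in a..b, f x with hJ
    set c := J / (b - a) with hc
    have hl : 0 < b - a := by linarith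
    have h1 : 0 ≤ ∫ x in a..b, (f x - c) ^ 2 :=
      intervalIntegral.integral_nonneg hab fun x _ => sq_nonneg _
    have i1 : IntervalIntegrable (fun x => f x ^ 2) volume a b := (hf.pow 2).intervalIntegrable _ _
    have i2 : IntervalIntegrable (fun x => 2 * c * f x) volume a b :=
      (continuous_const.mul hf).intervalIntegrable _ _
    have i3 : IntervalIntegrable (fun _ : ℝ => c ^ 2) volume a b := continuous_const.intervalIntegrable _ _
    have h2 : ∫ x in a..b, (f x - c) ^ 2 = (∫ x in a..b, f x ^ 2) - 2 * c * J + (b - a) * c ^ 2 := by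
      have e1 : ∀ x, (f x - c) ^ 2 = f x ^ 2 - 2 * c * f x + c ^ 2 := fun x => by ring
      simp only [e1]
      rw [intervalIntegral.integral_add (i1.sub i2) i3, intervalIntegral.integral_sub i1 i2,
        intervalIntegral.integral_const_mul, intervalIntegral.integral_const, smul_eq_mul]
    rw [h2] at h1
    have h3 : (b - a) * c = J := by
      rw [hc]
      field_simp
    have h4 : 2 * c * J - (b - a) * c ^ 2 = c * J := by
      have : (b - a) * c ^ 2 = c * ((b - a) * c) := by ring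
      rw [this, h3]
      ring
    have h5 : c * J ≤ ∫ x in a..b, f x ^ 2 := by linarith
    calc J ^ 2 = (b - a) * (c * J) := by rw [← mul_assoc, h3]; ring
      _ ≤ _ := mul_le_mul_of_nonneg_left h5 hl.le

/-- one window -/
private theorem win68 {g : ℝ → ℝ} (hg : Differentiable ℝ g) (hg' : Continuous (deriv g)) {a b L : ℝ} (hL : 0 < L)
    (hab : b - a = L) {s : ℝ} (hs1 : a ≤ s) (hs2 : s ≤ b) :
    1 / (2 * L) * (∫ x in a..b, g x ^ 2) - L * (∫ x in a..b, deriv g x ^ 2) ≤ g s ^ 2 := by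
  have hle : a ≤ b := by linarith
  set D := ∫ x in a..b, deriv g x ^ 2 with hD
  have hD0 : 0 ≤ D := intervalIntegral.integral_nonneg hle fun x _ => sq_nonneg _
  have hc2 : Continuous fun x => deriv g x ^ 2 := hg'.pow 2
  have step : ∀ x y : ℝ, a ≤ x → x ≤ y → y ≤ b → (g y - g x) ^ 2 ≤ L * D := by
    intro x y hx hxy hy
    have h1 : g y - g x = ∫ z in x..y, deriv g z :=
      (intervalIntegral.integral_deriv_eq_sub (fun z _ => hg z) (hg'.intervalIntegrable _ _)).symm
    rw [h1]
    refine (cs68 hg' hxy).trans ?_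
    have h2 : ∫ z in x..y, deriv g z ^ 2 ≤ D := by
      refine intervalIntegral.integral_mono_interval hx hxy hy ?_ (hc2.intervalIntegrable _ _)
      exact Filter.Eventually.of_forall fun z => sq_nonneg _
    have h3 : 0 ≤ ∫ z in x..y, deriv g z ^ 2 := intervalIntegral.integral_nonneg hxy fun x _ => sq_nonneg _
    exact mul_le_mul (by linarith) h2 h3 hL.le
  have hpt : ∀ x ∈ Set.Icc a b, g x ^ 2 ≤ 2 * g s ^ 2 + 2 * (L * D) := by
    intro x hx
    have h1 : (g x - g s) ^ 2 ≤ L * D := by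
      rcases le_total x s with h | h
      · have := step x s hx.1 h hs2
        rw [show (g x - g s) ^ 2 = (g s - g x) ^ 2 by ring]
        exact this
      · exact step s x hs1 h hx.2
    nlinarith [sq_nonneg (g x - 2 * g s)]
  have h1 : ∫ x in a..b, g x ^ 2 ≤ ∫ _ in a..b, (2 * g s ^ 2 + 2 * (L * D)) :=
    intervalIntegral.integral_mono_on hle ((hg.continuous.pow 2).intervalIntegrable _ _)
      (continuous_const.intervalIntegrable _ _) hpt
  rw [intervalIntegral.integral_const, smul_eq_mul, hab] at h1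
  have h2 : 1 / (2 * L) * (∫ x in a..b, g x ^ 2) ≤ 1 / (2 * L) * (L * (2 * g s ^ 2 + 2 * (L * D))) :=
    mul_le_mul_of_nonneg_left h1 (by positivity)
  have h3 : 1 / (2 * L) * (L * (2 * g s ^ 2 + 2 * (L * D))) = g s ^ 2 + L * D := by
    field_simp
  linarith

theorem winlow : ∃ c : ℝ, 0 < c ∧ ∃ r0 : ℕ, ∀ r : ℕ, r0 ≤ r → ∀ g : ℝ → ℝ, Differentiable ℝ g → Continuous (deriv g) →
    Integrable (fun s => g s ^ 2) → Integrable (fun s => deriv g s ^ 2) →
    ∫ s, deriv g s ^ 2 ≤ 1 / 16 * ∫ s, g s ^ 2 →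
    c / Vr r * ((∫ s, g s ^ 2) - 4 * ((∫ s in Set.Iic (-(2 / sr r)), g s ^ 2) + ∫ s in Set.Ioi (Vr r / 2), g s ^ 2)) ≤
      ∑ p ∈ BL r, 1 / (p : ℝ) * Real.exp (-(2 * sr r * (Real.log p - Ur r))) * g (Ur r - Real.log p) ^ 2 := by
  classical
  obtain ⟨c0, hc0, r1, hcw⟩ := cw_low
  obtain ⟨r2, hr2⟩ := sr_small (1 / 2) (by norm_num)
  refine ⟨c0 * Real.exp (-6) / 4, by positivity, max (max r1 r2) 2, ?_⟩
  intro r hr g hg hg' hi1 hi2 hi3
  have hr1 : r1 ≤ r := (le_max_left _ _).trans ((le_max_left _ _).trans hr)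
  have hr2' : r2 ≤ r := (le_max_right _ _).trans ((le_max_left _ _).trans hr)
  have hr3 : 2 ≤ r := (le_max_right _ _).trans hr
  set V := Vr r with hV
  set σ := sr r with hσ
  set U := Ur r with hU
  set L := Real.log 4 with hL
  have hVpos : 0 < V := Vr_pos r
  have hσpos : 0 < σ := sr_pos hr3
  have hσle : σ ≤ 1 / 2 := hr2 r hr2'
  have hUV : U = 3 / 2 * V := rfl
  have hlog2 := Real.log_two_gt_d9
  have hlog2' := Real.log_two_lt_d9
  have hL2 : L = 2 * Real.log 2 := by
    rw [hL, show (4 : ℝ) = 2 ^ 2 by norm_num, Real.log_pow]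
    norm_num
  have hLpos : 0 < L := by rw [hL2]; linarith
  have hσV : σ * V = 40 * Real.log r := sr_mul_Vr r
  have hlogr : Real.log 2 ≤ Real.log r := Real.log_le_log (by norm_num) (by exact_mod_cast hr3)
  -- sizes
  have h3σ : 3 / σ ≤ V / 2 := by
    rw [div_le_iff₀ hσpos]
    nlinarith
  have h1σ : L ≤ 1 / σ := by
    have : (2 : ℝ) ≤ 1 / σ := by
      rw [le_div_iff₀ hσpos]
      linarith
    rw [hL2]
    linarith
  have h3s : 3 / σ = 3 * (1 / σ) := by ring
  have h2s : 2 / σ = 2 * (1 / σ) := by ring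
  have hm0 : ((2 ^ (r - 1) : ℕ) : ℝ) * L = V := by
    have e1 : (2 : ℝ) ^ r = 2 ^ (r - 1) * 2 := by
      rw [← pow_succ]
      congr 1
      omega
    have e2 : V = 2 ^ r * Real.log 2 := rfl
    rw [hL2, e2, e1]
    push_cast
    ring
  have hm1 : ((2 ^ r : ℕ) : ℝ) * L = 2 * V := by
    have e2 : V = 2 ^ r * Real.log 2 := rfl
    rw [hL2, e2]
    push_cast
    ring
  set M := ⌊(U + 3 / σ) / L⌋₊ with hM
  have hU3 : 0 ≤ U + 3 / σ := by
    have : 0 < 3 / σ := by positivity
    rw [hUV]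
    linarith
  have hML : (M : ℝ) * L ≤ U + 3 / σ := by
    have := Nat.floor_le (div_nonneg hU3 hLpos.le)
    rw [le_div_iff₀ hLpos] at this
    exact this
  have hML' : U + 3 / σ < ((M : ℝ) + 1) * L := by
    have := Nat.lt_floor_add_one ((U + 3 / σ) / L)
    rw [div_lt_iff₀ hLpos] at this
    exact this
  have hm0M : 2 ^ (r - 1) ≤ M := by
    rw [hM]
    apply Nat.le_floor
    rw [le_div_iff₀ hLpos, hm0, hUV]
    have : 0 < 3 / σ := by positivity
    linarith
  have hMr : M ≤ 2 ^ r := by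
    have h1 : (M : ℝ) * L ≤ ((2 ^ r : ℕ) : ℝ) * L := by
      rw [hm1]
      linarith
    have h2 := le_of_mul_le_mul_right h1 hLpos
    exact_mod_cast h2
  -- the windows
  set w : ℕ → Finset ℕ := fun m => (BL r).filter (fun p => 4 ^ m < p ∧ p ≤ 4 ^ (m + 1)) with hw
  set F : ℕ → ℝ := fun p => 1 / (p : ℝ) * Real.exp (-(2 * σ * (Real.log p - U))) * g (U - Real.log p) ^ 2 with hF
  have hF0 : ∀ p, 0 ≤ F p := fun p => by
    rw [hF]
    positivity
  set qq : ℕ → ℝ := fun m => 1 / (2 * L) * (∫ x in (U - ((m : ℝ) + 1) * L)..(U - m * L), g x ^ 2) -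
    L * (∫ x in (U - ((m : ℝ) + 1) * L)..(U - m * L), deriv g x ^ 2) with hqq
  have hwin : ∀ m ∈ Finset.Ico (2 ^ (r - 1)) M, c0 / V * Real.exp (-6) * qq m ≤ ∑ p ∈ w m, F p := by
    intro m hm
    rw [Finset.mem_Ico] at hm
    rcases le_or_gt 0 (qq m) with hq | hq
    · have h1 : c0 / V ≤ ∑ p ∈ w m, 1 / (p : ℝ) := hcw r hr1 m hm.1 (by omega)
      have h2 : ∀ p ∈ w m, 1 / (p : ℝ) * (Real.exp (-6) * qq m) ≤ F p := by
        intro p hp
        rw [hw] at hp
        simp only [Finset.mem_filter] at hp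
        obtain ⟨-, hp1, hp2⟩ := hp
        have hp0 : (0 : ℝ) < p := by
          have : 0 < p := lt_of_le_of_lt (Nat.zero_le _) hp1
          exact_mod_cast this
        have hl1 : (m : ℝ) * L < Real.log p := by
          rw [hL, ← Real.log_pow]
          exact Real.log_lt_log (by positivity) (by exact_mod_cast hp1)
        have hl2 : Real.log p ≤ ((m : ℝ) + 1) * L := by
          have e1 : ((m : ℝ) + 1) * L = Real.log (4 ^ (m + 1)) := by
            rw [Real.log_pow, hL]
            push_cast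
            ring
          rw [e1]
          exact Real.log_le_log hp0 (by exact_mod_cast hp2)
        have hmM : ((m : ℝ) + 1) * L ≤ M * L := by
          have : ((m + 1 : ℕ) : ℝ) ≤ M := by exact_mod_cast hm.2
          push_cast at this
          exact mul_le_mul_of_nonneg_right this hLpos.le
        have h3 : Real.exp (-6) ≤ Real.exp (-(2 * σ * (Real.log p - U))) := by
          apply Real.exp_le_exp.2
          have h4 : Real.log p - U ≤ 3 / σ := by linarith
          have h5 : σ * (Real.log p - U) ≤ 3 := by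
            have h6 := mul_le_mul_of_nonneg_left h4 hσpos.le
            rwa [mul_div_cancel₀ _ hσpos.ne'] at h6
          linarith
        have h4 : qq m ≤ g (U - Real.log p) ^ 2 := by
          rw [hqq]
          exact win68 hg hg' hLpos (by ring) (by linarith) (by linarith)
        rw [hF]
        simp only
        rw [mul_assoc]
        refine mul_le_mul_of_nonneg_left ?_ (by positivity)
        exact mul_le_mul h3 h4 hq (Real.exp_pos _).le
      calc c0 / V * Real.exp (-6) * qq m = c0 / V * (Real.exp (-6) * qq m) := by ring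
        _ ≤ (∑ p ∈ w m, 1 / (p : ℝ)) * (Real.exp (-6) * qq m) :=
          mul_le_mul_of_nonneg_right h1 (mul_nonneg (Real.exp_pos _).le hq)
        _ = ∑ p ∈ w m, 1 / (p : ℝ) * (Real.exp (-6) * qq m) := Finset.sum_mul _ _ _
        _ ≤ ∑ p ∈ w m, F p := Finset.sum_le_sum h2
    · have h1 : 0 ≤ ∑ p ∈ w m, F p := Finset.sum_nonneg fun p _ => hF0 p
      have h2 : c0 / V * Real.exp (-6) * qq m ≤ 0 :=
        mul_nonpos_of_nonneg_of_nonpos (by positivity) hq.le
      linarith
  -- the windows are disjoint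
  have hdisj : (↑(Finset.Ico (2 ^ (r - 1)) M) : Set ℕ).PairwiseDisjoint w := by
    have aux : ∀ m m' : ℕ, m < m' → Disjoint (w m) (w m') := by
      intro m m' h
      rw [Finset.disjoint_left]
      intro p hp hp'
      rw [hw] at hp hp'
      simp only [Finset.mem_filter] at hp hp'
      have h1 : 4 ^ (m + 1) ≤ 4 ^ m' := Nat.pow_le_pow_right (by norm_num) h
      omega
    intro m _ m' _ hne
    rcases lt_or_gt_of_ne hne with h | h
    · exact aux m m' h
    · exact (aux m' m h).symm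
  have hsum : ∑ m ∈ Finset.Ico (2 ^ (r - 1)) M, ∑ p ∈ w m, F p ≤ ∑ p ∈ BL r, F p := by
    rw [← Finset.sum_biUnion hdisj]
    refine Finset.sum_le_sum_of_subset_of_nonneg ?_ fun p _ _ => hF0 p
    intro p hp
    rw [Finset.mem_biUnion] at hp
    obtain ⟨m, -, hp⟩ := hp
    exact (Finset.mem_filter.1 hp).1
  -- the sum of the integrals
  have htel : ∀ f : ℝ → ℝ, Continuous f → ∑ m ∈ Finset.Ico (2 ^ (r - 1)) M,
      (∫ x in (U - ((m : ℝ) + 1) * L)..(U - m * L), f x) = ∫ x in (U - M * L)..(V / 2), f x := by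
    intro f hf
    have h1 := intervalIntegral.sum_integral_adjacent_intervals_Ico (μ := volume) (f := f)
      (a := fun k : ℕ => U - (k : ℝ) * L) hm0M (fun k _ => hf.intervalIntegrable _ _)
    have h2 : U - ((2 ^ (r - 1) : ℕ) : ℝ) * L = V / 2 := by
      rw [hm0, hUV]
      ring
    rw [h2] at h1
    rw [intervalIntegral.integral_symm, ← h1, ← Finset.sum_neg_distrib]
    refine Finset.sum_congr rfl fun k _ => ?_
    rw [← intervalIntegral.integral_symm]
    push_cast
    rfl
  have hc1 : Continuous fun x => g x ^ 2 := hg.continuous.pow 2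
  have hc2 : Continuous fun x => deriv g x ^ 2 := hg'.pow 2
  have hqsum : ∑ m ∈ Finset.Ico (2 ^ (r - 1)) M, qq m =
      1 / (2 * L) * (∫ x in (U - M * L)..(V / 2), g x ^ 2) - L * ∫ x in (U - M * L)..(V / 2), deriv g x ^ 2 := by
    rw [hqq, Finset.sum_sub_distrib, ← Finset.mul_sum, ← Finset.mul_sum, htel _ hc1, htel _ hc2]
  -- the mass outside
  have hle : U - M * L ≤ V / 2 := by
    have h1 : ((2 ^ (r - 1) : ℕ) : ℝ) * L ≤ M * L :=
      mul_le_mul_of_nonneg_right (by exact_mod_cast hm0M) hLpos.le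
    rw [hm0] at h1
    rw [hUV]
    linarith
  have hbM : U - M * L ≤ -(2 / σ) := by
    rw [h2s]
    rw [h3s] at hML'
    linarith
  set A := (∫ s in Set.Iic (-(2 / σ)), g s ^ 2) + ∫ s in Set.Ioi (V / 2), g s ^ 2 with hA
  have hA1 : ∫ s in Set.Iic (U - M * L), g s ^ 2 ≤ ∫ s in Set.Iic (-(2 / σ)), g s ^ 2 := by
    refine setIntegral_mono_set hi1.integrableOn ?_ ?_
    · exact Filter.Eventually.of_forall fun x => sq_nonneg _
    · exact (Set.Iic_subset_Iic.2 hbM).eventuallyLE
  have hsplit : ∫ s, g s ^ 2 = (∫ s in Set.Iic (U - M * L), g s ^ 2) +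
      (∫ x in (U - M * L)..(V / 2), g x ^ 2) + ∫ s in Set.Ioi (V / 2), g s ^ 2 := by
    have h1 := intervalIntegral.integral_Iic_sub_Iic (μ := volume) (f := fun s => g s ^ 2)
      (a := U - M * L) (b := V / 2) hi1.integrableOn hi1.integrableOn
    have h2 := intervalIntegral.integral_Iic_add_Ioi (μ := volume) (f := fun s => g s ^ 2) (b := V / 2)
      hi1.integrableOn hi1.integrableOn
    linarith
  have hI0 : 0 ≤ ∫ s, g s ^ 2 := integral_nonneg fun s => sq_nonneg _
  have hA0 : 0 ≤ A := add_nonneg (integral_nonneg fun s => sq_nonneg _) (integral_nonneg fun s => sq_nonneg _)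
  have hG1 : (∫ s, g s ^ 2) - A ≤ ∫ x in (U - M * L)..(V / 2), g x ^ 2 := by
    rw [hA]
    linarith
  have hG2 : ∫ x in (U - M * L)..(V / 2), deriv g x ^ 2 ≤ 1 / 16 * ∫ s, g s ^ 2 := by
    refine le_trans ?_ hi3
    rw [intervalIntegral.integral_of_le hle]
    exact setIntegral_le_integral hi2 (Filter.Eventually.of_forall fun x => sq_nonneg _)
  have hq : 1 / 4 * ((∫ s, g s ^ 2) - 4 * A) ≤ ∑ m ∈ Finset.Ico (2 ^ (r - 1)) M, qq m := by
    rw [hqsum]
    have hb1 : 1 / (2 * L) ≤ 1 := by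
      rw [div_le_one (by positivity), hL2]
      linarith
    have hb2 : 1 / 4 ≤ 1 / (2 * L) - L / 16 := by
      have hLu : L ≤ 1.3863 := by rw [hL2]; linarith
      have h1 : 1 / (2 * 1.3863) ≤ 1 / (2 * L) :=
        one_div_le_one_div_of_le (by positivity) (by linarith)
      have h2 : (0.3606 : ℝ) ≤ 1 / (2 * 1.3863) := by norm_num
      linarith
    have hb0 : 0 ≤ 1 / (2 * L) := by positivity
    have h1 := mul_le_mul_of_nonneg_left hG1 hb0
    have h2 := mul_le_mul_of_nonneg_left hG2 hLpos.le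
    have h3 := mul_le_mul_of_nonneg_right hb2 hI0
    have h4 := mul_le_mul_of_nonneg_right hb1 hA0
    linarith
  -- conclusion
  have hfin : c0 / V * Real.exp (-6) * ∑ m ∈ Finset.Ico (2 ^ (r - 1)) M, qq m ≤ ∑ p ∈ BL r, F p := by
    rw [Finset.mul_sum]
    exact (Finset.sum_le_sum hwin).trans hsum
  have h1 := mul_le_mul_of_nonneg_left hq (by positivity : 0 ≤ c0 / V * Real.exp (-6))
  refine le_trans (le_of_eq ?_) (h1.trans hfin)
  rw [hA]
  ring

end Pool.Agent.Helper66.LW
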