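import Pool.Agent.Helper96.AG.Defs

/-!
# Project LW (P1 on MP_a499ba_nt), definitions

Lower bounds, both signs, at every scale `[Y r, Y (r+1)]` for the random models.
Everything deterministic is stated for a general bounded `h : ℕ → ℝ` (the part of the random multiplicative function
coming from the primes `≤ Y r`).
-/

set_option autoImplicit false

namespace Pool.Agent.Helper66.LW

open Finset MeasureTheory Pool.Agent.Helper5.RM Pool.Agent.Helper96.AF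
open scoped ContDiff

/-- `log (Y r)` -/
noncomputable def Vr (r : ℕ) : ℝ := 2 ^ r * Real.log 2

/-- the shift off the critical line -/
noncomputable def sr (r : ℕ) : ℝ := 40 * Real.log r / Vr r

/-- the centre -/
noncomputable def Ur (r : ℕ) : ℝ := 3 / 2 * Vr r

/-- partial sums -/
noncomputable def Hs (h : ℕ → ℝ) (n : ℕ) : ℝ := ∑ m ∈ Finset.Icc 1 n, h m

/-- normalised partial sums on the logarithmic scale -/
noncomputable def Av (h : ℕ → ℝ) (v : ℝ) : ℝ := Real.exp (-(v / 2)) * Hs h ⌊Real.exp v⌋₊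

/-- a nonnegative rapidly decaying kernel, band limited to `[-1/4, 1/4]` -/
structure Ker where
  /-- the kernel -/
  w : ℝ → ℝ
  /-- its Fourier transform -/
  ρ : ℝ → ℝ
  w_cont : Continuous w
  w_nonneg : ∀ x, 0 ≤ w x
  w_dec : ∃ C : ℝ, 0 < C ∧ ∀ x, w x ≤ C / (1 + |x|) ^ 12
  ρ_smooth : ContDiff ℝ ∞ ρ
  ρ_nonneg : ∀ t, 0 ≤ ρ t
  ρ_supp : ∀ t, 1 / 4 ≤ |t| → ρ t = 0
  ρ_pos : ∃ c : ℝ, 0 < c ∧ ∀ t, |t| ≤ 1 / 8 → c ≤ ρ t
  w_eq : ∀ x : ℝ, (w x : ℂ) = ∫ t : ℝ, (ρ t : ℂ) * Complex.exp (Complex.I * (t * x))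

/-- the weight around `u` -/
noncomputable def kf (K : Ker) (r : ℕ) (u v : ℝ) : ℝ := Real.exp (-(sr r * (v - Ur r))) * K.w (u - v)

/-- the coefficient of the sign at the prime `p ∈ BL r` -/
noncomputable def aC (K : Ker) (r : ℕ) (h : ℕ → ℝ) (u : ℝ) (p : ℕ) : ℝ :=
  (Real.sqrt p)⁻¹ * ∫ v in (Vr r)..(2 * Vr r), Av h (v - Real.log p) * kf K r u v

/-- the part without a prime in `BL r` -/
noncomputable def RC (K : Ker) (r : ℕ) (h : ℕ → ℝ) (u : ℝ) : ℝ :=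
  ∫ v in (Vr r)..(2 * Vr r), Av h v * kf K r u v

/-- the smoothed sums -/
noncomputable def Gc (K : Ker) (r : ℕ) (h : ℕ → ℝ) (u : ℝ) : ℝ :=
  ∫ v in Set.Ioi (0 : ℝ), Av h v * Real.exp (-(sr r * v)) * K.w (u - v)

/-- regularity and mass hypotheses on `h`; `D` is its Dirichlet series on the line `Re s = 1/2 + sr r` -/
structure Adm (r : ℕ) (h : ℕ → ℝ) (D : ℝ → ℂ) (B : ℝ) : Prop where
  le_one : ∀ n, |h n| ≤ 1
  summ : Summable fun n : ℕ => |h n| * (n : ℝ) ^ (-(1 / 2 + sr r))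
  smooth : ContDiff ℝ ∞ D
  hasSum : ∀ t : ℝ, HasSum (fun n : ℕ => (h n : ℂ) * (n : ℂ) ^ (-(((1 / 2 + sr r : ℝ) : ℂ) + Complex.I * (t : ℂ)))) (D t)
  int : IntegrableOn (fun v => Av h v ^ 2 * Real.exp (-(sr r * v))) (Set.Ioi 0)
  mass0 : ∫ v in (0 : ℝ)..(2 * Vr r), Av h v ^ 2 ≤ B
  mass1 : ∫ v in Set.Ioi (0 : ℝ), Av h v ^ 2 * Real.exp (-(sr r * v)) ≤ B

/-- the value at `n` of the full sum, for `n ≤ Y (r+1)`, in terms of `h` and the signs `s` of the primes in `BL r` -/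
noncomputable def Fs (r : ℕ) (h : ℕ → ℝ) (s : ℕ → ℝ) (n : ℕ) : ℝ := Hs h n + ∑ p ∈ BL r, s p * Hs h (n / p)

/-- the difference functions -/
noncomputable def gc (K : Ker) (r : ℕ) (h : ℕ → ℝ) (α β s : ℝ) : ℝ := Gc K r h (α + s) - Gc K r h (β + s)

/-- the tilt coefficients off the line: `|1 + eps p^(-1/2-σ-it)|^2 = (1 + p^(-1-2σ)) (1 + eps ths σ p t)` -/
noncomputable def ths (σ : ℝ) (p : ℕ) (t : ℝ) : ℝ :=
  2 * (p : ℝ) ^ (-(1 / 2 + σ)) * Real.cos (t * Real.log p) / (1 + (p : ℝ) ^ (-(1 + 2 * σ)))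

/-- the normalised density off the line -/
noncomputable def dds (σ : ℝ) (S T : Finset ℕ) (t : ℝ) : ℝ := ∏ p ∈ S, (1 + sg T p * ths σ p t)

/-! ### the two models -/

/-- the smooth part of the squarefree model -/
noncomputable def hf (r : ℕ) (T : Finset ℕ) (n : ℕ) : ℝ := if ∀ p ∈ n.primeFactors, p ≤ Y r then rf T n else 0

/-- its Dirichlet series -/
noncomputable def Df (r : ℕ) (T : Finset ℕ) (t : ℝ) : ℂ :=
  ∏ p ∈ PP (Y r), (1 + (sg T p : ℂ) * (p : ℂ) ^ (-(((1 / 2 + sr r : ℝ) : ℂ) + Complex.I * (t : ℂ))))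

/-- sum over `n = a^2 b`, `b` squarefree and smooth, `a` arbitrary -/
noncomputable def hg (r : ℕ) (T : Finset ℕ) (n : ℕ) : ℝ :=
  ∑ a ∈ (Finset.Icc 1 (Nat.sqrt n)).filter (fun a => a ^ 2 ∣ n), hf r T (n / a ^ 2)

/-- its Dirichlet series -/
noncomputable def Dg (r : ℕ) (T : Finset ℕ) (t : ℝ) : ℂ :=
  riemannZeta (2 * (((1 / 2 + sr r : ℝ) : ℂ) + Complex.I * (t : ℂ))) * Df r T t

/-- the far part of the mass for the completely multiplicative model -/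
noncomputable def farg (r : ℕ) (T : Finset ℕ) : ℝ :=
  ∫ v in Set.Ioi (r * Vr r), Av (hg r T) v ^ 2 * Real.exp (-(sr r * v))

end Pool.Agent.Helper66.LW
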