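import Pool.Agent.Helper66.LW.Basic

/-!
# Project LW (P1 on MP_a499ba_nt), block GT

PROOF. A_s(v) = Av h v e^{-sigma v}; A_s^2 = (Av^2 e^{-sigma v}) e^{-sigma v}; INT A_s^2 <= B, INT_{v>V/4} A_s^2 <= e^{-sigma V/4} B = r^-10 B.
For s > V/2 (alpha >= 0), u = alpha+s: |Gc(u)| <= INT_{v<=V/4} + INT_{v>V/4}; both parts: Cauchy-Schwarz |.|^2 <= (INT w)(INT A_s(v)^2 w(u-v) dv), integrate over u (Tonelli);
first: |u-v| >= V/4; second: e^{-sigma V/4} = r^-10.
For s <= -2/sigma: u = alpha+s <= -1/sigma, v >= 0: |u-v| = |u|+v: as the first part, <= C sigma^10 B <= C r^-5 B.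
-/

set_option autoImplicit false

namespace Pool.Agent.Helper66.LW

open Finset MeasureTheory Pool.Agent.Helper5.RM Pool.Agent.Helper96.AF Pool.Agent.Helper96.AG

/-- Cauchy-Schwarz with a weight -/
private theorem cs_gt {μ : Measure ℝ} {f k : ℝ → ENNReal} (hf : AEMeasurable f μ) (hk : AEMeasurable k μ) :
    (∫⁻ v, f v * k v ∂μ) ^ 2 ≤ (∫⁻ v, f v ^ 2 * k v ∂μ) * ∫⁻ v, k v ∂μ := by
  have h := ENNReal.lintegral_mul_le_Lp_mul_Lq μ (p := 2) (q := 2) Real.HolderConjugate.two_two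
    (f := fun v => f v * k v ^ (1 / 2 : ℝ)) (g := fun v => k v ^ (1 / 2 : ℝ))
    (hf.mul (hk.pow_const _)) (hk.pow_const _)
  have hkk : ∀ x : ENNReal, x ^ (1 / 2 : ℝ) * x ^ (1 / 2 : ℝ) = x := by
    intro x
    rw [← ENNReal.rpow_add_of_nonneg _ _ (by norm_num) (by norm_num)]
    norm_num
  have hk2 : ∀ x : ENNReal, (x ^ (1 / 2 : ℝ)) ^ (2 : ℝ) = x := by
    intro x
    rw [← ENNReal.rpow_mul]
    norm_num
  have e1 : ∀ v, ((fun v => f v * k v ^ (1 / 2 : ℝ)) * fun v => k v ^ (1 / 2 : ℝ)) v = f v * k v := by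
    intro v
    simp only [Pi.mul_apply]
    rw [mul_assoc, hkk]
  have e2 : ∀ v, (f v * k v ^ (1 / 2 : ℝ)) ^ (2 : ℝ) = f v ^ 2 * k v := by
    intro v
    rw [ENNReal.mul_rpow_of_nonneg _ _ (by norm_num), hk2]
    norm_num
  simp only [e1, e2, hk2] at h
  calc (∫⁻ v, f v * k v ∂μ) ^ 2 ≤ ((∫⁻ v, f v ^ 2 * k v ∂μ) ^ (1 / 2 : ℝ) * (∫⁻ v, k v ∂μ) ^ (1 / 2 : ℝ)) ^ 2 := by
        gcongr
    _ = _ := by
        rw [mul_pow, sq, sq, hkk, hkk]

/-- the Tonelli bound -/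
private theorem core_gt {S U : Set ℝ} {f : ℝ → ENNReal} {k : ℝ → ℝ → ENNReal} (hf : Measurable f)
    (hk : Measurable fun q : ℝ × ℝ => k q.1 q.2) {W T : ENNReal} (hS : MeasurableSet S) (hW : ∀ s, ∫⁻ v, k s v ≤ W)
    (hT : ∀ v ∈ S, ∫⁻ s in U, k s v ≤ T) :
    ∫⁻ s in U, (∫⁻ v in S, f v * k s v) ^ 2 ≤ W * T * ∫⁻ v in S, f v ^ 2 := by
  have hks : ∀ s, Measurable (k s) := fun s => hk.comp (measurable_const.prodMk measurable_id)
  have hkv : ∀ v, Measurable fun s => k s v := fun v => hk.comp (measurable_id.prodMk measurable_const)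
  calc ∫⁻ s in U, (∫⁻ v in S, f v * k s v) ^ 2 ≤ ∫⁻ s in U, W * ∫⁻ v in S, f v ^ 2 * k s v := by
        refine lintegral_mono fun s => ?_
        refine (cs_gt hf.aemeasurable (hks s).aemeasurable).trans ?_
        rw [mul_comm]
        gcongr
        exact (setLIntegral_le_lintegral _ _).trans (hW s)
    _ = W * ∫⁻ s in U, ∫⁻ v in S, f v ^ 2 * k s v := by
        rw [lintegral_const_mul]
        refine Measurable.lintegral_prod_right ?_
        exact ((hf.comp measurable_snd).pow_const _).mul hk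
    _ = W * ∫⁻ v in S, ∫⁻ s in U, f v ^ 2 * k s v := by
        rw [lintegral_lintegral_swap]
        exact (((hf.comp measurable_snd).pow_const _).mul hk).aemeasurable
    _ = W * ∫⁻ v in S, f v ^ 2 * ∫⁻ s in U, k s v := by
        congr 1
        refine lintegral_congr fun v => ?_
        rw [lintegral_const_mul _ (hkv v)]
    _ ≤ W * ∫⁻ v in S, T * f v ^ 2 := by
        gcongr W * ?_
        refine setLIntegral_mono' hS fun v hv => ?_
        rw [mul_comm]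
        gcongr
        exact hT v hv
    _ = W * T * ∫⁻ v in S, f v ^ 2 := by
        rw [lintegral_const_mul _ (hf.pow_const _), mul_assoc]

private theorem dec_gt {C0 : ℝ} (hC0 : 0 < C0) {w x y : ℝ} (hw : w ≤ C0 / (1 + |x|) ^ 12) (hy : 0 < y) (hxy : y ≤ |x|) :
    w ≤ C0 * y ^ (-10 : ℝ) * (1 + ‖x‖) ^ (-2 : ℝ) := by
  have h0 : 0 ≤ |x| := abs_nonneg x
  refine hw.trans ?_
  have e1 : (1 + ‖x‖) ^ (-2 : ℝ) = ((1 + |x|) ^ 2)⁻¹ := by
    rw [Real.norm_eq_abs, Real.rpow_neg (by positivity)]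
    norm_num
  have e2 : y ^ (-10 : ℝ) = (y ^ 10)⁻¹ := by
    rw [Real.rpow_neg hy.le]
    norm_num
  rw [e1, e2, mul_assoc, ← mul_inv, div_eq_mul_inv]
  refine mul_le_mul_of_nonneg_left ?_ hC0.le
  refine inv_anti₀ (by positivity) ?_
  calc y ^ 10 * (1 + |x|) ^ 2 ≤ (1 + |x|) ^ 10 * (1 + |x|) ^ 2 := by
        gcongr
        linarith
    _ = (1 + |x|) ^ 12 := by ring

private theorem dec1_gt {C0 : ℝ} (hC0 : 0 < C0) {w x : ℝ} (hw : w ≤ C0 / (1 + |x|) ^ 12) :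
    w ≤ C0 * (1 + ‖x‖) ^ (-2 : ℝ) := by
  have h0 : 0 ≤ |x| := abs_nonneg x
  refine hw.trans ?_
  have e1 : (1 + ‖x‖) ^ (-2 : ℝ) = ((1 + |x|) ^ 2)⁻¹ := by
    rw [Real.norm_eq_abs, Real.rpow_neg (by positivity)]
    norm_num
  rw [e1, div_eq_mul_inv]
  refine mul_le_mul_of_nonneg_left ?_ hC0.le
  refine inv_anti₀ (by positivity) ?_
  exact pow_le_pow_right₀ (by linarith) (by norm_num)

/-- the integral of the majorant -/
private theorem maj_gt {c : ℝ} (hc : 0 ≤ c) (e : ℝ → ℝ) (he : ∀ F : ℝ → ENNReal, ∫⁻ s, F (e s) = ∫⁻ s, F s) :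
    ∫⁻ s, ENNReal.ofReal (c * (1 + ‖e s‖) ^ (-2 : ℝ)) = ENNReal.ofReal (c * ∫ x : ℝ, (1 + ‖x‖) ^ (-2 : ℝ)) := by
  rw [he fun x => ENNReal.ofReal (c * (1 + ‖x‖) ^ (-2 : ℝ)), ← integral_const_mul]
  refine (ofReal_integral_eq_lintegral_ofReal ?_ ?_).symm
  · refine Integrable.const_mul ?_ c
    exact integrable_one_add_norm (by rw [Module.finrank_self]; norm_num)
  · exact Filter.Eventually.of_forall fun x => by positivity

/-- one part -/
private theorem part_gt (K : Ker) {C0 : ℝ} (hC0 : 0 < C0) (hw : ∀ x, K.w x ≤ C0 / (1 + |x|) ^ 12) {α y : ℝ} (hy : 0 < y) {f : ℝ → ENNReal}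
    (hf : Measurable f) {S U : Set ℝ} (hS : MeasurableSet S) (hU : MeasurableSet U) (hSU : ∀ s ∈ U, ∀ v ∈ S, y ≤ |α + s - v|) :
    ∫⁻ s in U, (∫⁻ v in S, f v * ENNReal.ofReal (K.w (α + s - v))) ^ 2 ≤
      ENNReal.ofReal ((C0 * ∫ x : ℝ, (1 + ‖x‖) ^ (-2 : ℝ)) * (C0 * y ^ (-10 : ℝ) * ∫ x : ℝ, (1 + ‖x‖) ^ (-2 : ℝ))) * ∫⁻ v in S, f v ^ 2 := by
  have hI : 0 ≤ ∫ x : ℝ, (1 + ‖x‖) ^ (-2 : ℝ) := integral_nonneg fun x => by positivity
  have hy10 : 0 ≤ y ^ (-10 : ℝ) := Real.rpow_nonneg hy.le _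
  rw [ENNReal.ofReal_mul (by positivity)]
  refine core_gt hf ?_ hS ?_ ?_
  · have := K.w_cont
    exact (ENNReal.measurable_ofReal.comp (by fun_prop : Continuous fun q : ℝ × ℝ => K.w (α + q.1 - q.2)).measurable)
  · intro s
    rw [← maj_gt hC0.le (fun v => α + s - v) fun F => lintegral_sub_left_eq_self F (α + s)]
    refine lintegral_mono fun v => ENNReal.ofReal_le_ofReal ?_
    exact dec1_gt hC0 (hw _)
  · intro v hv
    have e1 : ∀ F : ℝ → ENNReal, ∫⁻ s, F (α + s - v) = ∫⁻ s, F s := by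
      intro F
      have := lintegral_add_left_eq_self (μ := volume) F (α - v)
      rw [← this]
      refine lintegral_congr fun s => ?_
      congr 1
      ring
    rw [← maj_gt (by positivity) (fun s => α + s - v) e1]
    refine (setLIntegral_mono' hU fun s hs => ?_).trans (setLIntegral_le_lintegral _ _)
    exact ENNReal.ofReal_le_ofReal (dec_gt hC0 (hw _) hy (hSU s hs v hv))

/-- one part without the condition -/
private theorem part1_gt (K : Ker) {C0 : ℝ} (hC0 : 0 < C0) (hw : ∀ x, K.w x ≤ C0 / (1 + |x|) ^ 12) {α : ℝ} {f : ℝ → ENNReal}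
    (hf : Measurable f) {S U : Set ℝ} (hS : MeasurableSet S) :
    ∫⁻ s in U, (∫⁻ v in S, f v * ENNReal.ofReal (K.w (α + s - v))) ^ 2 ≤
      ENNReal.ofReal ((C0 * ∫ x : ℝ, (1 + ‖x‖) ^ (-2 : ℝ)) * (C0 * ∫ x : ℝ, (1 + ‖x‖) ^ (-2 : ℝ))) * ∫⁻ v in S, f v ^ 2 := by
  have hI : 0 ≤ ∫ x : ℝ, (1 + ‖x‖) ^ (-2 : ℝ) := integral_nonneg fun x => by positivity
  rw [ENNReal.ofReal_mul (by positivity)]
  refine core_gt hf ?_ hS ?_ ?_
  · have := K.w_cont
    exact (ENNReal.measurable_ofReal.comp (by fun_prop : Continuous fun q : ℝ × ℝ => K.w (α + q.1 - q.2)).measurable)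
  · intro s
    rw [← maj_gt hC0.le (fun v => α + s - v) fun F => lintegral_sub_left_eq_self F (α + s)]
    refine lintegral_mono fun v => ENNReal.ofReal_le_ofReal ?_
    exact dec1_gt hC0 (hw _)
  · intro v _
    have e1 : ∀ F : ℝ → ENNReal, ∫⁻ s, F (α + s - v) = ∫⁻ s, F s := by
      intro F
      have := lintegral_add_left_eq_self (μ := volume) F (α - v)
      rw [← this]
      refine lintegral_congr fun s => ?_
      congr 1
      ring
    rw [← maj_gt hC0.le (fun s => α + s - v) e1]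
    refine (setLIntegral_le_lintegral _ _).trans (lintegral_mono fun s => ENNReal.ofReal_le_ofReal ?_)
    exact dec1_gt hC0 (hw _)

/-- the square of the function -/
private noncomputable def ff_gt (r : ℕ) (h : ℕ → ℝ) (v : ℝ) : ENNReal := ENNReal.ofReal |Av h v * Real.exp (-(sr r * v))|

private theorem ff_meas (r : ℕ) (h : ℕ → ℝ) : Measurable (ff_gt r h) := by
  unfold ff_gt
  refine ENNReal.measurable_ofReal.comp ?_
  refine Measurable.abs ?_
  exact (measurable_Av h).mul (Real.continuous_exp.comp (by fun_prop)).measurable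

private theorem ff_sq_le {r : ℕ} {h : ℕ → ℝ} {y v : ℝ} (hs : 0 ≤ sr r) (hy : y ≤ v) :
    ff_gt r h v ^ 2 ≤ ENNReal.ofReal (Real.exp (-(sr r * y))) * ENNReal.ofReal (Av h v ^ 2 * Real.exp (-(sr r * v))) := by
  unfold ff_gt
  rw [← ENNReal.ofReal_pow (abs_nonneg _), ← ENNReal.ofReal_mul (Real.exp_pos _).le]
  refine ENNReal.ofReal_le_ofReal ?_
  rw [sq_abs, mul_pow]
  have h1 : Real.exp (-(sr r * v)) ≤ Real.exp (-(sr r * y)) := Real.exp_le_exp.2 (by nlinarith)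
  have h2 : 0 ≤ Av h v ^ 2 * Real.exp (-(sr r * v)) := mul_nonneg (sq_nonneg _) (Real.exp_pos _).le
  nlinarith [mul_le_mul_of_nonneg_right h1 h2]

private theorem mass_gt {r : ℕ} {h : ℕ → ℝ} {D : ℝ → ℂ} {B : ℝ} (hA : Adm r h D B) (hs : 0 ≤ sr r) {y : ℝ} (hy : 0 ≤ y) {S : Set ℝ}
    (hS : MeasurableSet S) (hS1 : S ⊆ Set.Ioi 0) (hS2 : ∀ v ∈ S, y ≤ v) :
    ∫⁻ v in S, ff_gt r h v ^ 2 ≤ ENNReal.ofReal (Real.exp (-(sr r * y)) * B) := by
  have h0 : ∀ v, 0 ≤ Av h v ^ 2 * Real.exp (-(sr r * v)) := fun v => mul_nonneg (sq_nonneg _) (Real.exp_pos _).le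
  calc ∫⁻ v in S, ff_gt r h v ^ 2 ≤ ∫⁻ v in S, ENNReal.ofReal (Real.exp (-(sr r * y))) * ENNReal.ofReal (Av h v ^ 2 * Real.exp (-(sr r * v))) :=
        setLIntegral_mono' hS fun v hv => ff_sq_le hs (hS2 v hv)
    _ ≤ ∫⁻ v in Set.Ioi 0, ENNReal.ofReal (Real.exp (-(sr r * y))) * ENNReal.ofReal (Av h v ^ 2 * Real.exp (-(sr r * v))) :=
        lintegral_mono_set hS1
    _ = ENNReal.ofReal (Real.exp (-(sr r * y))) * ∫⁻ v in Set.Ioi 0, ENNReal.ofReal (Av h v ^ 2 * Real.exp (-(sr r * v))) := by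
        rw [lintegral_const_mul']
        exact ENNReal.ofReal_ne_top
    _ = ENNReal.ofReal (Real.exp (-(sr r * y))) * ENNReal.ofReal (∫ v in Set.Ioi 0, Av h v ^ 2 * Real.exp (-(sr r * v))) := by
        rw [ofReal_integral_eq_lintegral_ofReal hA.int (Filter.Eventually.of_forall h0)]
    _ ≤ _ := by
        rw [← ENNReal.ofReal_mul (Real.exp_pos _).le]
        exact ENNReal.ofReal_le_ofReal (mul_le_mul_of_nonneg_left hA.mass1 (Real.exp_pos _).le)

private theorem Gc_le (K : Ker) (r : ℕ) (h : ℕ → ℝ) (u : ℝ) :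
    ENNReal.ofReal (Gc K r h u ^ 2) ≤ (∫⁻ v in Set.Ioi (0:ℝ), ff_gt r h v * ENNReal.ofReal (K.w (u - v))) ^ 2 := by
  rw [← sq_abs, ENNReal.ofReal_pow (abs_nonneg _)]
  gcongr
  rw [← Real.norm_eq_abs, ofReal_norm_eq_enorm]
  unfold Gc
  refine (enorm_integral_le_lintegral_enorm _).trans (le_of_eq ?_)
  refine lintegral_congr fun v => ?_
  unfold ff_gt
  rw [enorm_mul, ← ofReal_norm_eq_enorm, ← ofReal_norm_eq_enorm, Real.norm_eq_abs, Real.norm_eq_abs, abs_of_nonneg (K.w_nonneg _)]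

private theorem Gc_meas (K : Ker) (r : ℕ) (h : ℕ → ℝ) : Measurable (Gc K r h) := by
  unfold Gc
  have h1 : StronglyMeasurable (fun q : ℝ × ℝ => Av h q.2 * Real.exp (-(sr r * q.2)) * K.w (q.1 - q.2)) := by
    refine Measurable.stronglyMeasurable ?_
    refine Measurable.mul (Measurable.mul ?_ ?_) ?_
    · exact (measurable_Av h).comp measurable_snd
    · exact (Real.continuous_exp.comp (by fun_prop)).measurable
    · have := K.w_cont
      exact (by fun_prop : Continuous fun q : ℝ × ℝ => K.w (q.1 - q.2)).measurable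
  exact (h1.integral_prod_right (ν := volume.restrict (Set.Ioi (0:ℝ)))).measurable

/-- from the upper integral to the integral -/
private theorem fin_gt (K : Ker) (r : ℕ) (h : ℕ → ℝ) (α : ℝ) {U : Set ℝ} {M : ℝ} (hM : 0 ≤ M)
    (hL : ∫⁻ s in U, ENNReal.ofReal (Gc K r h (α + s) ^ 2) ≤ ENNReal.ofReal M) :
    IntegrableOn (fun s => Gc K r h (α + s) ^ 2) U ∧ ∫ s in U, Gc K r h (α + s) ^ 2 ≤ M := by
  have hm : Measurable fun s => Gc K r h (α + s) ^ 2 := ((Gc_meas K r h).comp (measurable_const.add measurable_id)).pow_const 2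
  have h0 : ∀ s, 0 ≤ Gc K r h (α + s) ^ 2 := fun s => sq_nonneg _
  constructor
  · refine ⟨hm.aestronglyMeasurable, ?_⟩
    rw [hasFiniteIntegral_iff_ofReal (Filter.Eventually.of_forall h0)]
    exact hL.trans_lt ENNReal.ofReal_lt_top
  · rw [integral_eq_lintegral_of_nonneg_ae (Filter.Eventually.of_forall h0) hm.aestronglyMeasurable]
    exact ENNReal.toReal_le_of_le_ofReal hM hL

theorem G_tail (K : Ker) : ∃ C : ℝ, 0 < C ∧ ∃ r0 : ℕ, ∀ r : ℕ, r0 ≤ r → ∀ (h : ℕ → ℝ) (D : ℝ → ℂ) (B : ℝ), Adm r h D B →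
    ∀ α : ℝ, 0 ≤ α → α ≤ 1 / sr r →
    IntegrableOn (fun s => Gc K r h (α + s) ^ 2) (Set.Ioi (Vr r / 2)) ∧
    IntegrableOn (fun s => Gc K r h (α + s) ^ 2) (Set.Iic (-(2 / sr r))) ∧
    ∫ s in Set.Ioi (Vr r / 2), Gc K r h (α + s) ^ 2 ≤ C * (r : ℝ) ^ (-5 : ℝ) * B ∧
    ∫ s in Set.Iic (-(2 / sr r)), Gc K r h (α + s) ^ 2 ≤ C * (r : ℝ) ^ (-5 : ℝ) * B := by
  obtain ⟨C0, hC0, hw⟩ := K.w_dec
  obtain ⟨I, hI⟩ : ∃ I : ℝ, I = ∫ x : ℝ, (1 + ‖x‖) ^ (-2 : ℝ) := ⟨_, rfl⟩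
  have hI0 : 0 ≤ I := by
    rw [hI]
    exact integral_nonneg fun x => by positivity
  obtain ⟨r1, hr1⟩ := pow_le_Vr 1 (1 / 4) (by norm_num) 1 le_rfl
  obtain ⟨r2, hr2⟩ := pow_le_Vr 2 (1 / 40) (by norm_num) 1 le_rfl
  refine ⟨4 * (C0 * I) ^ 2 + 1, by positivity, max (max r1 r2) 2, fun r hr h D B hA α ha0 ha1 => ?_⟩
  have hra : r1 ≤ r := ((le_max_left _ _).trans (le_max_left _ _)).trans hr
  have hrb : r2 ≤ r := ((le_max_right _ _).trans (le_max_left _ _)).trans hr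
  have hrc : 2 ≤ r := (le_max_right _ _).trans hr
  have hr2' : (2 : ℝ) ≤ r := by exact_mod_cast hrc
  have hr0 : (0 : ℝ) < r := by linarith
  have hV := Vr_pos r
  have hs := sr_pos hrc
  have hV4 : (r : ℝ) ≤ Vr r / 4 := by
    have := hr1 r hra
    rw [pow_one, pow_one] at this
    linarith
  have hs1 : (r : ℝ) ≤ 1 / sr r := by
    have h1 := hr2 r hrb
    rw [pow_one] at h1
    have h2 := sr_le r hrc
    rw [le_div_iff₀ hs]
    calc (r : ℝ) * sr r ≤ r * (40 * r / Vr r) := mul_le_mul_of_nonneg_left h2 hr0.le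
      _ = 40 * r ^ 2 / Vr r := by ring
      _ ≤ 1 := by
          rw [div_le_one hV]
          linarith
  have hB : 0 ≤ B := by
    refine le_trans ?_ hA.mass1
    exact integral_nonneg fun v => mul_nonneg (sq_nonneg _) (Real.exp_pos _).le
  -- powers
  have hp : ∀ y : ℝ, (r : ℝ) ≤ y → y ^ (-10 : ℝ) ≤ (r : ℝ) ^ (-5 : ℝ) := by
    intro y hy
    calc y ^ (-10 : ℝ) ≤ (r : ℝ) ^ (-10 : ℝ) := Real.rpow_le_rpow_of_nonpos hr0 hy (by norm_num)
      _ ≤ (r : ℝ) ^ (-5 : ℝ) := Real.rpow_le_rpow_of_exponent_le (by linarith) (by norm_num)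
  have hr5 : 0 ≤ (r : ℝ) ^ (-5 : ℝ) := Real.rpow_nonneg hr0.le _
  have he : Real.exp (-(sr r * (Vr r / 4))) ≤ (r : ℝ) ^ (-5 : ℝ) := by
    have e1 : -(sr r * (Vr r / 4)) = Real.log r * (-10) := by
      have := sr_mul_Vr r
      linarith
    rw [e1, ← Real.rpow_def_of_pos hr0]
    exact Real.rpow_le_rpow_of_exponent_le (by linarith) (by norm_num)
  -- the sum over v
  have hfm := ff_meas r h
  -- first region
  have hL1 : ∫⁻ s in Set.Ioi (Vr r / 2), ENNReal.ofReal (Gc K r h (α + s) ^ 2) ≤ ENNReal.ofReal ((4 * (C0 * I) ^ 2 + 1) * (r : ℝ) ^ (-5 : ℝ) * B) := by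
    have hsplit : ∀ s, (∫⁻ v in Set.Ioi (0:ℝ), ff_gt r h v * ENNReal.ofReal (K.w (α + s - v))) ^ 2 ≤
        2 * (∫⁻ v in Set.Ioc (0:ℝ) (Vr r / 4), ff_gt r h v * ENNReal.ofReal (K.w (α + s - v))) ^ 2 +
        2 * (∫⁻ v in Set.Ioi (Vr r / 4), ff_gt r h v * ENNReal.ofReal (K.w (α + s - v))) ^ 2 := by
      intro s
      have e1 : Set.Ioi (0:ℝ) = Set.Ioc 0 (Vr r / 4) ∪ Set.Ioi (Vr r / 4) := (Set.Ioc_union_Ioi_eq_Ioi (by linarith)).symm
      rw [e1, lintegral_union measurableSet_Ioi (Set.Ioc_disjoint_Ioi le_rfl)]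
      obtain ⟨a, ha⟩ : ∃ a, a = ∫⁻ v in Set.Ioc (0:ℝ) (Vr r / 4), ff_gt r h v * ENNReal.ofReal (K.w (α + s - v)) := ⟨_, rfl⟩
      obtain ⟨b, hb⟩ : ∃ b, b = ∫⁻ v in Set.Ioi (Vr r / 4), ff_gt r h v * ENNReal.ofReal (K.w (α + s - v)) := ⟨_, rfl⟩
      rw [← ha, ← hb]
      have := ENNReal.rpow_add_le_mul_rpow_add_rpow a b (p := 2) (by norm_num)
      norm_num at this
      rw [← mul_add]
      exact this
    have m1 : Measurable fun s => (∫⁻ v in Set.Ioc (0:ℝ) (Vr r / 4), ff_gt r h v * ENNReal.ofReal (K.w (α + s - v))) ^ 2 := by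
      refine Measurable.pow_const (Measurable.lintegral_prod_right ?_) 2
      refine (hfm.comp measurable_snd).mul ?_
      have := K.w_cont
      exact (ENNReal.measurable_ofReal.comp (by fun_prop : Continuous fun q : ℝ × ℝ => K.w (α + q.1 - q.2)).measurable)
    calc ∫⁻ s in Set.Ioi (Vr r / 2), ENNReal.ofReal (Gc K r h (α + s) ^ 2)
        ≤ ∫⁻ s in Set.Ioi (Vr r / 2), (2 * (∫⁻ v in Set.Ioc (0:ℝ) (Vr r / 4), ff_gt r h v * ENNReal.ofReal (K.w (α + s - v))) ^ 2 +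
        2 * (∫⁻ v in Set.Ioi (Vr r / 4), ff_gt r h v * ENNReal.ofReal (K.w (α + s - v))) ^ 2) :=
          lintegral_mono fun s => (Gc_le K r h (α + s)).trans (hsplit s)
      _ = 2 * (∫⁻ s in Set.Ioi (Vr r / 2), (∫⁻ v in Set.Ioc (0:ℝ) (Vr r / 4), ff_gt r h v * ENNReal.ofReal (K.w (α + s - v))) ^ 2) +
        2 * (∫⁻ s in Set.Ioi (Vr r / 2), (∫⁻ v in Set.Ioi (Vr r / 4), ff_gt r h v * ENNReal.ofReal (K.w (α + s - v))) ^ 2) := by
          rw [lintegral_add_left (m1.const_mul 2), lintegral_const_mul' _ _ (by norm_num), lintegral_const_mul' _ _ (by norm_num)]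
      _ ≤ 2 * (ENNReal.ofReal ((C0 * I) * (C0 * (Vr r / 4) ^ (-10 : ℝ) * I)) * ENNReal.ofReal (Real.exp (-(sr r * 0)) * B)) +
        2 * (ENNReal.ofReal ((C0 * I) * (C0 * I)) * ENNReal.ofReal (Real.exp (-(sr r * (Vr r / 4))) * B)) := by
          rw [hI]
          refine add_le_add ?_ ?_
          · refine mul_le_mul_right ((part_gt K hC0 hw (y := Vr r / 4) (by linarith) hfm measurableSet_Ioc measurableSet_Ioi ?_).trans ?_) 2
            · intro s hs v hv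
              have h1 : Vr r / 2 < s := hs
              rw [abs_of_nonneg (by linarith [hv.2])]
              linarith [hv.2]
            · refine mul_le_mul_right (mass_gt hA hs.le le_rfl measurableSet_Ioc (fun v hv => hv.1) fun v hv => hv.1.le) _
          · refine mul_le_mul_right ((part1_gt K hC0 hw hfm measurableSet_Ioi).trans ?_) 2
            refine mul_le_mul_right (mass_gt hA hs.le (by linarith) measurableSet_Ioi (fun v hv => ?_) fun v hv => ?_) _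
            · have : Vr r / 4 < v := hv
              exact lt_trans (by linarith) this
            · exact (show Vr r / 4 < v from hv).le
      _ = ENNReal.ofReal (2 * (((C0 * I) * (C0 * (Vr r / 4) ^ (-10 : ℝ) * I)) * (Real.exp (-(sr r * 0)) * B)) +
        2 * (((C0 * I) * (C0 * I)) * (Real.exp (-(sr r * (Vr r / 4))) * B))) := by
          have q1 : 0 ≤ (Vr r / 4) ^ (-10 : ℝ) := Real.rpow_nonneg (by linarith) _
          have q2 : 0 ≤ Real.exp (-(sr r * 0)) := (Real.exp_pos _).le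
          have q3 : 0 ≤ Real.exp (-(sr r * (Vr r / 4))) := (Real.exp_pos _).le
          rw [ENNReal.ofReal_add (by positivity) (by positivity), ENNReal.ofReal_mul (p := 2) (by norm_num), ENNReal.ofReal_mul (p := 2) (by norm_num),
            ENNReal.ofReal_mul (p := (C0 * I) * (C0 * (Vr r / 4) ^ (-10 : ℝ) * I)) (by positivity), ENNReal.ofReal_mul (p := (C0 * I) * (C0 * I)) (by positivity)]
          norm_num
      _ ≤ _ := by
          refine ENNReal.ofReal_le_ofReal ?_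
          have h1 := hp _ hV4
          have e0 : Real.exp (-(sr r * 0)) = 1 := by simp
          rw [e0]
          have h2 : 0 ≤ (C0 * I) ^ 2 * B := by positivity
          have h3 := mul_le_mul_of_nonneg_left h1 h2
          have h4 := mul_le_mul_of_nonneg_left he h2
          have h5 : 0 ≤ (r : ℝ) ^ (-5 : ℝ) * B := by positivity
          nlinarith
  -- second region
  have hL2 : ∫⁻ s in Set.Iic (-(2 / sr r)), ENNReal.ofReal (Gc K r h (α + s) ^ 2) ≤ ENNReal.ofReal ((4 * (C0 * I) ^ 2 + 1) * (r : ℝ) ^ (-5 : ℝ) * B) := by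
    calc ∫⁻ s in Set.Iic (-(2 / sr r)), ENNReal.ofReal (Gc K r h (α + s) ^ 2)
        ≤ ∫⁻ s in Set.Iic (-(2 / sr r)), (∫⁻ v in Set.Ioi (0:ℝ), ff_gt r h v * ENNReal.ofReal (K.w (α + s - v))) ^ 2 :=
          lintegral_mono fun s => Gc_le K r h (α + s)
      _ ≤ ENNReal.ofReal ((C0 * I) * (C0 * (1 / sr r) ^ (-10 : ℝ) * I)) * ENNReal.ofReal (Real.exp (-(sr r * 0)) * B) := by
          rw [hI]
          refine (part_gt K hC0 hw (y := 1 / sr r) (by positivity) hfm measurableSet_Ioi measurableSet_Iic ?_).trans ?_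
          · intro s hs' v hv
            have h1 : s ≤ -(2 / sr r) := hs'
            have h2 : 0 < v := hv
            have h3 : 2 / sr r = 2 * (1 / sr r) := by ring
            rw [abs_of_nonpos (by linarith)]
            linarith
          · exact mul_le_mul_right (mass_gt hA hs.le le_rfl measurableSet_Ioi (fun v hv => hv) fun v hv => (show 0 < v from hv).le) _
      _ = ENNReal.ofReal (((C0 * I) * (C0 * (1 / sr r) ^ (-10 : ℝ) * I)) * (Real.exp (-(sr r * 0)) * B)) := by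
          have q1 : 0 ≤ (1 / sr r) ^ (-10 : ℝ) := Real.rpow_nonneg (by positivity) _
          rw [ENNReal.ofReal_mul (p := (C0 * I) * (C0 * (1 / sr r) ^ (-10 : ℝ) * I)) (by positivity)]
      _ ≤ _ := by
          refine ENNReal.ofReal_le_ofReal ?_
          have h1 := hp _ hs1
          have e0 : Real.exp (-(sr r * 0)) = 1 := by simp
          rw [e0]
          have h2 : 0 ≤ (C0 * I) ^ 2 * B := by positivity
          have h3 := mul_le_mul_of_nonneg_left h1 h2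
          have h5 : 0 ≤ (r : ℝ) ^ (-5 : ℝ) * B := by positivity
          have h6 : 0 ≤ (C0 * I) ^ 2 * ((r : ℝ) ^ (-5 : ℝ) * B) := by positivity
          nlinarith
  have hM : 0 ≤ (4 * (C0 * I) ^ 2 + 1) * (r : ℝ) ^ (-5 : ℝ) * B := by positivity
  obtain ⟨a1, a2⟩ := fin_gt K r h α hM hL1
  obtain ⟨b1, b2⟩ := fin_gt K r h α hM hL2
  exact ⟨a1, b1, a2, b2⟩

end Pool.Agent.Helper66.LW
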