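import Pool.Agent.Helper66.LW.Basic
import Pool.Agent.Helper66.LW.K0

/-!
# Project LW (P1 on MP_a499ba_nt), block L1

PROOF. N = 2^(r/8), Delta = floor(1/(sigma N)). Cauchy-Schwarz: RC(U+m)^2 <= (INT kf)(INT_V^{2V} Av^2 kf); sum_{m <= 1/sigma} kf(U+m, v) <= C sum_m 1/(1+(U+m-v)^2) <= C': so
sum_{m < N Delta} RC(U+m)^2 <= C B (mass0). Pigeonhole over the residue tau mod Delta: sum_{i<N} RC(U+tau+i Delta)^2 <= C B/Delta; at most N/2 of the i have RC^2 > 2 C B/(N Delta) <= 4 C sigma B.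
-/

set_option autoImplicit false

namespace Pool.Agent.Helper66.LW

open Finset MeasureTheory Pool.Agent.Helper5.RM Pool.Agent.Helper96.AF Pool.Agent.Helper96.AG

private lemma cs54 {a b : ℝ} (hab : a ≤ b) {f k : ℝ → ℝ} (hk : ∀ v, 0 ≤ k v)
    (h0 : IntervalIntegrable k volume a b) (h1 : IntervalIntegrable (fun v => f v * k v) volume a b)
    (h2 : IntervalIntegrable (fun v => f v ^ 2 * k v) volume a b) :
    (∫ v in a..b, f v * k v) ^ 2 ≤ (∫ v in a..b, k v) * ∫ v in a..b, f v ^ 2 * k v := by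
  have h3 : ∀ x : ℝ, 0 ≤ (∫ v in a..b, k v) * (x * x) + (-2 * ∫ v in a..b, f v * k v) * x +
      ∫ v in a..b, f v ^ 2 * k v := by
    intro x
    have h4 : ∫ v in a..b, (x - f v) ^ 2 * k v = (∫ v in a..b, k v) * (x * x) +
        (-2 * ∫ v in a..b, f v * k v) * x + ∫ v in a..b, f v ^ 2 * k v := by
      have h5 : (fun v => (x - f v) ^ 2 * k v) = fun v => (x * x) * k v + (-2 * x) * (f v * k v) +
          f v ^ 2 * k v := by
        funext v
        ring
      rw [h5, intervalIntegral.integral_add ((h0.const_mul _).add (h1.const_mul _)) h2,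
        intervalIntegral.integral_add (h0.const_mul _) (h1.const_mul _),
        intervalIntegral.integral_const_mul, intervalIntegral.integral_const_mul]
      ring
    rw [← h4]
    exact intervalIntegral.integral_nonneg hab (fun v _ => mul_nonneg (sq_nonneg _) (hk v))
  have h5 := discrim_le_zero h3
  unfold discrim at h5
  nlinarith

private lemma ii54 {h : ℕ → ℝ} (hh : ∀ n, |h n| ≤ 1) (a b : ℝ) (n : ℕ) :
    IntervalIntegrable (fun v => Av h v ^ n) volume a b := by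
  have h1 : IntervalIntegrable (fun v : ℝ => Real.exp (v / 2) ^ n) volume a b :=
    (by fun_prop : Continuous fun v : ℝ => Real.exp (v / 2) ^ n).intervalIntegrable a b
  refine h1.mono_fun ((measurable_Av h).pow_const n).aestronglyMeasurable
    (Filter.Eventually.of_forall fun v => ?_)
  beta_reduce
  rw [norm_pow, norm_pow]
  refine pow_le_pow_left₀ (norm_nonneg _) ?_ n
  rw [Real.norm_eq_abs, Real.norm_eq_abs, abs_of_pos (Real.exp_pos _)]
  exact abs_Av_le hh v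

private lemma cont_kap54 (x : ℝ) : Continuous fun t : ℝ => 1 / (1 + (x - t) ^ 2) := by
  refine Continuous.div (by fun_prop) (by fun_prop) (fun t => ?_)
  positivity

private lemma int_kap54 (x a b : ℝ) : ∫ t in a..b, 1 / (1 + (x - t) ^ 2) ≤ Real.pi := by
  have h1 : ∫ t in a..b, 1 / (1 + (x - t) ^ 2) = Real.arctan (x - a) - Real.arctan (x - b) := by
    rw [intervalIntegral.integral_comp_sub_left (fun z : ℝ => 1 / (1 + z ^ 2)) x,
      integral_one_div_one_add_sq]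
  rw [h1]
  have h2 := Real.arctan_lt_pi_div_two (x - a)
  have h3 := Real.neg_pi_div_two_lt_arctan (x - b)
  linarith

private lemma kap_le54 (z z' : ℝ) (h : |z - z'| ≤ 1) :
    1 / (1 + z ^ 2) ≤ 3 * (1 / (1 + z' ^ 2)) := by
  have h1 : (z - z') ^ 2 ≤ 1 := by
    rw [← sq_abs]
    exact pow_le_one₀ (abs_nonneg _) h
  have h2 : z' ^ 2 ≤ 2 * z ^ 2 + 2 := by nlinarith [sq_nonneg (z + (z - z'))]
  rw [mul_one_div, div_le_div_iff₀ (by positivity) (by positivity)]
  nlinarith [sq_nonneg z]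

private lemma sum_kap54 (y : ℝ) (M : ℕ) :
    ∑ m ∈ Finset.range M, 1 / (1 + (y + m) ^ 2) ≤ 3 * Real.pi := by
  have hc : Continuous fun t : ℝ => 3 * (1 / (1 + (-y - t) ^ 2)) :=
    continuous_const.mul (cont_kap54 (-y))
  have h1 : ∀ m ∈ Finset.range M, 1 / (1 + (y + m) ^ 2) ≤
      ∫ t in (m : ℝ)..((m + 1 : ℕ) : ℝ), 3 * (1 / (1 + (-y - t) ^ 2)) := by
    intro m _
    have h2 : (1 : ℝ) / (1 + (y + m) ^ 2) =
        ∫ t in (m : ℝ)..((m + 1 : ℕ) : ℝ), 1 / (1 + (y + m) ^ 2) := by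
      rw [intervalIntegral.integral_const]
      push_cast
      rw [add_sub_cancel_left, one_smul]
    rw [h2]
    refine intervalIntegral.integral_mono_on (by push_cast; linarith)
      intervalIntegrable_const (hc.intervalIntegrable _ _) (fun t ht => ?_)
    have h3 := ht.1
    have h4 := ht.2
    push_cast at h4
    have h5 := kap_le54 (y + m) (y + t) (by rw [abs_le]; constructor <;> linarith)
    have h6 : (-y - t) ^ 2 = (y + t) ^ 2 := by ring
    rw [h6]
    exact h5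
  refine (Finset.sum_le_sum h1).trans ?_
  rw [intervalIntegral.sum_integral_adjacent_intervals (a := fun m : ℕ => (m : ℝ))
    (fun k _ => hc.intervalIntegrable _ _), intervalIntegral.integral_const_mul]
  exact mul_le_mul_of_nonneg_left (int_kap54 _ _ _) (by norm_num)

private lemma mass54 (K : Ker) {C0 : ℝ} (hC0 : 0 < C0) {r : ℕ}
    (hk : ∀ u : ℝ, Ur r ≤ u → u ≤ Ur r + 1 / sr r → ∀ v : ℝ, Vr r ≤ v → v ≤ 2 * Vr r →
      kf K r u v ≤ C0 / (1 + (u - v) ^ 2)) {h : ℕ → ℝ} {D : ℝ → ℂ} {B : ℝ} (hA : Adm r h D B)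
    {M : ℕ} (hM : (M : ℝ) ≤ 1 / sr r) :
    ∑ m ∈ Finset.range M, RC K r h (Ur r + m) ^ 2 ≤ 3 * Real.pi ^ 2 * C0 ^ 2 * B := by
  have hV := Vr_pos r
  have hV2 : Vr r ≤ 2 * Vr r := by linarith
  have hu : ∀ m ∈ Finset.range M, ∀ v ∈ Set.Icc (Vr r) (2 * Vr r),
      kf K r (Ur r + m) v ≤ C0 * (1 / (1 + (Ur r + m - v) ^ 2)) := by
    intro m hm v hv
    have h1 : (m : ℝ) ≤ M := by exact_mod_cast (Finset.mem_range.1 hm).le
    have h2 : (0 : ℝ) ≤ m := Nat.cast_nonneg m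
    rw [mul_one_div]
    exact hk _ (by linarith) (by linarith) v hv.1 hv.2
  have hkc : ∀ u : ℝ, IntervalIntegrable (kf K r u) volume (Vr r) (2 * Vr r) := fun u =>
    (continuous_kf K r u).intervalIntegrable _ _
  have hA1 : ∀ u : ℝ, IntervalIntegrable (fun v => Av h v * kf K r u v) volume (Vr r) (2 * Vr r) := by
    intro u
    have h1 := (ii54 hA.le_one (Vr r) (2 * Vr r) 1).mul_continuousOn (continuous_kf K r u).continuousOn
    simpa using h1
  have hA2 : ∀ u : ℝ, IntervalIntegrable (fun v => Av h v ^ 2 * kf K r u v) volume (Vr r)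
      (2 * Vr r) := by
    intro u
    exact (ii54 hA.le_one (Vr r) (2 * Vr r) 2).mul_continuousOn (continuous_kf K r u).continuousOn
  have h1 : ∀ m ∈ Finset.range M, RC K r h (Ur r + m) ^ 2 ≤
      (C0 * Real.pi) * ∫ v in (Vr r)..(2 * Vr r), Av h v ^ 2 * kf K r (Ur r + m) v := by
    intro m hm
    refine (cs54 hV2 (kf_nonneg K r _) (hkc _) (hA1 _) (hA2 _)).trans ?_
    refine mul_le_mul_of_nonneg_right ?_ (intervalIntegral.integral_nonneg hV2
      (fun v _ => mul_nonneg (sq_nonneg _) (kf_nonneg K r _ v)))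
    calc ∫ v in (Vr r)..(2 * Vr r), kf K r (Ur r + m) v
        ≤ ∫ v in (Vr r)..(2 * Vr r), C0 * (1 / (1 + (Ur r + m - v) ^ 2)) :=
          intervalIntegral.integral_mono_on hV2 (hkc _)
            ((continuous_const.mul (cont_kap54 _)).intervalIntegrable _ _) (hu m hm)
      _ = C0 * ∫ v in (Vr r)..(2 * Vr r), 1 / (1 + (Ur r + m - v) ^ 2) :=
          intervalIntegral.integral_const_mul _ _
      _ ≤ C0 * Real.pi := mul_le_mul_of_nonneg_left (int_kap54 _ _ _) hC0.le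
  refine (Finset.sum_le_sum h1).trans ?_
  rw [← Finset.mul_sum, ← intervalIntegral.integral_finsetSum (fun m _ => hA2 _)]
  have h2 : ∫ v in (Vr r)..(2 * Vr r), ∑ m ∈ Finset.range M, Av h v ^ 2 * kf K r (Ur r + m) v ≤
      ∫ v in (Vr r)..(2 * Vr r), (C0 * (3 * Real.pi)) * Av h v ^ 2 := by
    refine intervalIntegral.integral_mono_on hV2 ?_ ((ii54 hA.le_one _ _ 2).const_mul _)
      (fun v hv => ?_)
    · have h3 : (fun v => ∑ m ∈ Finset.range M, Av h v ^ 2 * kf K r (Ur r + m) v) =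
          ∑ m ∈ Finset.range M, fun v => Av h v ^ 2 * kf K r (Ur r + m) v := by
        funext v
        rw [Finset.sum_apply]
      rw [h3]
      exact IntervalIntegrable.sum _ (fun m _ => hA2 _)
    · rw [← Finset.mul_sum, mul_comm]
      refine mul_le_mul_of_nonneg_right ?_ (sq_nonneg _)
      calc ∑ m ∈ Finset.range M, kf K r (Ur r + m) v
          ≤ ∑ m ∈ Finset.range M, C0 * (1 / (1 + (Ur r + m - v) ^ 2)) :=
            Finset.sum_le_sum fun m hm => hu m hm v hv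
        _ = C0 * ∑ m ∈ Finset.range M, 1 / (1 + ((Ur r - v) + m) ^ 2) := by
            rw [← Finset.mul_sum]
            congr 1
            refine Finset.sum_congr rfl fun m _ => ?_
            rw [show Ur r + (m : ℝ) - v = (Ur r - v) + m by ring]
        _ ≤ C0 * (3 * Real.pi) := mul_le_mul_of_nonneg_left (sum_kap54 _ _) hC0.le
  have h4 : ∫ v in (Vr r)..(2 * Vr r), Av h v ^ 2 ≤ B := by
    refine le_trans ?_ hA.mass0
    rw [← intervalIntegral.integral_add_adjacent_intervals (ii54 hA.le_one 0 (Vr r) 2)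
      (ii54 hA.le_one (Vr r) (2 * Vr r) 2)]
    have h5 : 0 ≤ ∫ v in (0 : ℝ)..(Vr r), Av h v ^ 2 :=
      intervalIntegral.integral_nonneg hV.le fun v _ => sq_nonneg _
    linarith
  rw [intervalIntegral.integral_const_mul] at h2
  calc C0 * Real.pi * ∫ v in (Vr r)..(2 * Vr r), ∑ m ∈ Finset.range M,
        Av h v ^ 2 * kf K r (Ur r + m) v
      ≤ C0 * Real.pi * ((C0 * (3 * Real.pi)) * ∫ v in (Vr r)..(2 * Vr r), Av h v ^ 2) :=
        mul_le_mul_of_nonneg_left h2 (by positivity)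
    _ ≤ C0 * Real.pi * ((C0 * (3 * Real.pi)) * B) := by gcongr
    _ = 3 * Real.pi ^ 2 * C0 ^ 2 * B := by ring

private lemma range_mul54 (f : ℕ → ℝ) (Δ N : ℕ) :
    ∑ m ∈ Finset.range (N * Δ), f m = ∑ τ ∈ Finset.range Δ, ∑ i ∈ Finset.range N, f (τ + i * Δ) := by
  induction N with
  | zero => simp
  | succ N ih =>
    rw [add_mul, one_mul, Finset.sum_range_add, ih, ← Finset.sum_add_distrib]
    refine Finset.sum_congr rfl fun τ _ => ?_
    rw [Finset.sum_range_succ, add_comm (N * Δ) τ]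

private lemma pow8_54 (q : ℕ) (hq : 5 ≤ q) : 1200 * q ≤ 8 ^ q := by
  induction q, hq using Nat.le_induction with
  | base => norm_num
  | succ q hq ih =>
    rw [pow_succ]
    omega

theorem select (K : Ker) : ∃ C : ℝ, 0 < C ∧ ∃ r0 : ℕ, ∀ r : ℕ, r0 ≤ r → ∀ (h : ℕ → ℝ) (D : ℝ → ℂ) (B : ℝ), Adm r h D B →
    ∃ Δ τ : ℕ, 2 ^ (r / 2) ≤ Δ ∧ ∃ J ⊆ Finset.range (2 ^ (r / 8)), 2 ^ (r / 8) ≤ 2 * J.card ∧
    ∀ i ∈ J, ((τ + i * Δ : ℕ) : ℝ) ≤ 1 / sr r ∧ RC K r h (Ur r + (τ + i * Δ : ℕ)) ^ 2 ≤ C * sr r * B := by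
  obtain ⟨C0, hC0, r0, hk⟩ := kf_le K
  refine ⟨4 * (3 * Real.pi ^ 2 * C0 ^ 2), by positivity, max r0 40, fun r hr h D B hA => ?_⟩
  have hr0 : r0 ≤ r := (le_max_left _ _).trans hr
  have hr40 : 40 ≤ r := (le_max_right _ _).trans hr
  have hσ : 0 < sr r := sr_pos (by omega)
  have hB : 0 ≤ B := (intervalIntegral.integral_nonneg (by have := Vr_pos r; linarith)
    fun v _ => sq_nonneg _).trans hA.mass0
  set A : ℝ := 3 * Real.pi ^ 2 * C0 ^ 2 with hAdef
  have hA0 : 0 < A := by positivity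
  set N : ℕ := 2 ^ (r / 8) with hN
  have hN0 : 0 < N := by positivity
  have hNr : (0 : ℝ) < N := by exact_mod_cast hN0
  -- the size of `Δ`
  have hbig : ((2 ^ (r / 2) : ℕ) : ℝ) ≤ 1 / (sr r * N) := by
    rw [le_div_iff₀ (by positivity)]
    have h1 := sr_le r (by omega)
    have h2 : 40 * (r : ℝ) / Vr r ≤ 80 * r / 2 ^ r := by
      rw [div_le_div_iff₀ (Vr_pos r) (by positivity)]
      have h3 := le_Vr r
      have h4 : (0 : ℝ) ≤ r := Nat.cast_nonneg r
      nlinarith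
    have h5 : 80 * r * (2 ^ (r / 2) * N) ≤ 2 ^ r := by
      have h6 : 80 * r ≤ 2 ^ (r - (r / 2 + r / 8)) := by
        have h7 := pow8_54 (r / 8) (by omega)
        have h8 : 8 ^ (r / 8) = 2 ^ (3 * (r / 8)) := by rw [pow_mul]; norm_num
        have h9 : 2 ^ (3 * (r / 8)) ≤ 2 ^ (r - (r / 2 + r / 8)) :=
          Nat.pow_le_pow_right (by norm_num) (by omega)
        omega
      calc 80 * r * (2 ^ (r / 2) * N) ≤ 2 ^ (r - (r / 2 + r / 8)) * (2 ^ (r / 2) * N) :=
            Nat.mul_le_mul_right _ h6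
        _ = 2 ^ r := by
            rw [hN, ← pow_add, ← pow_add]
            congr 1
            omega
    have h6 : (80 * (r : ℝ)) * (((2 ^ (r / 2) : ℕ) : ℝ) * N) ≤ 2 ^ r := by exact_mod_cast h5
    calc ((2 ^ (r / 2) : ℕ) : ℝ) * (sr r * N) = sr r * (((2 ^ (r / 2) : ℕ) : ℝ) * N) := by ring
      _ ≤ (80 * r / 2 ^ r) * (((2 ^ (r / 2) : ℕ) : ℝ) * N) :=
          mul_le_mul_of_nonneg_right (h1.trans h2) (by positivity)
      _ = (80 * (r : ℝ)) * (((2 ^ (r / 2) : ℕ) : ℝ) * N) / 2 ^ r := by ring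
      _ ≤ 1 := by
          rw [div_le_one (by positivity)]
          exact h6
  set Δ : ℕ := ⌊1 / (sr r * N)⌋₊ with hΔ
  have hΔ1 : 2 ^ (r / 2) ≤ Δ := Nat.le_floor hbig
  have hΔ0 : 0 < Δ := lt_of_lt_of_le (by positivity) hΔ1
  have hΔr : (0 : ℝ) < Δ := by exact_mod_cast hΔ0
  have hΔle : (Δ : ℝ) ≤ 1 / (sr r * N) := Nat.floor_le (by positivity)
  have hMle : ((N * Δ : ℕ) : ℝ) ≤ 1 / sr r := by
    push_cast
    calc (N : ℝ) * Δ ≤ N * (1 / (sr r * N)) := mul_le_mul_of_nonneg_left hΔle hNr.le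
      _ = 1 / sr r := by field_simp
  have hge : 1 ≤ 2 * (N * Δ * sr r) := by
    have h1 : 1 / (sr r * N) < Δ + 1 := Nat.lt_floor_add_one _
    have h2 : (1 : ℝ) ≤ Δ := by exact_mod_cast hΔ0
    rw [div_lt_iff₀ (by positivity)] at h1
    have h3 : 0 < sr r * N := by positivity
    nlinarith
  -- the pigeonhole
  have hsum := mass54 K hC0 (hk r hr0) hA hMle
  rw [range_mul54] at hsum
  obtain ⟨τ, hτ, hτ2⟩ : ∃ τ ∈ Finset.range Δ,
      ∑ i ∈ Finset.range N, RC K r h (Ur r + (τ + i * Δ : ℕ)) ^ 2 ≤ A * B / Δ := by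
    refine Finset.exists_le_of_sum_le ⟨0, Finset.mem_range.2 hΔ0⟩ ?_
    rw [Finset.sum_const, Finset.card_range, nsmul_eq_mul]
    calc _ ≤ A * B := hsum
      _ = (Δ : ℝ) * (A * B / Δ) := by field_simp
  classical
  refine ⟨Δ, τ, hΔ1, (Finset.range N).filter fun i =>
    RC K r h (Ur r + (τ + i * Δ : ℕ)) ^ 2 ≤ 4 * A * sr r * B, Finset.filter_subset _ _, ?_, ?_⟩
  · have hcard := Finset.card_filter_add_card_filter_not (s := Finset.range N)
      (fun i => RC K r h (Ur r + (τ + i * Δ : ℕ)) ^ 2 ≤ 4 * A * sr r * B)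
    rw [Finset.card_range] at hcard
    by_contra hlt
    rw [not_le] at hlt
    set G := (Finset.range N).filter fun i =>
      ¬ RC K r h (Ur r + (τ + i * Δ : ℕ)) ^ 2 ≤ 4 * A * sr r * B with hG
    have hG1 : N < 2 * G.card := by omega
    have hG0 : G.Nonempty := by
      rw [← Finset.card_pos]
      omega
    have h1 : ∑ i ∈ G, 4 * A * sr r * B < ∑ i ∈ G, RC K r h (Ur r + (τ + i * Δ : ℕ)) ^ 2 := by
      refine Finset.sum_lt_sum_of_nonempty hG0 fun i hi => ?_
      rw [hG, Finset.mem_filter, not_le] at hi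
      exact hi.2
    have h2 : ∑ i ∈ G, RC K r h (Ur r + (τ + i * Δ : ℕ)) ^ 2 ≤
        ∑ i ∈ Finset.range N, RC K r h (Ur r + (τ + i * Δ : ℕ)) ^ 2 :=
      Finset.sum_le_sum_of_subset_of_nonneg (Finset.filter_subset _ _) fun i _ _ => sq_nonneg _
    rw [Finset.sum_const, nsmul_eq_mul] at h1
    have h3 : (G.card : ℝ) * (4 * A * sr r * B) < A * B / Δ := h1.trans_le (h2.trans hτ2)
    rw [lt_div_iff₀ hΔr] at h3
    have h4 : (N : ℝ) ≤ 2 * G.card := by exact_mod_cast hG1.le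
    have h5 : A * B ≤ (G.card : ℝ) * (4 * A * sr r * B) * Δ := by
      calc A * B = A * B * 1 := (mul_one _).symm
        _ ≤ A * B * (2 * (N * Δ * sr r)) := mul_le_mul_of_nonneg_left hge (by positivity)
        _ ≤ A * B * (2 * ((2 * G.card) * Δ * sr r)) := by gcongr
        _ = (G.card : ℝ) * (4 * A * sr r * B) * Δ := by ring
    linarith
  · intro i hi
    rw [Finset.mem_filter, Finset.mem_range] at hi
    refine ⟨le_trans ?_ hMle, hi.2⟩
    have h1 := Finset.mem_range.1 hτ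
    have h2 : τ + i * Δ ≤ N * Δ := by
      calc τ + i * Δ ≤ Δ + i * Δ := by omega
        _ = (i + 1) * Δ := by ring
        _ ≤ N * Δ := Nat.mul_le_mul_right _ hi.1
    exact_mod_cast h2

end Pool.Agent.Helper66.LW
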