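import Pool.Agent.Helper66.LW.Basic
import Pool.Agent.Helper66.LW.K0
import Pool.Agent.Helper66.LW.CWa

/-!
# Project LW (P1 on MP_a499ba_nt), block L2

PROOF. aC^2 <= (1/p)(INT kf)(INT_V^{2V} Av(v-x)^2 kf(u,v) dv) (x = log p) = (1/p) C INT_0^V Av(y)^2 kf(u,y+x) 1[y+x<=2V] dy; sum over p:
<= C INT_0^V Av(y)^2 sum_p (1/p) C/(1+(u-y-x_p)^2) dy <= C B/V by cw_up and mass0.
-/

set_option autoImplicit false

namespace Pool.Agent.Helper66.LW

open Finset MeasureTheory Pool.Agent.Helper5.RM Pool.Agent.Helper96.AF Pool.Agent.Helper96.AG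

private theorem ii_h12 {f g : ℝ → ℝ} (hf : Measurable f) {M c : ℝ} (hM : ∀ v, v ≤ c → |f v| ≤ M)
    (hg : Continuous g) {a b : ℝ} (ha : a ≤ c) (hb : b ≤ c) :
    IntervalIntegrable (fun v => f v * g v) volume a b := by
  have h1 : IntervalIntegrable f volume a b := by
    rw [intervalIntegrable_iff]
    refine MeasureTheory.Measure.integrableOn_of_bounded (M := M) ?_ hf.aestronglyMeasurable ?_
    · exact measure_Ioc_lt_top.ne
    · refine (ae_restrict_iff' measurableSet_uIoc).2 (Filter.Eventually.of_forall fun v hv => ?_)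
      rw [Real.norm_eq_abs]
      refine hM v ?_
      rw [Set.mem_uIoc] at hv
      rcases hv with hv | hv
      · exact hv.2.trans hb
      · exact hv.2.trans ha
  exact h1.mul_continuousOn hg.continuousOn

private theorem cs_h12 {f k : ℝ → ℝ} {a b C0 : ℝ} (hab : a ≤ b) (hC : 0 < C0) (hk : ∀ v, 0 ≤ k v)
    (h0 : IntervalIntegrable k volume a b)
    (h1 : IntervalIntegrable (fun v => f v * k v) volume a b)
    (h2 : IntervalIntegrable (fun v => f v ^ 2 * k v) volume a b)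
    (hC0 : ∫ v in a..b, k v ≤ C0) :
    (∫ v in a..b, f v * k v) ^ 2 ≤ C0 * ∫ v in a..b, f v ^ 2 * k v := by
  set A := ∫ v in a..b, f v ^ 2 * k v with hA
  set E := ∫ v in a..b, f v * k v with hE
  set G := ∫ v in a..b, k v with hG
  set t := E / C0 with ht
  have h3 : 0 ≤ ∫ v in a..b, (f v - t) ^ 2 * k v :=
    intervalIntegral.integral_nonneg hab fun v _ => mul_nonneg (sq_nonneg _) (hk v)
  have h4 : ∫ v in a..b, (f v - t) ^ 2 * k v = A - 2 * t * E + t ^ 2 * G := by
    have e1 : (fun v => (f v - t) ^ 2 * k v) =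
        fun v => (f v ^ 2 * k v - 2 * t * (f v * k v)) + t ^ 2 * k v := by
      funext v
      ring
    rw [e1, intervalIntegral.integral_add (h2.sub (h1.const_mul _)) (h0.const_mul _),
      intervalIntegral.integral_sub h2 (h1.const_mul _), intervalIntegral.integral_const_mul,
      intervalIntegral.integral_const_mul]
  have h5 : t ^ 2 * G ≤ t ^ 2 * C0 := mul_le_mul_of_nonneg_left hC0 (sq_nonneg _)
  have h6 : 0 ≤ A - 2 * t * E + t ^ 2 * C0 := by linarith
  have h7 : A - 2 * t * E + t ^ 2 * C0 = A - E ^ 2 / C0 := by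
    rw [ht]
    field_simp
    ring
  rw [h7] at h6
  have h8 : E ^ 2 / C0 ≤ A := by linarith
  rw [div_le_iff₀ hC] at h8
  linarith

private theorem kint_h12 (u a b : ℝ) : ∫ v in a..b, (1 + (u - v) ^ 2)⁻¹ ≤ Real.pi := by
  have h1 := intervalIntegral.integral_comp_sub_left (a := a) (b := b)
    (fun z : ℝ => (1 + z ^ 2)⁻¹) u
  rw [h1, integral_inv_one_add_sq]
  have h2 := Real.arctan_lt_pi_div_two (u - a)
  have h3 := Real.neg_pi_div_two_lt_arctan (u - b)
  linarith

private theorem one_h12 {r : ℕ} {h : ℕ → ℝ} (hh : ∀ n, |h n| ≤ 1) {u x C1 : ℝ} (hC1 : 0 < C1)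
    (hx1 : Vr r < x) (hx2 : x ≤ 2 * Vr r) (k : ℝ → ℝ) (hkc : Continuous k) (hk0 : ∀ v, 0 ≤ k v)
    (hk : ∀ v, Vr r ≤ v → v ≤ 2 * Vr r → k v ≤ C1 / (1 + (u - v) ^ 2)) :
    (∫ v in (Vr r)..(2 * Vr r), Av h (v - x) * k v) ^ 2 ≤
      C1 * Real.pi * (C1 * ∫ y in (0 : ℝ)..(2 * Vr r), Av h y ^ 2 * (1 / (1 + (u - y - x) ^ 2))) := by
  have hV := Vr_pos r
  set V := Vr r with hVd
  have hpi := Real.pi_pos
  have hm : Measurable (Av h) := measurable_Av h
  have hb : ∀ v, v ≤ 2 * V → |Av h v| ≤ Real.exp V := fun v hv =>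
    (abs_Av_le hh v).trans (Real.exp_le_exp.2 (by linarith))
  have hb2 : ∀ v, v ≤ 2 * V → |Av h v ^ 2| ≤ Real.exp V ^ 2 := fun v hv => by
    rw [abs_pow]
    exact pow_le_pow_left₀ (abs_nonneg _) (hb v hv) 2
  have hms : Measurable (fun v => Av h (v - x)) := hm.comp (measurable_id.sub_const x)
  have i1 : IntervalIntegrable (fun v => Av h (v - x) * k v) volume V (2 * V) :=
    ii_h12 hms (c := 2 * V) (fun v hv => hb (v - x) (by linarith)) hkc (by linarith) le_rfl
  have i2 : IntervalIntegrable (fun v => Av h (v - x) ^ 2 * k v) volume V (2 * V) :=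
    ii_h12 (hms.pow_const 2) (c := 2 * V) (fun v hv => hb2 (v - x) (by linarith)) hkc
      (by linarith) le_rfl
  have hc1 : Continuous (fun v : ℝ => C1 / (1 + (u - v) ^ 2)) :=
    continuous_const.div (by fun_prop) fun v => by positivity
  have i3 : IntervalIntegrable (fun v => Av h (v - x) ^ 2 * (C1 / (1 + (u - v) ^ 2))) volume V (2 * V) :=
    ii_h12 (hms.pow_const 2) (c := 2 * V) (fun v hv => hb2 (v - x) (by linarith)) hc1
      (by linarith) le_rfl
  have hG : ∫ v in V..(2 * V), k v ≤ C1 * Real.pi := by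
    have h1 : ∫ v in V..(2 * V), k v ≤ ∫ v in V..(2 * V), C1 / (1 + (u - v) ^ 2) :=
      intervalIntegral.integral_mono_on (by linarith) (hkc.intervalIntegrable _ _)
        (hc1.intervalIntegrable _ _) fun v hv => hk v hv.1 hv.2
    have h2 : ∫ v in V..(2 * V), C1 / (1 + (u - v) ^ 2) =
        C1 * ∫ v in V..(2 * V), (1 + (u - v) ^ 2)⁻¹ := by
      rw [← intervalIntegral.integral_const_mul]
      rfl
    rw [h2] at h1
    exact h1.trans (mul_le_mul_of_nonneg_left (kint_h12 u _ _) hC1.le)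
  refine (cs_h12 (by linarith) (by positivity) hk0 (hkc.intervalIntegrable _ _) i1 i2 hG).trans ?_
  refine mul_le_mul_of_nonneg_left ?_ (by positivity)
  have h3 : ∫ v in V..(2 * V), Av h (v - x) ^ 2 * k v ≤
      ∫ v in V..(2 * V), Av h (v - x) ^ 2 * (C1 / (1 + (u - v) ^ 2)) :=
    intervalIntegral.integral_mono_on (by linarith) i2 i3 fun v hv =>
      mul_le_mul_of_nonneg_left (hk v hv.1 hv.2) (sq_nonneg _)
  refine h3.trans ?_
  set F : ℝ → ℝ := fun y => Av h y ^ 2 * (1 / (1 + (u - y - x) ^ 2)) with hF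
  have hFn : ∀ y, 0 ≤ F y := fun y => by
    rw [hF]
    positivity
  have e1 : ∫ v in V..(2 * V), Av h (v - x) ^ 2 * (C1 / (1 + (u - v) ^ 2)) =
      C1 * ∫ y in (V - x)..(2 * V - x), F y := by
    rw [← intervalIntegral.integral_comp_sub_right F x, ← intervalIntegral.integral_const_mul]
    refine intervalIntegral.integral_congr fun v _ => ?_
    have e2 : u - (v - x) - x = u - v := by ring
    show Av h (v - x) ^ 2 * (C1 / (1 + (u - v) ^ 2)) =
      C1 * (Av h (v - x) ^ 2 * (1 / (1 + (u - (v - x) - x) ^ 2)))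
    rw [e2]
    ring
  rw [e1]
  refine mul_le_mul_of_nonneg_left ?_ hC1.le
  have hcF : Continuous (fun y : ℝ => 1 / (1 + (u - y - x) ^ 2)) :=
    continuous_const.div (by fun_prop) fun v => by positivity
  have iF : ∀ a b : ℝ, a ≤ 2 * V → b ≤ 2 * V → IntervalIntegrable F volume a b := fun a b ha hb' =>
    ii_h12 (hm.pow_const 2) (c := 2 * V) hb2 hcF ha hb'
  have h4 : ∫ y in (V - x)..(2 * V - x), F y ≤ ∫ y in (-(2 * V))..(2 * V), F y :=
    intervalIntegral.integral_mono_interval (by linarith) (by linarith) (by linarith)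
      (Filter.Eventually.of_forall hFn) (iF _ _ (by linarith) le_rfl)
  refine h4.trans ?_
  rw [← intervalIntegral.integral_add_adjacent_intervals (iF (-(2 * V)) 0 (by linarith) (by linarith))
    (iF 0 (2 * V) (by linarith) le_rfl)]
  have h5 : ∫ y in (-(2 * V))..0, F y = 0 := by
    have hne : ∀ᵐ y : ℝ ∂volume, y ≠ 0 := by
      rw [ae_iff]
      simp
    refine intervalIntegral.integral_zero_ae ?_
    filter_upwards [hne] with y hy hy2
    rw [Set.uIoc_of_le (by linarith)] at hy2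
    have h6 : y < 0 := lt_of_le_of_ne hy2.2 hy
    rw [hF]
    show Av h y ^ 2 * _ = 0
    rw [Av_neg h h6]
    ring
  rw [h5, zero_add]

theorem a_sq (K : Ker) : ∃ C : ℝ, 0 < C ∧ ∃ r0 : ℕ, ∀ r : ℕ, r0 ≤ r → ∀ (h : ℕ → ℝ) (D : ℝ → ℂ) (B : ℝ), Adm r h D B →
    ∀ α : ℝ, 0 ≤ α → α ≤ 1 / sr r → ∑ p ∈ BL r, aC K r h (Ur r + α) p ^ 2 ≤ C * B / Vr r := by
  obtain ⟨C1, hC1, r1, h1⟩ := kf_le K
  obtain ⟨C2, hC2, r2, h2⟩ := cw_up
  have hpi := Real.pi_pos
  refine ⟨C1 * Real.pi * (C1 * C2), by positivity, max r1 r2, fun r hr h D B hA α ha0 ha1 => ?_⟩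
  have hr1 : r1 ≤ r := (le_max_left _ _).trans hr
  have hr2 : r2 ≤ r := (le_max_right _ _).trans hr
  have hV := Vr_pos r
  set u := Ur r + α with hu
  have hk := h1 r hr1 u (by linarith) (by linarith)
  have hcw := h2 r hr2
  have hh := hA.le_one
  have hm : Measurable (Av h) := measurable_Av h
  have hb2 : ∀ v, v ≤ 2 * Vr r → |Av h v ^ 2| ≤ Real.exp (Vr r) ^ 2 := fun v hv => by
    rw [abs_pow]
    exact pow_le_pow_left₀ (abs_nonneg _) ((abs_Av_le hh v).trans (Real.exp_le_exp.2 (by linarith))) 2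
  have hc : ∀ x : ℝ, Continuous (fun y : ℝ => 1 / (1 + (u - y - x) ^ 2)) := fun x =>
    continuous_const.div (by fun_prop) fun v => by positivity
  have iF : ∀ x : ℝ, IntervalIntegrable (fun y => Av h y ^ 2 * (1 / (1 + (u - y - x) ^ 2))) volume 0
      (2 * Vr r) := fun x =>
    ii_h12 (hm.pow_const 2) (c := 2 * Vr r) hb2 (hc x) (by linarith) le_rfl
  have hp : ∀ p ∈ BL r, aC K r h u p ^ 2 ≤ C1 * Real.pi * C1 *
      ∫ y in (0 : ℝ)..(2 * Vr r), 1 / (p : ℝ) * (Av h y ^ 2 * (1 / (1 + (u - y - Real.log p) ^ 2))) := by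
    intro p hp
    have hx := log_mem_BL hp
    have h3 := one_h12 (r := r) hh (u := u) hC1 hx.1 hx.2 (kf K r u) (continuous_kf K r u)
      (kf_nonneg K r u) hk
    have hp0 : (0 : ℝ) < p := by
      rw [mem_BL] at hp
      exact_mod_cast hp.1.pos
    unfold aC
    rw [mul_pow, inv_pow, Real.sq_sqrt hp0.le, intervalIntegral.integral_const_mul]
    have h4 := mul_le_mul_of_nonneg_left h3 (show 0 ≤ (p : ℝ)⁻¹ by positivity)
    refine h4.trans (le_of_eq ?_)
    rw [one_div]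
    ring
  refine (Finset.sum_le_sum hp).trans ?_
  rw [← Finset.mul_sum, ← intervalIntegral.integral_finsetSum
    (fun (p : ℕ) _ => (iF (Real.log (p : ℝ))).const_mul (1 / (p : ℝ)))]
  have h5 : ∫ y in (0 : ℝ)..(2 * Vr r), ∑ p ∈ BL r,
      1 / (p : ℝ) * (Av h y ^ 2 * (1 / (1 + (u - y - Real.log p) ^ 2))) ≤
      ∫ y in (0 : ℝ)..(2 * Vr r), Av h y ^ 2 * (C2 / Vr r) := by
    have i6 : IntervalIntegrable (fun y => Av h y ^ 2 * (C2 / Vr r)) volume 0 (2 * Vr r) :=
      ii_h12 (hm.pow_const 2) (c := 2 * Vr r) hb2 continuous_const (by linarith) le_rfl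
    have i7 : IntervalIntegrable (fun y => ∑ p ∈ BL r,
        1 / (p : ℝ) * (Av h y ^ 2 * (1 / (1 + (u - y - Real.log p) ^ 2)))) volume 0 (2 * Vr r) := by
      have := IntervalIntegrable.sum (BL r) (f := fun p y =>
        1 / (p : ℝ) * (Av h y ^ 2 * (1 / (1 + (u - y - Real.log p) ^ 2))))
        fun p _ => (iF (Real.log p)).const_mul _
      refine this.congr fun y _ => ?_
      simp only [Finset.sum_apply]
    refine intervalIntegral.integral_mono_on (by linarith) i7 i6 fun y _ => ?_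
    have h8 := mul_le_mul_of_nonneg_left (hcw (u - y)) (sq_nonneg (Av h y))
    refine le_trans (le_of_eq ?_) h8
    rw [Finset.mul_sum]
    refine Finset.sum_congr rfl fun p _ => ?_
    ring
  have h6 : ∫ y in (0 : ℝ)..(2 * Vr r), Av h y ^ 2 * (C2 / Vr r) ≤ B * (C2 / Vr r) := by
    rw [intervalIntegral.integral_mul_const]
    exact mul_le_mul_of_nonneg_right hA.mass0 (by positivity)
  refine (mul_le_mul_of_nonneg_left (h5.trans h6) (by positivity)).trans (le_of_eq ?_)
  field_simp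

end Pool.Agent.Helper66.LW
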