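import Pool.Agent.Helper66.LW.PLa
import Pool.Agent.Helper66.LW.PLb

/-!
# Project LW (P1 on MP_a499ba_nt), block PL

Plancherel and Bernstein for the differences of the smoothed sums: from PLa (band limited functions) and PLb (Laplace transform of `Av`).
-/

set_option autoImplicit false

namespace Pool.Agent.Helper66.LW

open Finset MeasureTheory Pool.Agent.Helper5.RM Pool.Agent.Helper96.AF Pool.Agent.Helper96.AG
open scoped ContDiff

private theorem den_ne {σ : ℝ} (hσ : 0 < 1 / 2 + σ) (t : ℝ) : (((1 / 2 + σ : ℝ) : ℂ) + Complex.I * (t : ℂ)) ≠ 0 := by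
  intro h0
  have h1 : (((1 / 2 + σ : ℝ) : ℂ) + Complex.I * (t : ℂ)).re = 1 / 2 + σ := by simp
  rw [h0] at h1
  simp only [Complex.zero_re] at h1
  linarith

private theorem K_integrable_rho (K : Ker) : Integrable (fun t : ℝ => (K.ρ t : ℂ)) := by
  have hc : Continuous (fun t : ℝ => (K.ρ t : ℂ)) := Complex.continuous_ofReal.comp K.ρ_smooth.continuous
  apply hc.integrable_of_hasCompactSupport
  apply HasCompactSupport.intro (isCompact_Icc (a := (-(1 / 4) : ℝ)) (b := 1 / 4))
  intro x hx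
  rw [K.ρ_supp x, Complex.ofReal_zero]
  by_contra h
  push Not at h
  exact hx ⟨by linarith [(abs_lt.1 h).1], by linarith [(abs_lt.1 h).2]⟩

theorem Gc_fourier (K : Ker) {r : ℕ} (hσ : 0 < 1 / 2 + sr r) {h : ℕ → ℝ} {D : ℝ → ℂ}
    (hsum : Summable fun n : ℕ => |h n| * (n : ℝ) ^ (-(1 / 2 + sr r)))
    (hD : ∀ t : ℝ, HasSum (fun n : ℕ => (h n : ℂ) * (n : ℂ) ^ (-(((1 / 2 + sr r : ℝ) : ℂ) + Complex.I * (t : ℂ)))) (D t))
    (u : ℝ) : (Gc K r h u : ℂ) = ∫ t : ℝ, (K.ρ t : ℂ) * (D t / (((1 / 2 + sr r : ℝ) : ℂ) + Complex.I * (t : ℂ))) *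
      Complex.exp (Complex.I * (t * u)) := by
  obtain ⟨hint, hlap⟩ := PLb h (sr r) hσ hsum
  have hlap2 : ∀ t : ℝ, ∫ v in Set.Ioi (0 : ℝ), ((Av h v * Real.exp (-(sr r * v)) : ℝ) : ℂ) * Complex.exp (-(Complex.I * (t * v))) =
      D t / (((1 / 2 + sr r : ℝ) : ℂ) + Complex.I * (t : ℂ)) := by
    intro t
    rw [(hD t).unique (hlap t), mul_div_assoc, mul_div_cancel₀]
    exact den_ne hσ t
  have hintC : Integrable (fun v : ℝ => ((Av h v * Real.exp (-(sr r * v)) : ℝ) : ℂ)) (volume.restrict (Set.Ioi 0)) := hint.ofReal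
  have hρ := K_integrable_rho K
  have hprod : Integrable (fun z : ℝ × ℝ => ((Av h z.1 * Real.exp (-(sr r * z.1)) : ℝ) : ℂ) * (K.ρ z.2 : ℂ) *
      Complex.exp (Complex.I * (z.2 * (u - z.1)))) ((volume.restrict (Set.Ioi 0)).prod volume) := by
    have h1 : Integrable (fun z : ℝ × ℝ => ((Av h z.1 * Real.exp (-(sr r * z.1)) : ℝ) : ℂ) * (K.ρ z.2 : ℂ))
        ((volume.restrict (Set.Ioi 0)).prod volume) := hintC.mul_prod hρ
    refine h1.mono (h1.1.mul ?_) (Filter.Eventually.of_forall fun z => ?_)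
    · apply Continuous.aestronglyMeasurable
      fun_prop
    · rw [norm_mul]
      have : ‖Complex.exp (Complex.I * (z.2 * (u - z.1)))‖ = 1 := by
        rw [Complex.norm_exp]
        simp
      rw [this, mul_one]
  calc (Gc K r h u : ℂ) = ∫ v in Set.Ioi (0 : ℝ), ((Av h v * Real.exp (-(sr r * v)) : ℝ) : ℂ) * (K.w (u - v) : ℂ) := by
        unfold Gc
        rw [← integral_complex_ofReal]
        refine integral_congr_ae (Filter.Eventually.of_forall fun v => ?_)
        simp only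
        push_cast
        ring
    _ = ∫ v in Set.Ioi (0 : ℝ), ∫ t : ℝ, ((Av h v * Real.exp (-(sr r * v)) : ℝ) : ℂ) * (K.ρ t : ℂ) *
          Complex.exp (Complex.I * (t * (u - v))) := by
        refine integral_congr_ae (Filter.Eventually.of_forall fun v => ?_)
        simp only
        rw [K.w_eq, ← integral_const_mul]
        refine integral_congr_ae (Filter.Eventually.of_forall fun t => ?_)
        simp only
        push_cast
        ring
    _ = ∫ t : ℝ, ∫ v in Set.Ioi (0 : ℝ), ((Av h v * Real.exp (-(sr r * v)) : ℝ) : ℂ) * (K.ρ t : ℂ) *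
          Complex.exp (Complex.I * (t * (u - v))) := integral_integral_swap hprod
    _ = _ := by
        refine integral_congr_ae (Filter.Eventually.of_forall fun t => ?_)
        simp only
        rw [← hlap2 t, mul_assoc, mul_comm (∫ v in Set.Ioi (0 : ℝ), _) (Complex.exp _), ← mul_assoc, ← integral_const_mul]
        refine integral_congr_ae (Filter.Eventually.of_forall fun v => ?_)
        simp only
        have : Complex.exp (Complex.I * (t * (u - v))) = Complex.exp (Complex.I * (t * u)) * Complex.exp (-(Complex.I * (t * v))) := by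
          rw [← Complex.exp_add]
          congr 1
          ring
        rw [this]
        ring

private theorem Gc_int (K : Ker) {σ : ℝ} (hσ : 0 < 1 / 2 + σ) {D : ℝ → ℂ} (hDc : ContDiff ℝ ∞ D) (u : ℝ) :
    Integrable (fun t : ℝ => (K.ρ t : ℂ) * (D t / (((1 / 2 + σ : ℝ) : ℂ) + Complex.I * (t : ℂ))) *
      Complex.exp (Complex.I * (t * u))) := by
  have hc : Continuous (fun t : ℝ => (K.ρ t : ℂ) * (D t / (((1 / 2 + σ : ℝ) : ℂ) + Complex.I * (t : ℂ))) *
      Complex.exp (Complex.I * (t * u))) := by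
    have h1 := K.ρ_smooth.continuous
    have h2 := hDc.continuous
    refine Continuous.mul (Continuous.mul (Complex.continuous_ofReal.comp h1) (h2.div (by fun_prop) fun t => den_ne hσ t)) (by fun_prop)
  apply hc.integrable_of_hasCompactSupport
  apply HasCompactSupport.intro (isCompact_Icc (a := (-(1 / 4) : ℝ)) (b := 1 / 4))
  intro x hx
  rw [K.ρ_supp x, Complex.ofReal_zero, zero_mul, zero_mul]
  by_contra h
  push Not at h
  exact hx ⟨by linarith [(abs_lt.1 h).1], by linarith [(abs_lt.1 h).2]⟩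

theorem planch (K : Ker) : ∃ c : ℝ, 0 < c ∧ ∃ r0 : ℕ, ∀ r : ℕ, r0 ≤ r → ∀ (h : ℕ → ℝ) (D : ℝ → ℂ) (B : ℝ), Adm r h D B →
    ∀ α β : ℝ, Differentiable ℝ (gc K r h α β) ∧ Continuous (deriv (gc K r h α β)) ∧
    Integrable (fun s => gc K r h α β s ^ 2) ∧ Integrable (fun s => deriv (gc K r h α β) s ^ 2) ∧
    ∫ s, deriv (gc K r h α β) s ^ 2 ≤ 1 / 16 * ∫ s, gc K r h α β s ^ 2 ∧
    c * ∫ t in (1 / 16 : ℝ)..(1 / 8), (1 - Real.cos ((α - β) * t)) * ‖D t‖ ^ 2 ≤ ∫ s, gc K r h α β s ^ 2 := by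
  obtain ⟨c, hc, hρ⟩ := K.ρ_pos
  obtain ⟨r1, hr1⟩ := sr_small 1 one_pos
  refine ⟨c ^ 2 / 2, by positivity, max r1 2, fun r hr h D B hA α β => ?_⟩
  have hr2 : 2 ≤ r := (le_max_right _ _).trans hr
  have hs1 : sr r ≤ 1 := hr1 r ((le_max_left _ _).trans hr)
  have hs0 : 0 < sr r := sr_pos hr2
  have hσ : 0 < 1 / 2 + sr r := by linarith
  set q : ℝ → ℂ := fun t => (K.ρ t : ℂ) * (D t / (((1 / 2 + sr r : ℝ) : ℂ) + Complex.I * (t : ℂ))) *
    (Complex.exp (Complex.I * (t * α)) - Complex.exp (Complex.I * (t * β))) with hq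
  have hqs : ContDiff ℝ ∞ q := by
    have hinv : ContDiff ℝ ∞ (fun t : ℝ => (((1 / 2 + sr r : ℝ) : ℂ) + Complex.I * (t : ℂ))⁻¹) := by
      refine ContDiff.inv ?_ fun t => den_ne hσ t
      exact contDiff_const.add (contDiff_const.mul Complex.ofRealCLM.contDiff)
    have hdiv : ContDiff ℝ ∞ (fun t : ℝ => D t / (((1 / 2 + sr r : ℝ) : ℂ) + Complex.I * (t : ℂ))) := by
      simp only [div_eq_mul_inv]
      exact hA.smooth.mul hinv
    refine ContDiff.mul (ContDiff.mul (Complex.ofRealCLM.contDiff.comp K.ρ_smooth) hdiv) ?_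
    · refine ContDiff.sub (ContDiff.cexp ?_) (ContDiff.cexp ?_)
      · exact contDiff_const.mul (Complex.ofRealCLM.contDiff.mul contDiff_const)
      · exact contDiff_const.mul (Complex.ofRealCLM.contDiff.mul contDiff_const)
  have hq0 : ∀ t : ℝ, 1 / 4 ≤ |t| → q t = 0 := by
    intro t ht
    rw [hq]
    simp only
    rw [K.ρ_supp t ht, Complex.ofReal_zero, zero_mul, zero_mul]
  have hg : ∀ s : ℝ, (gc K r h α β s : ℂ) = ∫ t : ℝ, q t * Complex.exp (Complex.I * (t * s)) := by
    intro s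
    unfold gc
    push_cast
    rw [Gc_fourier K hσ hA.summ hA.hasSum, Gc_fourier K hσ hA.summ hA.hasSum,
      ← integral_sub (Gc_int K hσ hA.smooth _) (Gc_int K hσ hA.smooth _)]
    refine integral_congr_ae (Filter.Eventually.of_forall fun t => ?_)
    simp only [hq]
    have e : ∀ a : ℝ, Complex.exp (Complex.I * (t * ((a + s : ℝ) : ℂ))) =
        Complex.exp (Complex.I * (t * a)) * Complex.exp (Complex.I * (t * s)) := by
      intro a
      rw [← Complex.exp_add]
      congr 1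
      push_cast
      ring
    rw [e, e]
    ring
  obtain ⟨a1, a2, a3, a4, a5, a6⟩ := PLa q hqs hq0 (gc K r h α β) hg
  refine ⟨a1, a2, a3, a4, a5, ?_⟩
  rw [a6]
  have hqn : ∀ t : ℝ, ‖q t‖ ^ 2 = K.ρ t ^ 2 * (‖D t‖ ^ 2 / ((1 / 2 + sr r) ^ 2 + t ^ 2)) * (2 * (1 - Real.cos ((α - β) * t))) := by
    intro t
    rw [hq]
    simp only
    rw [norm_mul, norm_mul, norm_div, mul_pow, mul_pow, div_pow, Complex.norm_real, Real.norm_eq_abs, sq_abs]
    congr 1
    · congr 2
      rw [← Complex.normSq_eq_norm_sq, Complex.normSq_apply]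
      simp
      ring
    · rw [← Complex.normSq_eq_norm_sq, Complex.normSq_apply]
      have e1 : ∀ a : ℝ, Complex.exp (Complex.I * (t * a)) = (Real.cos (t * a) : ℂ) + (Real.sin (t * a) : ℂ) * Complex.I := by
        intro a
        rw [show Complex.I * ((t : ℂ) * (a : ℂ)) = ((t * a : ℝ) : ℂ) * Complex.I by push_cast; ring, Complex.exp_mul_I]
        push_cast
        rfl
      rw [e1, e1]
      simp only [Complex.sub_re, Complex.sub_im, Complex.add_re, Complex.add_im, Complex.mul_re, Complex.mul_im,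
        Complex.ofReal_re, Complex.ofReal_im, Complex.I_re, Complex.I_im, mul_zero, mul_one, sub_zero, add_zero, zero_add]
      rw [show (α - β) * t = t * α - t * β by ring, Real.cos_sub]
      have s1 := Real.sin_sq_add_cos_sq (t * α)
      have s2 := Real.sin_sq_add_cos_sq (t * β)
      nlinarith
  have hqc : Continuous q := hqs.continuous
  have hqi : Integrable (fun t => ‖q t‖ ^ 2) := by
    have : Continuous (fun t => ‖q t‖ ^ 2) := by fun_prop
    apply this.integrable_of_hasCompactSupport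
    apply HasCompactSupport.intro (isCompact_Icc (a := (-(1 / 4) : ℝ)) (b := 1 / 4))
    intro x hx
    rw [hq0 x, norm_zero]
    · norm_num
    by_contra h
    push Not at h
    exact hx ⟨by linarith [(abs_lt.1 h).1], by linarith [(abs_lt.1 h).2]⟩
  have hDc : Continuous D := hA.smooth.continuous
  calc c ^ 2 / 2 * ∫ t in (1 / 16 : ℝ)..(1 / 8), (1 - Real.cos ((α - β) * t)) * ‖D t‖ ^ 2
      = ∫ t in (1 / 16 : ℝ)..(1 / 8), c ^ 2 / 2 * ((1 - Real.cos ((α - β) * t)) * ‖D t‖ ^ 2) := by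
        rw [intervalIntegral.integral_const_mul]
    _ ≤ ∫ t in (1 / 16 : ℝ)..(1 / 8), ‖q t‖ ^ 2 := by
        apply intervalIntegral.integral_mono_on (by norm_num)
        · apply Continuous.intervalIntegrable
          fun_prop
        · apply Continuous.intervalIntegrable
          fun_prop
        · intro t ht
          rw [hqn]
          have h1 : c ≤ K.ρ t := hρ t (by rw [abs_of_nonneg (by linarith [ht.1])]; exact ht.2)
          have h2 : 0 ≤ 1 - Real.cos ((α - β) * t) := by linarith [Real.cos_le_one ((α - β) * t)]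
          have h3 : 0 ≤ ‖D t‖ ^ 2 := by positivity
          have h4 : (1 / 2 + sr r) ^ 2 + t ^ 2 ≤ 4 := by nlinarith [ht.1, ht.2]
          have h5 : 0 < (1 / 2 + sr r) ^ 2 + t ^ 2 := by positivity
          have h6 : c ^ 2 ≤ K.ρ t ^ 2 := by nlinarith
          have h7 : ‖D t‖ ^ 2 / 4 ≤ ‖D t‖ ^ 2 / ((1 / 2 + sr r) ^ 2 + t ^ 2) := div_le_div_of_nonneg_left h3 h5 h4
          calc c ^ 2 / 2 * ((1 - Real.cos ((α - β) * t)) * ‖D t‖ ^ 2) = c ^ 2 * (‖D t‖ ^ 2 / 4) * (2 * (1 - Real.cos ((α - β) * t))) := by ring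
            _ ≤ K.ρ t ^ 2 * (‖D t‖ ^ 2 / ((1 / 2 + sr r) ^ 2 + t ^ 2)) * (2 * (1 - Real.cos ((α - β) * t))) := by gcongr
    _ = ∫ t in Set.Ioc (1 / 16 : ℝ) (1 / 8), ‖q t‖ ^ 2 := intervalIntegral.integral_of_le (by norm_num)
    _ ≤ ∫ t, ‖q t‖ ^ 2 := setIntegral_le_integral hqi (Filter.Eventually.of_forall fun t => by positivity)
    _ ≤ 2 * Real.pi * ∫ t, ‖q t‖ ^ 2 := by
        have h1 : 0 ≤ ∫ t, ‖q t‖ ^ 2 := integral_nonneg fun t => by positivity
        have := Real.pi_gt_three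
        nlinarith

end Pool.Agent.Helper66.LW
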