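import Pool.Agent.Helper66.LW.Basic
import Pool.Agent.Helper66.LW.CWa
import Pool.Agent.Helper66.LW.CWc
import Pool.Agent.Helper66.LW.PL
import Pool.Agent.Helper66.LW.GT
import Pool.Agent.Helper66.LW.AT

/-!
# Project LW (P1 on MP_a499ba_nt), block L3

PROOF. (a+b)^2 >= a^2/2 - b^2 with a = e^{-sigma(x-U)} gc(U-x), |b| <= 2/V^2 (both times p^(-1/2)); sum_{BL r} 1/p <= 2 C V (cw_up with y = U).
winlow with g = gc K r h alpha beta, planch, G_tail ((x-y)^2 <= 2x^2+2y^2 for the two tails).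
-/

set_option autoImplicit false

namespace Pool.Agent.Helper66.LW

open Finset MeasureTheory Pool.Agent.Helper5.RM Pool.Agent.Helper96.AF Pool.Agent.Helper96.AG

private lemma l3_two47 (x y : ℝ) : (x - y) ^ 2 ≤ 2 * x ^ 2 + 2 * y ^ 2 := by
  nlinarith [sq_nonneg (x + y)]

private lemma l3_key47 {x y e : ℝ} (h : (x - y) ^ 2 ≤ e) : 1 / 2 * y ^ 2 - e ≤ x ^ 2 := by
  nlinarith [sq_nonneg (2 * x - y)]

theorem dist_low (K : Ker) : ∃ c : ℝ, 0 < c ∧ ∃ C : ℝ, 0 < C ∧ ∃ r0 : ℕ, ∀ r : ℕ, r0 ≤ r → ∀ (h : ℕ → ℝ) (D : ℝ → ℂ) (B : ℝ),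
    Adm r h D B → B ≤ 4 ^ r → ∀ α β : ℝ, 0 ≤ α → α ≤ 1 / sr r → 0 ≤ β → β ≤ 1 / sr r →
    (c * (∫ t in (1 / 16 : ℝ)..(1 / 8), (1 - Real.cos ((α - β) * t)) * ‖D t‖ ^ 2) - C * (r : ℝ) ^ (-5 : ℝ) * B) / Vr r -
      1 / Vr r ^ 2 ≤ ∑ p ∈ BL r, (aC K r h (Ur r + α) p - aC K r h (Ur r + β) p) ^ 2 := by
  obtain ⟨C0, hC0, r0, h0⟩ := cw_up
  obtain ⟨c1, hc1, r1, h1⟩ := winlow
  obtain ⟨c2, hc2, r2, h2⟩ := planch K
  obtain ⟨C3, hC3, r3, h3⟩ := G_tail K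
  obtain ⟨r4, h4⟩ := aC_eq K
  obtain ⟨r5, h5⟩ := pow_le_Vr 1 (1 / (8 * C0)) (by positivity) 1 le_rfl
  refine ⟨1 / 2 * c1 * c2, by positivity, 16 * c1 * C3, by positivity,
    max (max (max r0 r1) (max r2 r3)) (max (max r4 r5) 2), fun r hr h D B H hB α β hα hα' hβ hβ' => ?_⟩
  simp only [max_le_iff] at hr
  obtain ⟨⟨⟨hr0, hr1⟩, hr2, hr3⟩, ⟨hr4, hr5⟩, hr22⟩ := hr
  have hV := Vr_pos r
  have hV1 : 1 ≤ Vr r := by
    refine le_trans ?_ (le_Vr r)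
    have : (2 : ℝ) ^ 1 ≤ 2 ^ r := pow_le_pow_right₀ (by norm_num) (by omega)
    linarith
  have hr1' : (1 : ℝ) ≤ r := by exact_mod_cast (show 1 ≤ r by omega)
  have hV8 : 8 * C0 ≤ Vr r := by
    have := h5 r hr5
    rw [pow_one, pow_one] at this
    have h6 : 1 ≤ 1 / (8 * C0) * Vr r := hr1'.trans this
    rw [one_div, inv_mul_eq_div, le_div_iff₀ (by positivity)] at h6
    linarith
  set g := gc K r h α β with hg
  obtain ⟨hg1, hg2, hg3, hg4, hg5, hg6⟩ := h2 r hr2 h D B H α β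
  rw [← hg] at hg1 hg2 hg3 hg4 hg5 hg6
  have hwin := h1 r hr1 g hg1 hg2 hg3 hg4 hg5
  obtain ⟨ta1, ta2, ta3, ta4⟩ := h3 r hr3 h D B H α hα hα'
  obtain ⟨tb1, tb2, tb3, tb4⟩ := h3 r hr3 h D B H β hβ hβ'
  -- the tails of g
  have htail : ∀ S : Set ℝ, MeasurableSet S → IntegrableOn (fun s => Gc K r h (α + s) ^ 2) S →
      IntegrableOn (fun s => Gc K r h (β + s) ^ 2) S →
      (∫ s in S, Gc K r h (α + s) ^ 2) ≤ C3 * (r : ℝ) ^ (-5 : ℝ) * B →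
      (∫ s in S, Gc K r h (β + s) ^ 2) ≤ C3 * (r : ℝ) ^ (-5 : ℝ) * B →
      ∫ s in S, g s ^ 2 ≤ 4 * (C3 * (r : ℝ) ^ (-5 : ℝ) * B) := by
    intro S hS i1 i2 j1 j2
    have e1 : ∫ s in S, g s ^ 2 ≤ ∫ s in S, (2 * Gc K r h (α + s) ^ 2 + 2 * Gc K r h (β + s) ^ 2) := by
      apply setIntegral_mono_on hg3.integrableOn ((i1.const_mul 2).add (i2.const_mul 2)) hS
      intro s _
      exact l3_two47 _ _
    rw [integral_add (i1.const_mul 2) (i2.const_mul 2), integral_const_mul, integral_const_mul] at e1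
    linarith
  have hT1 := htail _ measurableSet_Iic ta2 tb2 ta4 tb4
  have hT2 := htail _ measurableSet_Ioi ta1 tb1 ta3 tb3
  -- the sum of the reciprocals
  have hsum : ∑ p ∈ BL r, 1 / (p : ℝ) ≤ 2 * C0 * Vr r := by
    have e1 := h0 r hr0 (Ur r)
    have e2 : ∑ p ∈ BL r, 1 / (p : ℝ) * (1 / (1 + Vr r ^ 2)) ≤
        ∑ p ∈ BL r, 1 / (p : ℝ) * (1 / (1 + (Ur r - Real.log p) ^ 2)) := by
      apply Finset.sum_le_sum
      intro p hp
      apply mul_le_mul_of_nonneg_left _ (by positivity)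
      apply one_div_le_one_div_of_le (by positivity)
      have := log_mem_BL hp
      unfold Ur
      have e3 : |3 / 2 * Vr r - Real.log p| ≤ Vr r := by
        rw [abs_le]; constructor <;> linarith
      have e4 : (3 / 2 * Vr r - Real.log p) ^ 2 ≤ Vr r ^ 2 := by
        rw [← sq_abs]
        exact pow_le_pow_left₀ (abs_nonneg _) e3 2
      linarith
    rw [← Finset.sum_mul] at e2
    have e3 := e2.trans e1
    rw [mul_one_div, div_le_div_iff₀ (by positivity) hV] at e3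
    have e4 : 1 + Vr r ^ 2 ≤ 2 * Vr r ^ 2 := by nlinarith
    have e5 : (∑ p ∈ BL r, 1 / (p : ℝ)) * Vr r ≤ (2 * C0 * Vr r) * Vr r := by
      refine e3.trans ?_
      nlinarith
    exact le_of_mul_le_mul_right e5 hV
  -- pointwise
  have hpt : ∀ p ∈ BL r, 1 / 2 * (1 / (p : ℝ) * Real.exp (-(2 * sr r * (Real.log p - Ur r))) * g (Ur r - Real.log p) ^ 2) -
      1 / (p : ℝ) * (4 / Vr r ^ 4) ≤ (aC K r h (Ur r + α) p - aC K r h (Ur r + β) p) ^ 2 := by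
    intro p hp
    have hp0 : (0 : ℝ) < p := by
      have := (mem_BL.1 hp).1.pos
      exact_mod_cast this
    have ea := h4 r hr4 h D B H hB α hα hα' p hp
    have eb := h4 r hr4 h D B H hB β hβ hβ' p hp
    set e := Real.exp (-(sr r * (Real.log p - Ur r))) with he
    have hee : Real.exp (-(2 * sr r * (Real.log p - Ur r))) = e ^ 2 := by
      rw [he, ← Real.exp_nat_mul]
      congr 1
      push_cast
      ring
    have hgg : g (Ur r - Real.log p) = Gc K r h (α + (Ur r - Real.log p)) - Gc K r h (β + (Ur r - Real.log p)) := rfl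
    set x := Real.sqrt p * (aC K r h (Ur r + α) p - aC K r h (Ur r + β) p) with hx
    set y := e * g (Ur r - Real.log p) with hy
    have hxy : |x - y| ≤ 2 / Vr r ^ 2 := by
      have : x - y = (Real.sqrt p * aC K r h (Ur r + α) p - e * Gc K r h (α + (Ur r - Real.log p))) -
          (Real.sqrt p * aC K r h (Ur r + β) p - e * Gc K r h (β + (Ur r - Real.log p))) := by
        rw [hx, hy, hgg]; ring
      rw [this]
      refine (abs_sub _ _).trans ?_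
      calc _ ≤ 1 / Vr r ^ 2 + 1 / Vr r ^ 2 := add_le_add ea eb
        _ = 2 / Vr r ^ 2 := by ring
    have hxy2 : (x - y) ^ 2 ≤ 4 / Vr r ^ 4 := by
      rw [← sq_abs]
      calc |x - y| ^ 2 ≤ (2 / Vr r ^ 2) ^ 2 := pow_le_pow_left₀ (abs_nonneg _) hxy 2
        _ = 4 / Vr r ^ 4 := by rw [div_pow, ← pow_mul]; norm_num
    have hkey : 1 / 2 * y ^ 2 - 4 / Vr r ^ 4 ≤ x ^ 2 := l3_key47 hxy2
    have hx2 : x ^ 2 = p * (aC K r h (Ur r + α) p - aC K r h (Ur r + β) p) ^ 2 := by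
      rw [hx, mul_pow, Real.sq_sqrt hp0.le]
    have hfin : (aC K r h (Ur r + α) p - aC K r h (Ur r + β) p) ^ 2 = 1 / (p : ℝ) * x ^ 2 := by
      rw [hx2]; field_simp
    rw [hfin, hee]
    have : 1 / 2 * (1 / (p : ℝ) * e ^ 2 * g (Ur r - Real.log p) ^ 2) - 1 / (p : ℝ) * (4 / Vr r ^ 4) =
        1 / (p : ℝ) * (1 / 2 * y ^ 2 - 4 / Vr r ^ 4) := by
      rw [hy]; ring
    rw [this]
    exact mul_le_mul_of_nonneg_left hkey (by positivity)
  have hmain := Finset.sum_le_sum hpt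
  rw [Finset.sum_sub_distrib, ← Finset.mul_sum, ← Finset.sum_mul] at hmain
  refine le_trans ?_ hmain
  have herr : (∑ p ∈ BL r, 1 / (p : ℝ)) * (4 / Vr r ^ 4) ≤ 1 / Vr r ^ 2 := by
    calc (∑ p ∈ BL r, 1 / (p : ℝ)) * (4 / Vr r ^ 4) ≤ (2 * C0 * Vr r) * (4 / Vr r ^ 4) :=
          mul_le_mul_of_nonneg_right hsum (by positivity)
      _ = 8 * C0 / Vr r ^ 3 := by field_simp; ring
      _ ≤ Vr r / Vr r ^ 3 := div_le_div_of_nonneg_right hV8 (by positivity)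
      _ = 1 / Vr r ^ 2 := by field_simp
  set J := ∫ t in (1 / 16 : ℝ)..(1 / 8), (1 - Real.cos ((α - β) * t)) * ‖D t‖ ^ 2 with hJ
  set R := (r : ℝ) ^ (-5 : ℝ) * B with hR
  have hlow : (1 / 2 * c1 * c2 * J - 16 * c1 * C3 * (r : ℝ) ^ (-5 : ℝ) * B) / Vr r ≤
      1 / 2 * ∑ p ∈ BL r, 1 / (p : ℝ) * Real.exp (-(2 * sr r * (Real.log p - Ur r))) * g (Ur r - Real.log p) ^ 2 := by
    have e1 : c1 / Vr r * (c2 * J - 4 * (4 * (C3 * (r : ℝ) ^ (-5 : ℝ) * B) + 4 * (C3 * (r : ℝ) ^ (-5 : ℝ) * B))) ≤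
        c1 / Vr r * ((∫ s, g s ^ 2) - 4 * ((∫ s in Set.Iic (-(2 / sr r)), g s ^ 2) + ∫ s in Set.Ioi (Vr r / 2), g s ^ 2)) := by
      apply mul_le_mul_of_nonneg_left _ (by positivity)
      linarith
    have e2 := e1.trans hwin
    have e3 : (1 / 2 * c1 * c2 * J - 16 * c1 * C3 * (r : ℝ) ^ (-5 : ℝ) * B) / Vr r =
        1 / 2 * (c1 / Vr r * (c2 * J - 4 * (4 * (C3 * (r : ℝ) ^ (-5 : ℝ) * B) + 4 * (C3 * (r : ℝ) ^ (-5 : ℝ) * B)))) := by
      ring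
    rw [e3]
    linarith
  linarith

end Pool.Agent.Helper66.LW
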