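import Pool.Agent.Helper66.LW.Basic
import Pool.Agent.Helper66.LW.K0

/-!
# Project LW (P1 on MP_a499ba_nt), block L4

PROOF. |Av(y)| <= e^{y/2} (abs_Av_le), so |aC| <= INT_V^{2V} e^{v/2 - x} kf dv, x = log p > V. v <= 7V/4: <= e^{-V/8} INT kf <= C e^{-V/8}; v > 7V/4: u - v < -V/16 in size
(u <= 3V/2 + 1/sigma), kf_far: <= V * V^-8, e^{v/2-x} <= 1.
-/

set_option autoImplicit false

namespace Pool.Agent.Helper66.LW

open Finset MeasureTheory Pool.Agent.Helper5.RM Pool.Agent.Helper96.AF Pool.Agent.Helper96.AG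

private lemma sr_inv63 {r : ℕ} (hr : 3 ≤ r) : 1 / sr r ≤ 3 / 16 * Vr r := by
  have hV := Vr_pos r
  have hlog : 1 ≤ Real.log r := by
    have h3 : (3 : ℝ) ≤ r := by exact_mod_cast hr
    rw [Real.le_log_iff_exp_le (by linarith)]
    linarith [Real.exp_one_lt_d9]
  unfold sr
  rw [one_div_div, div_le_iff₀ (by positivity)]
  nlinarith

private lemma exp_small63 {C V : ℝ} (hC : 0 < C) (hV : 200000 * C + 2 ≤ V) : V * (C * Real.exp (-(V / 8))) ≤ 1 / (2 * V ^ 2) := by
  have hV0 : 0 < V := by linarith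
  have h1 : (V / 8) ^ 4 / 24 ≤ Real.exp (V / 8) := by
    have h := Real.pow_div_factorial_le_exp (V / 8) (by positivity) 4
    have h4 : ((Nat.factorial 4 : ℕ) : ℝ) = 24 := by norm_num [Nat.factorial]
    rwa [h4] at h
  rw [Real.exp_neg, le_div_iff₀ (by positivity)]
  have h2 : 0 < Real.exp (V / 8) := Real.exp_pos _
  have h3 : V * (C * (Real.exp (V / 8))⁻¹) * (2 * V ^ 2) = 2 * C * V ^ 3 / Real.exp (V / 8) := by
    field_simp
  rw [h3, div_le_one h2]
  refine le_trans ?_ h1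
  have h5 : 2 * C * V ^ 3 ≤ V / 100000 * V ^ 3 := by
    refine mul_le_mul_of_nonneg_right ?_ (by positivity)
    linarith
  refine h5.trans ?_
  have h6 : (V / 8) ^ 4 / 24 = V ^ 3 * (V / 98304) := by ring
  rw [h6, mul_comm]
  refine mul_le_mul_of_nonneg_left ?_ (by positivity)
  linarith

private lemma pow_small63 {V : ℝ} (hV : 2 ≤ V) : V * (1 / V ^ 8) ≤ 1 / (2 * V ^ 2) := by
  have hV0 : 0 < V := by linarith
  rw [mul_one_div, div_le_div_iff₀ (by positivity) (by positivity)]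
  have h1 : V * (2 * V ^ 2) = V ^ 3 * 2 := by ring
  have h2 : 1 * V ^ 8 = V ^ 3 * V ^ 5 := by ring
  rw [h1, h2]
  refine mul_le_mul_of_nonneg_left ?_ (by positivity)
  calc (2 : ℝ) ≤ V := hV
    _ = V ^ 1 := (pow_one V).symm
    _ ≤ V ^ 5 := pow_le_pow_right₀ (by linarith) (by norm_num)

theorem a_small (K : Ker) : ∃ r0 : ℕ, ∀ r : ℕ, r0 ≤ r → ∀ (h : ℕ → ℝ), (∀ n, |h n| ≤ 1) →
    ∀ α : ℝ, 0 ≤ α → α ≤ 1 / sr r → ∀ p ∈ BL r, |aC K r h (Ur r + α) p| ≤ 1 / Vr r ^ 2 := by
  obtain ⟨C, hC, r1, h1⟩ := kf_le K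
  obtain ⟨r2, h2⟩ := kf_far K
  obtain ⟨r3, h3⟩ := pow_le_Vr 0 (1 / (200000 * C + 2)) (by positivity) 1 le_rfl
  refine ⟨max (max r1 r2) (max r3 3), ?_⟩
  intro r hr h hh α hα0 hα p hp
  have hr1 : r1 ≤ r := le_trans (le_trans (le_max_left _ _) (le_max_left _ _)) hr
  have hr2 : r2 ≤ r := le_trans (le_trans (le_max_right _ _) (le_max_left _ _)) hr
  have hr3 : r3 ≤ r := le_trans (le_trans (le_max_left _ _) (le_max_right _ _)) hr
  have hr4 : 3 ≤ r := le_trans (le_trans (le_max_right _ _) (le_max_right _ _)) hr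
  have hV0 := Vr_pos r
  have hV : 200000 * C + 2 ≤ Vr r := by
    have h4 := h3 r hr3
    rw [pow_zero, pow_one, one_div, inv_mul_eq_div, le_div_iff₀ (by positivity), one_mul] at h4
    exact h4
  have hinv := sr_inv63 hr4
  obtain ⟨hx1, hx2⟩ := log_mem_BL hp
  set V := Vr r with hVdef
  set x := Real.log p with hxdef
  have hp0 : (0 : ℝ) < p := by
    have := (mem_BL.1 hp).1.pos
    exact_mod_cast this
  have hsq : Real.sqrt p = Real.exp (x / 2) := by
    have h5 : (p : ℝ) = Real.exp (x / 2) ^ 2 := by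
      rw [← Real.exp_nat_mul]
      rw [show ((2 : ℕ) : ℝ) * (x / 2) = x by push_cast; ring, hxdef, Real.exp_log hp0]
    rw [h5, Real.sqrt_sq (Real.exp_pos _).le]
  set u := Ur r + α with hudef
  have hu1 : Ur r ≤ u := by linarith
  have hu2 : u ≤ Ur r + 1 / sr r := by linarith
  set M : ℝ := C * Real.exp (-(V / 8)) + 1 / V ^ 8 with hMdef
  have hpt : ∀ v ∈ Set.uIoc V (2 * V), ‖Av h (v - x) * kf K r u v‖ ≤ Real.exp (x / 2) * M := by
    intro v hv
    rw [Set.uIoc_of_le (by linarith)] at hv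
    have hk0 := kf_nonneg K r u v
    rw [Real.norm_eq_abs, abs_mul, abs_of_nonneg hk0]
    have hA := abs_Av_le hh (v - x)
    have hA' : |Av h (v - x)| * kf K r u v ≤ Real.exp ((v - x) / 2) * kf K r u v :=
      mul_le_mul_of_nonneg_right hA hk0
    refine hA'.trans ?_
    have he : Real.exp ((v - x) / 2) = Real.exp (x / 2) * Real.exp (v / 2 - x) := by
      rw [← Real.exp_add]
      congr 1
      ring
    rw [he, mul_assoc]
    refine mul_le_mul_of_nonneg_left ?_ (Real.exp_pos _).le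
    by_cases hv7 : v ≤ 7 / 4 * V
    · have hk := h1 r hr1 u hu1 hu2 v hv.1.le hv.2
      have hkC : kf K r u v ≤ C := hk.trans (div_le_self hC.le (by nlinarith [sq_nonneg (u - v)]))
      have he1 : Real.exp (v / 2 - x) ≤ Real.exp (-(V / 8)) := Real.exp_le_exp.2 (by linarith)
      have h6 : Real.exp (v / 2 - x) * kf K r u v ≤ Real.exp (-(V / 8)) * C :=
        mul_le_mul he1 hkC hk0 (Real.exp_pos _).le
      have h7 : 0 ≤ 1 / V ^ 8 := by positivity
      rw [hMdef]
      linarith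
    · push Not at hv7
      have hU : Ur r = 3 / 2 * V := rfl
      have hdist : V / 16 ≤ |u - v| := by
        rw [abs_sub_comm]
        refine le_trans ?_ (le_abs_self _)
        linarith
      have hk := h2 r hr2 u hu1 hu2 v hv.1.le hv.2 hdist
      have he1 : Real.exp (v / 2 - x) ≤ 1 := Real.exp_le_one_iff.2 (by linarith [hv.2])
      have h6 : Real.exp (v / 2 - x) * kf K r u v ≤ 1 * (1 / V ^ 8) :=
        mul_le_mul he1 hk hk0 zero_le_one
      have h7 : 0 ≤ C * Real.exp (-(V / 8)) := by positivity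
      rw [hMdef]
      linarith
  have hint := intervalIntegral.norm_integral_le_of_norm_le_const hpt
  rw [Real.norm_eq_abs, show |2 * V - V| = V by rw [show 2 * V - V = V by ring, abs_of_pos hV0]] at hint
  unfold aC
  rw [← hxdef, ← hVdef, abs_mul, abs_of_nonneg (inv_nonneg.2 (Real.sqrt_nonneg _)), hsq]
  have hfin : (Real.exp (x / 2))⁻¹ * |∫ v in V..2 * V, Av h (v - x) * kf K r u v| ≤ (Real.exp (x / 2))⁻¹ * (Real.exp (x / 2) * M * V) :=
    mul_le_mul_of_nonneg_left hint (inv_nonneg.2 (Real.exp_pos _).le)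
  refine hfin.trans ?_
  have h8 : (Real.exp (x / 2))⁻¹ * (Real.exp (x / 2) * M * V) = V * (C * Real.exp (-(V / 8))) + V * (1 / V ^ 8) := by
    rw [hMdef]
    have := (Real.exp_pos (x / 2)).ne'
    field_simp
  rw [h8]
  have h9 := exp_small63 hC hV
  have h10 := pow_small63 (V := V) (by linarith)
  have h11 : 1 / (2 * V ^ 2) + 1 / (2 * V ^ 2) = 1 / V ^ 2 := by
    field_simp
    norm_num
  linarith

end Pool.Agent.Helper66.LW
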