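import Pool.Agent.Helper66.LW.Defs

/-!
# Project LW, block PL (first part): Plancherel and Bernstein for band limited functions
-/

set_option autoImplicit false

namespace Pool.Agent.Helper66.LW

open MeasureTheory
open scoped ContDiff FourierTransform SchwartzMap

theorem PLa (q : ℝ → ℂ) (hq : ContDiff ℝ ∞ q) (hs : ∀ t : ℝ, 1 / 4 ≤ |t| → q t = 0) (g : ℝ → ℝ)
    (hg : ∀ s : ℝ, (g s : ℂ) = ∫ t : ℝ, q t * Complex.exp (Complex.I * (t * s))) :
    Differentiable ℝ g ∧ Continuous (deriv g) ∧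
    Integrable (fun s => g s ^ 2) ∧ Integrable (fun s => deriv g s ^ 2) ∧
    ∫ s, deriv g s ^ 2 ≤ 1 / 16 * ∫ s, g s ^ 2 ∧
    ∫ s, g s ^ 2 = 2 * Real.pi * ∫ t, ‖q t‖ ^ 2 := by
  have hpi := Real.pi_pos
  -- the Schwartz function
  have hcont : ContDiff ℝ ∞ (fun x : ℝ => (2 * Real.pi : ℂ) * q (-2 * Real.pi * x)) := by
    apply ContDiff.mul contDiff_const
    exact hq.comp (contDiff_const.mul contDiff_id)
  have hzero : ∀ x : ℝ, 1 ≤ |x| → (2 * Real.pi : ℂ) * q (-2 * Real.pi * x) = 0 := by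
    intro x hx
    rw [hs, mul_zero]
    rw [abs_mul, abs_mul, abs_neg, abs_of_pos (show (0 : ℝ) < 2 by norm_num), abs_of_pos hpi]
    have := Real.pi_gt_three
    nlinarith
  have hsupp : HasCompactSupport (fun x : ℝ => (2 * Real.pi : ℂ) * q (-2 * Real.pi * x)) := by
    apply HasCompactSupport.intro (isCompact_Icc (a := (-1 : ℝ)) (b := 1))
    intro x hx
    apply hzero
    by_contra h
    push Not at h
    exact hx ⟨by linarith [(abs_lt.1 h).1], by linarith [(abs_lt.1 h).2]⟩
  set f : 𝓢(ℝ, ℂ) := hsupp.toSchwartzMap hcont with hfdef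
  have hf : ∀ x, f x = (2 * Real.pi : ℂ) * q (-2 * Real.pi * x) := fun x => rfl
  have hcont1 : ContDiff ℝ ∞ (fun x : ℝ => (-2 * Real.pi * Complex.I * x : ℂ) * f x) := by
    apply ContDiff.mul
    · exact contDiff_const.mul Complex.ofRealCLM.contDiff
    · exact f.smooth'
  have hsupp1 : HasCompactSupport (fun x : ℝ => (-2 * Real.pi * Complex.I * x : ℂ) * f x) := by
    apply HasCompactSupport.mul_left
    exact hsupp
  set f1 : 𝓢(ℝ, ℂ) := hsupp1.toSchwartzMap hcont1 with hf1def
  have hf1 : ∀ x, f1 x = (-2 * Real.pi * Complex.I * x : ℂ) * f x := fun x => rfl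
  -- Fourier transform of f is g
  have h1 : ∀ s : ℝ, 𝓕 (f : ℝ → ℂ) s = (g s : ℂ) := by
    intro s
    rw [hg, Real.fourier_real_eq_integral_exp_smul]
    have e1 : (fun v : ℝ => Complex.exp (↑(-2 * Real.pi * v * s) * Complex.I) • f v) =
        fun v : ℝ => (fun t : ℝ => (2 * Real.pi : ℂ) * (q t * Complex.exp (Complex.I * (t * s)))) (-2 * Real.pi * v) := by
      funext v
      rw [hf]
      simp only [smul_eq_mul]
      have : Complex.exp (↑(-2 * Real.pi * v * s) * Complex.I) =
          Complex.exp (Complex.I * (((-2 * Real.pi * v : ℝ) : ℂ) * (s : ℂ))) := by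
        congr 1
        push_cast
        ring
      rw [this]
      ring
    rw [e1, Measure.integral_comp_mul_left (fun t : ℝ => (2 * Real.pi : ℂ) * (q t * Complex.exp (Complex.I * (t * s)))) (-2 * Real.pi),
      integral_const_mul]
    rw [show |(-2 * Real.pi)⁻¹| = (2 * Real.pi)⁻¹ by
      rw [abs_inv, abs_mul, abs_neg, abs_of_pos (show (0 : ℝ) < 2 by norm_num), abs_of_pos hpi]]
    rw [Complex.real_smul]
    push_cast
    rw [← mul_assoc, inv_mul_cancel₀ (by
      have : (Real.pi : ℂ) ≠ 0 := by exact_mod_cast hpi.ne'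
      simp [this]), one_mul]
  have hint : Integrable (f : ℝ → ℂ) := f.integrable
  have hint1 : Integrable (fun x : ℝ => x • f x) := by
    have : Integrable (fun x : ℝ => (-2 * Real.pi * Complex.I : ℂ)⁻¹ * f1 x) := f1.integrable.const_mul _
    refine this.congr (Filter.Eventually.of_forall fun x => ?_)
    simp only
    rw [hf1, Complex.real_smul]
    have hne : (-2 * Real.pi * Complex.I : ℂ) ≠ 0 := by
      have : (Real.pi : ℂ) ≠ 0 := by exact_mod_cast hpi.ne'
      simp [this]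
    field_simp
  have h2 : ∀ s : ℝ, HasDerivAt (fun s : ℝ => (g s : ℂ)) (𝓕 (f1 : ℝ → ℂ) s) s := by
    intro s
    have := Real.hasDerivAt_fourier hint hint1 s
    have e : (fun s : ℝ => (g s : ℂ)) = 𝓕 (f : ℝ → ℂ) := by
      funext s
      rw [h1]
    have e2 : (f1 : ℝ → ℂ) = fun x : ℝ => (-2 * Real.pi * Complex.I * x : ℂ) • f x := by
      funext x
      exact hf1 x
    rw [e, e2]
    exact this
  have h3 : ∀ s : ℝ, HasDerivAt g (𝓕 (f1 : ℝ → ℂ) s).re s := by
    intro s
    have := (Complex.reCLM.hasFDerivAt.comp_hasDerivAt s (h2 s))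
    simpa [Function.comp_def] using this
  have h4 : ∀ s : ℝ, 𝓕 (f1 : ℝ → ℂ) s = ((deriv g s : ℝ) : ℂ) := by
    intro s
    have a := (h3 s).ofReal_comp
    have b := (h2 s).unique a
    rw [(h3 s).deriv, b]
    simp
  have h5 : ∀ s : ℝ, ‖𝓕 f s‖ ^ 2 = g s ^ 2 := by
    intro s
    have : 𝓕 f s = (g s : ℂ) := h1 s
    rw [this, Complex.norm_real, Real.norm_eq_abs, sq_abs]
  have h6 : ∀ s : ℝ, ‖𝓕 f1 s‖ ^ 2 = deriv g s ^ 2 := by
    intro s
    have : 𝓕 f1 s = ((deriv g s : ℝ) : ℂ) := h4 s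
    rw [this, Complex.norm_real, Real.norm_eq_abs, sq_abs]
  have i1 : Integrable (fun s => g s ^ 2) := by
    have := (memLp_two_iff_integrable_sq_norm (𝓕 f).continuous.aestronglyMeasurable).1 ((𝓕 f).memLp 2 volume)
    exact this.congr (Filter.Eventually.of_forall fun s => h5 s)
  have i2 : Integrable (fun s => deriv g s ^ 2) := by
    have := (memLp_two_iff_integrable_sq_norm (𝓕 f1).continuous.aestronglyMeasurable).1 ((𝓕 f1).memLp 2 volume)
    exact this.congr (Filter.Eventually.of_forall fun s => h6 s)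
  have j1 : ∫ s, g s ^ 2 = ∫ x, ‖f x‖ ^ 2 := by
    rw [← SchwartzMap.integral_norm_sq_fourier f]
    exact integral_congr_ae (Filter.Eventually.of_forall fun s => (h5 s).symm)
  have j2 : ∫ s, deriv g s ^ 2 = ∫ x, ‖f1 x‖ ^ 2 := by
    rw [← SchwartzMap.integral_norm_sq_fourier f1]
    exact integral_congr_ae (Filter.Eventually.of_forall fun s => (h6 s).symm)
  have i3 : Integrable (fun x => ‖f x‖ ^ 2) :=
    (memLp_two_iff_integrable_sq_norm f.continuous.aestronglyMeasurable).1 (f.memLp 2 volume)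
  have i4 : Integrable (fun x => ‖f1 x‖ ^ 2) :=
    (memLp_two_iff_integrable_sq_norm f1.continuous.aestronglyMeasurable).1 (f1.memLp 2 volume)
  refine ⟨fun s => (h3 s).differentiableAt, ?_, i1, i2, ?_, ?_⟩
  · have e : deriv g = fun s => (𝓕 f1 s).re := by
      funext s
      exact (h3 s).deriv
    rw [e]
    exact Complex.continuous_re.comp (𝓕 f1).continuous
  · rw [j1, j2, ← integral_const_mul]
    refine integral_mono i4 (i3.const_mul _) fun x => ?_
    simp only
    rw [hf1, norm_mul, mul_pow]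
    have hn : ‖(-2 * Real.pi * Complex.I * x : ℂ)‖ = |-2 * Real.pi * x| := by
      rw [norm_mul, norm_mul, norm_mul, Complex.norm_I, Complex.norm_real, Complex.norm_real, norm_neg, Complex.norm_ofNat,
        abs_mul, abs_mul, abs_neg, abs_of_pos (show (0 : ℝ) < 2 by norm_num)]
      simp
    rw [hn]
    by_cases hx : 1 / 4 ≤ |-2 * Real.pi * x|
    · have : f x = 0 := by rw [hf, hs _ hx, mul_zero]
      rw [this]
      simp
    · push Not at hx
      have h7 : |-2 * Real.pi * x| ^ 2 ≤ 1 / 16 := by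
        have := abs_nonneg (-2 * Real.pi * x)
        nlinarith
      exact mul_le_mul_of_nonneg_right h7 (by positivity)
  · rw [j1]
    have e1 : (fun x : ℝ => ‖f x‖ ^ 2) = fun x : ℝ => (fun t : ℝ => (2 * Real.pi) ^ 2 * ‖q t‖ ^ 2) (-2 * Real.pi * x) := by
      funext x
      rw [hf, norm_mul, norm_mul, Complex.norm_real, Complex.norm_ofNat, Real.norm_eq_abs, abs_of_pos hpi]
      ring
    rw [e1, Measure.integral_comp_mul_left (fun t : ℝ => (2 * Real.pi) ^ 2 * ‖q t‖ ^ 2) (-2 * Real.pi), integral_const_mul,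
      show |(-2 * Real.pi)⁻¹| = (2 * Real.pi)⁻¹ by
        rw [abs_inv, abs_mul, abs_neg, abs_of_pos (show (0 : ℝ) < 2 by norm_num), abs_of_pos hpi], smul_eq_mul]
    field_simp

end Pool.Agent.Helper66.LW
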