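import Pool.Agent.Helper66.LW.Basic
import Pool.Agent.Helper96.LW.Max
import Pool.Agent.Helper11.LW.Sud

/-!
# P1, blocks S and H: lower bound for the maximum of Rademacher sums, with exponential concentration
(Sudakov half: Helper11/LW/Sud.lean; concentration half: Helper96/LW/Max.lean)
-/

set_option autoImplicit false

namespace Pool.Agent.Helper66.LW

open Finset Pool.Agent.Helper5.RM Pool.Agent.Helper96.AF

/-- blocks S + H together -/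
theorem maxlow : ∃ c1 : ℝ, 0 < c1 ∧ ∃ c2 : ℝ, 0 < c2 ∧ ∀ (S : Finset ℕ) (J : Finset ℕ) (a : ℕ → ℕ → ℝ) (D v : ℝ), 0 < D → 0 < v →
    16 ≤ J.card →
    (∀ i ∈ J, ∀ j ∈ J, i ≠ j → D ^ 2 ≤ ∑ p ∈ S, (a i p - a j p) ^ 2) →
    (∀ i ∈ J, ∑ p ∈ S, a i p ^ 2 ≤ v) →
    (∀ i ∈ J, ∀ p ∈ S, |a i p| * Real.sqrt (Real.log J.card) ≤ c1 * D) →
    pr S (fun T => ∀ i ∈ J, ∑ p ∈ S, sg T p * a i p ≤ c1 * D * Real.sqrt (Real.log J.card)) ≤
      2 * Real.exp (-(c2 * D * Real.sqrt (Real.log J.card) / Real.sqrt v)) :=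
  Pool.Agent.Helper96.LWM.maxlow_of_sud sudakov

end Pool.Agent.Helper66.LW
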