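import Pool.Agent.Helper66.LW.K0
import Pool.Agent.Helper66.LW.L1
import Pool.Agent.Helper66.LW.L2
import Pool.Agent.Helper66.LW.L3
import Pool.Agent.Helper66.LW.L4
import Pool.Agent.Helper66.LW.Z
import Pool.Agent.Helper66.LW.SH

/-!
# Project LW (P1 on MP_a499ba_nt), block X: one scale
-/

set_option autoImplicit false

namespace Pool.Agent.Helper66.LW

open Finset MeasureTheory Pool.Agent.Helper5.RM Pool.Agent.Helper96.AF Pool.Agent.Helper96.AG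

private theorem ev_rpow_small (a c : ℝ) (ha : a < 0) (hc : 0 < c) : ∃ r0 : ℕ, ∀ r : ℕ, r0 ≤ r → (r : ℝ) ^ a ≤ c := by
  have h := (tendsto_rpow_neg_atTop (show 0 < -a by linarith)).comp tendsto_natCast_atTop_atTop
  have h2 := h.eventually_le_const hc
  obtain ⟨r0, h0⟩ := Filter.eventually_atTop.1 h2
  refine ⟨r0, fun r hr => ?_⟩
  have := h0 r hr
  simpa using this

private theorem ev_log_small (a c : ℝ) (ha : 0 < a) (hc : 0 < c) : ∃ r0 : ℕ, ∀ r : ℕ, r0 ≤ r → Real.log r ≤ c * (r : ℝ) ^ a := by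
  have h := (isLittleO_log_rpow_atTop ha).tendsto_div_nhds_zero.comp tendsto_natCast_atTop_atTop
  have h2 := h.eventually_le_const hc
  obtain ⟨r0, h0⟩ := Filter.eventually_atTop.1 h2
  refine ⟨max r0 1, fun r hr => ?_⟩
  have h3 := h0 r ((le_max_left _ _).trans hr)
  have hr1 : (0 : ℝ) < r := by exact_mod_cast (show 0 < r from lt_of_lt_of_le one_pos ((le_max_right _ _).trans hr))
  simp only [Function.comp_apply] at h3
  rwa [div_le_iff₀ (Real.rpow_pos_of_pos hr1 _)] at h3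

private theorem ev_exp (c : ℝ) (hc : 0 < c) : ∃ r0 : ℕ, ∀ r : ℕ, r0 ≤ r → 2 * Real.exp (-(c * (r : ℝ) ^ (1 / 4 : ℝ))) ≤ 1 / (r : ℝ) ^ 2 := by
  obtain ⟨r1, h1⟩ := ev_log_small (1 / 4) (c / 3) (by norm_num) (by positivity)
  refine ⟨max r1 2, fun r hr => ?_⟩
  have h2 := h1 r ((le_max_left _ _).trans hr)
  have hr2 : (2 : ℝ) ≤ r := by exact_mod_cast (le_max_right _ _).trans hr
  have hr0 : (0 : ℝ) < r := by linarith
  have h3 : Real.exp (-(c * (r : ℝ) ^ (1 / 4 : ℝ))) ≤ Real.exp (-(3 * Real.log r)) := by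
    apply Real.exp_le_exp.2
    linarith
  have h4 : Real.exp (-(3 * Real.log r)) = 1 / (r : ℝ) ^ 3 := by
    rw [Real.exp_neg, show (3 : ℝ) * Real.log r = ((3 : ℕ) : ℝ) * Real.log r by norm_num, ← Real.log_pow, Real.exp_log (by positivity), one_div]
  rw [h4] at h3
  calc 2 * Real.exp (-(c * (r : ℝ) ^ (1 / 4 : ℝ))) ≤ 2 * (1 / (r : ℝ) ^ 3) := by linarith
    _ = 2 / r * (1 / (r : ℝ) ^ 2) := by field_simp
    _ ≤ 1 * (1 / (r : ℝ) ^ 2) := by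
        apply mul_le_mul_of_nonneg_right _ (by positivity)
        rw [div_le_one hr0]
        exact hr2
    _ = 1 / (r : ℝ) ^ 2 := one_mul _

private theorem ev_card : ∃ r0 : ℕ, ∀ r : ℕ, r0 ≤ r → ∀ n : ℕ, 2 ^ (r / 8) ≤ 2 * n → 16 ≤ n ∧ (r : ℝ) / 16 ≤ Real.log n := by
  refine ⟨200, fun r hr n hn => ?_⟩
  have h1 : 5 ≤ r / 8 := by omega
  have h2 : 2 ^ (r / 8 - 1) ≤ n := by
    have h3 : 2 ^ (r / 8) = 2 * 2 ^ (r / 8 - 1) := by
      rw [← pow_succ', Nat.sub_add_cancel (by omega)]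
    omega
  constructor
  · calc 16 = 2 ^ 4 := by norm_num
      _ ≤ 2 ^ (r / 8 - 1) := Nat.pow_le_pow_right (by norm_num) (by omega)
      _ ≤ n := h2
  · have h4 : ((2 ^ (r / 8 - 1) : ℕ) : ℝ) ≤ n := by exact_mod_cast h2
    have h5 : Real.log ((2 ^ (r / 8 - 1) : ℕ) : ℝ) ≤ Real.log n := Real.log_le_log (by positivity) h4
    rw [Nat.cast_pow, Real.log_pow] at h5
    refine le_trans ?_ h5
    have h6 := Real.log_two_gt_d9
    have h7 : (r : ℝ) / 8 - 2 ≤ ((r / 8 - 1 : ℕ) : ℝ) := by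
      have h8 : r < 8 * (r / 8) + 8 := by omega
      have h9 : ((r / 8 - 1 : ℕ) : ℝ) = ((r / 8 : ℕ) : ℝ) - 1 := by
        rw [Nat.cast_sub (by omega)]
        norm_num
      rw [h9]
      have h10 : (r : ℝ) < 8 * ((r / 8 : ℕ) : ℝ) + 8 := by exact_mod_cast h8
      linarith
    have h11 : (200 : ℝ) ≤ r := by exact_mod_cast hr
    have h12 : ((2 : ℕ) : ℝ) = 2 := by norm_num
    rw [h12]
    nlinarith

theorem one_scale (K : Ker) (δ : ℝ) (hδ : 0 < δ) (hδ2 : δ ≤ 1 / 16) : ∃ r0 : ℕ, ∀ r : ℕ, r0 ≤ r →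
    ∀ (h : ℕ → ℝ) (D : ℝ → ℂ), Adm r h D (2 ^ r * (r : ℝ) ^ (-(1 / 2) + δ)) →
    (∀ k : ℕ, 2 ^ (r / 4) ≤ k → k ≤ 2 ^ r →
      2 ^ r * (r : ℝ) ^ (-(1 / 2) - δ) ≤ ∫ t in (1 / 16 : ℝ)..(1 / 8), (1 - Real.cos (k * t)) * ‖D t‖ ^ 2) →
    pr (BL r) (fun T => ∀ n ∈ Finset.Icc (Y r) (Y (r + 1)), Fs r h (sg T) n ≤ (r : ℝ) ^ (1 / 4 - δ) * Real.sqrt n) ≤
      1 / (r : ℝ) ^ 2 := by
  obtain ⟨C1, hC1, r1, hsel⟩ := select K
  obtain ⟨C2, hC2, r2, hsq⟩ := a_sq K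
  obtain ⟨c3, hc3, C3, hC3, r3, hdist⟩ := dist_low K
  obtain ⟨r4, hsmall⟩ := a_small K
  obtain ⟨C5, hC5, r5, hZ⟩ := Z_up K
  obtain ⟨m1, hm1, m2, hm2, hmax⟩ := maxlow
  obtain ⟨r6, hinv⟩ := inv_sr_le
  obtain ⟨r7, hcard⟩ := ev_card
  obtain ⟨r8, hE1⟩ := ev_rpow_small (-5 + 2 * δ) (c3 / (4 * C3)) (by linarith) (by positivity)
  obtain ⟨r9, hE2⟩ := pow_le_Vr 1 (c3 / 4) (by positivity) 1 le_rfl
  obtain ⟨r10, hE6⟩ := ev_log_small (7 / 16) (1 / 80) (by norm_num) (by norm_num)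
  obtain ⟨r11, hE4⟩ := ev_rpow_small (-(δ / 2)) (m1 * (Real.sqrt c3 / 8) / (2 * (C5 + Real.sqrt C1))) (by linarith) (by positivity)
  obtain ⟨r12, hE3⟩ := pow_le_Vr 2 (m1 * (Real.sqrt c3 / 2)) (by positivity) 2 (by norm_num)
  obtain ⟨r13, hE5⟩ := ev_exp (m2 * (Real.sqrt c3 / 8) / Real.sqrt (2 * C2)) (by positivity)
  refine ⟨r1 + r2 + r3 + r4 + r5 + r6 + r7 + r8 + r9 + r10 + r11 + r12 + r13 + 4, fun r hr h D hA hm => ?_⟩
  have hr0 : 2 ≤ r := by omega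
  have hx : (1 : ℝ) ≤ r := by exact_mod_cast (show 1 ≤ r by omega)
  have hx0 : (0 : ℝ) < r := by linarith
  have hV := Vr_pos r
  have hV2 := le_Vr r
  have hV3 := Vr_le r
  have h2r : (0 : ℝ) < 2 ^ r := by positivity
  have hV1 : 1 ≤ Vr r := by
    have : (2 : ℝ) ^ 1 ≤ 2 ^ r := pow_le_pow_right₀ (by norm_num) (by omega)
    linarith
  set B : ℝ := 2 ^ r * (r : ℝ) ^ (-(1 / 2) + δ) with hB
  have hB0 : 0 < B := by positivity
  have hB4 : B ≤ 4 ^ r := by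
    have h1 : (r : ℝ) ^ (-(1 / 2) + δ) ≤ 1 := Real.rpow_le_one_of_one_le_of_nonpos hx (by linarith)
    have h2 : (1 : ℝ) ≤ 2 ^ r := one_le_pow₀ (by norm_num)
    calc B ≤ 2 ^ r * 2 ^ r := by rw [hB]; gcongr; linarith
      _ = 4 ^ r := by rw [← mul_pow]; norm_num
  obtain ⟨Δ, τ, hΔ, J, hJ, hJc, hJp⟩ := hsel r (by omega) h D B hA
  obtain ⟨hc16, hclog⟩ := hcard r (by omega) J.card hJc
  have hs := sr_pos hr0
  -- the parameters
  set d2 : ℝ := c3 / 4 * (r : ℝ) ^ (-(1 / 2) - δ) with hd2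
  have hd20 : 0 < d2 := by positivity
  set v : ℝ := C2 * B / Vr r with hv
  have hv0 : 0 < v := by positivity
  have hDs : Real.sqrt d2 ^ 2 = d2 := Real.sq_sqrt hd20.le
  have hD0 : 0 < Real.sqrt d2 := Real.sqrt_pos.2 hd20
  have hDval : Real.sqrt d2 = Real.sqrt c3 / 2 * (r : ℝ) ^ (-(1 / 4) - δ / 2) := by
    rw [hd2, Real.sqrt_mul (by positivity), Real.sqrt_div hc3.le, show (4 : ℝ) = 2 ^ 2 by norm_num, Real.sqrt_sq (by norm_num),
      Real.sqrt_eq_rpow ((r : ℝ) ^ _), ← Real.rpow_mul hx0.le]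
    congr 2
    ring
  have hα : ∀ i ∈ J, (0 : ℝ) ≤ ((τ + i * Δ : ℕ) : ℝ) ∧ ((τ + i * Δ : ℕ) : ℝ) ≤ 1 / sr r := fun i hi =>
    ⟨Nat.cast_nonneg _, (hJp i hi).1⟩
  have hlogN : Real.log J.card ≤ r := by
    have h1 : (J.card : ℝ) ≤ 2 ^ (r / 8) := by
      have := Finset.card_le_card hJ
      rw [Finset.card_range] at this
      exact_mod_cast this
    have h2 : (0 : ℝ) < J.card := by
      have : 0 < J.card := by omega
      exact_mod_cast this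
    calc Real.log J.card ≤ Real.log (2 ^ (r / 8)) := Real.log_le_log h2 h1
      _ = (r / 8 : ℕ) * Real.log 2 := Real.log_pow _ _
      _ ≤ r * 1 := by
          apply mul_le_mul
          · exact_mod_cast Nat.div_le_self r 8
          · linarith [Real.log_two_lt_d9]
          · exact Real.log_nonneg (by norm_num)
          · exact hx0.le
      _ = r := mul_one _
  -- separation
  have hsep : ∀ i ∈ J, ∀ j ∈ J, i ≠ j → Real.sqrt d2 ^ 2 ≤
      ∑ p ∈ BL r, (aC K r h (Ur r + (τ + i * Δ : ℕ)) p - aC K r h (Ur r + (τ + j * Δ : ℕ)) p) ^ 2 := by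
    intro i hi j hj hij
    rw [hDs]
    have h1 := hdist r (by omega) h D B hA hB4 _ _ (hα i hi).1 (hα i hi).2 (hα j hj).1 (hα j hj).2
    refine le_trans ?_ h1
    -- the integer k
    have hk : ∃ k : ℕ, 2 ^ (r / 4) ≤ k ∧ k ≤ 2 ^ r ∧ ∀ t : ℝ,
        Real.cos ((((τ + i * Δ : ℕ) : ℝ) - ((τ + j * Δ : ℕ) : ℝ)) * t) = Real.cos (k * t) := by
      have hup : ∀ i ∈ J, τ + i * Δ ≤ 2 ^ r := by
        intro i hi
        have h2 := (hα i hi).2
        have h3 := hinv r (by omega)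
        have h4 : ((τ + i * Δ : ℕ) : ℝ) ≤ ((2 ^ r : ℕ) : ℝ) := by
          push_cast at h2 ⊢
          linarith
        exact_mod_cast h4
      have hpow : 2 ^ (r / 4) ≤ 2 ^ (r / 2) := Nat.pow_le_pow_right (by norm_num) (by omega)
      rcases lt_or_gt_of_ne hij with hlt | hlt
      · refine ⟨(j - i) * Δ, ?_, ?_, fun t => ?_⟩
        · calc 2 ^ (r / 4) ≤ Δ := hpow.trans hΔ
            _ = 1 * Δ := (one_mul _).symm
            _ ≤ (j - i) * Δ := Nat.mul_le_mul_right _ (by omega)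
        · have := hup j hj
          have h5 : (j - i) * Δ ≤ j * Δ := Nat.mul_le_mul_right _ (by omega)
          omega
        · rw [← Real.cos_neg]
          congr 1
          rw [Nat.cast_mul, Nat.cast_sub hlt.le]
          push_cast
          ring
      · refine ⟨(i - j) * Δ, ?_, ?_, fun t => ?_⟩
        · calc 2 ^ (r / 4) ≤ Δ := hpow.trans hΔ
            _ = 1 * Δ := (one_mul _).symm
            _ ≤ (i - j) * Δ := Nat.mul_le_mul_right _ (by omega)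
        · have := hup i hi
          have h5 : (i - j) * Δ ≤ i * Δ := Nat.mul_le_mul_right _ (by omega)
          omega
        · congr 1
          rw [Nat.cast_mul, Nat.cast_sub hlt.le]
          push_cast
          ring
    obtain ⟨k, hk1, hk2, hk3⟩ := hk
    have h2 := hm k hk1 hk2
    simp only [hk3]
    have h3 : C3 * (r : ℝ) ^ (-5 : ℝ) * B ≤ c3 / 4 * (2 ^ r * (r : ℝ) ^ (-(1 / 2) - δ)) := by
      have h4 := hE1 r (by omega)
      have h5 : (r : ℝ) ^ (-5 : ℝ) * (r : ℝ) ^ (-(1 / 2) + δ) = (r : ℝ) ^ (-5 + 2 * δ) * (r : ℝ) ^ (-(1 / 2) - δ) := by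
        rw [← Real.rpow_add hx0, ← Real.rpow_add hx0]
        congr 1
        ring
      calc C3 * (r : ℝ) ^ (-5 : ℝ) * B = C3 * 2 ^ r * ((r : ℝ) ^ (-5 : ℝ) * (r : ℝ) ^ (-(1 / 2) + δ)) := by rw [hB]; ring
        _ = C3 * 2 ^ r * ((r : ℝ) ^ (-5 + 2 * δ) * (r : ℝ) ^ (-(1 / 2) - δ)) := by rw [h5]
        _ ≤ C3 * 2 ^ r * (c3 / (4 * C3) * (r : ℝ) ^ (-(1 / 2) - δ)) := by gcongr
        _ = c3 / 4 * (2 ^ r * (r : ℝ) ^ (-(1 / 2) - δ)) := by field_simp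
    have h4 : c3 * (2 ^ r * (r : ℝ) ^ (-(1 / 2) - δ)) - C3 * (r : ℝ) ^ (-5 : ℝ) * B ≤
        c3 * (∫ t in (1 / 16 : ℝ)..(1 / 8), (1 - Real.cos (k * t)) * ‖D t‖ ^ 2) - C3 * (r : ℝ) ^ (-5 : ℝ) * B := by
      have := mul_le_mul_of_nonneg_left h2 hc3.le
      linarith
    have h5 : 3 / 4 * c3 * (2 ^ r * (r : ℝ) ^ (-(1 / 2) - δ)) ≤
        c3 * (∫ t in (1 / 16 : ℝ)..(1 / 8), (1 - Real.cos (k * t)) * ‖D t‖ ^ 2) - C3 * (r : ℝ) ^ (-5 : ℝ) * B := by linarith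
    have h6 : 3 / 4 * c3 * (r : ℝ) ^ (-(1 / 2) - δ) ≤
        (c3 * (∫ t in (1 / 16 : ℝ)..(1 / 8), (1 - Real.cos (k * t)) * ‖D t‖ ^ 2) - C3 * (r : ℝ) ^ (-5 : ℝ) * B) / Vr r := by
      rw [le_div_iff₀ hV]
      refine le_trans ?_ h5
      calc 3 / 4 * c3 * (r : ℝ) ^ (-(1 / 2) - δ) * Vr r ≤ 3 / 4 * c3 * (r : ℝ) ^ (-(1 / 2) - δ) * 2 ^ r := by gcongr
        _ = 3 / 4 * c3 * (2 ^ r * (r : ℝ) ^ (-(1 / 2) - δ)) := by ring
    have h7 : 1 / Vr r ^ 2 ≤ c3 / 4 * (r : ℝ) ^ (-(1 / 2) - δ) := by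
      have h8 := hE2 r (by omega)
      rw [pow_one, pow_one] at h8
      have h9 : (r : ℝ) ^ (-1 : ℝ) ≤ (r : ℝ) ^ (-(1 / 2) - δ) := Real.rpow_le_rpow_of_exponent_le hx (by linarith)
      rw [Real.rpow_neg_one] at h9
      calc 1 / Vr r ^ 2 ≤ 1 / Vr r := one_div_le_one_div_of_le hV (by nlinarith)
        _ ≤ c3 / 4 * (r : ℝ)⁻¹ := by
            rw [div_le_iff₀ hV]
            field_simp
            linarith
        _ ≤ _ := by gcongr
    rw [hd2]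
    have h8 : 0 ≤ c3 * (r : ℝ) ^ (-(1 / 2) - δ) := by positivity
    linarith
  have hvar : ∀ i ∈ J, ∑ p ∈ BL r, aC K r h (Ur r + (τ + i * Δ : ℕ)) p ^ 2 ≤ v := fun i hi =>
    hsq r (by omega) h D B hA _ (hα i hi).1 (hα i hi).2
  have hsm : ∀ i ∈ J, ∀ p ∈ BL r, |aC K r h (Ur r + (τ + i * Δ : ℕ)) p| * Real.sqrt (Real.log J.card) ≤ m1 * Real.sqrt d2 := by
    intro i hi p hp
    have h1 := hsmall r (by omega) h hA.le_one _ (hα i hi).1 (hα i hi).2 p hp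
    have h2 : Real.sqrt (Real.log J.card) ≤ r := by
      calc Real.sqrt (Real.log J.card) ≤ Real.sqrt r := Real.sqrt_le_sqrt hlogN
        _ ≤ r := by
            rw [Real.sqrt_le_left hx0.le]
            nlinarith
    have h3 := hE3 r (by omega)
    have h9 : (r : ℝ) ^ (-1 : ℝ) ≤ (r : ℝ) ^ (-(1 / 4) - δ / 2) := Real.rpow_le_rpow_of_exponent_le hx (by linarith)
    rw [Real.rpow_neg_one] at h9
    rw [hDval]
    calc |aC K r h (Ur r + (τ + i * Δ : ℕ)) p| * Real.sqrt (Real.log J.card) ≤ 1 / Vr r ^ 2 * r :=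
          mul_le_mul h1 h2 (Real.sqrt_nonneg _) (by positivity)
      _ ≤ m1 * (Real.sqrt c3 / 2 * (r : ℝ)⁻¹) := by
          rw [div_mul_eq_mul_div, one_mul, div_le_iff₀ (by positivity)]
          have h11 : (r : ℝ) ^ 2 ≤ m1 * (Real.sqrt c3 / 2) * Vr r ^ 2 := h3
          calc (r : ℝ) = (r : ℝ) ^ 2 * (r : ℝ)⁻¹ := by field_simp
            _ ≤ m1 * (Real.sqrt c3 / 2) * Vr r ^ 2 * (r : ℝ)⁻¹ := by gcongr
            _ = _ := by ring
      _ ≤ _ := by gcongr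
  have hfin := hmax (BL r) J (fun i p => aC K r h (Ur r + (τ + i * Δ : ℕ)) p) (Real.sqrt d2) v hD0 hv0 hc16 hsep hvar hsm
  refine le_trans (pr_mono ?_) (hfin.trans ?_)
  · intro T hT hbad i hi
    have h1 := hZ r (by omega) h (sg T) ((r : ℝ) ^ (1 / 4 - δ)) (by positivity) hbad _ (hα i hi).1 (hα i hi).2
    have h2 := (hJp i hi).2
    have h3 : |RC K r h (Ur r + (τ + i * Δ : ℕ))| ≤ Real.sqrt C1 := by
      rw [← Real.sqrt_sq_eq_abs]
      apply Real.sqrt_le_sqrt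
      refine h2.trans ?_
      have h4 : sr r * B ≤ 1 := by
        have h5 := hE6 r (by omega)
        unfold sr
        rw [div_mul_eq_mul_div, div_le_one hV]
        have h6 : (r : ℝ) ^ (7 / 16 : ℝ) * (r : ℝ) ^ (-(1 / 2) + δ) ≤ 1 := by
          rw [← Real.rpow_add hx0]
          exact Real.rpow_le_one_of_one_le_of_nonpos hx (by linarith)
        have h7 : 0 ≤ (r : ℝ) ^ (-(1 / 2) + δ) := by positivity
        calc 40 * Real.log r * B = 40 * 2 ^ r * (Real.log r * (r : ℝ) ^ (-(1 / 2) + δ)) := by rw [hB]; ring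
          _ ≤ 40 * 2 ^ r * (1 / 80 * (r : ℝ) ^ (7 / 16 : ℝ) * (r : ℝ) ^ (-(1 / 2) + δ)) := by gcongr
          _ = 2 ^ r / 2 * ((r : ℝ) ^ (7 / 16 : ℝ) * (r : ℝ) ^ (-(1 / 2) + δ)) := by ring
          _ ≤ 2 ^ r / 2 * 1 := by gcongr
          _ ≤ Vr r := by linarith
      calc C1 * sr r * B = C1 * (sr r * B) := by ring
        _ ≤ C1 * 1 := by gcongr
        _ = C1 := mul_one _
    have h4 : -Real.sqrt C1 ≤ RC K r h (Ur r + (τ + i * Δ : ℕ)) := (abs_le.1 h3).1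
    have h5 : C5 * (r : ℝ) ^ (1 / 4 - δ) + Real.sqrt C1 ≤ m1 * Real.sqrt d2 * Real.sqrt (Real.log J.card) := by
      have h6 : Real.sqrt r / 4 ≤ Real.sqrt (Real.log J.card) := by
        have : Real.sqrt r / 4 = Real.sqrt (r / 16) := by
          rw [Real.sqrt_div hx0.le, show (16 : ℝ) = 4 ^ 2 by norm_num, Real.sqrt_sq (by norm_num)]
        rw [this]
        exact Real.sqrt_le_sqrt hclog
      have h7 : (r : ℝ) ^ (-(1 / 4) - δ / 2) * Real.sqrt r = (r : ℝ) ^ (1 / 4 - δ / 2) := by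
        rw [Real.sqrt_eq_rpow, ← Real.rpow_add hx0]
        congr 1
        ring
      have h8 : m1 * (Real.sqrt c3 / 8) * (r : ℝ) ^ (1 / 4 - δ / 2) ≤ m1 * Real.sqrt d2 * Real.sqrt (Real.log J.card) := by
        rw [← h7, hDval]
        calc m1 * (Real.sqrt c3 / 8) * ((r : ℝ) ^ (-(1 / 4) - δ / 2) * Real.sqrt r) =
              m1 * (Real.sqrt c3 / 2 * (r : ℝ) ^ (-(1 / 4) - δ / 2)) * (Real.sqrt r / 4) := by ring
          _ ≤ _ := by gcongr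
      refine le_trans ?_ h8
      have h9 := hE4 r (by omega)
      have h10 : (r : ℝ) ^ (1 / 4 - δ) = (r : ℝ) ^ (-(δ / 2)) * (r : ℝ) ^ (1 / 4 - δ / 2) := by
        rw [← Real.rpow_add hx0]
        congr 1
        ring
      have h11 : 1 ≤ (r : ℝ) ^ (1 / 4 - δ) := Real.one_le_rpow hx (by linarith)
      calc C5 * (r : ℝ) ^ (1 / 4 - δ) + Real.sqrt C1 ≤ (C5 + Real.sqrt C1) * (r : ℝ) ^ (1 / 4 - δ) := by
            have := mul_le_mul_of_nonneg_left h11 (Real.sqrt_nonneg C1)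
            nlinarith
        _ = (C5 + Real.sqrt C1) * (r : ℝ) ^ (-(δ / 2)) * (r : ℝ) ^ (1 / 4 - δ / 2) := by rw [h10]; ring
        _ ≤ (C5 + Real.sqrt C1) * (m1 * (Real.sqrt c3 / 8) / (2 * (C5 + Real.sqrt C1))) * (r : ℝ) ^ (1 / 4 - δ / 2) := by gcongr
        _ = m1 * (Real.sqrt c3 / 8) / 2 * (r : ℝ) ^ (1 / 4 - δ / 2) := by
            have : C5 + Real.sqrt C1 ≠ 0 := by positivity
            field_simp
        _ ≤ m1 * (Real.sqrt c3 / 8) * (r : ℝ) ^ (1 / 4 - δ / 2) := by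
            have : 0 ≤ m1 * (Real.sqrt c3 / 8) * (r : ℝ) ^ (1 / 4 - δ / 2) := by positivity
            linarith
    linarith
  · -- the exponent
    refine le_trans ?_ (hE5 r (by omega))
    apply mul_le_mul_of_nonneg_left _ (by norm_num)
    apply Real.exp_le_exp.2
    apply neg_le_neg
    have h6 : Real.sqrt r / 4 ≤ Real.sqrt (Real.log J.card) := by
      have : Real.sqrt r / 4 = Real.sqrt (r / 16) := by
        rw [Real.sqrt_div hx0.le, show (16 : ℝ) = 4 ^ 2 by norm_num, Real.sqrt_sq (by norm_num)]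
      rw [this]
      exact Real.sqrt_le_sqrt hclog
    have h7 : v ≤ 2 * C2 * (r : ℝ) ^ (-(1 / 2) + δ) := by
      rw [hv, div_le_iff₀ hV, hB]
      calc C2 * (2 ^ r * (r : ℝ) ^ (-(1 / 2) + δ)) = 2 * C2 * (r : ℝ) ^ (-(1 / 2) + δ) * (2 ^ r / 2) := by ring
        _ ≤ 2 * C2 * (r : ℝ) ^ (-(1 / 2) + δ) * Vr r := by gcongr
    have h8 : Real.sqrt v ≤ Real.sqrt (2 * C2) * (r : ℝ) ^ (-(1 / 4) + δ / 2) := by
      refine (Real.sqrt_le_sqrt h7).trans (le_of_eq ?_)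
      rw [Real.sqrt_mul (by positivity), Real.sqrt_eq_rpow ((r : ℝ) ^ _), ← Real.rpow_mul hx0.le]
      congr 2
      ring
    rw [le_div_iff₀ (Real.sqrt_pos.2 hv0), hDval]
    have h9 : (r : ℝ) ^ (1 / 4 : ℝ) * (r : ℝ) ^ (-(1 / 4) + δ / 2) ≤ (r : ℝ) ^ (-(1 / 4) - δ / 2) * Real.sqrt r := by
      rw [Real.sqrt_eq_rpow, ← Real.rpow_add hx0, ← Real.rpow_add hx0]
      exact Real.rpow_le_rpow_of_exponent_le hx (by linarith)
    have h10 : 0 < Real.sqrt (2 * C2) := Real.sqrt_pos.2 (by positivity)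
    calc m2 * (Real.sqrt c3 / 8) / Real.sqrt (2 * C2) * (r : ℝ) ^ (1 / 4 : ℝ) * Real.sqrt v
        ≤ m2 * (Real.sqrt c3 / 8) / Real.sqrt (2 * C2) * (r : ℝ) ^ (1 / 4 : ℝ) * (Real.sqrt (2 * C2) * (r : ℝ) ^ (-(1 / 4) + δ / 2)) := by gcongr
      _ = m2 * (Real.sqrt c3 / 8) * ((r : ℝ) ^ (1 / 4 : ℝ) * (r : ℝ) ^ (-(1 / 4) + δ / 2)) := by field_simp
      _ ≤ m2 * (Real.sqrt c3 / 8) * ((r : ℝ) ^ (-(1 / 4) - δ / 2) * Real.sqrt r) := by gcongr
      _ = m2 * (Real.sqrt c3 / 2 * (r : ℝ) ^ (-(1 / 4) - δ / 2)) * (Real.sqrt r / 4) := by ring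
      _ ≤ m2 * (Real.sqrt c3 / 2 * (r : ℝ) ^ (-(1 / 4) - δ / 2)) * Real.sqrt (Real.log J.card) := by gcongr

end Pool.Agent.Helper66.LW
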